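import Pool.Agent.SEPH.Defs

/-!
# SEP, row MEAS: measurability of the sets
-/

namespace Pool.Agent.SEP

open MeasureTheory Set Pool.Agent.MP_6cbfb8_an Polynomial
open scoped ENNReal Real

theorem mea_gd (f : ℝ[X]) (i : ℕ) : Measurable fun q : ℝ × ℝ => gd f q.2 i q.1 := by
  unfold gd
  refine Measurable.sub ?_ ?_
  · exact ((derivative^[i] f).continuous.measurable.comp measurable_fst)
  · by_cases hi : i = 2
    · simp only [hi, if_true]
      exact measurable_snd.const_mul 2
    · simp only [hi, if_false]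
      exact measurable_const

theorem mea_yc (f : ℝ[X]) : Measurable fun q : ℝ × ℝ => yc f q.1 q.2 := by
  unfold yc
  exact ((derivative f).continuous.measurable.comp measurable_fst).sub
    ((measurable_snd.const_mul 2).mul measurable_fst)

theorem mea_cls (D : ℕ) (A : ℝ) (k m : ℕ) (f : ℝ[X]) :
    MeasurableSet {q : ℝ × ℝ | Cls D A k m f q.1 q.2} := by
  have h : {q : ℝ × ℝ | Cls D A k m f q.1 q.2} =
      (⋂ i ∈ Finset.Icc 2 D, {q : ℝ × ℝ | |gd f q.2 i q.1| ≤ A * 2 ^ (k * i)}) ∩
      ({q : ℝ × ℝ | 1 ≤ k → ∃ i ∈ Finset.Icc 2 D, 2 ^ (k * i) ≤ A * |gd f q.2 i q.1|} ∩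
      ({q : ℝ × ℝ | |q.1| * 2 ^ m ≤ A} ∩ {q : ℝ × ℝ | m < k → 1 ≤ A * (|q.1| * 2 ^ m)})) := by
    ext q
    simp only [mem_ofPred_eq, mem_inter_iff, mem_iInter]
    constructor
    · rintro ⟨h1, h2, h3, h4⟩
      exact ⟨h1, h2, h3, h4⟩
    · rintro ⟨h1, h2, h3, h4⟩
      exact ⟨h1, h2, h3, h4⟩
  have hz : Measurable fun q : ℝ × ℝ => |q.1| * 2 ^ m := by
    exact (measurable_fst.abs).mul_const _
  rw [h]
  refine MeasurableSet.inter ?_ (MeasurableSet.inter ?_ (MeasurableSet.inter ?_ ?_))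
  · refine Finset.measurableSet_biInter _ fun i _ => ?_
    exact measurableSet_le (mea_gd f i).abs measurable_const
  · by_cases hk : 1 ≤ k
    · simp only [hk, true_imp_iff]
      have h2 : {q : ℝ × ℝ | ∃ i ∈ Finset.Icc 2 D, 2 ^ (k * i) ≤ A * |gd f q.2 i q.1|} =
          ⋃ i ∈ Finset.Icc 2 D, {q : ℝ × ℝ | 2 ^ (k * i) ≤ A * |gd f q.2 i q.1|} := by
        ext q
        simp only [mem_ofPred_eq, mem_iUnion, exists_prop]
      rw [h2]
      refine Finset.measurableSet_biUnion _ fun i _ => ?_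
      exact measurableSet_le measurable_const ((mea_gd f i).abs.const_mul A)
    · simp only [hk, false_imp_iff]
      exact MeasurableSet.univ
  · exact measurableSet_le hz measurable_const
  · by_cases hk : m < k
    · simp only [hk, true_imp_iff]
      exact measurableSet_le measurable_const (hz.const_mul A)
    · simp only [hk, false_imp_iff]
      exact MeasurableSet.univ

theorem mea_core (D : ℕ) (A : ℝ) (k : ℕ) (f : ℝ[X]) :
    MeasurableSet {z : ℝ | Core D A k f z} := by
  unfold Core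
  by_cases hk : k = 0
  · simp only [hk, true_or]
    exact MeasurableSet.univ
  · simp only [hk, false_or]
    have h2 : {z : ℝ | ∃ i ∈ Finset.Icc 3 D, 2 ^ (k * i) ≤ A * |(derivative^[i] f).eval z|} =
        ⋃ i ∈ Finset.Icc 3 D, {z : ℝ | 2 ^ (k * i) ≤ A * |(derivative^[i] f).eval z|} := by
      ext q
      simp only [mem_ofPred_eq, mem_iUnion, exists_prop]
    rw [h2]
    refine Finset.measurableSet_biUnion _ fun i _ => ?_
    exact measurableSet_le measurable_const
      (((derivative^[i] f).continuous.measurable.abs).const_mul A)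

open Classical in
theorem mea_lab1 (D : ℕ) (A : ℝ) (k : ℕ) (f : ℝ[X]) :
    Measurable fun q : ℝ × ℝ => lab1 D A k f q.1 q.2 := by
  have hcore : MeasurableSet {q : ℝ × ℝ | Core D A k f q.1} :=
    (mea_core D A k f).preimage measurable_fst
  unfold lab1
  refine Measurable.prodMk ?_ (Measurable.prodMk ?_ (Measurable.prodMk ?_
    (Measurable.prodMk ?_ ?_)))
  · exact Measurable.ite hcore (Int.measurable_floor.comp (measurable_fst.const_mul _))
      measurable_const
  · simp only [Finset.card_filter]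
    refine Finset.measurable_sum _ fun r _ => ?_
    exact Measurable.ite (measurableSet_lt measurable_const measurable_fst) measurable_const
      measurable_const
  · refine measurable_to_bool ?_
    have : (fun q : ℝ × ℝ => decide (0 < q.1)) ⁻¹' {true} = {q : ℝ × ℝ | 0 < q.1} := by
      ext q
      simp
    rw [this]
    exact measurableSet_lt measurable_const measurable_fst
  · refine measurable_to_bool ?_
    have : (fun q : ℝ × ℝ => decide (0 < (derivative^[2] f).eval q.1 - 2 * q.2)) ⁻¹' {true} =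
        {q : ℝ × ℝ | 0 < (derivative^[2] f).eval q.1 - 2 * q.2} := by
      ext q
      simp
    rw [this]
    exact measurableSet_lt measurable_const
      (((derivative^[2] f).continuous.measurable.comp measurable_fst).sub
        (measurable_snd.const_mul 2))
  · refine measurable_to_bool ?_
    have : (fun q : ℝ × ℝ => decide (Core D A k f q.1)) ⁻¹' {true} =
        {q : ℝ × ℝ | Core D A k f q.1} := by
      ext q
      simp
    rw [this]
    exact hcore

theorem mea_coord {n : ℕ} (j : Fin n) :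
    Measurable fun p : (Fin n → ℝ) × ℝ => (p.1 j, p.2) :=
  ((measurable_pi_apply j).comp measurable_fst).prodMk measurable_snd

theorem mea_shell {n : ℕ} : Measurable fun p : (Fin n → ℝ) × ℝ => |∑ j, p.1 j ^ 2 - 1| := by
  refine Measurable.abs (Measurable.sub_const ?_ 1)
  refine Finset.measurable_sum _ fun j _ => ?_
  exact ((measurable_pi_apply j).comp measurable_fst).pow_const 2

theorem mea_clsAll {n : ℕ} (D : ℕ) (A : ℝ) (k m : Fin n → ℕ) (f : Fin n → ℝ[X]) :
    MeasurableSet {p : (Fin n → ℝ) × ℝ | ∀ j, Cls D A (k j) (m j) (f j) (p.1 j) p.2} := by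
  rw [ofPred_forall]
  exact MeasurableSet.iInter fun j => (mea_cls D A (k j) (m j) (f j)).preimage (mea_coord j)

/-- ROW MEAS. Measurability: `Zf` is measurable. -/
theorem meas_Zf {n : ℕ} (D : ℕ) (A : ℝ) (k m : Fin n → ℕ) (f : Fin n → ℝ[X]) (σ : Finset (Fin n))
    (Λ : ℝ) : MeasurableSet (Zf D A k m f σ Λ) := by
  have h : Zf D A k m f σ Λ = {p : (Fin n → ℝ) × ℝ | ∀ j, Cls D A (k j) (m j) (f j) (p.1 j) p.2} ∩
      ((⋂ j, {p : (Fin n → ℝ) × ℝ | Core D A (k j) (f j) (p.1 j) ↔ j ∈ σ}) ∩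
        {p : (Fin n → ℝ) × ℝ | |∑ j, p.1 j ^ 2 - 1| ≤ Λ * om k m}) := by
    ext p
    simp only [Zf, mem_ofPred_eq, mem_inter_iff, mem_iInter]
  rw [h]
  refine (mea_clsAll D A k m f).inter (MeasurableSet.inter ?_ ?_)
  · refine MeasurableSet.iInter fun j => ?_
    have hc : MeasurableSet {p : (Fin n → ℝ) × ℝ | Core D A (k j) (f j) (p.1 j)} :=
      (mea_core D A (k j) (f j)).preimage ((measurable_pi_apply j).comp measurable_fst)
    by_cases hj : j ∈ σ
    · simpa only [hj, iff_true] using hc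
    · simp only [hj, iff_false]
      exact hc.compl
  · exact measurableSet_le mea_shell measurable_const

/-- ROW MEAS. Measurability: jointly in `(Y, p)`. -/
theorem meas_Zs {n : ℕ} (D : ℕ) (A : ℝ) (k m : Fin n → ℕ) (f : Fin n → ℝ[X]) (σ : Finset (Fin n))
    (Λ : ℝ) : MeasurableSet {q : (Fin n → ℝ) × ((Fin n → ℝ) × ℝ) | q.2 ∈ Zs D A k m f σ Λ q.1} := by
  have h : {q : (Fin n → ℝ) × ((Fin n → ℝ) × ℝ) | q.2 ∈ Zs D A k m f σ Λ q.1} =
      {q : (Fin n → ℝ) × ((Fin n → ℝ) × ℝ) | q.2 ∈ Zf D A k m f σ Λ} ∩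
        ⋂ j, {q : (Fin n → ℝ) × ((Fin n → ℝ) × ℝ) |
          |yc (f j) (q.2.1 j) q.2.2 - q.1 j| ≤ Λ * 2 ^ k j} := by
    ext q
    simp only [Zs, mem_ofPred_eq, mem_inter_iff, mem_iInter]
  rw [h]
  refine ((meas_Zf D A k m f σ Λ).preimage measurable_snd).inter (MeasurableSet.iInter fun j => ?_)
  refine measurableSet_le (Measurable.abs (Measurable.sub ?_ ?_)) measurable_const
  · exact (mea_yc (f j)).comp ((mea_coord j).comp measurable_snd)
  · exact (measurable_pi_apply j).comp measurable_fst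

theorem mea_lab {n : ℕ} (D : ℕ) (A : ℝ) (k : Fin n → ℕ) (f : Fin n → ℝ[X]) (j : Fin n) :
    Measurable fun p : (Fin n → ℝ) × ℝ => lab D A k f p j :=
  (mea_lab1 D A (k j) (f j)).comp (mea_coord j)

/-- ROW MEAS. The label is measurable (countable discrete target). -/
theorem meas_lab {n : ℕ} (D : ℕ) (A : ℝ) (k : Fin n → ℕ) (f : Fin n → ℝ[X])
    (l : Fin n → ℤ × ℕ × Bool × Bool × Bool) : MeasurableSet {p | lab D A k f p = l} := by
  have h : {p | lab D A k f p = l} = ⋂ j, {p | lab D A k f p j = l j} := by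
    ext p
    simp only [mem_ofPred_eq, mem_iInter, funext_iff]
  rw [h]
  exact MeasurableSet.iInter fun j => mea_lab D A k f j (measurableSet_singleton (l j))

/-- ROW MEAS. The set of pairs is measurable. -/
theorem meas_Pr {n : ℕ} (D : ℕ) (A : ℝ) (k m : Fin n → ℕ) (f : Fin n → ℝ[X]) (σ : Finset (Fin n))
    (Λ : ℝ) : MeasurableSet (Pr D A k m f σ Λ) := by
  have h : Pr D A k m f σ Λ = (Prod.fst ⁻¹' Zf D A k m f σ Λ) ∩ ((Prod.snd ⁻¹' Zf D A k m f σ Λ) ∩
      ((⋂ j, {q : ((Fin n → ℝ) × ℝ) × ((Fin n → ℝ) × ℝ) |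
        lab D A k f q.1 j = lab D A k f q.2 j}) ∩
      ⋂ j, {q : ((Fin n → ℝ) × ℝ) × ((Fin n → ℝ) × ℝ) |
        |yc (f j) (q.1.1 j) q.1.2 - yc (f j) (q.2.1 j) q.2.2| ≤ 2 * Λ * 2 ^ k j})) := by
    ext q
    simp only [Pr, mem_ofPred_eq, mem_inter_iff, mem_iInter, mem_preimage, funext_iff]
  rw [h]
  refine ((meas_Zf D A k m f σ Λ).preimage measurable_fst).inter
    (((meas_Zf D A k m f σ Λ).preimage measurable_snd).inter (MeasurableSet.inter ?_ ?_))
  · refine MeasurableSet.iInter fun j => ?_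
    have h1 : {q : ((Fin n → ℝ) × ℝ) × ((Fin n → ℝ) × ℝ) |
        lab D A k f q.1 j = lab D A k f q.2 j} = ⋃ l : ℤ × ℕ × Bool × Bool × Bool,
        (fun q : ((Fin n → ℝ) × ℝ) × ((Fin n → ℝ) × ℝ) => lab D A k f q.1 j) ⁻¹' {l} ∩
        (fun q : ((Fin n → ℝ) × ℝ) × ((Fin n → ℝ) × ℝ) => lab D A k f q.2 j) ⁻¹' {l} := by
      ext q
      simp only [mem_ofPred_eq, mem_iUnion, mem_inter_iff, mem_preimage, mem_singleton_iff]
      exact ⟨fun h => ⟨_, h, rfl⟩, fun ⟨l, h2, h3⟩ => h2.trans h3.symm⟩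
    rw [h1]
    exact MeasurableSet.iUnion fun l =>
      (((mea_lab D A k f j).comp measurable_fst) (measurableSet_singleton l)).inter
        (((mea_lab D A k f j).comp measurable_snd) (measurableSet_singleton l))
  · refine MeasurableSet.iInter fun j => ?_
    refine measurableSet_le (Measurable.abs (Measurable.sub ?_ ?_)) measurable_const
    · exact (mea_yc (f j)).comp ((mea_coord j).comp measurable_fst)
    · exact (mea_yc (f j)).comp ((mea_coord j).comp measurable_snd)

/-- ROW MW. Measurability of the weight. -/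
theorem meas_Wt {n : ℕ} (N D : ℕ) (A : ℝ) (k m : Fin n → ℕ) (f : Fin n → ℝ[X]) :
    Measurable fun q : (Fin n → ℝ) × ((Fin n → ℝ) × ℝ) => Wt N D A k m f q.1 q.2 := by
  unfold Wt
  refine Measurable.ite ((mea_clsAll D A k m f).preimage measurable_snd) ?_ measurable_const
  refine Measurable.ennreal_ofReal (Measurable.mul ?_ (Measurable.pow_const ?_ N))
  · refine Finset.measurable_prod _ fun j _ => ?_
    refine Measurable.pow_const (Measurable.const_div (Measurable.const_add (Measurable.div_const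
      (Measurable.abs (Measurable.sub ?_ ?_)) _) _) _) N
    · exact (mea_yc (f j)).comp ((mea_coord j).comp measurable_snd)
    · exact (measurable_pi_apply j).comp measurable_fst
  · exact Measurable.const_div (Measurable.const_add (Measurable.div_const
      (mea_shell.comp measurable_snd) _) _) _

end Pool.Agent.SEP
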