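import Mathlib
import Pool.Agent.MP_6cbfb8_an.Defs

/-!
Notation for the restriction theorem for separable polynomial phases in all dimensions.
-/

namespace Pool.Agent.SEP

open MeasureTheory Set Pool.Agent.MP_6cbfb8_an Polynomial
open scoped ENNReal Real

/-- A smooth bump: `1` on `[-1,1]` and `0` off `(-2,2)`. -/
noncomputable def bump : ContDiffBump (0 : ℝ) := ⟨1, 2, one_pos, one_lt_two⟩

/-- The function of `bump`. -/
noncomputable def B (x : ℝ) : ℝ := bump x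

/-- A smooth bump supported in `[-1,1]`. -/
noncomputable def bump1 : ContDiffBump (0 : ℝ) := ⟨1 / 2, 1, by norm_num, by norm_num⟩

/-- The bump `bump1` normalised to have integral `1`. -/
noncomputable def phi (x : ℝ) : ℝ := bump1.normed volume x

/-- The Fourier transform of `phi`. -/
noncomputable def phat (u : ℝ) : ℂ := ∫ x : ℝ, (phi x : ℂ) * Complex.exp (((u * x : ℝ) : ℂ) * Complex.I)

/-- The one-dimensional oscillatory integral. -/
noncomputable def I1 (f : ℝ[X]) (t y : ℝ) : ℂ :=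
  ∫ x : ℝ, (B x : ℂ) * Complex.exp (((f.eval x - t * x ^ 2 - y * x : ℝ) : ℂ) * Complex.I)

/-- The Fourier transform of the phase on the sphere, up to constants. -/
noncomputable def FF {n : ℕ} (f : Fin n → ℝ[X]) (y : Fin n → ℝ) : ℂ :=
  ∫ t : ℝ, Complex.exp ((t : ℂ) * Complex.I) * ∏ j, I1 (f j) t (y j)

/-- `FF` with a cutoff in time. -/
noncomputable def FT {n : ℕ} (T : ℝ) (f : Fin n → ℝ[X]) (y : Fin n → ℝ) : ℂ :=
  ∫ t : ℝ, Complex.exp ((t : ℂ) * Complex.I) * (B (t / T) : ℂ) * ∏ j, I1 (f j) t (y j)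

/-- The `i`-th derivative of `f - t x^2` for `i ≥ 2`. -/
noncomputable def gd (f : ℝ[X]) (t : ℝ) (i : ℕ) (x : ℝ) : ℝ :=
  (derivative^[i] f).eval x - if i = 2 then 2 * t else 0

/-- The derivative of `f - t x^2`. -/
noncomputable def yc (f : ℝ[X]) (x t : ℝ) : ℝ := (derivative f).eval x - 2 * t * x

/-- The size function of the derivatives of order at least `2`. -/
noncomputable def Sk (D k : ℕ) (f : ℝ[X]) (x t : ℝ) : ℝ :=
  ∑ i ∈ Finset.Icc 2 D, (gd f t i x / 2 ^ (k * i)) ^ 2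

/-- The partition of unity according to the size of the derivatives. -/
noncomputable def theta (D k : ℕ) (f : ℝ[X]) (x t : ℝ) : ℝ :=
  B (Sk D (k + 1) f x t / 2) - if k = 0 then 0 else B (Sk D k f x t / 2)

/-- The partition of unity according to the size of `x`. -/
noncomputable def beta (k m : ℕ) (x : ℝ) : ℝ :=
  B (2 ^ m * x) - if m < k then B (2 ^ (m + 1) * x) else 0

/-- One piece of the one-dimensional integral. -/
noncomputable def I1c (D k m : ℕ) (f : ℝ[X]) (t y : ℝ) : ℂ :=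
  ∫ x : ℝ, ((theta D k f x t * beta k m x : ℝ) : ℂ) *
    Complex.exp (((f.eval x - t * x ^ 2 - y * x : ℝ) : ℂ) * Complex.I)

/-- One piece of `FT`. -/
noncomputable def Fc {n : ℕ} (D : ℕ) (T : ℝ) (k m : Fin n → ℕ) (f : Fin n → ℝ[X])
    (y : Fin n → ℝ) : ℂ :=
  ∫ t : ℝ, Complex.exp ((t : ℂ) * Complex.I) * (B (t / T) : ℂ) *
    ∏ j, I1c D (k j) (m j) (f j) t (y j)

/-- The class of a point of the `(x, t)`-plane. -/
structure Cls (D : ℕ) (A : ℝ) (k m : ℕ) (f : ℝ[X]) (z w : ℝ) : Prop where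
  up : ∀ i ∈ Finset.Icc 2 D, |gd f w i z| ≤ A * 2 ^ (k * i)
  lo : 1 ≤ k → ∃ i ∈ Finset.Icc 2 D, 2 ^ (k * i) ≤ A * |gd f w i z|
  zup : |z| * 2 ^ m ≤ A
  zlo : m < k → 1 ≤ A * (|z| * 2 ^ m)

/-- `κ` is a good packet constant and `A` is a good constant for the classes. -/
def Good (D : ℕ) (κ A : ℝ) : Prop :=
  0 < κ ∧ κ ≤ 1 ∧ 1 ≤ A ∧ ∀ (k m : ℕ) (f : ℝ[X]) (x t z w : ℝ), m ≤ k → f.natDegree ≤ D →
    theta D k f x t * beta k m x ≠ 0 → |x - z| ≤ κ / 2 ^ k → |t - w| ≤ κ * 4 ^ k →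
      Cls D A k m f z w

/-- The frequency tolerance in time. -/
noncomputable def om {n : ℕ} (k m : Fin n → ℕ) : ℝ := ∑ j, 1 / 2 ^ (m j + k j)

/-- The one-dimensional localised integral. -/
noncomputable def pk1 (κ : ℝ) (D k m : ℕ) (f : ℝ[X]) (Y ζ t : ℝ) : ℂ :=
  ∫ x : ℝ, ((theta D k f x t * beta k m x * (2 ^ k / κ * phi ((ζ - x) * (2 ^ k / κ))) : ℝ) : ℂ) *
    Complex.exp (((f.eval x - t * x ^ 2 + Y * (ζ - x) : ℝ) : ℂ) * Complex.I)

/-- The Fourier transform of `Fc` times a bump around `Y`. -/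
noncomputable def KY {n : ℕ} (κ : ℝ) (D : ℕ) (T : ℝ) (k m : Fin n → ℕ) (f : Fin n → ℝ[X])
    (Y ζ : Fin n → ℝ) : ℂ :=
  ∫ t : ℝ, Complex.exp ((t : ℂ) * Complex.I) * (B (t / T) : ℂ) *
    ∏ j, pk1 κ D (k j) (m j) (f j) (Y j) (ζ j) t

/-- The part of `KY` with time close to `w`. -/
noncomputable def kw {n : ℕ} (κ τ : ℝ) (D : ℕ) (T : ℝ) (k m : Fin n → ℕ) (f : Fin n → ℝ[X])
    (Y ζ : Fin n → ℝ) (w : ℝ) : ℂ :=
  ∫ t : ℝ, Complex.exp ((t : ℂ) * Complex.I) * ((B (t / T) * (1 / τ * phi ((t - w) / τ)) : ℝ) : ℂ) *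
    ∏ j, pk1 κ D (k j) (m j) (f j) (Y j) (ζ j) t

open Classical in
/-- The weight of a packet at the point `p = (ζ, w)`. -/
noncomputable def Wt {n : ℕ} (N : ℕ) (D : ℕ) (A : ℝ) (k m : Fin n → ℕ) (f : Fin n → ℝ[X])
    (Y : Fin n → ℝ) (p : (Fin n → ℝ) × ℝ) : ℝ≥0∞ :=
  if ∀ j, Cls D A (k j) (m j) (f j) (p.1 j) p.2 then
    ENNReal.ofReal ((∏ j, (1 / (1 + |yc (f j) (p.1 j) p.2 - Y j| / 2 ^ k j)) ^ N) *
      (1 / (1 + |∑ j, p.1 j ^ 2 - 1| / om k m)) ^ N)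
  else 0

/-- The coordinate is of core type at `z`. -/
def Core (D : ℕ) (A : ℝ) (k : ℕ) (f : ℝ[X]) (z : ℝ) : Prop :=
  k = 0 ∨ ∃ i ∈ Finset.Icc 3 D, 2 ^ (k * i) ≤ A * |(derivative^[i] f).eval z|

open Classical in
/-- The label of a point: the cell of `z` (core type only), the number of zeros of the third
derivative to the left of `z`, the signs of `z` and of the second derivative, the type. -/
noncomputable def lab1 (D : ℕ) (A : ℝ) (k : ℕ) (f : ℝ[X]) (z w : ℝ) :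
    ℤ × ℕ × Bool × Bool × Bool :=
  (if Core D A k f z then ⌊2 ^ k * z⌋ else 0,
    ((derivative^[3] f).roots.toFinset.filter (· < z)).card,
    decide (0 < z), decide (0 < (derivative^[2] f).eval z - 2 * w), decide (Core D A k f z))

/-- The class-shell set with the set `σ` of core coordinates and tolerance `Λ`. -/
def Zf {n : ℕ} (D : ℕ) (A : ℝ) (k m : Fin n → ℕ) (f : Fin n → ℝ[X]) (σ : Finset (Fin n))
    (Λ : ℝ) : Set ((Fin n → ℝ) × ℝ) :=
  {p | (∀ j, Cls D A (k j) (m j) (f j) (p.1 j) p.2) ∧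
    (∀ j, Core D A (k j) (f j) (p.1 j) ↔ j ∈ σ) ∧ |∑ j, p.1 j ^ 2 - 1| ≤ Λ * om k m}

/-- The part of `Zf` whose packets pass close to `Y`. -/
def Zs {n : ℕ} (D : ℕ) (A : ℝ) (k m : Fin n → ℕ) (f : Fin n → ℝ[X]) (σ : Finset (Fin n))
    (Λ : ℝ) (Y : Fin n → ℝ) : Set ((Fin n → ℝ) × ℝ) :=
  {p | p ∈ Zf D A k m f σ Λ ∧ ∀ j, |yc (f j) (p.1 j) p.2 - Y j| ≤ Λ * 2 ^ k j}

/-- The label of a point in several dimensions. -/
noncomputable def lab {n : ℕ} (D : ℕ) (A : ℝ) (k : Fin n → ℕ) (f : Fin n → ℝ[X])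
    (p : (Fin n → ℝ) × ℝ) (j : Fin n) : ℤ × ℕ × Bool × Bool × Bool :=
  lab1 D A (k j) (f j) (p.1 j) p.2

/-- The set of pairs. -/
def Pr {n : ℕ} (D : ℕ) (A : ℝ) (k m : Fin n → ℕ) (f : Fin n → ℝ[X]) (σ : Finset (Fin n))
    (Λ : ℝ) : Set (((Fin n → ℝ) × ℝ) × ((Fin n → ℝ) × ℝ)) :=
  {q | q.1 ∈ Zf D A k m f σ Λ ∧ q.2 ∈ Zf D A k m f σ Λ ∧
    lab D A k f q.1 = lab D A k f q.2 ∧
    ∀ j, |yc (f j) (q.1.1 j) q.1.2 - yc (f j) (q.2.1 j) q.2.2| ≤ 2 * Λ * 2 ^ k j}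

/-- The bound for the relative time given by the coordinate `j`; `J` is the coordinate with the
smallest `k`. -/
noncomputable def tj {n : ℕ} (θ : ℝ) (k m : Fin n → ℕ) (σ : Finset (Fin n)) (J j : Fin n) : ℝ :=
  if j ∈ σ then 2 ^ (m j + k j)
  else 4 ^ k J * (om k m * 4 ^ m j * 16 ^ k j / 16 ^ k J) ^ θ

/-- The best of the bounds. -/
noncomputable def Tb {n : ℕ} (θ : ℝ) (k m : Fin n → ℕ) (σ : Finset (Fin n)) (J : Fin n) : ℝ :=
  min (4 ^ k J) (⨅ j, tj θ k m σ J j)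

end Pool.Agent.SEP
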