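import Pool.Agent.SEPH.PAIRS

/-!
# Row GEO: Hölder between the first and the second moment.
-/

namespace Pool.Agent.SEP

open MeasureTheory Set Pool.Agent.MP_6cbfb8_an Polynomial
open scoped ENNReal Real

/-- Hölder: `∫ g^{1+a} ≤ (∫ g)^{1-a} (∫ g²)^a`. -/
theorem geo_holder {α : Type*} [MeasurableSpace α] (μ : Measure α) (g : α → ℝ≥0∞)
    (hg : AEMeasurable g μ) (a : ℝ) (ha : 0 < a) (ha1 : a < 1) :
    ∫⁻ y, g y ^ (1 + a) ∂μ ≤ (∫⁻ y, g y ∂μ) ^ (1 - a) * (∫⁻ y, g y ^ (2 : ℝ) ∂μ) ^ a := by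
  have hpq : (1 / (1 - a)).HolderConjugate (1 / a) := by
    rw [Real.holderConjugate_iff]
    constructor
    · rw [lt_div_iff₀ (by linarith)]; linarith
    · simp
  have h1 := ENNReal.lintegral_mul_le_Lp_mul_Lq μ hpq (hg.pow_const (1 - a))
    ((hg.pow_const (2 : ℝ)).pow_const a)
  have e0 : ∀ y, ((fun y => g y ^ (1 - a)) * fun y => (g y ^ (2 : ℝ)) ^ a) y = g y ^ (1 + a) := by
    intro y
    show g y ^ (1 - a) * (g y ^ (2 : ℝ)) ^ a = g y ^ (1 + a)
    rw [← ENNReal.rpow_mul, ← ENNReal.rpow_add_of_nonneg _ _ (by linarith) (by positivity)]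
    congr 1
    ring
  have e1 : ∀ y, (g y ^ (1 - a)) ^ (1 / (1 - a)) = g y := by
    intro y
    rw [← ENNReal.rpow_mul, mul_one_div_cancel (by linarith), ENNReal.rpow_one]
  have e2 : ∀ y, ((g y ^ (2 : ℝ)) ^ a) ^ (1 / a) = g y ^ (2 : ℝ) := by
    intro y
    rw [← ENNReal.rpow_mul, mul_one_div_cancel ha.ne', ENNReal.rpow_one]
  simp_rw [e0, e1, e2, one_div_one_div] at h1
  exact h1

/-- ROW GEO. Hölder: `∫ g^{1+a} ≤ (∫ g)^{1-a} (∫ g²)^a` with GA, G1, GB, PAIRS. -/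
theorem geo (n D : ℕ) (hD : 2 ≤ D) (A : ℝ) (hA : 1 ≤ A) (a θ : ℝ) (ha : 0 < a) (ha1 : a < 1)
    (hθ : 0 < θ) (hθ1 : θ < 1) : ∃ (C : ℝ) (E : ℕ), 1 ≤ C ∧
    ∀ (k m : Fin n → ℕ) (f : Fin n → ℝ[X]) (σ : Finset (Fin n)) (Λ : ℝ) (J : Fin n),
      (∀ j, k J ≤ k j) → (∀ j, m j ≤ k j) → (∀ j, (f j).natDegree ≤ D) → 1 ≤ Λ →
      ∫⁻ Y : Fin n → ℝ, volume (Zs D A k m f σ Λ Y) ^ (1 + a) ≤
        ENNReal.ofReal (C * Λ ^ E * om k m * (∏ j, (2 ^ k j : ℝ)) *
          (4 ^ k J * (∏ j, (1 / 2 ^ m j : ℝ)) *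
            ((∏ j, (1 / 2 ^ k j : ℝ)) * Tb θ k m σ J) ^ a)) := by
  obtain ⟨C1, hC1, h1⟩ := vol_Zf n D hD A hA
  obtain ⟨C2, hC2, h2⟩ := gb n D hD A hA
  obtain ⟨C3, hC3, h3⟩ := pairs n D hD A hA θ hθ hθ1
  have hC1' : 0 ≤ C1 := zero_le_one.trans hC1
  have hC2' : 0 ≤ C2 := zero_le_one.trans hC2
  have hC3' : 0 ≤ C3 := zero_le_one.trans hC3
  have hone : 1 ≤ C1 * 2 ^ n * (C2 ^ n * C3 * 2 ^ n) :=
    one_le_mul_of_one_le_of_one_le
      (one_le_mul_of_one_le_of_one_le hC1 (one_le_pow₀ one_le_two))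
      (one_le_mul_of_one_le_of_one_le
        (one_le_mul_of_one_le_of_one_le (one_le_pow₀ hC2) hC3) (one_le_pow₀ one_le_two))
  refine ⟨C1 * 2 ^ n * (C2 ^ n * C3 * 2 ^ n), 4 * n + 5, hone,
    fun k m f σ Λ J hk hm hf hΛ => ?_⟩
  have hΛ0 : 0 ≤ Λ := zero_le_one.trans hΛ
  have hom : 0 ≤ om k m := Finset.sum_nonneg fun j _ => by positivity
  have hTb : 0 ≤ Tb θ k m σ J := by
    refine le_min (by positivity) ?_
    refine Real.iInf_nonneg fun j => ?_
    unfold tj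
    split_ifs
    · positivity
    · positivity
  set M : ℝ := ∏ j, (1 / 2 ^ m j : ℝ) with hM
  set P : ℝ := ∏ j, (2 ^ k j : ℝ) with hP
  set P' : ℝ := ∏ j, (1 / 2 ^ k j : ℝ) with hP'
  have hM0 : 0 ≤ M := Finset.prod_nonneg fun j _ => by positivity
  have hP0 : 0 ≤ P := Finset.prod_nonneg fun j _ => by positivity
  have hP'0 : 0 ≤ P' := Finset.prod_nonneg fun j _ => by positivity
  have hprod : ∏ j, (2 * Λ * 2 ^ k j) = (2 * Λ) ^ n * P := by
    rw [Finset.prod_mul_distrib, Finset.prod_const, Finset.card_univ, Fintype.card_fin]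
  have hmeas : Measurable fun Y : Fin n → ℝ => volume (Zs D A k m f σ Λ Y) :=
    measurable_measure_prodMk_left (meas_Zs D A k m f σ Λ)
  refine (geo_holder volume _ hmeas.aemeasurable a ha ha1).trans ?_
  set X : ℝ := C1 * Λ * (2 * Λ) ^ n with hX
  set Z : ℝ := (C2 * Λ) ^ n * C3 * Λ ^ (n + 4) * (2 * Λ) ^ n with hZ
  set S : ℝ := om k m * M * 4 ^ k J * P with hS
  set T : ℝ := P' * Tb θ k m σ J with hT
  have hS0 : 0 ≤ S := by positivity
  have hT0 : 0 ≤ T := by positivity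
  have hL2 : 1 ≤ 2 * Λ := by linarith
  have hX1 : 1 ≤ X := one_le_mul_of_one_le_of_one_le
    (one_le_mul_of_one_le_of_one_le hC1 hΛ) (one_le_pow₀ hL2)
  have hZ1 : 1 ≤ Z := one_le_mul_of_one_le_of_one_le
    (one_le_mul_of_one_le_of_one_le (one_le_mul_of_one_le_of_one_le
      (one_le_pow₀ (one_le_mul_of_one_le_of_one_le hC2 hΛ)) hC3) (one_le_pow₀ hΛ))
    (one_le_pow₀ hL2)
  have b1 : ∫⁻ Y : Fin n → ℝ, volume (Zs D A k m f σ Λ Y) ≤ ENNReal.ofReal (X * S) := by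
    rw [ga n D A k m f σ Λ hΛ0, hprod]
    calc _ ≤ ENNReal.ofReal (C1 * Λ * om k m * M * 4 ^ k J) *
          ENNReal.ofReal ((2 * Λ) ^ n * P) := by gcongr; exact h1 k m f σ Λ J hΛ
      _ = _ := by
          rw [← ENNReal.ofReal_mul (by positivity)]
          congr 1
          rw [hX, hS]; ring
  have b2 : ∫⁻ Y : Fin n → ℝ, volume (Zs D A k m f σ Λ Y) ^ (2 : ℝ) ≤
      ENNReal.ofReal (Z * (S * T)) := by
    refine (h2 k m f σ Λ hm hf hΛ).trans ?_
    rw [hprod]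
    calc _ ≤ ENNReal.ofReal ((C2 * Λ) ^ n) * (ENNReal.ofReal (C3 * Λ ^ (n + 4) * om k m *
          M * 4 ^ k J * P' * Tb θ k m σ J) * ENNReal.ofReal ((2 * Λ) ^ n * P)) := by
          gcongr; exact h3 k m f σ Λ J hk hm hf hΛ
      _ = _ := by
          rw [← ENNReal.ofReal_mul (by positivity), ← ENNReal.ofReal_mul (by positivity)]
          congr 1
          rw [hZ, hS, hT]; ring
  calc _ ≤ ENNReal.ofReal (X * S) ^ (1 - a) * ENNReal.ofReal (Z * (S * T)) ^ a := by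
        gcongr
    _ = ENNReal.ofReal ((X * S) ^ (1 - a) * (Z * (S * T)) ^ a) := by
        rw [ENNReal.ofReal_rpow_of_nonneg (by positivity) (by linarith),
          ENNReal.ofReal_rpow_of_nonneg (by positivity) ha.le,
          ← ENNReal.ofReal_mul (by positivity)]
    _ ≤ ENNReal.ofReal (X * Z * (S * T ^ a)) := by
        refine ENNReal.ofReal_le_ofReal ?_
        have hX0 : 0 ≤ X := zero_le_one.trans hX1
        have hZ0 : 0 ≤ Z := zero_le_one.trans hZ1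
        have e1 : (X * S) ^ (1 - a) * (Z * (S * T)) ^ a =
            (X ^ (1 - a) * Z ^ a) * (S ^ (1 - a) * S ^ a * T ^ a) := by
          rw [Real.mul_rpow hX0 hS0, Real.mul_rpow hZ0 (by positivity), Real.mul_rpow hS0 hT0]
          ring
        have e2 : S ^ (1 - a) * S ^ a = S := by
          rw [← Real.rpow_add_of_nonneg hS0 (by linarith) ha.le]
          rw [sub_add_cancel, Real.rpow_one]
        rw [e1, e2]
        have e3 : X ^ (1 - a) ≤ X := by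
          calc X ^ (1 - a) ≤ X ^ (1 : ℝ) := Real.rpow_le_rpow_of_exponent_le hX1 (by linarith)
            _ = X := Real.rpow_one X
        have e4 : Z ^ a ≤ Z := by
          calc Z ^ a ≤ Z ^ (1 : ℝ) := Real.rpow_le_rpow_of_exponent_le hZ1 ha1.le
            _ = Z := Real.rpow_one Z
        have e5 : 0 ≤ S * T ^ a := by positivity
        have e6 : X ^ (1 - a) * Z ^ a ≤ X * Z := by gcongr
        exact mul_le_mul_of_nonneg_right e6 e5
    _ = _ := by
        congr 1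
        have e7 : X * Z = C1 * 2 ^ n * (C2 ^ n * C3 * 2 ^ n) * Λ ^ (4 * n + 5) := by
          rw [hX, hZ]
          have : Λ ^ (4 * n + 5) = Λ * Λ ^ n * Λ ^ n * Λ ^ (n + 4) * Λ ^ n := by
            rw [← pow_succ', ← pow_add, ← pow_add, ← pow_add]
            congr 1
            ring
          rw [this]
          ring
        rw [e7, hS]
        ring

end Pool.Agent.SEP
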