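import Pool.Agent.SEPH.Defs

/-!
Exponents.
-/

namespace Pool.Agent.SEP

open MeasureTheory Set
open scoped ENNReal Real

/-- Arithmetic of the exponents. -/
theorem sum1_arith {n : ℝ} {a θ δ ε : ℝ} (ha0 : 0 < a) (ha1 : a ≤ 17 / 25)
    (hθ0 : 0 < θ) (hθ1 : θ < 1) (hδ : δ = a * (n - 2 + θ) - 2)
    (hε1 : n * ε ≤ δ) (hε2 : ε ≤ 1 / 200) (hε3 : ε ≤ a / 50)
    {K SM SU MJ ui Mi v Ms us c m0 Y : ℝ} (hK : 0 ≤ K) (hMJ : 0 ≤ MJ) (hMJ' : MJ ≤ SM)
    (hui : 0 ≤ ui) (hui' : ui ≤ SU) (hMi : 0 ≤ Mi) (hMi' : Mi ≤ m0) (hMs : 0 ≤ Ms) (hus : 0 ≤ us)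
    (hv : v = Ms + us) (hvJ : v ≤ MJ) (hc : 0 ≤ c)
    (hY : (Y ≤ K + MJ) ∨
      (Y ≤ 2 * K + θ * (-K - v + c + 2 * MJ) ∧
        (Y ≤ K + ui + Mi ∨
          (Y ≤ 2 * K + θ * (-K - v + c + 2 * Mi + 4 * ui) ∧
            (Y ≤ K + v ∨ Y ≤ 2 * K + θ * (-K - v + c + 2 * Ms + 4 * us)))))) :
    2 * K - SM - a * (n * K + SU) + a * Y ≤ (c + m0) - ε * (n * K + SU + SM) := by
  have hm0 : 0 ≤ m0 := hMi.trans hMi'
  have hSM : 0 ≤ SM := hMJ.trans hMJ'
  have hSU : 0 ≤ SU := hui.trans hui'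
  have hv0 : 0 ≤ v := by rw [hv]; linarith
  have haK : 0 ≤ a * K := mul_nonneg ha0.le hK
  have k1 : n * ε * K ≤ δ * K := mul_le_mul_of_nonneg_right hε1 hK
  have k2 : δ * K = a * n * K - 2 * (a * K) + θ * (a * K) - 2 * K := by rw [hδ]; ring
  have k3 : ε * SM ≤ 1 / 200 * SM := mul_le_mul_of_nonneg_right hε2 hSM
  have k4 : ε * SU ≤ a / 50 * SU := mul_le_mul_of_nonneg_right hε3 hSU
  have one : ∀ x : ℝ, 0 ≤ x → θ * x ≤ x := fun x hx => by nlinarith
  have k5 : θ * (a * K) ≤ a * K := one _ haK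
  have haMJ : 0 ≤ a * MJ := mul_nonneg ha0.le hMJ
  have k6 : a * MJ ≤ 17 / 25 * MJ := mul_le_mul_of_nonneg_right ha1 hMJ
  have haSU : 0 ≤ a * SU := mul_nonneg ha0.le hSU
  have haui : a * ui ≤ a * SU := mul_le_mul_of_nonneg_left hui' ha0.le
  have haui0 : 0 ≤ a * ui := mul_nonneg ha0.le hui
  have k7 : θ * (a * ui) ≤ a * ui := one _ haui0
  have k8 : θ * (a * MJ) ≤ a * MJ := one _ haMJ
  have hac : 0 ≤ a * c := mul_nonneg ha0.le hc
  have k9 : θ * (a * c) ≤ a * c := one _ hac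
  have k10 : a * c ≤ 17 / 25 * c := mul_le_mul_of_nonneg_right ha1 hc
  have ham : 0 ≤ a * Mi := mul_nonneg ha0.le hMi
  have k11 : a * Mi ≤ 17 / 25 * Mi := mul_le_mul_of_nonneg_right ha1 hMi
  have k12 : θ * (a * Mi) ≤ a * Mi := one _ ham
  have hav : 0 ≤ a * v := mul_nonneg ha0.le hv0
  have k13 : a * v ≤ a * MJ := mul_le_mul_of_nonneg_left hvJ ha0.le
  have k14 : θ * (a * v) ≤ a * v := one _ hav
  have k14' : 0 ≤ θ * (a * v) := mul_nonneg hθ0.le hav
  rcases hY with h | ⟨h1, h | ⟨h2, h | h⟩⟩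
  · have h' : a * Y ≤ a * (K + MJ) := mul_le_mul_of_nonneg_left h ha0.le
    linarith
  · have h1' := mul_le_mul_of_nonneg_left h1 ha0.le
    have h' := mul_le_mul_of_nonneg_left h ha0.le
    linarith
  · have h1' := mul_le_mul_of_nonneg_left h1 ha0.le
    have h' := mul_le_mul_of_nonneg_left h ha0.le
    linarith
  · have h1' := mul_le_mul_of_nonneg_left h1 ha0.le
    have h2' := mul_le_mul_of_nonneg_left h2 ha0.le
    have h' := mul_le_mul_of_nonneg_left h ha0.le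
    have haMs : 0 ≤ a * Ms := mul_nonneg ha0.le hMs
    have haus : 0 ≤ a * us := mul_nonneg ha0.le hus
    have hv' : a * v = a * Ms + a * us := by rw [hv]; ring
    have e1 : 0 ≤ θ * (a * Ms) := mul_nonneg hθ0.le haMs
    have e2 : 0 ≤ θ * (a * us) := mul_nonneg hθ0.le haus
    have e3 : θ * (a * v) = θ * (a * Ms) + θ * (a * us) := by rw [hv']; ring
    linarith

theorem om_le' {n : ℕ} (k m : Fin n → ℕ) (s : Fin n) (hs : ∀ j, m s + k s ≤ m j + k j) :
    om k m ≤ n * (1 / 2 ^ (m s + k s)) := by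
  unfold om
  calc ∑ j, (1 / 2 ^ (m j + k j) : ℝ) ≤ ∑ _j : Fin n, (1 / 2 ^ (m s + k s) : ℝ) := by
        refine Finset.sum_le_sum fun j _ => ?_
        exact one_div_le_one_div_of_le (by positivity)
          (pow_le_pow_right₀ (by norm_num) (hs j))
    _ = _ := by rw [Finset.sum_const, Finset.card_univ, Fintype.card_fin, nsmul_eq_mul]

theorem om_pos' {n : ℕ} (k m : Fin n → ℕ) (J : Fin n) : 0 < om k m := by
  unfold om
  exact Finset.sum_pos (fun j _ => by positivity) ⟨J, Finset.mem_univ J⟩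

theorem tj_pos' {n : ℕ} (θ : ℝ) (k m : Fin n → ℕ) (σ : Finset (Fin n)) (J j : Fin n) :
    0 < tj θ k m σ J j := by
  have := om_pos' k m J
  unfold tj
  split_ifs
  · positivity
  · positivity

theorem Tb_pos' {n : ℕ} (θ : ℝ) (k m : Fin n → ℕ) (σ : Finset (Fin n)) (J : Fin n) :
    0 < Tb θ k m σ J := by
  have : Nonempty (Fin n) := ⟨J⟩
  unfold Tb
  refine lt_min (by positivity) ?_
  obtain ⟨j, hj⟩ := exists_eq_ciInf_of_finite (f := fun j => tj θ k m σ J j)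
  rw [← hj]
  exact tj_pos' θ k m σ J j

theorem Tb_le_tj' {n : ℕ} (θ : ℝ) (k m : Fin n → ℕ) (σ : Finset (Fin n)) (J j : Fin n) :
    Tb θ k m σ J ≤ tj θ k m σ J j :=
  (min_le_right _ _).trans (ciInf_le (Set.finite_range _).bddBelow j)

/-- ROW SUM1. -/
theorem sum1 (n : ℕ) (hn : 4 ≤ n) (a : ℝ) (ha : 2 / ((n : ℝ) - 1) < a) (ha1 : a ≤ 17 / 25) :
    ∃ θ : ℝ, 0 < θ ∧ θ < 1 ∧ ∀ m0 : ℕ, ∃ C ε : ℝ, 0 < C ∧ 0 < ε ∧
      ∀ (k m : Fin n → ℕ) (σ : Finset (Fin n)) (J : Fin n), (∀ j, k J ≤ k j) → (∀ j, m j ≤ k j) →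
        (∃ i, m i ≤ m0) →
        4 ^ k J * (∏ j, (1 / 2 ^ m j : ℝ)) * ((∏ j, (1 / 2 ^ k j : ℝ)) * Tb θ k m σ J) ^ a ≤
          C * (2 : ℝ) ^ (-ε * ∑ j, ((k j : ℝ) + m j)) := by
  have hn4 : (4 : ℝ) ≤ n := by exact_mod_cast hn
  have hn0 : (0 : ℝ) < n := by linarith
  have hn1 : (0 : ℝ) < (n : ℝ) - 1 := by linarith
  have ha0 : 0 < a := lt_trans (by positivity) ha
  have ha2 : 2 < a * ((n : ℝ) - 1) := by rwa [div_lt_iff₀ hn1] at ha
  set θ0 : ℝ := 2 / a - (n - 2) with hθ0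
  have hθ0' : θ0 < 1 := by
    have : 2 / a < (n : ℝ) - 1 := by
      rw [div_lt_iff₀ ha0]
      linarith
    rw [hθ0]
    linarith
  set θ : ℝ := (1 + max 0 θ0) / 2 with hθ
  have hmax : max 0 θ0 < 1 := max_lt one_pos hθ0'
  have hθp : 0 < θ := by
    have : 0 ≤ max 0 θ0 := le_max_left _ _
    rw [hθ]
    linarith
  have hθ1 : θ < 1 := by rw [hθ]; linarith
  have hθ2 : θ0 < θ := by
    have : θ0 ≤ max 0 θ0 := le_max_right _ _
    rw [hθ]
    linarith
  set δ : ℝ := a * (n - 2 + θ) - 2 with hδ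
  have hδ0 : 0 < δ := by
    have h1 : 2 / a < (n : ℝ) - 2 + θ := by rw [hθ0] at hθ2; linarith
    rw [div_lt_iff₀ ha0] at h1
    rw [hδ]
    linarith
  refine ⟨θ, hθp, hθ1, fun m0 => ?_⟩
  set ε : ℝ := min (δ / n) (min (1 / 200) (a / 50)) with hε
  have hε0 : 0 < ε := lt_min (by positivity) (lt_min (by norm_num) (by positivity))
  have hε1 : n * ε ≤ δ := by
    have : ε ≤ δ / n := min_le_left _ _
    rw [le_div_iff₀ hn0] at this
    linarith
  have hε2 : ε ≤ 1 / 200 := (min_le_right _ _).trans (min_le_left _ _)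
  have hε3 : ε ≤ a / 50 := (min_le_right _ _).trans (min_le_right _ _)
  set c : ℝ := Real.logb 2 n with hc
  have hc0 : 0 ≤ c := Real.logb_nonneg (by norm_num) (by linarith)
  have hc2 : (2 : ℝ) ^ c = n := Real.rpow_logb (by norm_num) (by norm_num) hn0
  refine ⟨2 ^ (c + m0), ε, by positivity, hε0, ?_⟩
  intro k m σ J hkJ hmk ⟨i, hi⟩
  have hne : (Finset.univ : Finset (Fin n)).Nonempty := ⟨J, Finset.mem_univ J⟩
  obtain ⟨s, -, hs⟩ := Finset.exists_min_image Finset.univ (fun j => m j + k j) hne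
  have hs' : ∀ j, m s + k s ≤ m j + k j := fun j => hs j (Finset.mem_univ j)
  set Y : ℝ := Real.logb 2 (Tb θ k m σ J) with hY
  have hT0 := Tb_pos' θ k m σ J
  have hYT : (2 : ℝ) ^ Y = Tb θ k m σ J := Real.rpow_logb (by norm_num) (by norm_num) hT0
  have hYle : ∀ x : ℝ, Tb θ k m σ J ≤ 2 ^ x → Y ≤ x := by
    intro x hx
    rw [← hYT] at hx
    exact (Real.rpow_le_rpow_left_iff (by norm_num)).1 hx
  have h4 : ∀ r : ℕ, (4 : ℝ) ^ r = 2 ^ (2 * (r : ℝ)) := by
    intro r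
    rw [Real.rpow_mul (by norm_num), Real.rpow_natCast]
    norm_num
  have h16 : ∀ r : ℕ, (16 : ℝ) ^ r = 2 ^ (4 * (r : ℝ)) := by
    intro r
    rw [show (4 : ℝ) = ((4 : ℕ) : ℝ) by norm_num, Real.rpow_mul (by norm_num), Real.rpow_natCast,
      Real.rpow_natCast]
    norm_num
  have hom : om k m ≤ 2 ^ (c - m s - k s) := by
    refine (om_le' k m s hs').trans_eq ?_
    rw [Real.rpow_sub (by norm_num), Real.rpow_sub (by norm_num), hc2, Real.rpow_natCast,
      Real.rpow_natCast, pow_add]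
    field_simp
  have hin : ∀ j, j ∈ σ → Y ≤ (m j : ℝ) + k j := by
    intro j hj
    apply hYle
    refine (Tb_le_tj' θ k m σ J j).trans_eq ?_
    unfold tj
    rw [if_pos hj, ← Nat.cast_add, Real.rpow_natCast]
  have hout : ∀ j, j ∉ σ → Y ≤ 2 * (k J : ℝ) + θ * (c - m s - k s + 2 * m j + 4 * k j -
      4 * (k J : ℝ)) := by
    intro j hj
    apply hYle
    refine (Tb_le_tj' θ k m σ J j).trans ?_
    unfold tj
    rw [if_neg hj, Real.rpow_add (by norm_num), ← h4]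
    refine mul_le_mul_of_nonneg_left ?_ (by positivity)
    have hb : om k m * 4 ^ m j * 16 ^ k j / 16 ^ k J ≤
        (2 : ℝ) ^ (c - m s - k s + 2 * m j + 4 * k j - 4 * (k J : ℝ)) := by
      rw [Real.rpow_sub (by norm_num : (0 : ℝ) < 2) _ (4 * (k J : ℝ)),
        Real.rpow_add (by norm_num : (0 : ℝ) < 2) _ (4 * (k j : ℝ)),
        Real.rpow_add (by norm_num : (0 : ℝ) < 2) _ (2 * (m j : ℝ)), ← h4, ← h16, ← h16]
      gcongr
    have hpos : 0 ≤ om k m * 4 ^ m j * 16 ^ k j / 16 ^ k J := by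
      have := om_pos' k m J
      positivity
    calc (om k m * 4 ^ m j * 16 ^ k j / 16 ^ k J) ^ θ
        ≤ ((2 : ℝ) ^ (c - m s - k s + 2 * m j + 4 * k j - 4 * (k J : ℝ))) ^ θ :=
          Real.rpow_le_rpow hpos hb hθp.le
      _ = _ := by rw [← Real.rpow_mul (by norm_num), mul_comm]
  set SM : ℝ := ∑ j, (m j : ℝ) with hSM
  set SU : ℝ := ∑ j, ((k j : ℝ) - k J) with hSU
  have hSK : ∑ j, (k j : ℝ) = n * k J + SU := by
    rw [hSU, Finset.sum_sub_distrib, Finset.sum_const, Finset.card_univ, Fintype.card_fin,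
      nsmul_eq_mul]
    ring
  have hle : ∀ j, (k J : ℝ) ≤ k j := fun j => by exact_mod_cast hkJ j
  have hMle : ∀ j, (m j : ℝ) ≤ SM := fun j =>
    Finset.single_le_sum (f := fun j => (m j : ℝ)) (fun _ _ => Nat.cast_nonneg _)
      (Finset.mem_univ j)
  have hUle : ∀ j, (k j : ℝ) - k J ≤ SU := fun j =>
    Finset.single_le_sum (f := fun j => (k j : ℝ) - k J) (fun j _ => by linarith [hle j])
      (Finset.mem_univ j)
  have key := sum1_arith (n := n) (a := a) (θ := θ) (δ := δ) (ε := ε) ha0 ha1 hθp hθ1 hδ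
    hε1 hε2 hε3 (K := k J) (SM := SM) (SU := SU) (MJ := m J) (ui := (k i : ℝ) - k J)
    (Mi := m i) (v := m s + (k s - k J)) (Ms := m s) (us := k s - k J) (c := c) (m0 := m0)
    (Y := Y) (Nat.cast_nonneg _) (Nat.cast_nonneg _) (hMle J) (by linarith [hle i]) (hUle i)
    (Nat.cast_nonneg _) (by exact_mod_cast hi) (Nat.cast_nonneg _) (by linarith [hle s]) rfl
    (by
      have : ((m s + k s : ℕ) : ℝ) ≤ ((m J + k J : ℕ) : ℝ) := by exact_mod_cast hs' J
      push_cast at this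
      linarith) hc0 (by
      by_cases hJ : J ∈ σ
      · left
        have := hin J hJ
        linarith
      · right
        refine ⟨?_, ?_⟩
        · refine (hout J hJ).trans_eq ?_
          ring
        by_cases hiσ : i ∈ σ
        · left
          have := hin i hiσ
          linarith
        · right
          refine ⟨?_, ?_⟩
          · refine (hout i hiσ).trans_eq ?_
            ring
          by_cases hsσ : s ∈ σ
          · left
            have := hin s hsσ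
            linarith
          · right
            refine (hout s hsσ).trans_eq ?_
            ring)
  have hprodm : ∏ j, (1 / 2 ^ m j : ℝ) = 2 ^ (-SM) := by
    rw [hSM, ← Finset.sum_neg_distrib, Real.rpow_sum_of_pos (by norm_num)]
    refine Finset.prod_congr rfl fun j _ => ?_
    rw [Real.rpow_neg (by norm_num), Real.rpow_natCast, one_div]
  have hprodk : ∏ j, (1 / 2 ^ k j : ℝ) = 2 ^ (-(n * k J + SU)) := by
    rw [← hSK, ← Finset.sum_neg_distrib, Real.rpow_sum_of_pos (by norm_num)]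
    refine Finset.prod_congr rfl fun j _ => ?_
    rw [Real.rpow_neg (by norm_num), Real.rpow_natCast, one_div]
  have hsum : ∑ j, ((k j : ℝ) + m j) = n * k J + SU + SM := by
    rw [Finset.sum_add_distrib, hSK]
  rw [hprodm, hprodk, ← hYT, h4, hsum, ← Real.rpow_add (by norm_num), ← Real.rpow_add (by norm_num),
    ← Real.rpow_mul (by norm_num), ← Real.rpow_add (by norm_num), ← Real.rpow_add (by norm_num)]
  apply Real.rpow_le_rpow_of_exponent_le (by norm_num)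
  have e1 : 2 * (k J : ℝ) + -SM + (-(n * k J + SU) + Y) * a =
      2 * (k J : ℝ) - SM - a * (n * k J + SU) + a * Y := by ring
  rw [e1]
  refine key.trans_eq ?_
  ring

end Pool.Agent.SEP
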