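import Pool.Agent.SEPH.Defs

/-!
Rows EMPT and SUM2.
-/

namespace Pool.Agent.SEP

open MeasureTheory Set Pool.Agent.MP_6cbfb8_an Polynomial
open scoped ENNReal Real

/-- ROW EMPT. If all `m_j ≥ m0`, the shell is empty unless `1 ≤ 2 Λ om`. -/
theorem empt (n : ℕ) (A : ℝ) : ∃ m0 : ℕ, ∀ (D : ℕ) (k m : Fin n → ℕ) (f : Fin n → ℝ[X])
    (σ : Finset (Fin n)) (Λ : ℝ), (∀ j, m0 ≤ m j) → (Zf D A k m f σ Λ).Nonempty →
      1 ≤ 2 * Λ * om k m := by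
  obtain ⟨m0, hm0⟩ := pow_unbounded_of_one_lt (2 * (n : ℝ) * A ^ 2) (show (1 : ℝ) < 4 by norm_num)
  refine ⟨m0, fun D k m f σ Λ hm hne => ?_⟩
  obtain ⟨p, hp⟩ := hne
  have h4 : (0 : ℝ) < 4 ^ m0 := by positivity
  have h1 : ∀ j, p.1 j ^ 2 ≤ A ^ 2 / 4 ^ m0 := by
    intro j
    have h2 := (hp.1 j).zup
    have h3 : |p.1 j| * 2 ^ m0 ≤ A := by
      refine le_trans (mul_le_mul_of_nonneg_left ?_ (abs_nonneg _)) h2
      exact pow_le_pow_right₀ (by norm_num) (hm j)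
    rw [le_div_iff₀ h4]
    have h5 : (|p.1 j| * 2 ^ m0) ^ 2 ≤ A ^ 2 := pow_le_pow_left₀ (by positivity) h3 2
    have h6 : (|p.1 j| * 2 ^ m0) ^ 2 = p.1 j ^ 2 * 4 ^ m0 := by
      rw [mul_pow, sq_abs, ← pow_mul, mul_comm m0 2, pow_mul]
      norm_num
    linarith
  have h7 : ∑ j, p.1 j ^ 2 ≤ 1 / 2 := by
    calc ∑ j, p.1 j ^ 2 ≤ ∑ _j : Fin n, A ^ 2 / 4 ^ m0 := Finset.sum_le_sum fun j _ => h1 j
      _ = n * (A ^ 2 / 4 ^ m0) := by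
        rw [Finset.sum_const, Finset.card_univ, Fintype.card_fin, nsmul_eq_mul]
      _ ≤ 1 / 2 := by
        rw [← mul_div_assoc, div_le_iff₀ h4]
        linarith
  have h8 := (abs_le.1 hp.2.2).1
  linarith

lemma sum2_prod {n : ℕ} (m : Fin n → ℕ) :
    ∏ j, (1 / 2 ^ m j : ℝ) = (2 : ℝ) ^ (-∑ j, (m j : ℝ)) := by
  rw [← Finset.sum_neg_distrib, Real.rpow_sum_of_pos (by norm_num)]
  refine Finset.prod_congr rfl fun j _ => ?_
  rw [Real.rpow_neg (by norm_num), Real.rpow_natCast, one_div]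

lemma om_nonneg {n : ℕ} (k m : Fin n → ℕ) : 0 ≤ om k m :=
  Finset.sum_nonneg fun j _ => by positivity

lemma Tb_nonneg {n : ℕ} (θ : ℝ) (k m : Fin n → ℕ) (σ : Finset (Fin n)) (J : Fin n) :
    0 ≤ Tb θ k m σ J := by
  unfold Tb
  refine le_min (by positivity) (Real.iInf_nonneg fun j => ?_)
  unfold tj
  split_ifs
  · positivity
  · have h := om_nonneg k m
    positivity

/-- ROW SUM2. With a large power of `om ≤ n 2^{-K}` everything converges (`Tb ≤ 4^K`). -/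
theorem sum2 (n : ℕ) (hn : 4 ≤ n) (a θ : ℝ) (ha : 0 < a) (ha1 : a < 1) : ∃ (N : ℕ) (C ε : ℝ), 0 < C ∧
    0 < ε ∧ ∀ (k m : Fin n → ℕ) (σ : Finset (Fin n)) (J : Fin n), (∀ j, k J ≤ k j) →
        (∀ j, m j ≤ k j) →
        om k m ^ N *
          (4 ^ k J * (∏ j, (1 / 2 ^ m j : ℝ)) * ((∏ j, (1 / 2 ^ k j : ℝ)) * Tb θ k m σ J) ^ a) ≤
          C * (2 : ℝ) ^ (-ε * ∑ j, ((k j : ℝ) + m j)) := by
  have hn0 : (0 : ℝ) < n := by
    have : 0 < n := by omega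
    exact_mod_cast this
  refine ⟨4, (n : ℝ) ^ 4, a, by positivity, ha, fun k m σ J hJ _ => ?_⟩
  have hom : om k m ≤ n * (1 / 2 ^ k J) := by
    unfold om
    calc ∑ j, (1 / 2 ^ (m j + k j) : ℝ) ≤ ∑ _j : Fin n, (1 / 2 ^ k J : ℝ) := by
          refine Finset.sum_le_sum fun j _ => ?_
          refine one_div_le_one_div_of_le (by positivity) ?_
          exact pow_le_pow_right₀ (by norm_num) ((hJ j).trans (Nat.le_add_left _ _))
      _ = n * (1 / 2 ^ k J) := by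
        rw [Finset.sum_const, Finset.card_univ, Fintype.card_fin, nsmul_eq_mul]
  have hT : Tb θ k m σ J ≤ 4 ^ k J := min_le_left _ _
  have hT0 := Tb_nonneg θ k m σ J
  have hPk : 0 ≤ ∏ j, (1 / 2 ^ k j : ℝ) := Finset.prod_nonneg fun j _ => by positivity
  have hPm : 0 ≤ ∏ j, (1 / 2 ^ m j : ℝ) := Finset.prod_nonneg fun j _ => by positivity
  set x : ℝ := 2 ^ k J with hx
  have hx1 : 1 ≤ x := one_le_pow₀ (by norm_num)
  have h4x : (4 : ℝ) ^ k J = x ^ 2 := by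
    rw [hx, ← pow_mul, mul_comm (k J) 2, pow_mul]
    norm_num
  have hTa : (((∏ j, (1 / 2 ^ k j : ℝ)) * Tb θ k m σ J) ^ a) ≤
      (∏ j, (1 / 2 ^ k j : ℝ)) ^ a * x ^ 2 := by
    rw [Real.mul_rpow hPk hT0]
    refine mul_le_mul_of_nonneg_left ?_ (Real.rpow_nonneg hPk a)
    calc Tb θ k m σ J ^ a ≤ (x ^ 2) ^ a := Real.rpow_le_rpow hT0 (by rwa [← h4x]) ha.le
      _ ≤ (x ^ 2) ^ (1 : ℝ) := Real.rpow_le_rpow_of_exponent_le (one_le_pow₀ hx1) ha1.le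
      _ = x ^ 2 := Real.rpow_one _
  have hom4 : om k m ^ 4 ≤ (n : ℝ) ^ 4 / x ^ 4 := by
    calc om k m ^ 4 ≤ (n * (1 / x)) ^ 4 := pow_le_pow_left₀ (om_nonneg k m) hom 4
      _ = (n : ℝ) ^ 4 / x ^ 4 := by
        rw [mul_pow, div_pow, one_pow]
        ring
  have hfin : (∏ j, (1 / 2 ^ m j : ℝ)) * (∏ j, (1 / 2 ^ k j : ℝ)) ^ a ≤
      (2 : ℝ) ^ (-a * ∑ j, ((k j : ℝ) + m j)) := by
    rw [sum2_prod, sum2_prod, ← Real.rpow_mul (by norm_num), ← Real.rpow_add (by norm_num)]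
    refine Real.rpow_le_rpow_of_exponent_le (by norm_num) ?_
    rw [Finset.sum_add_distrib]
    have h0 : 0 ≤ ∑ j, (m j : ℝ) := Finset.sum_nonneg fun j _ => by positivity
    nlinarith
  calc om k m ^ 4 *
        (4 ^ k J * (∏ j, (1 / 2 ^ m j : ℝ)) * ((∏ j, (1 / 2 ^ k j : ℝ)) * Tb θ k m σ J) ^ a)
      ≤ (n : ℝ) ^ 4 / x ^ 4 * (x ^ 2 * (∏ j, (1 / 2 ^ m j : ℝ)) *
        ((∏ j, (1 / 2 ^ k j : ℝ)) ^ a * x ^ 2)) := by
        rw [h4x]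
        refine mul_le_mul hom4 (mul_le_mul_of_nonneg_left hTa (by positivity)) ?_ (by positivity)
        have := Real.rpow_nonneg (mul_nonneg hPk hT0) a
        positivity
    _ = (n : ℝ) ^ 4 * ((∏ j, (1 / 2 ^ m j : ℝ)) * (∏ j, (1 / 2 ^ k j : ℝ)) ^ a) := by
        field_simp
    _ ≤ (n : ℝ) ^ 4 * (2 : ℝ) ^ (-a * ∑ j, ((k j : ℝ) + m j)) :=
        mul_le_mul_of_nonneg_left hfin (by positivity)

end Pool.Agent.SEP
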