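import Pool.Agent.SEPH.TY

/-!
Existence of the packet constant.
-/

namespace Pool.Agent.SEP

open MeasureTheory Set Pool.Agent.MP_6cbfb8_an Polynomial
open scoped ENNReal Real

theorem su_B_one {x : ℝ} (h : |x| ≤ 1) : B x = 1 := by
  unfold B
  apply bump.one_of_mem_closedBall
  rw [Metric.mem_closedBall, dist_zero_right, Real.norm_eq_abs]
  exact h

theorem su_B_zero {x : ℝ} (h : 2 ≤ |x|) : B x = 0 := by
  unfold B
  apply bump.zero_of_le_dist
  rw [dist_zero_right, Real.norm_eq_abs]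
  exact h

theorem su_Sk_nonneg (D k : ℕ) (f : ℝ[X]) (x t : ℝ) : 0 ≤ Sk D k f x t :=
  Finset.sum_nonneg fun _ _ => sq_nonneg _

theorem su_Sk_succ_le (D k : ℕ) (f : ℝ[X]) (x t : ℝ) : Sk D (k + 1) f x t ≤ Sk D k f x t := by
  unfold Sk
  refine Finset.sum_le_sum fun i _ => ?_
  rw [div_pow, div_pow]
  refine div_le_div_of_nonneg_left (sq_nonneg _) (by positivity) ?_
  refine pow_le_pow_left₀ (by positivity) ?_ 2
  exact pow_le_pow_right₀ one_le_two (Nat.mul_le_mul_right i (Nat.le_succ k))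

/-- Support of `theta`. -/
theorem su_theta {D k : ℕ} {f : ℝ[X]} {x t : ℝ} (h : theta D k f x t ≠ 0) :
    Sk D (k + 1) f x t < 4 ∧ (1 ≤ k → 2 < Sk D k f x t) := by
  have n1 := su_Sk_nonneg D (k + 1) f x t
  have n0 := su_Sk_nonneg D k f x t
  have hle := su_Sk_succ_le D k f x t
  constructor
  · by_contra hcon
    push Not at hcon
    apply h
    unfold theta
    rw [su_B_zero (by rw [abs_of_nonneg (by linarith)]; linarith)]
    split_ifs
    · ring
    · rw [su_B_zero (by rw [abs_of_nonneg (by linarith)]; linarith)]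
      ring
  · intro hk
    by_contra hcon
    push Not at hcon
    apply h
    unfold theta
    rw [if_neg (by omega), su_B_one (by rw [abs_of_nonneg (by linarith)]; linarith),
      su_B_one (by rw [abs_of_nonneg (by linarith)]; linarith)]
    ring

/-- Support of `beta`. -/
theorem su_beta {k m : ℕ} {x : ℝ} (h : beta k m x ≠ 0) :
    |x| * 2 ^ m < 2 ∧ (m < k → 1 / 2 < |x| * 2 ^ m) := by
  have e1 : |(2 : ℝ) ^ m * x| = |x| * 2 ^ m := by
    rw [abs_mul, abs_of_pos (by positivity)]; ring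
  have e2 : |(2 : ℝ) ^ (m + 1) * x| = 2 * (|x| * 2 ^ m) := by
    rw [abs_mul, abs_of_pos (by positivity), pow_succ]; ring
  have h0 : 0 ≤ |x| * 2 ^ m := by positivity
  constructor
  · by_contra hcon
    push Not at hcon
    apply h
    unfold beta
    rw [su_B_zero (by rw [e1]; exact hcon)]
    split_ifs
    · rw [su_B_zero (by rw [e2]; linarith)]
      ring
    · ring
  · intro hk
    by_contra hcon
    push Not at hcon
    apply h
    unfold beta
    rw [if_pos hk, su_B_one (by rw [e1]; linarith), su_B_one (by rw [e2]; linarith)]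
    ring

/-- Each term of `Sk`. -/
theorem su_up {D k : ℕ} {f : ℝ[X]} {x t : ℝ} (h : Sk D (k + 1) f x t < 4) {i : ℕ}
    (hi : i ∈ Finset.Icc 2 D) : |gd f t i x| ≤ 2 ^ (D + 1) * 2 ^ (k * i) := by
  have h1 : (gd f t i x / 2 ^ ((k + 1) * i)) ^ 2 ≤ Sk D (k + 1) f x t :=
    Finset.single_le_sum (f := fun i => (gd f t i x / 2 ^ ((k + 1) * i)) ^ 2)
      (fun _ _ => sq_nonneg _) hi
  have h2 : |gd f t i x / 2 ^ ((k + 1) * i)| < 2 := by
    rw [← abs_of_pos (show (0 : ℝ) < 2 by norm_num)]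
    refine sq_lt_sq.1 ?_
    norm_num
    linarith
  have hp : (0 : ℝ) < 2 ^ ((k + 1) * i) := by positivity
  rw [abs_div, abs_of_pos hp, div_lt_iff₀ hp] at h2
  refine h2.le.trans ?_
  have h3 : (2 : ℝ) * 2 ^ ((k + 1) * i) = 2 ^ (i + 1) * 2 ^ (k * i) := by
    rw [← pow_succ', ← pow_add]
    congr 1
    ring
  rw [h3]
  refine mul_le_mul_of_nonneg_right ?_ (by positivity)
  exact pow_le_pow_right₀ one_le_two (by have := (Finset.mem_Icc.1 hi).2; omega)

/-- A large term of `Sk`. -/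
theorem su_lo {D k : ℕ} (hD : 2 ≤ D) {f : ℝ[X]} {x t : ℝ} (h : 2 < Sk D k f x t) :
    ∃ i ∈ Finset.Icc 2 D, 2 ^ (k * i) / (D : ℝ) ≤ |gd f t i x| := by
  by_contra hcon
  push Not at hcon
  have hD0 : (2 : ℝ) ≤ D := by exact_mod_cast hD
  have h1 : Sk D k f x t ≤ ∑ _i ∈ Finset.Icc 2 D, 1 / (D : ℝ) := by
    refine Finset.sum_le_sum fun i hi => ?_
    have h2 := hcon i hi
    have hp : (0 : ℝ) < 2 ^ (k * i) := by positivity
    have h3 : |gd f t i x / 2 ^ (k * i)| ≤ 1 / D := by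
      rw [abs_div, abs_of_pos hp, div_le_iff₀ hp]
      rw [one_div_mul_eq_div]
      exact h2.le
    calc (gd f t i x / 2 ^ (k * i)) ^ 2 = |gd f t i x / 2 ^ (k * i)| * |gd f t i x / 2 ^ (k * i)| := by
          rw [← sq, sq_abs]
      _ ≤ 1 / D * 1 := by
          refine mul_le_mul h3 (h3.trans ?_) (abs_nonneg _) (by positivity)
          rw [div_le_one (by linarith)]
          linarith
      _ = 1 / D := mul_one _
  rw [Finset.sum_const, Nat.card_Icc, nsmul_eq_mul] at h1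
  have h2 : ((D + 1 - 2 : ℕ) : ℝ) ≤ D := by
    exact_mod_cast (by omega : D + 1 - 2 ≤ D)
  have h3 : ((D + 1 - 2 : ℕ) : ℝ) * (1 / D) ≤ D * (1 / D) :=
    mul_le_mul_of_nonneg_right h2 (by positivity)
  rw [mul_one_div_cancel (by linarith)] at h3
  linarith

/-- Moving the point changes the derivatives by little. -/
theorem su_move {D k : ℕ} {f : ℝ[X]} (hf : f.natDegree ≤ D) {x t z w κ : ℝ} (hκ : 0 < κ)
    (hκ1 : κ ≤ 1) (hup : ∀ i ∈ Finset.Icc 2 D, |gd f t i x| ≤ 2 ^ (D + 1) * 2 ^ (k * i))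
    (hx : |x - z| ≤ κ / 2 ^ k) (ht : |t - w| ≤ κ * 4 ^ k) {i : ℕ} (hi : i ∈ Finset.Icc 2 D) :
    |gd f w i z - gd f t i x| ≤ (D * 2 ^ (D + 1) + 2) * κ * 2 ^ (k * i) := by
  have hi2 := (Finset.mem_Icc.1 hi).1
  have hT := taylor_eval D f hf i x (z - x)
  rw [add_sub_cancel, Finset.sum_range_succ'] at hT
  simp only [add_zero, pow_zero, mul_one, Nat.factorial_zero, Nat.cast_one, div_one] at hT
  have hterm : ∀ l ∈ Finset.range D,
      |(derivative^[i + (l + 1)] f).eval x * (z - x) ^ (l + 1) / ((l + 1).factorial : ℝ)| ≤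
        2 ^ (D + 1) * κ * 2 ^ (k * i) := by
    intro l _
    have hR : 0 ≤ 2 ^ (D + 1) * κ * 2 ^ (k * i) := by positivity
    by_cases hl : i + (l + 1) ≤ D
    · have h1 := hup (i + (l + 1)) (Finset.mem_Icc.2 ⟨by omega, hl⟩)
      have h2 : gd f t (i + (l + 1)) x = (derivative^[i + (l + 1)] f).eval x := by
        unfold gd
        rw [if_neg (by omega), sub_zero]
      rw [h2] at h1
      have h3 : |(z - x) ^ (l + 1)| ≤ (κ / 2 ^ k) ^ (l + 1) := by
        rw [abs_pow, abs_sub_comm]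
        exact pow_le_pow_left₀ (abs_nonneg _) hx _
      have h4 : (1 : ℝ) ≤ ((l + 1).factorial : ℝ) := by
        exact_mod_cast Nat.factorial_pos (l + 1)
      rw [abs_div, abs_mul, abs_of_pos (show (0 : ℝ) < ((l + 1).factorial : ℝ) by linarith)]
      refine (div_le_self (by positivity) h4).trans ?_
      calc |(derivative^[i + (l + 1)] f).eval x| * |(z - x) ^ (l + 1)|
          ≤ 2 ^ (D + 1) * 2 ^ (k * (i + (l + 1))) * (κ / 2 ^ k) ^ (l + 1) :=
            mul_le_mul h1 h3 (abs_nonneg _) (by positivity)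
        _ = 2 ^ (D + 1) * κ ^ (l + 1) * 2 ^ (k * i) := by
            rw [div_pow, ← pow_mul, show k * (i + (l + 1)) = k * i + k * (l + 1) by ring,
              pow_add (2 : ℝ) (k * i) (k * (l + 1))]
            have : (2 : ℝ) ^ (k * (l + 1)) ≠ 0 := by positivity
            field_simp
        _ ≤ 2 ^ (D + 1) * κ * 2 ^ (k * i) := by
            refine mul_le_mul_of_nonneg_right ?_ (by positivity)
            refine mul_le_mul_of_nonneg_left ?_ (by positivity)
            rw [pow_succ]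
            exact mul_le_of_le_one_left hκ.le (pow_le_one₀ hκ.le hκ1)
    · rw [deriv_zero D f hf (i + (l + 1)) (by omega) x, zero_mul, zero_div, abs_zero]
      exact hR
  have hsum : |∑ l ∈ Finset.range D,
      (derivative^[i + (l + 1)] f).eval x * (z - x) ^ (l + 1) / ((l + 1).factorial : ℝ)| ≤
        D * (2 ^ (D + 1) * κ * 2 ^ (k * i)) := by
    refine (Finset.abs_sum_le_sum_abs _ _).trans ((Finset.sum_le_sum hterm).trans ?_)
    rw [Finset.sum_const, Finset.card_range, nsmul_eq_mul]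
  have e : gd f w i z - gd f t i x = (∑ l ∈ Finset.range D,
      (derivative^[i + (l + 1)] f).eval x * (z - x) ^ (l + 1) / ((l + 1).factorial : ℝ)) +
        if i = 2 then 2 * (t - w) else 0 := by
    unfold gd
    rw [hT]
    split_ifs
    · ring
    · ring
  rw [e]
  refine (abs_add_le _ _).trans ?_
  have hw : |if i = 2 then 2 * (t - w) else (0 : ℝ)| ≤ 2 * κ * 2 ^ (k * i) := by
    split_ifs with h2
    · rw [abs_mul, abs_of_pos (show (0 : ℝ) < 2 by norm_num), h2]
      have h4 : (4 : ℝ) ^ k = 2 ^ (k * 2) := by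
        rw [mul_comm, pow_mul]; norm_num
      rw [← h4]
      linarith
    · rw [abs_zero]
      positivity
  calc _ ≤ D * (2 ^ (D + 1) * κ * 2 ^ (k * i)) + 2 * κ * 2 ^ (k * i) := add_le_add hsum hw
    _ = (D * 2 ^ (D + 1) + 2) * κ * 2 ^ (k * i) := by ring

/-- ROW SUPP. Existence of the packet constant. -/
theorem supp (D : ℕ) (hD : 2 ≤ D) : ∃ κ A : ℝ, Good D κ A := by
  have hD0 : (2 : ℝ) ≤ D := by exact_mod_cast hD
  have hM : (4 : ℝ) ≤ 2 ^ (D + 1) := by
    calc (4 : ℝ) = 2 ^ 2 := by norm_num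
      _ ≤ 2 ^ (D + 1) := pow_le_pow_right₀ one_le_two (by omega)
  have hDM : 2 * (D : ℝ) ≤ 2 ^ (D + 1) := by
    have : D < 2 ^ D := Nat.lt_two_pow_self
    have h2 : (D : ℝ) ≤ 2 ^ D := by exact_mod_cast this.le
    rw [pow_succ]
    linarith
  obtain ⟨C, hC⟩ : ∃ C : ℝ, C = D * 2 ^ (D + 1) + 2 := ⟨_, rfl⟩
  have hC1 : 8 ≤ C := by rw [hC]; nlinarith
  have hκ : 0 < 1 / (2 * D * C) := by positivity
  have hκ4 : 1 / (2 * D * C) ≤ 1 / 4 := by
    apply one_div_le_one_div_of_le (by norm_num)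
    nlinarith
  have hCκ : C * (1 / (2 * D * C)) = 1 / (2 * D) := by
    field_simp
  obtain ⟨κ, hκd⟩ : ∃ κ : ℝ, κ = 1 / (2 * D * C) := ⟨_, rfl⟩
  rw [← hκd] at hκ hκ4 hCκ
  refine ⟨κ, 2 ^ (D + 1) + 4, hκ, by linarith, by linarith, ?_⟩
  intro k m f x t z w hmk hf hne hx ht
  have hth : theta D k f x t ≠ 0 := fun h => hne (by rw [h, zero_mul])
  have hbe : beta k m x ≠ 0 := fun h => hne (by rw [h, mul_zero])
  obtain ⟨s1, s0⟩ := su_theta hth
  obtain ⟨b1, b0⟩ := su_beta hbe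
  have hup : ∀ i ∈ Finset.Icc 2 D, |gd f t i x| ≤ 2 ^ (D + 1) * 2 ^ (k * i) := fun i hi => su_up s1 hi
  have hmove : ∀ i ∈ Finset.Icc 2 D, |gd f w i z - gd f t i x| ≤ 1 / (2 * D) * 2 ^ (k * i) := by
    intro i hi
    have h1 := su_move hf hκ (by linarith) hup hx ht hi
    rw [← hC, hCκ] at h1
    exact h1
  have hD2 : 1 / (2 * (D : ℝ)) ≤ 1 := by
    rw [div_le_one (by linarith)]
    linarith
  have hmz : κ / 2 ^ k * 2 ^ m ≤ κ := by
    have h1 : (2 : ℝ) ^ m ≤ 2 ^ k := pow_le_pow_right₀ one_le_two hmk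
    rw [div_mul_eq_mul_div, div_le_iff₀ (by positivity)]
    exact mul_le_mul_of_nonneg_left h1 hκ.le
  have hzx : |z| ≤ |x| + κ / 2 ^ k := by
    have h1 := abs_sub_abs_le_abs_sub z x
    rw [abs_sub_comm z x] at h1
    linarith
  have hxz : |x| ≤ |z| + κ / 2 ^ k := by
    have h1 := abs_sub_abs_le_abs_sub x z
    linarith
  have hm0 : (0 : ℝ) < 2 ^ m := by positivity
  refine ⟨?_, ?_, ?_, ?_⟩
  · intro i hi
    have h1 := hmove i hi
    have h2 := hup i hi
    have h3 : |gd f w i z| ≤ |gd f t i x| + |gd f w i z - gd f t i x| := by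
      have := abs_sub_abs_le_abs_sub (gd f w i z) (gd f t i x)
      linarith
    have hp : (0 : ℝ) < 2 ^ (k * i) := by positivity
    have h4 : 1 / (2 * (D : ℝ)) * 2 ^ (k * i) ≤ 1 * 2 ^ (k * i) :=
      mul_le_mul_of_nonneg_right hD2 hp.le
    nlinarith
  · intro hk
    obtain ⟨i, hi, hil⟩ := su_lo hD (s0 hk)
    refine ⟨i, hi, ?_⟩
    have h1 := hmove i hi
    have h3 : |gd f t i x| ≤ |gd f w i z| + |gd f w i z - gd f t i x| := by
      have := abs_sub_abs_le_abs_sub (gd f t i x) (gd f w i z)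
      rw [abs_sub_comm (gd f t i x)] at this
      linarith
    have hp : (0 : ℝ) < 2 ^ (k * i) := by positivity
    have h5 : 2 ^ (k * i) / (D : ℝ) - 1 / (2 * (D : ℝ)) * 2 ^ (k * i) = 2 ^ (k * i) / (2 * D) := by
      field_simp
      ring
    have h6 : 2 ^ (k * i) / (2 * (D : ℝ)) ≤ |gd f w i z| := by
      rw [← h5]; linarith
    rw [div_le_iff₀ (by linarith)] at h6
    refine h6.trans ?_
    rw [mul_comm]
    exact mul_le_mul_of_nonneg_right (by linarith) (abs_nonneg _)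
  · have h1 : |z| * 2 ^ m ≤ (|x| + κ / 2 ^ k) * 2 ^ m := mul_le_mul_of_nonneg_right hzx hm0.le
    rw [add_mul] at h1
    linarith
  · intro hlt
    have h1 : |x| * 2 ^ m ≤ (|z| + κ / 2 ^ k) * 2 ^ m := mul_le_mul_of_nonneg_right hxz hm0.le
    rw [add_mul] at h1
    have h2 := b0 hlt
    have h3 : 1 / 4 ≤ |z| * 2 ^ m := by linarith
    nlinarith

end Pool.Agent.SEP
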