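import Pool.Agent.SEPH.HH
import Pool.Agent.SEPH.DY
import Pool.Agent.SEPH.GEO
import Pool.Agent.SEPH.SUM1
import Pool.Agent.SEPH.SUM2
import Pool.Agent.SEPH.SUPP
import Pool.Agent.SEPH.Defs

/-!
Row CB: the class bound.
-/

namespace Pool.Agent.SEP

open MeasureTheory Set Pool.Agent.MP_6cbfb8_an Polynomial
open scoped ENNReal Real

/-! LOCAL COPIES (to be replaced by imports) -/








/-! END OF THE LOCAL COPIES -/

/-- ROW CB. The class bound: HH + DYP + GEO + (SUM1 if some `m_i < m0`; EMPT and SUM2 otherwise: only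
the `i` with `1 ≤ 2·2^i om` contribute and `2^{-i(N-E)} ≤ (2om)^{N-E}`), `N` large. `p = 2+a`. -/
theorem cb (n D : ℕ) (hn : 4 ≤ n) (hD : 2 ≤ D) (a : ℝ) (ha : 2 / ((n : ℝ) - 1) < a)
    (ha1 : a ≤ 17 / 25) : ∃ C ε : ℝ, 0 < C ∧ 0 < ε ∧
    ∀ (T : ℝ) (k m : Fin n → ℕ) (f : Fin n → ℝ[X]) (J : Fin n), 0 < T → (∀ j, k J ≤ k j) →
      (∀ j, m j ≤ k j) → (∀ j, (f j).natDegree ≤ D) → (4 : ℝ) ^ k J ≤ 8 * T →
      ∫⁻ y : Fin n → ℝ, ‖Fc D T k m f y‖ₑ ^ (2 + a) ≤
        ENNReal.ofReal (C * (2 : ℝ) ^ (-ε * ∑ j, ((k j : ℝ) + m j))) := by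
  classical
  obtain ⟨κ, A, hG⟩ := supp D hD
  have hA : 1 ≤ A := hG.2.2.1
  have ha0 : 0 < a := by
    have h1 : (0 : ℝ) < (n : ℝ) - 1 := by
      have : (4 : ℝ) ≤ n := by exact_mod_cast hn
      linarith
    exact lt_trans (by positivity) ha
  have ha2 : a < 1 := by linarith
  obtain ⟨θ, hθ, hθ1, hs1⟩ := sum1 n hn a ha ha1
  obtain ⟨m0, hm0⟩ := empt n A
  obtain ⟨C1, ε1, hC1, hε1, h1⟩ := hs1 m0
  obtain ⟨N2, C2, ε2, hC2, hε2, h2⟩ := sum2 n hn a θ ha0 ha2
  obtain ⟨Cg, E, hCg, hg⟩ := geo n D hD A hA a θ ha0 ha2 hθ hθ1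
  obtain ⟨N, hN⟩ : ∃ N : ℕ, N = E + N2 + 2 := ⟨_, rfl⟩
  obtain ⟨Ch, hCh, hh1⟩ := hh n D (by omega) hD κ A hG N (by omega) (2 + a) (by linarith)
  obtain ⟨Cd, hCd, hd⟩ := dyp n D A N (by omega) (1 + a) (by linarith)
  obtain ⟨C', hC'⟩ : ∃ C' : ℝ, C' = Cg * (C1 + 2 ^ (N2 + 1) * C2) := ⟨_, rfl⟩
  have hC'0 : 0 ≤ C' := by
    rw [hC']
    positivity
  refine ⟨Ch * Cd * C' * 2 ^ n * 2 + 1, min ε1 ε2, by positivity, lt_min hε1 hε2, ?_⟩
  intro T k m f J hT hJ hmk hf hJT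
  obtain ⟨S, hS⟩ : ∃ S : ℝ, S = ∑ j, ((k j : ℝ) + m j) := ⟨_, rfl⟩
  have hS0 : 0 ≤ S := by
    rw [hS]
    positivity
  rw [← hS]
  obtain ⟨P, hP⟩ : ∃ P : ℝ, P = ∏ j, (2 : ℝ) ^ k j := ⟨_, rfl⟩
  obtain ⟨Q, hQ⟩ : ∃ Q : ℝ, Q = ∏ j, (1 / 2 ^ k j : ℝ) := ⟨_, rfl⟩
  have hP0 : 0 < P := by
    rw [hP]
    positivity
  have hQ0 : 0 < Q := by
    rw [hQ]
    positivity
  have hPQ : Q * P = 1 := by
    rw [hP, hQ, ← Finset.prod_mul_distrib]
    refine Finset.prod_eq_one fun j _ => ?_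
    rw [one_div, inv_mul_cancel₀ (by positivity)]
  have hom : 0 < om k m := by
    unfold om
    exact Finset.sum_pos (fun j _ => by positivity) ⟨⟨0, by omega⟩, Finset.mem_univ _⟩
  have hexp : ∀ ε, min ε1 ε2 ≤ ε → (2 : ℝ) ^ (-ε * S) ≤ (2 : ℝ) ^ (-(min ε1 ε2) * S) := by
    intro ε hε
    refine Real.rpow_le_rpow_of_exponent_le one_le_two ?_
    nlinarith
  -- the term for `i` and `σ`
  have hterm : ∀ (i : ℕ) (σ : Finset (Fin n)), ENNReal.ofReal (1 / 2 ^ (i * N)) *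
      ∫⁻ Y : Fin n → ℝ, volume (Zs D A k m f σ (2 ^ i) Y) ^ (1 + a) ≤
      ENNReal.ofReal (C' * (om k m * P) * (2 : ℝ) ^ (-(min ε1 ε2) * S) * (1 / 2) ^ i) := by
    intro i σ
    obtain ⟨X, hX⟩ : ∃ X : ℝ, X = 4 ^ k J * (∏ j, (1 / 2 ^ m j : ℝ)) *
        ((∏ j, (1 / 2 ^ k j : ℝ)) * Tb θ k m σ J) ^ a := ⟨_, rfl⟩
    have hgg := hg k m f σ (2 ^ i) J hJ hmk hf (one_le_pow₀ one_le_two)
    rw [← hX, ← hP] at hgg
    have hiN : (2 : ℝ) ^ (i * N) = (2 ^ i) ^ E * ((2 ^ i) ^ (N2 + 1) * 2 ^ i) := by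
      rw [← pow_mul, ← pow_mul, ← pow_add, ← pow_add, hN]
      congr 1
      ring
    have hhalf : ((1 : ℝ) / 2) ^ i = 1 / 2 ^ i := by rw [one_div_pow]
    by_cases hm : ∃ j, m j ≤ m0
    · have hX1 := h1 k m σ J hJ hmk hm
      rw [← hX, ← hS] at hX1
      calc ENNReal.ofReal (1 / 2 ^ (i * N)) * ∫⁻ Y : Fin n → ℝ, volume (Zs D A k m f σ (2 ^ i) Y) ^ (1 + a)
          ≤ ENNReal.ofReal (1 / 2 ^ (i * N)) * ENNReal.ofReal (Cg * (2 ^ i) ^ E * om k m * P * X) := by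
            gcongr
        _ = ENNReal.ofReal (1 / 2 ^ (i * N) * (Cg * (2 ^ i) ^ E * om k m * P * X)) :=
            (ENNReal.ofReal_mul (by positivity)).symm
        _ ≤ _ := by
            refine ENNReal.ofReal_le_ofReal ?_
            have e1 : 1 / (2 : ℝ) ^ (i * N) * (Cg * (2 ^ i) ^ E * om k m * P * X) =
                (Cg * (om k m * P) * (1 / 2) ^ i) * (1 / (2 ^ i) ^ (N2 + 1)) * X := by
              rw [hiN, hhalf]
              field_simp
            rw [e1]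
            have e2 : 1 / ((2 : ℝ) ^ i) ^ (N2 + 1) ≤ 1 := by
              rw [div_le_one (by positivity)]
              exact one_le_pow₀ (one_le_pow₀ one_le_two)
            have e3 : (Cg * (om k m * P) * (1 / 2) ^ i) * (1 / (2 ^ i) ^ (N2 + 1)) * X ≤
                (Cg * (om k m * P) * (1 / 2) ^ i) * (1 / (2 ^ i) ^ (N2 + 1)) * (C1 * (2 : ℝ) ^ (-ε1 * S)) :=
              mul_le_mul_of_nonneg_left hX1 (by positivity)
            refine e3.trans ?_
            have e4 : (2 : ℝ) ^ (-ε1 * S) ≤ (2 : ℝ) ^ (-(min ε1 ε2) * S) := hexp ε1 (min_le_left _ _)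
            calc (Cg * (om k m * P) * (1 / 2) ^ i) * (1 / (2 ^ i) ^ (N2 + 1)) * (C1 * (2 : ℝ) ^ (-ε1 * S))
                ≤ (Cg * (om k m * P) * (1 / 2) ^ i) * 1 * (C1 * (2 : ℝ) ^ (-(min ε1 ε2) * S)) := by gcongr
              _ = Cg * C1 * (om k m * P) * (2 : ℝ) ^ (-(min ε1 ε2) * S) * (1 / 2) ^ i := by ring
              _ ≤ C' * (om k m * P) * (2 : ℝ) ^ (-(min ε1 ε2) * S) * (1 / 2) ^ i := by
                gcongr
                rw [hC']
                have : 0 ≤ Cg * (2 ^ (N2 + 1) * C2) := by positivity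
                linarith [mul_add Cg C1 (2 ^ (N2 + 1) * C2)]
    · push Not at hm
      by_cases hne : (Zf D A k m f σ (2 ^ i)).Nonempty
      · have hio := hm0 D k m f σ (2 ^ i) (fun j => (hm j).le) hne
        have hX2 := h2 k m σ J hJ hmk
        rw [← hX, ← hS] at hX2
        calc ENNReal.ofReal (1 / 2 ^ (i * N)) * ∫⁻ Y : Fin n → ℝ, volume (Zs D A k m f σ (2 ^ i) Y) ^ (1 + a)
            ≤ ENNReal.ofReal (1 / 2 ^ (i * N)) * ENNReal.ofReal (Cg * (2 ^ i) ^ E * om k m * P * X) := by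
              gcongr
          _ = ENNReal.ofReal (1 / 2 ^ (i * N) * (Cg * (2 ^ i) ^ E * om k m * P * X)) :=
              (ENNReal.ofReal_mul (by positivity)).symm
          _ ≤ _ := by
              refine ENNReal.ofReal_le_ofReal ?_
              have hXn : 0 ≤ X := by
                rw [hX]
                have hTb : 0 ≤ Tb θ k m σ J := by
                  unfold Tb
                  refine le_min (by positivity) (Real.iInf_nonneg fun j => ?_)
                  unfold tj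
                  split_ifs <;> positivity
                positivity
              have e1 : 1 / (2 : ℝ) ^ (i * N) * (Cg * (2 ^ i) ^ E * om k m * P * X) =
                  (Cg * (om k m * P) * (1 / 2) ^ i) * ((1 / 2 ^ i) ^ (N2 + 1) * X) := by
                rw [hiN, hhalf, one_div_pow ((2 : ℝ) ^ i) (N2 + 1)]
                field_simp
              have e2 : (1 : ℝ) / 2 ^ i ≤ 2 * om k m := by
                rw [div_le_iff₀ (by positivity)]
                linarith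
              have e2' : (1 : ℝ) / 2 ^ i ≤ 1 := by
                rw [div_le_one (by positivity)]
                exact one_le_pow₀ one_le_two
              have e5 : ((1 : ℝ) / 2 ^ i) ^ (N2 + 1) ≤ 2 ^ (N2 + 1) * om k m ^ N2 := by
                calc ((1 : ℝ) / 2 ^ i) ^ (N2 + 1) = (1 / 2 ^ i) ^ N2 * (1 / 2 ^ i) := pow_succ _ _
                  _ ≤ (2 * om k m) ^ N2 * 1 := by gcongr
                  _ = 2 ^ N2 * om k m ^ N2 := by rw [mul_pow, mul_one]
                  _ ≤ 2 ^ (N2 + 1) * om k m ^ N2 := by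
                    gcongr
                    · exact one_le_two
                    · omega
              rw [e1]
              have e4 : (2 : ℝ) ^ (-ε2 * S) ≤ (2 : ℝ) ^ (-(min ε1 ε2) * S) := hexp ε2 (min_le_right _ _)
              calc (Cg * (om k m * P) * (1 / 2) ^ i) * ((1 / 2 ^ i) ^ (N2 + 1) * X)
                  ≤ (Cg * (om k m * P) * (1 / 2) ^ i) * (2 ^ (N2 + 1) * om k m ^ N2 * X) := by gcongr
                _ = (Cg * (om k m * P) * (1 / 2) ^ i) * (2 ^ (N2 + 1) * (om k m ^ N2 * X)) := by ring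
                _ ≤ (Cg * (om k m * P) * (1 / 2) ^ i) * (2 ^ (N2 + 1) * (C2 * (2 : ℝ) ^ (-ε2 * S))) := by
                  gcongr
                _ ≤ (Cg * (om k m * P) * (1 / 2) ^ i) * (2 ^ (N2 + 1) * (C2 * (2 : ℝ) ^ (-(min ε1 ε2) * S))) := by
                  gcongr
                _ = Cg * (2 ^ (N2 + 1) * C2) * (om k m * P) * (2 : ℝ) ^ (-(min ε1 ε2) * S) * (1 / 2) ^ i := by ring
                _ ≤ C' * (om k m * P) * (2 : ℝ) ^ (-(min ε1 ε2) * S) * (1 / 2) ^ i := by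
                  gcongr
                  rw [hC']
                  have : 0 ≤ Cg * C1 := by positivity
                  linarith [mul_add Cg C1 (2 ^ (N2 + 1) * C2)]
      · have hZ : ∀ Y, volume (Zs D A k m f σ (2 ^ i) Y) ^ (1 + a) = 0 := by
          intro Y
          have h0 : Zs D A k m f σ (2 ^ i) Y = ∅ := by
            rw [Set.eq_empty_iff_forall_notMem]
            intro p hp
            exact hne ⟨p, hp.1⟩
          rw [h0, measure_empty, ENNReal.zero_rpow_of_pos (by linarith)]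
        simp [hZ]
  obtain ⟨R, hR⟩ : ∃ R : ℝ, R = C' * (om k m * P) * (2 : ℝ) ^ (-(min ε1 ε2) * S) := ⟨_, rfl⟩
  have hR0 : 0 ≤ R := by
    rw [hR]
    positivity
  have hsum : ∑' i : ℕ, ∑ σ : Finset (Fin n), ENNReal.ofReal (1 / 2 ^ (i * N)) *
      ∫⁻ Y : Fin n → ℝ, volume (Zs D A k m f σ (2 ^ i) Y) ^ (1 + a) ≤ ENNReal.ofReal (2 ^ n * R * 2) := by
    calc ∑' i : ℕ, ∑ σ : Finset (Fin n), ENNReal.ofReal (1 / 2 ^ (i * N)) *
        ∫⁻ Y : Fin n → ℝ, volume (Zs D A k m f σ (2 ^ i) Y) ^ (1 + a)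
        ≤ ∑' i : ℕ, ENNReal.ofReal (2 ^ n * R) * ENNReal.ofReal ((1 / 2) ^ i) := by
          refine ENNReal.tsum_le_tsum fun i => ?_
          calc ∑ σ : Finset (Fin n), ENNReal.ofReal (1 / 2 ^ (i * N)) *
              ∫⁻ Y : Fin n → ℝ, volume (Zs D A k m f σ (2 ^ i) Y) ^ (1 + a)
              ≤ ∑ _σ : Finset (Fin n), ENNReal.ofReal (R * (1 / 2) ^ i) :=
                Finset.sum_le_sum fun σ _ => by rw [hR]; exact hterm i σ
            _ = ENNReal.ofReal (2 ^ n * R) * ENNReal.ofReal ((1 / 2) ^ i) := by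
                rw [Finset.sum_const, Finset.card_univ, Fintype.card_finset, Fintype.card_fin, nsmul_eq_mul,
                  ← ENNReal.ofReal_mul (by positivity)]
                push_cast
                have e6 : (2 : ℝ≥0∞) ^ n = ENNReal.ofReal (2 ^ n) := by
                  rw [ENNReal.ofReal_pow (by norm_num)]
                  norm_num
                rw [e6, ← ENNReal.ofReal_mul (by positivity)]
                congr 1
                ring
      _ = ENNReal.ofReal (2 ^ n * R * 2) := by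
          rw [ENNReal.tsum_mul_left, ← ENNReal.ofReal_tsum_of_nonneg (fun i => by positivity)
            summable_geometric_two, tsum_geometric_two, ← ENNReal.ofReal_mul (by positivity)]
  calc ∫⁻ y : Fin n → ℝ, ‖Fc D T k m f y‖ₑ ^ (2 + a)
      ≤ ENNReal.ofReal (Ch * (∏ j, (1 / 2 ^ k j : ℝ)) / om k m) *
          ∫⁻ Y : Fin n → ℝ, (∫⁻ q, Wt N D A k m f Y q) ^ (2 + a - 1) := hh1 T k m f J hT hmk hf hJT
    _ = ENNReal.ofReal (Ch * Q / om k m) *
          ∫⁻ Y : Fin n → ℝ, (∫⁻ q, Wt N D A k m f Y q) ^ (1 + a) := by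
        rw [← hQ, show (2 : ℝ) + a - 1 = 1 + a by ring]
    _ ≤ ENNReal.ofReal (Ch * Q / om k m) * (ENNReal.ofReal Cd * ENNReal.ofReal (2 ^ n * R * 2)) := by
        gcongr
        exact (hd k m f (by omega)).trans (by gcongr)
    _ = ENNReal.ofReal (Ch * Q / om k m * (Cd * (2 ^ n * R * 2))) := by
        rw [← ENNReal.ofReal_mul hCd, ← ENNReal.ofReal_mul (by positivity)]
    _ ≤ ENNReal.ofReal ((Ch * Cd * C' * 2 ^ n * 2 + 1) * (2 : ℝ) ^ (-(min ε1 ε2) * S)) := by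
        refine ENNReal.ofReal_le_ofReal ?_
        have e7 : Ch * Q / om k m * (Cd * (2 ^ n * R * 2)) =
            (Q * P) * (Ch * Cd * C' * 2 ^ n * 2 * (2 : ℝ) ^ (-(min ε1 ε2) * S)) := by
          rw [hR]
          field_simp
        rw [e7, hPQ, one_mul]
        have : 0 ≤ (2 : ℝ) ^ (-(min ε1 ε2) * S) := by positivity
        nlinarith

end Pool.Agent.SEP
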