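import Pool.Agent.GNP.P1h
import Pool.Agent.SEPH.Defs

/-!
Row CL: uniform decay of the Fourier transform of a compact smooth family.
-/

namespace Pool.Agent.SEP

open MeasureTheory Set Metric Pool.Agent.MP_6cbfb8_an Polynomial
open scoped ENNReal Real FourierTransform ContDiff

/-- Partial derivatives in the first variable. -/
theorem cl_part {V P : Type*} [NormedAddCommGroup V] [NormedSpace ℝ V] [NormedAddCommGroup P]
    [NormedSpace ℝ P] (Ξ : V × P → ℂ) (hΞ : ContDiff ℝ ∞ Ξ) (j : ℕ) (u : V) (q : P) :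
    ‖iteratedFDeriv ℝ j (fun u => Ξ (u, q)) u‖ ≤ ‖iteratedFDeriv ℝ j Ξ (u, q)‖ := by
  have h0 : (fun u : V => Ξ (u, q)) =
      (fun x : V × P => Ξ (x + (0, q))) ∘ (ContinuousLinearMap.inl ℝ V P) := by
    funext u
    simp
  have h1 : ContDiff ℝ j fun x : V × P => Ξ (x + (0, q)) :=
    (hΞ.comp (contDiff_id.add contDiff_const)).of_le (by exact_mod_cast le_top)
  rw [h0, ContinuousLinearMap.iteratedFDeriv_comp_right _ h1 _ (by exact_mod_cast le_rfl)]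
  refine (ContinuousMultilinearMap.norm_compContinuousLinearMap_le _ _).trans ?_
  rw [iteratedFDeriv_comp_add_right]
  have h2 : ∏ _i : Fin j, ‖ContinuousLinearMap.inl ℝ V P‖ ≤ 1 := by
    refine Finset.prod_le_one (fun _ _ => norm_nonneg _) fun _ _ => ?_
    exact ContinuousLinearMap.norm_inl_le_one ℝ V P
  have h3 : (ContinuousLinearMap.inl ℝ V P) u + (0, q) = (u, q) := by simp
  rw [h3]
  calc ‖iteratedFDeriv ℝ j Ξ (u, q)‖ * ∏ _i : Fin j, ‖ContinuousLinearMap.inl ℝ V P‖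
      ≤ ‖iteratedFDeriv ℝ j Ξ (u, q)‖ * 1 := by gcongr
    _ = _ := mul_one _

/-- ROW CL. -/
theorem cl {d : ℕ} {P : Type} [NormedAddCommGroup P] [NormedSpace ℝ P] [FiniteDimensional ℝ P]
    (Ξ : E d × P → ℂ) (hΞ : ContDiff ℝ (⊤ : ℕ∞) Ξ) (R : ℝ) (hs : ∀ u q, R < ‖u‖ → Ξ (u, q) = 0)
    (Q : Set P) (hQ : IsCompact Q) (N : ℕ) : ∃ C : ℝ, ∀ q ∈ Q, ∀ μ : E d,
      ‖∫ u : E d, Complex.exp (((inner ℝ μ u : ℝ) : ℂ) * Complex.I) * Ξ (u, q)‖ ≤
        C * (1 / (1 + ‖μ‖)) ^ N := by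
  obtain ⟨C, hC, hfd⟩ := Pool.Agent.GPH.fourier_decay d N R
  have hK : IsCompact (closedBall (0 : E d) R ×ˢ Q) := (isCompact_closedBall _ _).prod hQ
  have hb : ∀ j : ℕ, ∃ M : ℝ, ∀ x ∈ closedBall (0 : E d) R ×ˢ Q, ‖iteratedFDeriv ℝ j Ξ x‖ ≤ M :=
    fun j => hK.exists_bound_of_continuousOn
      (hΞ.continuous_iteratedFDeriv (m := j) (by exact_mod_cast le_top)).continuousOn
  choose M hM using hb
  set B : ℝ := ∑ j ∈ Finset.range (N + 1), |M j| with hB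
  refine ⟨C * B * (2 * π) ^ N, fun q hq μ => ?_⟩
  have hsm : ContDiff ℝ ∞ fun u : E d => Ξ (u, q) :=
    hΞ.comp (contDiff_id.prodMk contDiff_const)
  have h1 := hfd (fun u => Ξ (u, q)) B (hsm.of_le (by exact_mod_cast le_top))
    (fun v hv => hs v q hv) (fun j hj v hv => by
      refine (cl_part Ξ hΞ j v q).trans ((hM j (v, q) ⟨by simpa using hv, hq⟩).trans ?_)
      refine (le_abs_self _).trans ?_
      exact Finset.single_le_sum (f := fun j => |M j|) (fun i _ => abs_nonneg _)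
        (Finset.mem_range.2 (Nat.lt_succ_iff.2 hj))) ((-(2 * π)⁻¹) • μ)
  have h2 : 𝓕 (fun u => Ξ (u, q)) ((-(2 * π)⁻¹) • μ) =
      ∫ u : E d, Complex.exp (((inner ℝ μ u : ℝ) : ℂ) * Complex.I) * Ξ (u, q) := by
    rw [Real.fourier_eq']
    refine integral_congr_ae (Filter.Eventually.of_forall fun u => ?_)
    simp only [smul_eq_mul]
    congr 3
    rw [real_inner_smul_right, real_inner_comm]
    have := Real.pi_ne_zero
    push_cast
    field_simp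
  rw [h2] at h1
  have hμ : 1 + ‖μ‖ ≤ 2 * π * (1 + ‖(-(2 * π)⁻¹) • μ‖) := by
    rw [norm_smul, norm_neg, norm_inv, Real.norm_of_nonneg (by positivity), mul_add, mul_one,
      mul_inv_cancel_left₀ (by positivity)]
    have := Real.pi_gt_three
    linarith
  have h3 : (1 + ‖μ‖) ^ N ≤ (2 * π) ^ N * (1 + ‖(-(2 * π)⁻¹) • μ‖) ^ N := by
    rw [← mul_pow]
    exact pow_le_pow_left₀ (by positivity) hμ N
  have h4 : (0 : ℝ) < (1 + ‖μ‖) ^ N := by positivity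
  rw [div_pow, one_pow, mul_one_div, le_div_iff₀ h4]
  calc ‖∫ u : E d, Complex.exp (((inner ℝ μ u : ℝ) : ℂ) * Complex.I) * Ξ (u, q)‖ * (1 + ‖μ‖) ^ N
      ≤ ‖∫ u : E d, Complex.exp (((inner ℝ μ u : ℝ) : ℂ) * Complex.I) * Ξ (u, q)‖ *
          ((2 * π) ^ N * (1 + ‖(-(2 * π)⁻¹) • μ‖) ^ N) := by gcongr
    _ = (‖∫ u : E d, Complex.exp (((inner ℝ μ u : ℝ) : ℂ) * Complex.I) * Ξ (u, q)‖ *
          (1 + ‖(-(2 * π)⁻¹) • μ‖) ^ N) * (2 * π) ^ N := by ring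
    _ ≤ C * B * (2 * π) ^ N := by gcongr

end Pool.Agent.SEP
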