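import Pool.Agent.SEPH.KY

/-!
The finite decomposition (row DC).
-/

namespace Pool.Agent.SEP

open MeasureTheory Set Filter Topology Pool.Agent.MP_6cbfb8_an Polynomial
open scoped ENNReal Real

theorem dc_bound (D : ℕ) (f : ℝ[X]) : ∃ M : ℝ, 0 ≤ M ∧ ∀ i ∈ Finset.Icc 2 D, ∀ x : ℝ, |x| ≤ 2 →
    |(derivative^[i] f).eval x| ≤ M := by
  have h1 : ∀ i : ℕ, ∃ M : ℝ, 0 ≤ M ∧ ∀ x : ℝ, |x| ≤ 2 → |(derivative^[i] f).eval x| ≤ M := by
    intro i
    obtain ⟨K, hK⟩ := (isCompact_Icc (a := (-2 : ℝ)) (b := 2)).exists_bound_of_continuousOn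
      (f := fun x => (derivative^[i] f).eval x) (Polynomial.continuous _).continuousOn
    refine ⟨max K 0, le_max_right _ _, fun x hx => ?_⟩
    exact (hK x (abs_le.1 hx)).trans (le_max_left _ _)
  choose M hM0 hM using h1
  refine ⟨∑ i ∈ Finset.Icc 2 D, M i, Finset.sum_nonneg fun i _ => hM0 i, fun i hi x hx => ?_⟩
  exact (hM i x hx).trans (Finset.single_le_sum (f := M) (fun j _ => hM0 j) hi)

theorem dc_Sk_le (D : ℕ) (f : ℝ[X]) {M : ℝ} (hM0 : 0 ≤ M)
    (hM : ∀ i ∈ Finset.Icc 2 D, ∀ x : ℝ, |x| ≤ 2 → |(derivative^[i] f).eval x| ≤ M) {T : ℝ}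
    (hT : 1 + M * (D + 1) ≤ T) {L : ℕ} (hL : 8 * T ≤ 4 ^ L) {x t : ℝ} (hx : |x| ≤ 2)
    (ht : |t| ≤ 2 * T) : Sk D L f x t ≤ 2 := by
  have hD1 : (0 : ℝ) < (D : ℝ) + 1 := by positivity
  have hT1 : 1 ≤ T := by nlinarith
  have hTM : M * (D + 1) ≤ T := by linarith
  have key : ∀ i ∈ Finset.Icc 2 D, (gd f t i x / 2 ^ (L * i)) ^ 2 ≤
      1 / ((D : ℝ) + 1) + if i = 2 then 1 else 0 := by
    intro i hi
    have hi2 : 2 ≤ i := (Finset.mem_Icc.1 hi).1
    have h1 : (4 : ℝ) ^ L ≤ 2 ^ (L * i) := by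
      rw [show (4 : ℝ) ^ L = 2 ^ (L * 2) by rw [pow_mul']; norm_num]
      exact pow_le_pow_right₀ (by norm_num) (Nat.mul_le_mul_left L hi2)
    have h2 : |gd f t i x| ≤ M + if i = 2 then 4 * T else 0 := by
      unfold gd
      refine (abs_sub _ _).trans (add_le_add (hM i hi x hx) ?_)
      split_ifs
      · rw [abs_mul, abs_two]
        linarith
      · simp
    have h3 : |gd f t i x / 2 ^ (L * i)| ≤ (M + if i = 2 then 4 * T else 0) / (8 * T) := by
      rw [abs_div, abs_of_pos (by positivity : (0 : ℝ) < 2 ^ (L * i))]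
      apply div_le_div₀ _ h2 (by positivity) (hL.trans h1)
      have : (0 : ℝ) ≤ if i = 2 then 4 * T else 0 := by
        split_ifs
        · positivity
        · exact le_rfl
      positivity
    have h4 : M / (8 * T) ≤ 1 / (8 * ((D : ℝ) + 1)) := by
      rw [div_le_div_iff₀ (by positivity) (by positivity)]
      nlinarith
    have h5 : (0 : ℝ) ≤ M / (8 * T) := by positivity
    have h6 : 1 / (8 * ((D : ℝ) + 1)) ≤ 1 / 8 := by
      apply one_div_le_one_div_of_le (by norm_num)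
      have : (0 : ℝ) ≤ D := Nat.cast_nonneg D
      linarith
    have h7 : 1 / (8 * ((D : ℝ) + 1)) = 1 / 8 * (1 / ((D : ℝ) + 1)) := by field_simp
    have h8 : (0 : ℝ) < 1 / ((D : ℝ) + 1) := by positivity
    rw [← sq_abs]
    split_ifs with h
    · rw [if_pos h] at h3
      have h9 : (M + 4 * T) / (8 * T) = M / (8 * T) + 1 / 2 := by field_simp; ring
      rw [h9] at h3
      have h10 : |gd f t i x / 2 ^ (L * i)| ≤ 1 := by linarith
      have h11 := abs_nonneg (gd f t i x / 2 ^ (L * i))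
      nlinarith
    · rw [if_neg h, add_zero] at h3
      have h10 : |gd f t i x / 2 ^ (L * i)| ≤ 1 / 8 * (1 / ((D : ℝ) + 1)) := by linarith
      have h11 := abs_nonneg (gd f t i x / 2 ^ (L * i))
      have h12 : |gd f t i x / 2 ^ (L * i)| ≤ 1 / 8 := by linarith
      nlinarith
  unfold Sk
  refine (Finset.sum_le_sum key).trans ?_
  rw [Finset.sum_add_distrib]
  have h1 : ∑ i ∈ Finset.Icc 2 D, 1 / ((D : ℝ) + 1) ≤ 1 := by
    rw [Finset.sum_const, nsmul_eq_mul, Nat.card_Icc, mul_one_div, div_le_one hD1]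
    have h0 : ((D + 1 - 2 : ℕ) : ℝ) ≤ ((D + 1 : ℕ) : ℝ) := Nat.cast_le.2 (Nat.sub_le _ _)
    have h1 : ((D + 1 : ℕ) : ℝ) = (D : ℝ) + 1 := by push_cast; ring
    rw [h1] at h0
    exact h0
  have h2 : ∑ i ∈ Finset.Icc 2 D, (if i = 2 then (1 : ℝ) else 0) ≤ 1 := by
    rw [Finset.sum_ite_eq']
    split_ifs <;> norm_num
  linarith

theorem dc_sum_theta (D L : ℕ) (f : ℝ[X]) (x t : ℝ) :
    ∑ k ∈ Finset.range (L + 1), theta D k f x t = B (Sk D (L + 1) f x t / 2) := by
  induction L with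
  | zero => simp [theta]
  | succ L ih =>
    rw [Finset.sum_range_succ, ih]
    unfold theta
    rw [if_neg (by omega : ¬ L + 1 = 0)]
    ring

theorem dc_sum_beta (k : ℕ) (x : ℝ) : ∑ m ∈ Finset.range (k + 1), beta k m x = B x := by
  have h1 : ∀ j ≤ k, ∑ m ∈ Finset.range j, beta k m x = B x - B (2 ^ j * x) := by
    intro j
    induction j with
    | zero => simp
    | succ j ih =>
      intro hj
      rw [Finset.sum_range_succ, ih (by omega)]
      unfold beta
      rw [if_pos (by omega : j < k)]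
      ring
  rw [Finset.sum_range_succ, h1 k le_rfl]
  unfold beta
  rw [if_neg (lt_irrefl k)]
  ring

/-- The index set. -/
def dcS (L : ℕ) : Finset (ℕ × ℕ) :=
  (Finset.range L ×ˢ Finset.range L).filter fun q : ℕ × ℕ => q.2 ≤ q.1

theorem dc_sum (D L : ℕ) (f : ℝ[X]) (x t : ℝ) :
    ∑ q ∈ dcS (L + 1), theta D q.1 f x t * beta q.1 q.2 x = B (Sk D (L + 1) f x t / 2) * B x := by
  unfold dcS
  rw [Finset.sum_filter, Finset.sum_product, ← dc_sum_theta, Finset.sum_mul]
  refine Finset.sum_congr rfl fun k hk => ?_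
  rw [← dc_sum_beta k x, Finset.mul_sum, ← Finset.sum_filter]
  refine Finset.sum_congr ?_ fun m _ => rfl
  ext m
  simp only [Finset.mem_filter, Finset.mem_range] at hk ⊢
  omega

/-- The integrand of `I1c`. -/
noncomputable def dcP (D k m : ℕ) (f : ℝ[X]) (y : ℝ) (t x : ℝ) : ℂ :=
  ((theta D k f x t * beta k m x : ℝ) : ℂ) *
    Complex.exp (((f.eval x - t * x ^ 2 - y * x : ℝ) : ℂ) * Complex.I)

theorem dc_continuous_P (D k m : ℕ) (f : ℝ[X]) (y : ℝ) :
    Continuous fun r : ℝ × ℝ => dcP D k m f y r.1 r.2 := by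
  have h1 : Continuous fun r : ℝ × ℝ => theta D k f r.2 r.1 := by
    have h0 : Continuous fun r : ℝ × ℝ => (r.2, r.1) := by fun_prop
    have h00 := (ky_continuous_theta D k f).comp h0
    simpa only [Function.comp_def] using h00
  have h2 : Continuous fun r : ℝ × ℝ => beta k m r.2 := (ky_continuous_beta k m).comp continuous_snd
  have h4 : Continuous fun r : ℝ × ℝ => f.eval r.2 := f.continuous.comp continuous_snd
  have h6 : Continuous fun r : ℝ × ℝ => f.eval r.2 - r.1 * r.2 ^ 2 - y * r.2 :=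
    (h4.sub (by fun_prop)).sub (by fun_prop)
  unfold dcP
  exact (Complex.continuous_ofReal.comp (h1.mul h2)).mul
    (Complex.continuous_exp.comp ((Complex.continuous_ofReal.comp h6).mul continuous_const))

theorem dc_P_zero (D k m : ℕ) (f : ℝ[X]) (y t : ℝ) {x : ℝ} (hx : 2 ≤ |x|) :
    dcP D k m f y t x = 0 := by
  unfold dcP
  rw [ky_beta_zero k m hx]
  simp

theorem dc_notMem {x : ℝ} (hx : x ∉ Icc (-2 : ℝ) 2) : 2 ≤ |x| := by
  by_contra h
  push Not at h
  exact hx ⟨by linarith [(abs_lt.1 h).1], by linarith [(abs_lt.1 h).2]⟩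

theorem dc_integrable_P (D k m : ℕ) (f : ℝ[X]) (y t : ℝ) : Integrable (dcP D k m f y t) := by
  have h0 : Continuous fun x : ℝ => (t, x) := by fun_prop
  have h1 : Continuous (dcP D k m f y t) := by
    have h00 := (dc_continuous_P D k m f y).comp h0
    simpa only [Function.comp_def] using h00
  exact h1.integrable_of_hasCompactSupport (HasCompactSupport.intro' (K := Icc (-2 : ℝ) 2)
    isCompact_Icc isClosed_Icc fun x hx => dc_P_zero D k m f y t (dc_notMem hx))

theorem dc_continuous_I1c (D k m : ℕ) (f : ℝ[X]) (y : ℝ) :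
    Continuous fun t : ℝ => I1c D k m f t y := by
  have h1 : ∀ t : ℝ, I1c D k m f t y = ∫ x in Icc (-2 : ℝ) 2, dcP D k m f y t x := by
    intro t
    rw [setIntegral_eq_integral_of_forall_compl_eq_zero]
    · rfl
    · exact fun x hx => dc_P_zero D k m f y t (dc_notMem hx)
  simp_rw [h1]
  exact continuous_parametric_integral_of_continuous (dc_continuous_P D k m f y) isCompact_Icc

/-- The decomposition of the one-variable integral. -/
theorem dc_I1 (D L : ℕ) (f : ℝ[X]) (y t : ℝ)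
    (h : ∀ x : ℝ, |x| ≤ 2 → Sk D (L + 1) f x t ≤ 2) :
    I1 f t y = ∑ q ∈ dcS (L + 1), I1c D q.1 q.2 f t y := by
  have h1 : ∀ q : ℕ × ℕ, I1c D q.1 q.2 f t y = ∫ x : ℝ, dcP D q.1 q.2 f y t x := fun q => rfl
  simp_rw [h1]
  rw [← integral_finsetSum _ fun q _ => dc_integrable_P D q.1 q.2 f y t]
  unfold I1
  congr 1
  funext x
  unfold dcP
  rw [← Finset.sum_mul]
  congr 1
  rw [← Complex.ofReal_sum, dc_sum]
  by_cases hx : |x| ≤ 2
  · rw [ky_B_one (x := Sk D (L + 1) f x t / 2), one_mul]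
    have h2 : 0 ≤ Sk D (L + 1) f x t := by
      unfold Sk
      positivity
    rw [abs_of_nonneg (by positivity)]
    linarith [h x hx]
  · rw [ky_B_zero (x := x) (by linarith [not_le.1 hx]), mul_zero]

theorem dc_exists_L {T : ℝ} (hT : 1 ≤ T) : ∃ L : ℕ, 8 * T ≤ 4 ^ (L + 1) ∧ (4 : ℝ) ^ (L + 1) ≤ 32 * T := by
  obtain ⟨L, h1, h2⟩ := exists_nat_pow_near (x := 8 * T) (y := (4 : ℝ)) (by linarith) (by norm_num)
  refine ⟨L, h2.le, ?_⟩
  rw [pow_succ]
  linarith

/-- ROW DC. -/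
theorem dc (n D : ℕ) (_hD : 2 ≤ D) (f : Fin n → ℝ[X]) (_hf : ∀ j, (f j).natDegree ≤ D) :
    ∃ T0 : ℝ, 1 ≤ T0 ∧ ∀ T : ℝ, T0 ≤ T → ∃ L : ℕ, (4 : ℝ) ^ L ≤ 32 * T ∧ ∀ y : Fin n → ℝ,
      FT T f y = ∑ c ∈ Fintype.piFinset fun _ : Fin n =>
        (Finset.range L ×ˢ Finset.range L).filter fun q : ℕ × ℕ => q.2 ≤ q.1,
          Fc D T (fun j => (c j).1) (fun j => (c j).2) f y := by
  choose M hM0 hM using fun j => dc_bound D (f j)
  have hS0 : 0 ≤ ∑ j, M j := Finset.sum_nonneg fun j _ => hM0 j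
  refine ⟨1 + (∑ j, M j) * (D + 1), by nlinarith [(Nat.cast_nonneg D : (0 : ℝ) ≤ D)],
    fun T hT => ?_⟩
  have hT1 : 1 ≤ T := by nlinarith [(Nat.cast_nonneg D : (0 : ℝ) ≤ D)]
  have hT0 : 0 < T := by linarith
  obtain ⟨L, hL1, hL2⟩ := dc_exists_L hT1
  refine ⟨L + 1, hL2, fun y => ?_⟩
  have hI : ∀ (j : Fin n) (t : ℝ), |t| ≤ 2 * T →
      I1 (f j) t (y j) = ∑ q ∈ dcS (L + 1), I1c D q.1 q.2 (f j) t (y j) := by
    intro j t ht
    refine dc_I1 D L (f j) (y j) t fun x hx => ?_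
    refine dc_Sk_le D (f j) (hM0 j) (hM j) (le_trans ?_ hT) hL1 hx ht
    have h1 : M j ≤ ∑ j, M j := Finset.single_le_sum (f := M) (fun i _ => hM0 i) (Finset.mem_univ j)
    have h2 : (0 : ℝ) ≤ (D : ℝ) + 1 := by positivity
    nlinarith
  have hint : ∀ c : Fin n → ℕ × ℕ, Integrable fun t : ℝ =>
      Complex.exp ((t : ℂ) * Complex.I) * (B (t / T) : ℂ) *
        ∏ j, I1c D (c j).1 (c j).2 (f j) t (y j) := by
    intro c
    have h1 : Continuous fun t : ℝ => Complex.exp ((t : ℂ) * Complex.I) := by fun_prop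
    have h2 : Continuous fun t : ℝ => B (t / T) := by
      have h0 : Continuous fun t : ℝ => t / T := by fun_prop
      exact ky_B_continuous.comp h0
    have h3 : Continuous fun t : ℝ => Complex.exp ((t : ℂ) * Complex.I) * (B (t / T) : ℂ) *
        ∏ j, I1c D (c j).1 (c j).2 (f j) t (y j) :=
      (h1.mul (Complex.continuous_ofReal.comp h2)).mul
        (continuous_finsetProd _ fun j _ => dc_continuous_I1c D (c j).1 (c j).2 (f j) (y j))
    refine h3.integrable_of_hasCompactSupport (HasCompactSupport.intro'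
      (K := Icc (-(2 * T)) (2 * T)) isCompact_Icc isClosed_Icc fun t ht => ?_)
    rw [ky_B_zero, Complex.ofReal_zero, mul_zero, zero_mul]
    rw [abs_div, abs_of_pos hT0, le_div_iff₀ hT0]
    by_contra h
    push Not at h
    exact ht ⟨by linarith [(abs_lt.1 h).1], by linarith [(abs_lt.1 h).2]⟩
  unfold Fc
  rw [← integral_finsetSum _ fun c _ => hint c]
  unfold FT
  congr 1
  funext t
  by_cases ht : |t| ≤ 2 * T
  · rw [← Finset.mul_sum]
    congr 1
    rw [Finset.prod_congr rfl fun j _ => hI j t ht, Finset.prod_univ_sum]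
    rfl
  · have hB : B (t / T) = 0 := by
      apply ky_B_zero
      rw [abs_div, abs_of_pos hT0, le_div_iff₀ hT0]
      linarith [not_le.1 ht]
    simp [hB]

end Pool.Agent.SEP
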