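import Pool.Agent.SEPH.Defs
import Pool.Agent.VAN.A
import Pool.Agent.QPH.A

/-!
The formula for the Fourier transform of a separable density on the sphere.
-/

namespace Pool.Agent.SEP

open MeasureTheory Set Filter Topology Pool.Agent.MP_6cbfb8_an Pool.Agent.VAN
open scoped ENNReal Real FourierTransform

/-- Polar coordinates. -/
theorem FT_integral_polar (n : ℕ) (hn : n ≠ 0) (F : E n → ℂ) (hF : Integrable F) :
    ∫ x, F x = ∫ r in Ioi (0:ℝ), ((r ^ (n - 1) : ℝ) : ℂ) *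
      ∫ ω : S n, F (r • (ω : E n)) ∂(sm n) := by
  have : Nontrivial (E n) := by
    have : Nonempty (Fin n) := ⟨⟨0, Nat.pos_of_ne_zero hn⟩⟩
    infer_instance
  have hdim : Module.finrank ℝ (E n) = n := by simp
  have hmp := (volume : Measure (E n)).measurePreserving_homeomorphUnitSphereProd
  rw [hdim] at hmp
  have hfun : ∀ x : ({(0 : E n)}ᶜ : Set (E n)),
      ((homeomorphUnitSphereProd (E n) x).2 : ℝ) • ((homeomorphUnitSphereProd (E n) x).1 : E n) =
        (x : E n) := by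
    intro x
    have hx : ‖(x : E n)‖ ≠ 0 := norm_ne_zero_iff.2 x.2
    simp [smul_smul, hx]
  have hint : Integrable (fun q : S n × Ioi (0:ℝ) => F ((q.2 : ℝ) • (q.1 : E n)))
      ((sm n).prod (Measure.volumeIoiPow (n - 1))) := by
    rw [← hmp.integrable_comp_emb (Homeomorph.measurableEmbedding _)]
    have h1 : Integrable (fun x : ({(0 : E n)}ᶜ : Set (E n)) => F x)
        ((volume : Measure (E n)).comap (↑)) := by
      have := (integrableOn_iff_comap_subtypeVal (measurableSet_singleton (0 : E n)).compl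
        (f := F) (μ := (volume : Measure (E n)))).1 hF.integrableOn
      exact this
    refine h1.congr (Eventually.of_forall fun x => ?_)
    simp only [Function.comp_def]
    rw [hfun]
  calc ∫ x, F x = ∫ x : ({(0 : E n)}ᶜ : Set (E n)), F x ∂((volume : Measure (E n)).comap (↑)) := by
        rw [integral_subtype_comap (measurableSet_singleton _).compl, restrict_compl_singleton]
    _ = ∫ q : S n × Ioi (0:ℝ), F ((q.2 : ℝ) • (q.1 : E n))
          ∂((sm n).prod (Measure.volumeIoiPow (n - 1))) := by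
        have h := hmp.integral_comp (Homeomorph.measurableEmbedding _)
          (fun q : S n × Ioi (0:ℝ) => F ((q.2 : ℝ) • (q.1 : E n)))
        rw [← h]
        refine integral_congr_ae (Eventually.of_forall fun x => ?_)
        simp only
        rw [hfun]
    _ = ∫ r : Ioi (0:ℝ), (∫ ω : S n, F ((r : ℝ) • (ω : E n)) ∂(sm n))
          ∂(Measure.volumeIoiPow (n - 1)) := by
        rw [integral_prod_symm _ hint]
    _ = _ := by
        simp only [Measure.volumeIoiPow, ENNReal.ofReal]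
        rw [integral_withDensity_eq_integral_smul,
          integral_subtype_comap measurableSet_Ioi fun a : ℝ => Real.toNNReal (a ^ (n - 1)) •
            (∫ ω : S n, F (a • (ω : E n)) ∂(sm n)),
          setIntegral_congr_fun measurableSet_Ioi fun x hx ↦ ?_]
        · rw [NNReal.smul_def, Real.coe_toNNReal _ (pow_nonneg (le_of_lt hx) _), Complex.real_smul]
        · exact (measurable_subtype_coe.pow_const _).real_toNNReal

/-! ### One variable -/

/-- The one-variable integral with a general density `g`. -/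
noncomputable def FT_I (g : ℝ → ℂ) (t y : ℝ) : ℂ :=
  ∫ x : ℝ, g x * Complex.exp (((-(t * x ^ 2) - y * x : ℝ) : ℂ) * Complex.I)

theorem FT_bdd {g : ℝ → ℂ} (hg : Continuous g) (hs : ∀ x, 2 ≤ |x| → g x = 0) :
    ∃ K : ℝ, 0 ≤ K ∧ ∀ x, ‖g x‖ ≤ K := by
  obtain ⟨K, hK⟩ := (isCompact_Icc (a := (-2 : ℝ)) (b := 2)).exists_bound_of_continuousOn
    hg.continuousOn
  refine ⟨max K 0, le_max_right _ _, fun x => ?_⟩
  by_cases hx : |x| ≤ 2
  · exact (hK x ⟨by linarith [(abs_le.1 hx).1], (abs_le.1 hx).2⟩).trans (le_max_left _ _)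
  · rw [hs x (by linarith [not_le.1 hx]), norm_zero]
    exact le_max_right _ _

theorem FT_supp {g : ℝ → ℂ} (hs : ∀ x, 2 ≤ |x| → g x = 0) {x : ℝ} (hx : x ∉ Icc (-2 : ℝ) 2) :
    g x = 0 := by
  apply hs
  by_contra h
  push Not at h
  exact hx ⟨by linarith [(abs_lt.1 h).1], by linarith [(abs_lt.1 h).2]⟩

theorem FT_integrable1 {g : ℝ → ℂ} (hg : Continuous g) (hs : ∀ x, 2 ≤ |x| → g x = 0) (t y : ℝ) :
    Integrable fun x : ℝ => g x * Complex.exp (((-(t * x ^ 2) - y * x : ℝ) : ℂ) * Complex.I) := by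
  have h1 : Continuous fun x : ℝ =>
      g x * Complex.exp (((-(t * x ^ 2) - y * x : ℝ) : ℂ) * Complex.I) := by fun_prop
  refine h1.integrable_of_hasCompactSupport (HasCompactSupport.intro' (K := Icc (-2 : ℝ) 2)
    isCompact_Icc isClosed_Icc fun x hx => ?_)
  rw [FT_supp hs hx, zero_mul]

theorem FT_I_eq {g : ℝ → ℂ} (hs : ∀ x, 2 ≤ |x| → g x = 0) (t y : ℝ) :
    FT_I g t y = ∫ x in (-2 : ℝ)..2, g x * ei (-(t * x ^ 2) - y * x) := by
  unfold FT_I ei
  rw [intervalIntegral.integral_of_le (by norm_num), ← integral_Icc_eq_integral_Ioc,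
    ← setIntegral_eq_integral_of_forall_compl_eq_zero (s := Icc (-2 : ℝ) 2)]
  intro x hx
  rw [FT_supp hs hx, zero_mul]

/-- Joint continuity. -/
theorem FT_continuous_I {g : ℝ → ℂ} (hg : Continuous g) (hs : ∀ x, 2 ≤ |x| → g x = 0) :
    Continuous fun q : ℝ × ℝ => FT_I g q.1 q.2 := by
  unfold FT_I
  refine continuous_of_dominated (bound := fun x => ‖g x‖) (fun q => ?_) (fun q => ?_) ?_
    (Eventually.of_forall fun x => ?_)
  · exact (FT_integrable1 hg hs q.1 q.2).aestronglyMeasurable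
  · refine Eventually.of_forall fun x => ?_
    rw [norm_mul, Complex.norm_exp_ofReal_mul_I, mul_one]
  · have := (FT_integrable1 hg hs 0 0).norm
    refine this.congr (Eventually.of_forall fun x => ?_)
    simp
  · fun_prop

/-- The trivial bound. -/
theorem FT_I_le {g : ℝ → ℂ} {K : ℝ} (hK : ∀ x, ‖g x‖ ≤ K) (hs : ∀ x, 2 ≤ |x| → g x = 0)
    (t y : ℝ) : ‖FT_I g t y‖ ≤ 4 * K := by
  rw [FT_I_eq hs]
  have h := intervalIntegral.norm_integral_le_of_norm_le_const (a := (-2 : ℝ)) (b := 2) (C := K)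
    (f := fun x => g x * ei (-(t * x ^ 2) - y * x)) (fun x _ => by
      rw [norm_mul, norm_ei, mul_one]
      exact hK x)
  refine h.trans (le_of_eq ?_)
  norm_num
  ring

/-- The decay in `t`, uniformly in `y`. -/
theorem FT_I_decay {g : ℝ → ℂ} (hg : ContDiff ℝ 1 g) (hs : ∀ x, 2 ≤ |x| → g x = 0) :
    ∃ C : ℝ, 0 ≤ C ∧ ∀ t y : ℝ, ‖FT_I g t y‖ ≤ C * (1 + |t|) ^ (-(1 / 2) : ℝ) := by
  obtain ⟨K, hK0, hK⟩ := FT_bdd hg.continuous hs
  set L : ℝ := ‖g 2‖ + ∫ x in (-2 : ℝ)..2, ‖deriv g x‖ with hL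
  have hL0 : 0 ≤ L := by
    have : 0 ≤ ∫ x in (-2 : ℝ)..2, ‖deriv g x‖ :=
      intervalIntegral.integral_nonneg (by norm_num) fun x _ => norm_nonneg _
    positivity
  refine ⟨8 * K + 8 * L, by positivity, fun t y => ?_⟩
  have h1t : (0 : ℝ) < 1 + |t| := by positivity
  by_cases ht : |t| ≤ 1
  · have h1 := FT_I_le hK hs t y
    have h2 : (1 / 2 : ℝ) ≤ (1 + |t|) ^ (-(1 / 2) : ℝ) := by
      have h3 : (2 : ℝ) ^ (-(1 / 2) : ℝ) ≤ (1 + |t|) ^ (-(1 / 2) : ℝ) :=
        Real.rpow_le_rpow_of_nonpos h1t (by linarith) (by norm_num)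
      have h4 : (2 : ℝ) ^ (-1 : ℝ) ≤ (2 : ℝ) ^ (-(1 / 2) : ℝ) :=
        Real.rpow_le_rpow_of_exponent_le (by norm_num) (by norm_num)
      rw [Real.rpow_neg_one] at h4
      linarith
    nlinarith
  · push Not at ht
    have ht0 : (0 : ℝ) < |t| := by linarith
    set δ : ℝ := (2 * |t|) ^ (-(1 / 2) : ℝ) with hδ
    have hδ0 : 0 < δ := Real.rpow_pos_of_pos (by positivity) _
    have hδ2 : 1 / δ ^ 2 = 2 * |t| := by
      rw [hδ, ← Real.rpow_natCast, ← Real.rpow_mul (by positivity)]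
      norm_num
      rw [Real.rpow_neg_one]
      field_simp
    have hd1 : ∀ x : ℝ, HasDerivAt (fun x => -(t * x ^ 2) - y * x) (-(t * (2 * x)) - y) x := by
      intro x
      have := ((hasDerivAt_pow 2 x).const_mul t).fun_neg.fun_sub ((hasDerivAt_id' x).const_mul y)
      refine this.congr_deriv ?_
      norm_num
    have hd2 : ∀ x : ℝ, HasDerivAt (fun x => -(t * (2 * x)) - y) (-(t * 2)) x := by
      intro x
      have := (((hasDerivAt_id' x).const_mul 2).const_mul t).fun_neg.sub_const y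
      refine this.congr_deriv ?_
      norm_num
    have hv : ∀ s ∈ Icc (-2 : ℝ) 2, ‖∫ x in (-2 : ℝ)..s, ei (-(t * x ^ 2) - y * x)‖ ≤ 8 * δ := by
      intro s hs'
      refine Pool.Agent.QPH.vdcA_two (u := fun x => -(t * x ^ 2) - y * x)
        (u1 := fun x => -(t * (2 * x)) - y) (u2 := fun _ => -(t * 2)) hs'.1 hδ0
        (fun x _ => hd1 x) (fun x _ => hd2 x) continuousOn_const fun x _ => ?_
      rw [hδ2, abs_neg, abs_mul, abs_two, mul_comm]
    have h3 := vdc_ampl (a := (-2 : ℝ)) (b := 2) (by norm_num) (fun x _ => hd1 x) hv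
      (ψ := g) (ψ' := deriv g)
      (fun x _ => ((hg.differentiable (by norm_num)) x).hasDerivAt)
      (hg.continuous_deriv (by norm_num)).continuousOn
    rw [FT_I_eq hs]
    refine h3.trans ?_
    rw [← hL]
    have h4 : δ ≤ (1 + |t|) ^ (-(1 / 2) : ℝ) :=
      Real.rpow_le_rpow_of_nonpos h1t (by linarith) (by norm_num)
    calc 8 * δ * L ≤ 8 * (1 + |t|) ^ (-(1 / 2) : ℝ) * L := by gcongr
      _ ≤ (8 * K + 8 * L) * (1 + |t|) ^ (-(1 / 2) : ℝ) := by
          have : 0 ≤ K * (1 + |t|) ^ (-(1 / 2) : ℝ) := by positivity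
          nlinarith

/-- Integrability in `t` of the product of at least three factors. -/
theorem FT_integrable_prod {n : ℕ} (hn : 3 ≤ n) {g : Fin n → ℝ → ℂ}
    (hg : ∀ j, ContDiff ℝ 1 (g j)) (hs : ∀ j x, 2 ≤ |x| → g j x = 0) (y : Fin n → ℝ) :
    Integrable fun t : ℝ => ∏ j, FT_I (g j) t (y j) := by
  choose C hC0 hC using fun j => FT_I_decay (hg j) (hs j)
  have h1 : Integrable fun t : ℝ => (∏ j, C j) * (1 + ‖t‖) ^ (-(3 / 2) : ℝ) := by
    refine Integrable.const_mul ?_ _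
    exact integrable_one_add_norm (E := ℝ) (μ := volume) (by simp; norm_num)
  refine h1.mono' ?_ (Eventually.of_forall fun t => ?_)
  · exact (continuous_finsetProd _ fun j _ => (FT_continuous_I (hg j).continuous (hs j)).comp
      (by fun_prop : Continuous fun t : ℝ => (t, y j))).aestronglyMeasurable
  · rw [norm_prod]
    have h1t : (1 : ℝ) ≤ 1 + |t| := by
      have := abs_nonneg t
      linarith
    calc ∏ j, ‖FT_I (g j) t (y j)‖ ≤ ∏ j, (C j * (1 + |t|) ^ (-(1 / 2) : ℝ)) :=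
          Finset.prod_le_prod (fun j _ => norm_nonneg _) fun j _ => hC j t (y j)
      _ = (∏ j, C j) * ((1 + |t|) ^ (-(1 / 2) : ℝ)) ^ n := by
          rw [Finset.prod_mul_distrib]
          simp
      _ ≤ (∏ j, C j) * ((1 + |t|) ^ (-(1 / 2) : ℝ)) ^ 3 := by
          refine mul_le_mul_of_nonneg_left ?_ (Finset.prod_nonneg fun j _ => hC0 j)
          refine pow_le_pow_of_le_one (by positivity) ?_ hn
          exact Real.rpow_le_one_of_one_le_of_nonpos h1t (by norm_num)
      _ = _ := by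
          rw [← Real.rpow_natCast, ← Real.rpow_mul (by positivity), Real.norm_eq_abs]
          norm_num

/-! ### The sphere integral of radius `√s` -/

/-- The integral over the sphere of radius `√s`. -/
noncomputable def FT_sph {n : ℕ} (g : Fin n → ℝ → ℂ) (y : E n) (s : ℝ) : ℂ :=
  ∫ ω : S n, (∏ j, g j (√s * (ω : E n) j)) *
    Complex.exp (((-(√s * inner ℝ (ω : E n) y) : ℝ) : ℂ) * Complex.I) ∂(sm n)

theorem FT_continuous_sph {n : ℕ} {g : Fin n → ℝ → ℂ} (hg : ∀ j, Continuous (g j)) {K : ℝ}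
    (hK : ∀ x : Fin n → ℝ, ‖∏ j, g j (x j)‖ ≤ K) (y : E n) : Continuous (FT_sph g y) := by
  unfold FT_sph
  refine continuous_of_dominated (bound := fun _ => K) (fun s => ?_) (fun s => ?_)
    (integrable_const _) (Eventually.of_forall fun ω => ?_)
  · refine Continuous.aestronglyMeasurable ?_
    refine Continuous.mul ?_ (by fun_prop)
    exact continuous_finsetProd _ fun j _ => (hg j).comp (by fun_prop)
  · refine Eventually.of_forall fun ω => ?_
    rw [norm_mul, Complex.norm_exp_ofReal_mul_I, mul_one]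
    exact hK fun j => √s * (ω : E n) j
  · refine Continuous.mul ?_ (by fun_prop)
    exact continuous_finsetProd _ fun j _ => (hg j).comp (by fun_prop)

theorem FT_norm_sph_le {n : ℕ} {g : Fin n → ℝ → ℂ} {K : ℝ}
    (hK : ∀ x : Fin n → ℝ, ‖∏ j, g j (x j)‖ ≤ K) (y : E n) (s : ℝ) :
    ‖FT_sph g y s‖ ≤ K * (sm n).real univ := by
  unfold FT_sph
  refine norm_integral_le_of_norm_le_const (Eventually.of_forall fun ω => ?_)
  rw [norm_mul, Complex.norm_exp_ofReal_mul_I, mul_one]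
  exact hK fun j => √s * (ω : E n) j

theorem FT_sph_zero {n : ℕ} {g : Fin n → ℝ → ℂ} (hs : ∀ j x, 2 ≤ |x| → g j x = 0) (y : E n)
    {s : ℝ} (h : 4 * (n : ℝ) ≤ s) : FT_sph g y s = 0 := by
  unfold FT_sph
  refine integral_eq_zero_of_ae (Eventually.of_forall fun ω => ?_)
  have h4 : ‖(ω : E n)‖ ^ 2 = 1 := by simp
  rw [EuclideanSpace.real_norm_sq_eq] at h4
  have hs0 : 0 ≤ s := le_trans (by positivity) h
  have h5 : ∃ j, 2 ≤ |√s * (ω : E n) j| := by
    by_contra hcon
    push Not at hcon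
    have h6 : ∀ j, (√s * (ω : E n) j) ^ 2 < 4 := by
      intro j
      have := hcon j
      rw [← sq_abs]
      nlinarith [abs_nonneg (√s * (ω : E n) j)]
    have h7 : ∑ j, (√s * (ω : E n) j) ^ 2 = s := by
      simp_rw [mul_pow, Real.sq_sqrt hs0]
      rw [← Finset.mul_sum, h4, mul_one]
    have hne : (Finset.univ : Finset (Fin n)).Nonempty := by
      by_contra hne
      rw [Finset.not_nonempty_iff_eq_empty] at hne
      rw [hne] at h4
      simp at h4
    have h8 : ∑ j, (√s * (ω : E n) j) ^ 2 < ∑ _j : Fin n, (4 : ℝ) :=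
      Finset.sum_lt_sum_of_nonempty hne fun j _ => h6 j
    rw [h7] at h8
    simp at h8
    linarith
  obtain ⟨j, hj⟩ := h5
  simp only [Pi.zero_apply]
  rw [Finset.prod_eq_zero (Finset.mem_univ j) (hs j _ hj), zero_mul]

/-- The function to which Fourier inversion is applied. -/
noncomputable def FT_fs {n : ℕ} (g : Fin n → ℝ → ℂ) (y : E n) (s : ℝ) : ℂ :=
  (Ioi (0 : ℝ)).indicator
    (fun s => ((s ^ ((n : ℝ) / 2 - 1) : ℝ) : ℂ) * FT_sph g y s) s

theorem FT_integrable_fs {n : ℕ} (hn : 0 < n) {g : Fin n → ℝ → ℂ} (hg : ∀ j, Continuous (g j))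
    {K : ℝ} (hK : ∀ x : Fin n → ℝ, ‖∏ j, g j (x j)‖ ≤ K)
    (hs : ∀ j x, 2 ≤ |x| → g j x = 0) (y : E n) : Integrable (FT_fs g y) := by
  have hK0 : 0 ≤ K := (norm_nonneg _).trans (hK 0)
  have h1 : IntegrableOn (fun s : ℝ => s ^ ((n : ℝ) / 2 - 1)) (Ioc 0 (4 * n)) := by
    have hn' : (0 : ℝ) < n := by exact_mod_cast hn
    have := intervalIntegral.intervalIntegrable_rpow' (a := 0) (b := 4 * n)
      (r := (n : ℝ) / 2 - 1) (by linarith)
    rwa [intervalIntegrable_iff_integrableOn_Ioc_of_le (by positivity)] at this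
  have h2 : ContinuousOn (fun s : ℝ => ((s ^ ((n : ℝ) / 2 - 1) : ℝ) : ℂ) *
      FT_sph g y s) (Ioc 0 (4 * n)) := by
    refine ContinuousOn.mul ?_ (FT_continuous_sph hg hK y).continuousOn
    refine Complex.continuous_ofReal.comp_continuousOn ?_
    exact ContinuousOn.rpow_const continuousOn_id fun x hx => Or.inl (ne_of_gt hx.1)
  have h3 : IntegrableOn (fun s : ℝ => ((s ^ ((n : ℝ) / 2 - 1) : ℝ) : ℂ) *
      FT_sph g y s) (Ioc 0 (4 * n)) := by
    refine (h1.const_mul (K * (sm n).real univ)).mono'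
      (h2.aestronglyMeasurable measurableSet_Ioc) ?_
    refine (ae_restrict_mem measurableSet_Ioc).mono fun s hs => ?_
    have hs' : (0 : ℝ) < s := hs.1
    rw [norm_mul, Complex.norm_real, Real.norm_of_nonneg (by positivity), mul_comm]
    gcongr
    exact FT_norm_sph_le hK y s
  have h4 : FT_fs g y = (Ioc (0 : ℝ) (4 * n)).indicator
      (fun s => ((s ^ ((n : ℝ) / 2 - 1) : ℝ) : ℂ) * FT_sph g y s) := by
    funext s
    unfold FT_fs
    by_cases h5 : s ∈ Ioc (0 : ℝ) (4 * n)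
    · rw [indicator_of_mem h5, indicator_of_mem (show s ∈ Ioi (0 : ℝ) from h5.1)]
    · rw [indicator_of_notMem h5]
      by_cases h6 : s ∈ Ioi (0 : ℝ)
      · rw [indicator_of_mem h6, FT_sph_zero hs y, mul_zero]
        by_contra h7
        push Not at h7
        exact h5 ⟨h6, h7.le⟩
      · rw [indicator_of_notMem h6]
  rw [h4, integrable_indicator_iff measurableSet_Ioc]
  exact h3

theorem FT_continuousAt_fs {n : ℕ} {g : Fin n → ℝ → ℂ} (hg : ∀ j, Continuous (g j))
    {K : ℝ} (hK : ∀ x : Fin n → ℝ, ‖∏ j, g j (x j)‖ ≤ K) (y : E n) :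
    ContinuousAt (FT_fs g y) 1 := by
  have h1 : (fun s : ℝ => ((s ^ ((n : ℝ) / 2 - 1) : ℝ) : ℂ) * FT_sph g y s) =ᶠ[𝓝 1]
      FT_fs g y := by
    filter_upwards [Ioi_mem_nhds (zero_lt_one : (0:ℝ) < 1)] with s hs
    unfold FT_fs
    rw [indicator_of_mem hs]
  refine ContinuousAt.congr ?_ h1
  refine ContinuousAt.mul ?_ (FT_continuous_sph hg hK y).continuousAt
  refine Complex.continuous_ofReal.continuousAt.comp ?_
  exact continuousAt_id.rpow_const (Or.inl one_ne_zero)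

theorem FT_fs_one {n : ℕ} (g : Fin n → ℝ → ℂ) (ξ : E n) :
    FT_fs g ((2 * π) • ξ) 1 = extn (fun x => ∏ j, g j (x j)) ξ := by
  unfold FT_fs FT_sph extn
  rw [indicator_of_mem (by simp)]
  simp only [Real.one_rpow, Complex.ofReal_one, one_mul, Real.sqrt_one]
  congr 1
  funext ω
  rw [inner_smul_right]

/-! ### Its Fourier transform -/

theorem FT_integral_prod {n : ℕ} (g : Fin n → ℝ → ℂ) (y : E n) (t : ℝ) :
    ∫ x : E n, ∏ j, (g j (x j) *
      Complex.exp (((-(t * x j ^ 2) - y j * x j : ℝ) : ℂ) * Complex.I)) =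
    ∏ j, FT_I (g j) t (y j) := by
  rw [← (PiLp.volume_preserving_toLp (Fin n)).integral_comp
    (MeasurableEquiv.toLp 2 _).measurableEmbedding]
  unfold FT_I
  rw [← integral_fintype_prod_volume_eq_prod]

theorem FT_integrable_prodE {n : ℕ} {g : Fin n → ℝ → ℂ} (hg : ∀ j, Continuous (g j))
    (hs : ∀ j x, 2 ≤ |x| → g j x = 0) (y : E n) (t : ℝ) :
    Integrable fun x : E n => ∏ j, (g j (x j) *
      Complex.exp (((-(t * x j ^ 2) - y j * x j : ℝ) : ℂ) * Complex.I)) := by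
  rw [← (PiLp.volume_preserving_toLp (Fin n)).integrable_comp_emb
    (MeasurableEquiv.toLp 2 _).measurableEmbedding]
  exact Integrable.fintype_prod fun j => FT_integrable1 (hg j) (hs j) t (y j)

theorem FT_fourier_fs {n : ℕ} (hn : n ≠ 0) {g : Fin n → ℝ → ℂ} (hg : ∀ j, Continuous (g j))
    (hs : ∀ j x, 2 ≤ |x| → g j x = 0) (y : E n) (τ : ℝ) :
    𝓕 (FT_fs g y) τ = 2 * ∏ j, FT_I (g j) (2 * π * τ) (y j) := by
  rw [← FT_integral_prod, Real.fourier_real_eq_integral_exp_smul,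
    FT_integral_polar n hn _ (FT_integrable_prodE hg hs y (2 * π * τ))]
  have h1 : ∀ v : ℝ, Complex.exp (↑(-2 * π * v * τ) * Complex.I) • FT_fs g y v =
      (Ioi (0 : ℝ)).indicator (fun v => Complex.exp (↑(-2 * π * v * τ) * Complex.I) *
        (((v ^ ((n : ℝ) / 2 - 1) : ℝ) : ℂ) * FT_sph g y v)) v := by
    intro v
    unfold FT_fs
    by_cases hv : v ∈ Ioi (0 : ℝ)
    · rw [indicator_of_mem hv, indicator_of_mem hv, smul_eq_mul]
    · rw [indicator_of_notMem hv, indicator_of_notMem hv, smul_zero]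
  simp_rw [h1]
  rw [integral_indicator measurableSet_Ioi, ← integral_comp_rpow_Ioi_of_pos two_pos,
    ← integral_const_mul]
  refine setIntegral_congr_fun measurableSet_Ioi fun r hr => ?_
  have hr' : (0 : ℝ) < r := hr
  have h2 : FT_sph g y (r ^ (2 : ℝ)) = ∫ ω : S n, (∏ j, g j (r * (ω : E n) j)) *
      Complex.exp (((-(r * inner ℝ (ω : E n) y) : ℝ) : ℂ) * Complex.I) ∂(sm n) := by
    unfold FT_sph
    rw [Real.rpow_two, Real.sqrt_sq hr'.le]
  have h3 : ∀ ω : S n, ∏ j, (g j ((r • (ω : E n)) j) *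
      Complex.exp (((-(2 * π * τ * (r • (ω : E n)) j ^ 2) - y j * (r • (ω : E n)) j : ℝ) : ℂ) *
        Complex.I)) =
      Complex.exp (((-2 * π * r ^ (2 : ℝ) * τ : ℝ) : ℂ) * Complex.I) *
      ((∏ j, g j (r * (ω : E n) j)) *
      Complex.exp (((-(r * inner ℝ (ω : E n) y) : ℝ) : ℂ) * Complex.I)) := by
    intro ω
    have hω : ∑ i, (ω : E n) i ^ 2 = 1 := by
      have h4 : ‖(ω : E n)‖ ^ 2 = 1 := by simp
      rwa [EuclideanSpace.real_norm_sq_eq] at h4
    rw [Finset.prod_mul_distrib, ← Complex.exp_sum]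
    simp only [PiLp.smul_apply, smul_eq_mul]
    rw [mul_left_comm, ← Complex.exp_add, ← Finset.sum_mul, ← add_mul]
    congr 3
    rw [← Complex.ofReal_sum, ← Complex.ofReal_add, Real.rpow_two, PiLp.inner_apply]
    congr 1
    have e3 : ∑ i, (inner ℝ ((ω : E n) i) (y i) : ℝ) = ∑ i, (ω : E n) i * y i := by
      refine Finset.sum_congr rfl fun i _ => ?_
      simp [mul_comm]
    rw [e3, Finset.sum_sub_distrib, Finset.mul_sum]
    have e4 : ∑ i, -(2 * π * τ * (r * (ω : E n) i) ^ 2) = -(2 * π * τ * r ^ 2) := by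
      calc ∑ i, -(2 * π * τ * (r * (ω : E n) i) ^ 2)
          = -(2 * π * τ * r ^ 2) * ∑ i, (ω : E n) i ^ 2 := by
            rw [Finset.mul_sum]
            refine Finset.sum_congr rfl fun i _ => ?_
            ring
        _ = _ := by rw [hω, mul_one]
    have e5 : ∑ i, y i * (r * (ω : E n) i) = ∑ i, r * ((ω : E n) i * y i) := by
      refine Finset.sum_congr rfl fun i _ => ?_
      ring
    rw [e4, e5]
    ring
  simp_rw [h3]
  rw [integral_const_mul, h2, Complex.real_smul]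
  rw [show (2 : ℝ) * r ^ ((2 : ℝ) - 1) = 2 * r by norm_num]
  have h5 : (r ^ (2 : ℝ)) ^ ((n : ℝ) / 2 - 1) = r ^ ((n : ℝ) - 2) := by
    rw [← Real.rpow_mul hr'.le]
    congr 1
    ring
  have h6 : r * r ^ ((n : ℝ) - 2) = r ^ (n - 1) := by
    rw [← Real.rpow_natCast, Nat.cast_sub (Nat.one_le_iff_ne_zero.2 hn),
      show (n : ℝ) - ((1 : ℕ) : ℝ) = 1 + ((n : ℝ) - 2) by push_cast; ring,
      Real.rpow_add hr', Real.rpow_one]
  rw [h5, ← h6]
  push_cast
  ring

/-- The formula, for general densities. -/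
theorem FT_formula {n : ℕ} (hn : n ≠ 0) {g : Fin n → ℝ → ℂ} (hg : ∀ j, Continuous (g j))
    (hs : ∀ j x, 2 ≤ |x| → g j x = 0) (ξ : E n)
    (hint : Integrable fun t : ℝ => ∏ j, FT_I (g j) t (2 * π * ξ j)) :
    extn (fun x => ∏ j, g j (x j)) ξ = ((π⁻¹ : ℝ) : ℂ) *
      ∫ t : ℝ, Complex.exp ((t : ℂ) * Complex.I) * ∏ j, FT_I (g j) t (2 * π * ξ j) := by
  have hK : ∃ K : ℝ, ∀ x : Fin n → ℝ, ‖∏ j, g j (x j)‖ ≤ K := by
    choose K hK0 hK using fun j => FT_bdd (hg j) (hs j)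
    refine ⟨∏ j, K j, fun x => ?_⟩
    rw [norm_prod]
    exact Finset.prod_le_prod (fun j _ => norm_nonneg _) fun j _ => hK j (x j)
  obtain ⟨K, hK⟩ := hK
  set y : E n := (2 * π) • ξ with hy
  have hyj : ∀ j, y j = 2 * π * ξ j := fun j => by rw [hy, PiLp.smul_apply, smul_eq_mul]
  have h2pi : (0 : ℝ) < 2 * π := by positivity
  have hF : 𝓕 (FT_fs g y) = fun τ => 2 * ∏ j, FT_I (g j) (2 * π * τ) (2 * π * ξ j) := by
    funext τ
    rw [FT_fourier_fs hn hg hs y τ]
    simp_rw [hyj]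
  have hFi : Integrable (𝓕 (FT_fs g y)) := by
    rw [hF]
    exact (hint.comp_mul_left' h2pi.ne').const_mul 2
  have hinv := (FT_integrable_fs (Nat.pos_of_ne_zero hn) hg hK hs y).fourierInv_fourier_eq hFi
    (FT_continuousAt_fs hg hK y)
  rw [hF, Real.fourierInv_eq', hy, FT_fs_one] at hinv
  have h3 : ∀ τ : ℝ, Complex.exp (((2 * π * inner ℝ τ (1 : ℝ) : ℝ) : ℂ) * Complex.I) •
      (2 * ∏ j, FT_I (g j) (2 * π * τ) (2 * π * ξ j)) =
      2 * (fun t : ℝ => Complex.exp ((t : ℂ) * Complex.I) * ∏ j, FT_I (g j) t (2 * π * ξ j))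
        (2 * π * τ) := by
    intro τ
    rw [smul_eq_mul]
    simp only [inner, one_mul]
    push_cast
    simp
    ring
  simp_rw [h3] at hinv
  rw [integral_const_mul] at hinv
  have h4 := Measure.integral_comp_mul_left
    (fun t : ℝ => Complex.exp ((t : ℂ) * Complex.I) * ∏ j, FT_I (g j) t (2 * π * ξ j)) (2 * π)
  rw [h4, abs_of_pos (inv_pos.2 h2pi)] at hinv
  rw [← hinv, Complex.real_smul, ← mul_assoc]
  congr 1
  push_cast
  have hpi : (π : ℂ) ≠ 0 := by exact_mod_cast Real.pi_ne_zero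
  field_simp

/-! ### The cutoff -/

theorem FT_B_contDiff {m : WithTop ℕ∞} (hm : m ≤ (⊤ : ℕ∞)) : ContDiff ℝ m B :=
  bump.contDiff.of_le hm

theorem FT_B_one {x : ℝ} (hx : |x| ≤ 1) : B x = 1 := by
  unfold B
  apply bump.one_of_mem_closedBall
  rw [mem_closedBall_zero_iff, Real.norm_eq_abs]
  exact hx

theorem FT_B_zero {x : ℝ} (hx : 2 ≤ |x|) : B x = 0 := by
  unfold B
  apply bump.zero_of_le_dist
  rw [dist_zero_right, Real.norm_eq_abs]
  exact hx

theorem FT_B_nonneg (x : ℝ) : 0 ≤ B x := bump.nonneg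

theorem FT_B_le_one (x : ℝ) : B x ≤ 1 := bump.le_one

/-- The density of the one-variable integral. -/
noncomputable def FT_g (f : Polynomial ℝ) (x : ℝ) : ℂ :=
  (B x : ℂ) * Complex.exp (((f.eval x : ℝ) : ℂ) * Complex.I)

theorem FT_g_contDiff (f : Polynomial ℝ) : ContDiff ℝ 1 (FT_g f) := by
  unfold FT_g
  have h1 : ContDiff ℝ 1 fun x : ℝ => f.eval x := f.contDiff_aeval 1
  refine (Complex.ofRealCLM.contDiff.comp (FT_B_contDiff (by exact_mod_cast le_top))).mul ?_
  exact ((Complex.ofRealCLM.contDiff.comp h1).mul contDiff_const).cexp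

theorem FT_g_zero (f : Polynomial ℝ) (x : ℝ) (hx : 2 ≤ |x|) : FT_g f x = 0 := by
  unfold FT_g
  rw [FT_B_zero hx]
  simp

theorem I1_eq (f : Polynomial ℝ) (t y : ℝ) : I1 f t y = FT_I (FT_g f) t y := by
  unfold I1 FT_I FT_g
  congr 1
  funext x
  rw [mul_assoc, ← Complex.exp_add]
  congr 2
  push_cast
  ring

/-- Joint continuity of `I1`. -/
theorem continuous_I1 (f : Polynomial ℝ) : Continuous fun q : ℝ × ℝ => I1 f q.1 q.2 := by
  simp_rw [I1_eq]
  exact FT_continuous_I (FT_g_contDiff f).continuous (FT_g_zero f)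

/-- Decay of `I1` in time. -/
theorem I1_decay (f : Polynomial ℝ) :
    ∃ C : ℝ, 0 ≤ C ∧ ∀ t y : ℝ, ‖I1 f t y‖ ≤ C * (1 + |t|) ^ (-(1 / 2) : ℝ) := by
  simp_rw [I1_eq]
  exact FT_I_decay (FT_g_contDiff f) (FT_g_zero f)

/-- Decay of the product, uniformly in `y`. -/
theorem prod_I1_decay {n : ℕ} (hn : 3 ≤ n) (f : Fin n → Polynomial ℝ) :
    ∃ C : ℝ, 0 ≤ C ∧ ∀ (t : ℝ) (y : Fin n → ℝ),
      ‖∏ j, I1 (f j) t (y j)‖ ≤ C * (1 + ‖t‖) ^ (-(3 / 2) : ℝ) := by
  choose C hC0 hC using fun j => I1_decay (f j)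
  refine ⟨∏ j, C j, Finset.prod_nonneg fun j _ => hC0 j, fun t y => ?_⟩
  rw [norm_prod]
  have h1t : (1 : ℝ) ≤ 1 + |t| := by
    have := abs_nonneg t
    linarith
  calc ∏ j, ‖I1 (f j) t (y j)‖ ≤ ∏ j, (C j * (1 + |t|) ^ (-(1 / 2) : ℝ)) :=
        Finset.prod_le_prod (fun j _ => norm_nonneg _) fun j _ => hC j t (y j)
    _ = (∏ j, C j) * ((1 + |t|) ^ (-(1 / 2) : ℝ)) ^ n := by
        rw [Finset.prod_mul_distrib]
        simp
    _ ≤ (∏ j, C j) * ((1 + |t|) ^ (-(1 / 2) : ℝ)) ^ 3 := by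
        refine mul_le_mul_of_nonneg_left ?_ (Finset.prod_nonneg fun j _ => hC0 j)
        refine pow_le_pow_of_le_one (by positivity) ?_ hn
        exact Real.rpow_le_one_of_one_le_of_nonpos h1t (by norm_num)
    _ = _ := by
        rw [← Real.rpow_natCast, ← Real.rpow_mul (by positivity), Real.norm_eq_abs]
        norm_num

theorem FT_integrable_base : Integrable fun t : ℝ => (1 + ‖t‖) ^ (-(3 / 2) : ℝ) :=
  integrable_one_add_norm (E := ℝ) (μ := volume) (by simp; norm_num)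

/-- ROW INT. -/
theorem int_I1 (n : ℕ) (hn : 3 ≤ n) (f : Fin n → Polynomial ℝ) :
    (∀ y : Fin n → ℝ, Integrable fun t : ℝ => ∏ j, I1 (f j) t (y j)) ∧
      (∀ T : ℝ, Continuous (FT T f)) := by
  obtain ⟨C, hC0, hC⟩ := prod_I1_decay hn f
  have hc : ∀ y : Fin n → ℝ, Continuous fun t : ℝ => ∏ j, I1 (f j) t (y j) := fun y =>
    continuous_finsetProd _ fun j _ => (continuous_I1 (f j)).comp
      (by fun_prop : Continuous fun t : ℝ => (t, y j))
  have hBc : Continuous B := (FT_B_contDiff (m := 0) (by exact_mod_cast le_top)).continuous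
  refine ⟨fun y => ?_, fun T => ?_⟩
  · exact (FT_integrable_base.const_mul C).mono' (hc y).aestronglyMeasurable
      (Eventually.of_forall fun t => hC t y)
  · unfold FT
    refine continuous_of_dominated (bound := fun t => C * (1 + ‖t‖) ^ (-(3 / 2) : ℝ))
      (fun y => ?_) (fun y => Eventually.of_forall fun t => ?_) (FT_integrable_base.const_mul C)
      (Eventually.of_forall fun t => ?_)
    · refine Continuous.aestronglyMeasurable ?_
      refine Continuous.mul (Continuous.mul (by fun_prop) ?_) (hc y)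
      exact Complex.continuous_ofReal.comp (hBc.comp (by fun_prop))
    · rw [norm_mul, norm_mul, Complex.norm_exp_ofReal_mul_I, one_mul, Complex.norm_real,
        Real.norm_of_nonneg (FT_B_nonneg _)]
      calc B (t / T) * ‖∏ j, I1 (f j) t (y j)‖ ≤ 1 * ‖∏ j, I1 (f j) t (y j)‖ :=
            mul_le_mul_of_nonneg_right (FT_B_le_one _) (norm_nonneg _)
        _ ≤ _ := by
            rw [one_mul]
            exact hC t y
    · refine Continuous.mul continuous_const ?_
      exact continuous_finsetProd _ fun j _ => (continuous_I1 (f j)).comp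
        (by fun_prop : Continuous fun y : Fin n → ℝ => (t, y j))

/-- ROW FT. The formula on the sphere. -/
theorem ft (n : ℕ) (hn : 3 ≤ n) : ∃ c : ℂ, ∀ (f : Fin n → Polynomial ℝ) (ξ : E n),
    extn (fun x => Complex.exp (((∑ j, (f j).eval (x j) : ℝ) : ℂ) * Complex.I)) ξ =
      c * FF f (fun j => 2 * π * ξ j) := by
  refine ⟨((π⁻¹ : ℝ) : ℂ), fun f ξ => ?_⟩
  have hgc : ∀ j, ContDiff ℝ 1 (FT_g (f j)) := fun j => FT_g_contDiff (f j)
  have hgs : ∀ j x, 2 ≤ |x| → FT_g (f j) x = 0 := fun j => FT_g_zero (f j)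
  have h1 := FT_formula (by omega : n ≠ 0) (fun j => (hgc j).continuous) hgs ξ
    (FT_integrable_prod hn hgc hgs _)
  unfold FF
  simp_rw [I1_eq]
  rw [← h1]
  unfold extn
  congr 1
  funext ω
  congr 1
  have h4 : ‖(ω : E n)‖ ^ 2 = 1 := by simp
  rw [EuclideanSpace.real_norm_sq_eq] at h4
  have h5 : ∀ j, |(ω : E n) j| ≤ 1 := by
    intro j
    rw [abs_le_one_iff_mul_self_le_one, ← sq, ← h4]
    exact Finset.single_le_sum (f := fun j => (ω : E n) j ^ 2) (fun i _ => sq_nonneg _)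
      (Finset.mem_univ j)
  simp only [FT_g]
  rw [Finset.prod_mul_distrib, ← Complex.exp_sum]
  have h6 : ∏ j, ((B ((ω : E n) j) : ℝ) : ℂ) = 1 := by
    refine Finset.prod_eq_one fun j _ => ?_
    rw [FT_B_one (h5 j), Complex.ofReal_one]
  rw [h6, one_mul, ← Finset.sum_mul]
  push_cast
  rfl

end Pool.Agent.SEP
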