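import Pool.Agent.SEPH.CB
import Pool.Agent.SEPH.DC
import Pool.Agent.SEPH.FT
import Pool.Agent.SEPH.Defs

/-!
Rows LIM and MAIN.
-/

namespace Pool.Agent.SEP

open MeasureTheory Set Filter Topology Pool.Agent.MP_6cbfb8_an Polynomial
open scoped ENNReal Real




/-- Convergence at a point. -/
theorem lim_point (n : ℕ) (hn : 3 ≤ n) (f : Fin n → ℝ[X]) (y : Fin n → ℝ) {T : ℕ → ℝ}
    (hT : Tendsto T atTop atTop) : Tendsto (fun i => FT (T i) f y) atTop (𝓝 (FF f y)) := by
  have hint := (int_I1 n hn f).1 y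
  have hB : Continuous B := bump.continuous
  have hB1 : ∀ x, |B x| ≤ 1 := fun x => by
    unfold B
    rw [abs_of_nonneg bump.nonneg]
    exact bump.le_one
  have hB0 : B 0 = 1 := bump.one_of_mem_closedBall (by simp [bump])
  unfold FT FF
  refine tendsto_integral_of_dominated_convergence
    (fun t => ‖∏ j, I1 (f j) t (y j)‖) (fun i => ?_) hint.norm (fun i => ?_) ?_
  · refine AEStronglyMeasurable.mul ?_ hint.aestronglyMeasurable
    refine Continuous.aestronglyMeasurable ?_
    exact (by fun_prop : Continuous fun t : ℝ => Complex.exp ((t : ℂ) * Complex.I)).mul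
      (Complex.continuous_ofReal.comp (hB.comp (continuous_id.div_const (T i))))
  · refine Eventually.of_forall fun t => ?_
    rw [norm_mul, norm_mul, Complex.norm_exp_ofReal_mul_I, one_mul, Complex.norm_real,
      Real.norm_eq_abs]
    exact mul_le_of_le_one_left (norm_nonneg _) (hB1 _)
  · refine Eventually.of_forall fun t => ?_
    have h1 : Tendsto (fun i => t / T i) atTop (𝓝 0) := hT.const_div_atTop t
    have h2 : Tendsto (fun i => B (t / T i)) atTop (𝓝 1) := by
      rw [← hB0]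
      exact (hB.tendsto 0).comp h1
    have h3 : Tendsto (fun i => (B (t / T i) : ℂ)) atTop (𝓝 1) := by
      have := (Complex.continuous_ofReal.tendsto 1).comp h2
      rwa [Complex.ofReal_one] at this
    have h4 := ((tendsto_const_nhds (x := Complex.exp ((t : ℂ) * Complex.I))).mul h3).mul
      (tendsto_const_nhds (x := ∏ j, I1 (f j) t (y j)))
    rwa [mul_one] at h4

/-- ROW LIM. Dominated convergence and Fatou. -/
theorem lim (n : ℕ) (hn : 3 ≤ n) (p : ℝ) (hp : 0 < p) (f : Fin n → ℝ[X]) (C : ℝ≥0∞) (T0 : ℝ)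
    (h : ∀ T : ℝ, T0 ≤ T → ∫⁻ y : Fin n → ℝ, ‖FT T f y‖ₑ ^ p ≤ C) :
    ∫⁻ y : Fin n → ℝ, ‖FF f y‖ₑ ^ p ≤ C := by
  set T : ℕ → ℝ := fun i => T0 + i with hTdef
  have hT : Tendsto T atTop atTop :=
    tendsto_atTop_add_const_left _ _ tendsto_natCast_atTop_atTop
  have hpt : ∀ y, Tendsto (fun i => ‖FT (T i) f y‖ₑ ^ p) atTop (𝓝 (‖FF f y‖ₑ ^ p)) := fun y =>
    ((ENNReal.continuous_rpow_const (y := p)).tendsto _).comp
      ((continuous_enorm.tendsto _).comp (lim_point n hn f y hT))
  calc ∫⁻ y : Fin n → ℝ, ‖FF f y‖ₑ ^ p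
      = ∫⁻ y : Fin n → ℝ, liminf (fun i => ‖FT (T i) f y‖ₑ ^ p) atTop := by
        refine lintegral_congr fun y => ?_
        exact (hpt y).liminf_eq.symm
    _ ≤ liminf (fun i => ∫⁻ y : Fin n → ℝ, ‖FT (T i) f y‖ₑ ^ p) atTop := by
        refine lintegral_liminf_le fun i => ?_
        have := ((int_I1 n hn f).2 (T i)).measurable
        exact this.enorm.pow_const p
    _ ≤ C := by
        refine liminf_le_of_le ?_ ?_
        · isBoundedDefault
        · intro b hb
          obtain ⟨i, hi⟩ := hb.exists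
          refine hi.trans (h _ ?_)
          have : (0 : ℝ) ≤ i := Nat.cast_nonneg i
          simp only [hTdef]
          linarith

theorem main_measI {D k m : ℕ} {f : ℝ[X]} : Measurable fun q : ℝ × ℝ => I1c D k m f q.1 q.2 := by
  have hB : Continuous B := bump.continuous
  have h1 : Continuous fun p : (ℝ × ℝ) × ℝ =>
      ((theta D k f p.2 p.1.1 * beta k m p.2 : ℝ) : ℂ) *
        Complex.exp (((f.eval p.2 - p.1.1 * p.2 ^ 2 - p.1.2 * p.2 : ℝ) : ℂ) * Complex.I) := by
    have e1 : Continuous fun p : (ℝ × ℝ) × ℝ => theta D k f p.2 p.1.1 := by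
      have e0 : ∀ k, Continuous fun p : (ℝ × ℝ) × ℝ => Sk D k f p.2 p.1.1 := by
        intro k
        unfold Sk gd
        refine continuous_finsetSum _ fun i _ => ?_
        have e2 : Continuous fun p : (ℝ × ℝ) × ℝ => (derivative^[i] f).eval p.2 :=
          (Polynomial.continuous _).comp continuous_snd
        split_ifs <;> fun_prop
      unfold theta
      have e3 := hB.comp ((e0 (k + 1)).div_const 2)
      have e4 := hB.comp ((e0 k).div_const 2)
      split_ifs
      · exact e3.sub continuous_const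
      · exact e3.sub e4
    have e5 : Continuous fun p : (ℝ × ℝ) × ℝ => beta k m p.2 := by
      unfold beta
      have e3 : Continuous fun p : (ℝ × ℝ) × ℝ => B (2 ^ m * p.2) :=
        hB.comp (continuous_const.mul continuous_snd)
      have e4 : Continuous fun p : (ℝ × ℝ) × ℝ => B (2 ^ (m + 1) * p.2) :=
        hB.comp (continuous_const.mul continuous_snd)
      split_ifs
      · exact e3.sub e4
      · exact e3.sub continuous_const
    have e6 : Continuous fun p : (ℝ × ℝ) × ℝ => f.eval p.2 :=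
      (Polynomial.continuous _).comp continuous_snd
    exact (Complex.continuous_ofReal.comp (e1.mul e5)).mul (Complex.continuous_exp.comp
      ((Complex.continuous_ofReal.comp ((e6.sub (by fun_prop)).sub (by fun_prop))).mul
        continuous_const))
  exact (h1.stronglyMeasurable.integral_prod_right
    (f := fun (q : ℝ × ℝ) (x : ℝ) => ((theta D k f x q.1 * beta k m x : ℝ) : ℂ) *
        Complex.exp (((f.eval x - q.1 * x ^ 2 - q.2 * x : ℝ) : ℂ) * Complex.I))).measurable

theorem main_measF {n D : ℕ} {T : ℝ} {k m : Fin n → ℕ} {f : Fin n → ℝ[X]} :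
    Measurable (Fc D T k m f) := by
  have hB : Continuous B := bump.continuous
  have h1 : Measurable fun p : (Fin n → ℝ) × ℝ => Complex.exp ((p.2 : ℂ) * Complex.I) *
      (B (p.2 / T) : ℂ) * ∏ j, I1c D (k j) (m j) (f j) p.2 (p.1 j) := by
    refine Measurable.mul (Measurable.mul ?_ ?_) ?_
    · have : Continuous fun p : (Fin n → ℝ) × ℝ => Complex.exp ((p.2 : ℂ) * Complex.I) := by
        fun_prop
      exact this.measurable
    · exact (Complex.continuous_ofReal.comp (hB.comp (continuous_snd.div_const T))).measurable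
    · refine Finset.measurable_prod _ fun j _ => ?_
      exact main_measI.comp (f := fun p : (Fin n → ℝ) × ℝ => (p.2, p.1 j)) (by fun_prop)
  exact (h1.stronglyMeasurable.integral_prod_right
    (f := fun (y : Fin n → ℝ) (t : ℝ) => Complex.exp ((t : ℂ) * Complex.I) *
      (B (t / T) : ℂ) * ∏ j, I1c D (k j) (m j) (f j) t (y j))).measurable

/-- The sum over the classes. -/
theorem main_sum (n L : ℕ) (r : ℝ) (hr : 0 ≤ r) (hr1 : r < 1) :
    ∑ c ∈ Fintype.piFinset fun _ : Fin n =>
        (Finset.range L ×ˢ Finset.range L).filter fun q : ℕ × ℕ => q.2 ≤ q.1,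
          ∏ j, (r ^ (c j).1 * r ^ (c j).2) ≤ ((1 / (1 - r)) ^ 2) ^ n := by
  rw [← Finset.prod_univ_sum (t := fun _ : Fin n =>
    (Finset.range L ×ˢ Finset.range L).filter fun q : ℕ × ℕ => q.2 ≤ q.1)
    (f := fun _ q => r ^ q.1 * r ^ q.2)]
  rw [Finset.prod_const, Finset.card_univ, Fintype.card_fin]
  refine pow_le_pow_left₀ (Finset.sum_nonneg fun q _ => by positivity) ?_ n
  have hg : ∑ i ∈ Finset.range L, r ^ i ≤ 1 / (1 - r) := by
    rw [le_div_iff₀ (by linarith)]
    have h1 := geom_sum_mul_neg r L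
    rw [h1]
    linarith [pow_nonneg hr L]
  calc ∑ q ∈ (Finset.range L ×ˢ Finset.range L).filter (fun q : ℕ × ℕ => q.2 ≤ q.1),
        r ^ q.1 * r ^ q.2 ≤ ∑ q ∈ Finset.range L ×ˢ Finset.range L, r ^ q.1 * r ^ q.2 :=
        Finset.sum_le_sum_of_subset_of_nonneg (Finset.filter_subset _ _) fun q _ _ => by positivity
    _ = (∑ i ∈ Finset.range L, r ^ i) * ∑ i ∈ Finset.range L, r ^ i := by
        rw [Finset.sum_product, Finset.sum_mul_sum]
    _ ≤ (1 / (1 - r)) * (1 / (1 - r)) := by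
        gcongr
    _ = _ := by ring

/-- ROW MAIN. -/
theorem main4 (n D : ℕ) (hn : 4 ≤ n) (a : ℝ) (ha : 2 / ((n : ℝ) - 1) < a)
    (ha1 : a ≤ 17 / 25) : ∃ C : ℝ≥0∞, C ≠ ∞ ∧
    ∀ f : Fin n → ℝ[X], (∀ j, (f j).natDegree ≤ D) →
      ∫⁻ y : Fin n → ℝ, ‖FF f y‖ₑ ^ (2 + a) ≤ C := by
  obtain ⟨C, ε, hC, hε, hcb⟩ := cb n (max D 2) hn (le_max_right _ _) a ha ha1
  have hn4 : (4 : ℝ) ≤ n := by exact_mod_cast hn
  have ha0 : 0 < a := lt_trans (div_pos two_pos (by linarith)) ha
  set p : ℝ := 2 + a with hp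
  have hp0 : 0 < p := by linarith
  have hp1 : 1 ≤ p := by linarith
  set r : ℝ := (2 : ℝ) ^ (-(ε / p)) with hr
  have hr0 : 0 < r := by positivity
  have hr1 : r < 1 := Real.rpow_lt_one_of_one_lt_of_neg one_lt_two
    (neg_lt_zero.2 (div_pos hε hp0))
  set K : ℝ := C ^ (1 / p) * ((1 / (1 - r)) ^ 2) ^ n with hK
  refine ⟨ENNReal.ofReal K ^ p, ENNReal.rpow_ne_top_of_nonneg hp0.le ENNReal.ofReal_ne_top, ?_⟩
  intro f hf
  have hf' : ∀ j, (f j).natDegree ≤ max D 2 := fun j => (hf j).trans (le_max_left _ _)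
  obtain ⟨T0, hT0, hdc⟩ := dc n (max D 2) (le_max_right _ _) f hf'
  refine lim n (by omega) p hp0 f _ T0 fun T hT => ?_
  obtain ⟨L, hL, hFT⟩ := hdc T hT
  have hTpos : 0 < T := by linarith
  rw [lintegral_rpow_enorm_eq_rpow_eLpNorm' hp0]
  refine ENNReal.rpow_le_rpow ?_ hp0.le
  set s : Finset (Fin n → ℕ × ℕ) := Fintype.piFinset fun _ : Fin n =>
        (Finset.range L ×ˢ Finset.range L).filter fun q : ℕ × ℕ => q.2 ≤ q.1 with hs
  have hFT' : FT T f = ∑ c ∈ s, Fc (max D 2) T (fun j => (c j).1) (fun j => (c j).2) f := by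
    funext y
    rw [hFT y, Finset.sum_apply]
  rw [hFT']
  refine (eLpNorm'_sum_le (fun c _ => main_measF.aestronglyMeasurable) hp1).trans ?_
  have hone : ∀ c ∈ s, eLpNorm' (Fc (max D 2) T (fun j => (c j).1) (fun j => (c j).2) f) p volume ≤
      ENNReal.ofReal (C ^ (1 / p) * ∏ j, (r ^ (c j).1 * r ^ (c j).2)) := by
    intro c hc
    rw [hs, Fintype.mem_piFinset] at hc
    have hne : (Finset.univ : Finset (Fin n)).Nonempty := ⟨⟨0, by omega⟩, Finset.mem_univ _⟩
    obtain ⟨J, -, hJ⟩ := Finset.exists_min_image Finset.univ (fun j => (c j).1) hne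
    have h4 : (4 : ℝ) ^ (c J).1 ≤ 8 * T := by
      have h1 := Finset.mem_filter.1 (hc J)
      have h2 : (c J).1 < L := Finset.mem_range.1 (Finset.mem_product.1 h1.1).1
      have h3 : (4 : ℝ) ^ ((c J).1 + 1) ≤ 4 ^ L := pow_le_pow_right₀ (by norm_num) h2
      rw [pow_succ] at h3
      linarith
    have h5 := hcb T (fun j => (c j).1) (fun j => (c j).2) f J hTpos
      (fun j => hJ j (Finset.mem_univ j)) (fun j => (Finset.mem_filter.1 (hc j)).2) hf' h4
    rw [eLpNorm'_eq_lintegral_enorm]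
    refine (ENNReal.rpow_le_rpow h5 (by positivity : 0 ≤ 1 / p)).trans (le_of_eq ?_)
    rw [ENNReal.ofReal_rpow_of_nonneg (by positivity) (by positivity),
      Real.mul_rpow hC.le (by positivity)]
    congr 2
    rw [← Real.rpow_mul zero_le_two]
    have h6 : ∀ j, r ^ (c j).1 * r ^ (c j).2 = (2 : ℝ) ^ (-(ε / p) * (((c j).1 : ℝ) + (c j).2)) := by
      intro j
      rw [hr, ← Real.rpow_natCast, ← Real.rpow_natCast, ← Real.rpow_mul zero_le_two,
        ← Real.rpow_mul zero_le_two, ← Real.rpow_add two_pos]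
      congr 1
      ring
    rw [Finset.prod_congr rfl fun j _ => h6 j, ← Real.rpow_sum_of_pos two_pos, ← Finset.mul_sum]
    congr 1
    ring
  refine (Finset.sum_le_sum hone).trans ?_
  rw [← ENNReal.ofReal_sum_of_nonneg fun c _ => by positivity]
  apply ENNReal.ofReal_le_ofReal
  rw [← Finset.mul_sum, hK]
  exact mul_le_mul_of_nonneg_left (main_sum n L r hr0.le hr1) (by positivity)

end Pool.Agent.SEP
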