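import Pool.Agent.SEPH.FT
import Pool.Agent.SEPH.MAIN
import Pool.Agent.QPH.I
import Pool.Agent.VAN.Main
import Pool.Agent.VAN.F

/-!
All dimensions, with cuts.
-/

namespace Pool.Agent.SEP

open MeasureTheory Set Pool.Agent.MP_6cbfb8_an Polynomial
open scoped ENNReal Real

/-- The powers of the coordinates. -/
noncomputable def EF (n D : ℕ) (k : Fin (Fintype.card (Fin n × Fin (D + 1)))) (x : E n) : ℝ :=
  x ((Fintype.equivFin (Fin n × Fin (D + 1))).symm k).1 ^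
    (((Fintype.equivFin (Fin n × Fin (D + 1))).symm k).2 : ℕ)

/-- The coefficients. -/
noncomputable def Ec {n : ℕ} (D : ℕ) (f : Fin n → ℝ[X])
    (k : Fin (Fintype.card (Fin n × Fin (D + 1)))) : ℝ :=
  (f ((Fintype.equivFin (Fin n × Fin (D + 1))).symm k).1).coeff
    ((Fintype.equivFin (Fin n × Fin (D + 1))).symm k).2

theorem EF_fam {n : ℕ} (D : ℕ) (f : Fin n → ℝ[X]) (hf : ∀ j, (f j).natDegree ≤ D) (x : E n) :
    VAN.fam (EF n D) (Ec D f) x = ∑ j, (f j).eval (x j) := by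
  unfold VAN.fam EF Ec
  rw [Equiv.sum_comp (Fintype.equivFin (Fin n × Fin (D + 1))).symm
    (fun q : Fin n × Fin (D + 1) => (f q.1).coeff q.2 * x q.1 ^ (q.2 : ℕ)),
    Fintype.sum_prod_type]
  refine Finset.sum_congr rfl fun j _ => ?_
  rw [Polynomial.eval_eq_sum_range' (lt_of_le_of_lt (hf j) (Nat.lt_succ_self D)),
    Finset.sum_range]

theorem EF_fam' {n : ℕ} (D : ℕ) (c : Fin (Fintype.card (Fin n × Fin (D + 1))) → ℝ) :
    ∃ f : Fin n → ℝ[X], (∀ j, (f j).natDegree ≤ D) ∧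
      ∀ x : E n, VAN.fam (EF n D) c x = ∑ j, (f j).eval (x j) := by
  refine ⟨fun j => ∑ i : Fin (D + 1), Polynomial.monomial (i : ℕ)
    (c (Fintype.equivFin (Fin n × Fin (D + 1)) (j, i))), fun j => ?_, fun x => ?_⟩
  · refine Polynomial.natDegree_sum_le_of_forall_le _ _ fun i _ => ?_
    exact (Polynomial.natDegree_monomial_le _).trans (Nat.lt_succ_iff.1 i.2)
  · unfold VAN.fam EF
    rw [← Equiv.sum_comp (Fintype.equivFin (Fin n × Fin (D + 1))), Fintype.sum_prod_type]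
    refine Finset.sum_congr rfl fun j _ => ?_
    rw [Polynomial.eval_finsetSum]
    refine Finset.sum_congr rfl fun i _ => ?_
    rw [Polynomial.eval_monomial, Equiv.symm_apply_apply]

theorem EF_cont (n D : ℕ) (k : Fin (Fintype.card (Fin n × Fin (D + 1)))) :
    Continuous (EF n D k) := by
  unfold EF
  fun_prop

theorem EF_an (n D : ℕ) (k : Fin (Fintype.card (Fin n × Fin (D + 1)))) (s : Set (E n)) :
    AnalyticOnNhd ℝ (EF n D k) s := by
  intro x _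
  unfold EF
  exact ((EuclideanSpace.proj (𝕜 := ℝ)
    ((Fintype.equivFin (Fin n × Fin (D + 1))).symm k).1 : E n →L[ℝ] ℝ).analyticAt x).pow _

theorem end_norm_le {n : ℕ} (u : E n → ℝ) (ξ : E n) :
    ‖extn (fun x => Complex.exp (((u x : ℝ) : ℂ) * Complex.I)) ξ‖ ≤ (sm n).real univ := by
  unfold extn
  refine (norm_integral_le_of_norm_le_const (μ := sm n) (C := 1) ?_).trans_eq (by simp)
  refine Filter.Eventually.of_forall fun x => ?_
  rw [norm_mul, Complex.norm_exp_ofReal_mul_I, Complex.norm_exp_ofReal_mul_I, one_mul]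

theorem end_pow_lower {n : ℕ} {F : E n → ℂ} {M p q : ℝ} (hM : 0 ≤ M) (hF : ∀ ξ, ‖F ξ‖ ≤ M)
    (hq0 : 0 ≤ q) (hq : q ≤ p) :
    ∫⁻ ξ, ‖F ξ‖ₑ ^ p ≤ ENNReal.ofReal (M ^ (p - q)) * ∫⁻ ξ, ‖F ξ‖ₑ ^ q := by
  rw [← lintegral_const_mul' _ _ ENNReal.ofReal_ne_top]
  refine lintegral_mono fun ξ => ?_
  have h1 : ‖F ξ‖ₑ ≤ ENNReal.ofReal M := by
    rw [← ofReal_norm]
    exact ENNReal.ofReal_le_ofReal (hF ξ)
  calc ‖F ξ‖ₑ ^ p = ‖F ξ‖ₑ ^ (p - q) * ‖F ξ‖ₑ ^ q := by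
        rw [← ENNReal.rpow_add_of_nonneg _ _ (by linarith) hq0]
        congr 1
        ring
    _ ≤ ENNReal.ofReal M ^ (p - q) * ‖F ξ‖ₑ ^ q := by
        gcongr
    _ = _ := by rw [ENNReal.ofReal_rpow_of_nonneg hM (by linarith)]

/-- Scaling. -/
theorem end_two_pi {n : ℕ} (G : (Fin n → ℝ) → ℝ≥0∞) :
    ∫⁻ ξ : E n, G (fun j => 2 * π * ξ j) =
      ENNReal.ofReal (|((2 * π) ^ n)⁻¹|) * ∫⁻ y : Fin n → ℝ, G y := by
  have h2π : (2 * π : ℝ) ≠ 0 := by positivity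
  have h1 : ∫⁻ ξ : E n, G (fun j => 2 * π * ξ j) = ∫⁻ y : Fin n → ℝ, G ((2 * π) • y) := by
    have h := (EuclideanSpace.volume_preserving_symm_measurableEquiv_toLp (Fin n)).lintegral_comp_emb
      (MeasurableEquiv.measurableEmbedding _) (fun y : Fin n → ℝ => G ((2 * π) • y))
    rw [← h]
    rfl
  have h3 : (Homeomorph.smulOfNeZero (2 * π) h2π : (Fin n → ℝ) ≃ₜ (Fin n → ℝ)).toMeasurableEquiv =
    (Homeomorph.smulOfNeZero (2 * π) h2π).toMeasurableEquiv := rfl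
  rw [h1]
  have h4 := lintegral_map_equiv (μ := (volume : Measure (Fin n → ℝ))) G
    (Homeomorph.smulOfNeZero (2 * π) h2π : (Fin n → ℝ) ≃ₜ (Fin n → ℝ)).toMeasurableEquiv
  have h5 : Measure.map (Homeomorph.smulOfNeZero (2 * π) h2π :
      (Fin n → ℝ) ≃ₜ (Fin n → ℝ)).toMeasurableEquiv (volume : Measure (Fin n → ℝ)) =
      ENNReal.ofReal (|((2 * π) ^ n)⁻¹|) • (volume : Measure (Fin n → ℝ)) := by
    have := Measure.map_addHaar_smul (volume : Measure (Fin n → ℝ)) h2π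
    rw [Module.finrank_fin_fun] at this
    exact this
  rw [h5, lintegral_smul_measure, smul_eq_mul] at h4
  rw [h4]
  rfl

/-- All dimensions, one density. -/
theorem sep_bound (n D : ℕ) (hn : 3 ≤ n) (p : ℝ) (hp : 2 * (n : ℝ) / (n - 1) < p) :
    ∃ C : ℝ≥0∞, C ≠ ∞ ∧ ∀ f : Fin n → ℝ[X], (∀ j, (f j).natDegree ≤ D) →
      ∫⁻ ξ : E n, ‖extn (fun x => Complex.exp (((∑ j, (f j).eval (x j) : ℝ) : ℂ) * Complex.I)) ξ‖ₑ ^ p
        ≤ C := by
  have hn' : (3 : ℝ) ≤ n := by exact_mod_cast hn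
  rcases Nat.lt_or_ge n 4 with h4 | h4
  · obtain rfl : n = 3 := by omega
    obtain ⟨C, hC, h⟩ := VAN.main (EF 3 D) (fun j => EF_an 3 D j _) 0 p (by norm_num at hp; exact hp)
    refine ⟨C, hC, fun f hf => ?_⟩
    refine le_trans (le_of_eq ?_) (h (Ec D f) fun i => i.elim0)
    refine lintegral_congr fun ξ => ?_
    congr 3
    funext x
    unfold VAN.famc
    rw [EF_fam D f hf]
    simp
  · have hn4 : (4 : ℝ) ≤ n := by exact_mod_cast h4
    have h1 : 0 < (n : ℝ) - 1 := by linarith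
    have h2 : 2 * (n : ℝ) / (n - 1) = 2 + 2 / (n - 1) := by
      field_simp
      ring
    rw [h2] at hp
    set a : ℝ := min (p - 2) (17 / 25) with ha
    have ha1 : 2 / ((n : ℝ) - 1) < a := by
      refine lt_min (by linarith) ?_
      rw [div_lt_iff₀ h1]
      linarith
    have ha0 : 0 < a := lt_trans (by positivity) ha1
    have hap : 2 + a ≤ p := by
      have := min_le_left (p - 2) (17 / 25 : ℝ)
      linarith
    obtain ⟨C, hC, h⟩ := main4 n D h4 a ha1 (min_le_right _ _)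
    obtain ⟨c, hc⟩ := ft n hn
    have hM : 0 ≤ (sm n).real univ := measureReal_nonneg
    refine ⟨ENNReal.ofReal ((sm n).real univ ^ (p - (2 + a))) * (‖c‖ₑ ^ (2 + a) *
      (ENNReal.ofReal (|((2 * π) ^ n)⁻¹|) * C)), ?_, fun f hf => ?_⟩
    · refine ENNReal.mul_ne_top ENNReal.ofReal_ne_top (ENNReal.mul_ne_top ?_
        (ENNReal.mul_ne_top ENNReal.ofReal_ne_top hC))
      exact ENNReal.rpow_ne_top_of_nonneg (by linarith) enorm_ne_top
    · refine (end_pow_lower hM (fun ξ => end_norm_le _ ξ) (by linarith) hap).trans ?_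
      gcongr
      calc ∫⁻ ξ : E n, ‖extn (fun x => Complex.exp (((∑ j, (f j).eval (x j) : ℝ) : ℂ) *
            Complex.I)) ξ‖ₑ ^ (2 + a)
          = ∫⁻ ξ : E n, ‖c‖ₑ ^ (2 + a) * ‖FF f (fun j => 2 * π * ξ j)‖ₑ ^ (2 + a) := by
            refine lintegral_congr fun ξ => ?_
            rw [hc f ξ, enorm_mul, ENNReal.mul_rpow_of_nonneg _ _ (by linarith)]
        _ = ‖c‖ₑ ^ (2 + a) * ∫⁻ ξ : E n, ‖FF f (fun j => 2 * π * ξ j)‖ₑ ^ (2 + a) :=
            lintegral_const_mul' _ _ (ENNReal.rpow_ne_top_of_nonneg (by linarith) enorm_ne_top)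
        _ = ‖c‖ₑ ^ (2 + a) * (ENNReal.ofReal (|((2 * π) ^ n)⁻¹|) *
              ∫⁻ y : Fin n → ℝ, ‖FF f y‖ₑ ^ (2 + a)) := by
            rw [end_two_pi fun y => ‖FF f y‖ₑ ^ (2 + a)]
        _ ≤ _ := by
            gcongr
            exact h f hf

/-- The density: phase `∑ f_j(x_j)`, cut by the sets where `∑ g_{i,j}(x_j)` is positive. -/
noncomputable def seps {n N : ℕ} (f : Fin n → ℝ[X]) (g : Fin N → Fin n → ℝ[X]) (x : E n) : ℂ :=
  Complex.exp (((∑ j, (f j).eval (x j) : ℝ) : ℂ) * Complex.I) *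
    ∏ i, if 0 < ∑ j, (g i j).eval (x j) then 1 else 0

theorem end_extn_congr {n : ℕ} {g g' : E n → ℂ} (h : ∀ x : E n, ‖x‖ = 1 → g x = g' x) :
    extn g = extn g' := by
  funext ξ
  unfold extn
  refine integral_congr_ae (Filter.Eventually.of_forall fun x => ?_)
  simp only
  rw [h x (by simp)]

/-- All dimensions, with cuts. -/
theorem sep_cut (n D N : ℕ) (hn : 3 ≤ n) (p : ℝ) (hp : 2 * (n : ℝ) / (n - 1) < p) :
    ∃ C : ℝ≥0∞, C ≠ ∞ ∧ ∀ (f : Fin n → ℝ[X]) (g : Fin N → Fin n → ℝ[X]),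
      (∀ j, (f j).natDegree ≤ D) → (∀ i j, (g i j).natDegree ≤ D) →
      ∫⁻ ξ : E n, ‖extn (seps f g) ξ‖ₑ ^ p ≤ C := by
  have hn' : (3 : ℝ) ≤ n := by exact_mod_cast hn
  have hp0 : 1 ≤ 2 * (n : ℝ) / (n - 1) := by
    rw [le_div_iff₀ (by linarith)]
    linarith
  obtain ⟨k, σ, hσ, hi, L, hL⟩ := VAN.fam_reduce_zero (EF n D)
  obtain ⟨K, κ, hK, hκ, hsub⟩ := QPH.I.sublevel (by omega : 2 ≤ n) (fun j => EF n D (σ j))
    (fun j => EF_an n D (σ j) _) hi
  have hbd : ∃ K : ℝ, ∀ j : Fin k, ∀ x : E n, ‖x‖ = 1 → |EF n D (σ j) x| ≤ K := by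
    have hK : ∀ j : Fin k, ∃ K : ℝ, ∀ x : E n, ‖x‖ = 1 → |EF n D (σ j) x| ≤ K := by
      intro j
      obtain ⟨K, hK⟩ := (isCompact_sphere (0 : E n) 1).exists_bound_of_continuousOn
        (EF_cont n D (σ j)).continuousOn
      exact ⟨K, fun x hx => by simpa using hK x (by simpa using hx)⟩
    choose K hK using hK
    refine ⟨∑ j, |K j|, fun j x hx => (hK j x hx).trans ((le_abs_self _).trans ?_)⟩
    exact Finset.single_le_sum (f := fun j => |K j|) (fun i _ => abs_nonneg _) (Finset.mem_univ j)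
  obtain ⟨C, hC, h⟩ := VAN.cuts (2 * (n : ℝ) / (n - 1)) hp0 (fun j => EF n D (σ j))
    (fun j => (EF_cont n D (σ j)).measurable) hbd ⟨K, κ, hK, hκ, hsub⟩
    (fun q hq => by
      obtain ⟨C, hC, h⟩ := sep_bound n D hn q hq
      refine ⟨C, hC, fun c => ?_⟩
      obtain ⟨f, hf, hfe⟩ := EF_fam' (n := n) D fun i => ∑ j, if σ j = i then c j else 0
      refine le_trans (le_of_eq ?_) (h f hf)
      refine lintegral_congr fun ξ => ?_
      congr 3
      funext x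
      congr 3
      rw [← hfe x]
      unfold VAN.fam
      simp only [Finset.sum_mul]
      rw [Finset.sum_comm]
      refine Finset.sum_congr rfl fun j _ => ?_
      simp) N p hp
  refine ⟨C, hC, fun f g hf hg => ?_⟩
  refine le_trans (le_of_eq ?_) (h (L (Ec D f)) fun i => L (Ec D (g i)))
  rw [end_extn_congr (g := seps f g) (g' := VAN.famc _ (L (Ec D f)) fun i => L (Ec D (g i)))]
  intro x hx
  unfold seps VAN.famc
  rw [← EF_fam D f hf x, hL _ x hx]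
  congr 1
  exact Finset.prod_congr rfl fun i _ => by rw [← EF_fam D (g i) (hg i) x, hL _ x hx]

end Pool.Agent.SEP
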