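import Pool.Agent.SEPH.TY

/-!
Points with the same label and close packets: positions at a fixed time, and times of core points.
-/

namespace Pool.Agent.SEP

open MeasureTheory Set Pool.Agent.MP_6cbfb8_an Polynomial
open scoped ENNReal Real

theorem fh_gd_of_ne {f : ℝ[X]} {w : ℝ} {i : ℕ} {z : ℝ} (hi : i ≠ 2) :
    gd f w i z = (derivative^[i] f).eval z := by
  unfold gd
  rw [if_neg hi, sub_zero]

theorem fh_gd_two {f : ℝ[X]} {w z : ℝ} : gd f w 2 z = (derivative^[2] f).eval z - 2 * w := by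
  unfold gd
  rw [if_pos rfl]

/-- The upper bound of a class for all orders. -/
theorem fh_gd_le {D : ℕ} {A : ℝ} {k m : ℕ} {f : ℝ[X]} {z w : ℝ} (hD : 2 ≤ D) (hA : 1 ≤ A)
    (hf : f.natDegree ≤ D) (h : Cls D A k m f z w) (i : ℕ) (hi : 2 ≤ i) :
    |gd f w i z| ≤ A * 2 ^ (k * i) := by
  by_cases hiD : i ≤ D
  · exact h.up i (Finset.mem_Icc.2 ⟨hi, hiD⟩)
  · rw [fh_gd_of_ne (by omega), deriv_zero D f hf i (by omega), abs_zero]
    positivity

/-- One term of a Taylor sum. -/
theorem fh_term {A g u : ℝ} (k i l : ℕ) (hA : 1 ≤ A) (hg : |g| ≤ A * 2 ^ (k * (i + l)))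
    (hu : |u| ≤ 1 / 2 ^ k) : |g * u ^ l / (l.factorial : ℝ)| ≤ A * 2 ^ (k * i) := by
  rw [abs_div, abs_mul, abs_pow]
  have h1 : (1 : ℝ) ≤ |(l.factorial : ℝ)| := by
    rw [abs_of_nonneg (by positivity)]
    exact_mod_cast Nat.factorial_pos l
  have h2 : |u| ^ l ≤ (1 / 2 ^ k) ^ l := pow_le_pow_left₀ (abs_nonneg _) hu l
  have h3 : |g| * |u| ^ l ≤ A * 2 ^ (k * (i + l)) * (1 / 2 ^ k) ^ l :=
    mul_le_mul hg h2 (by positivity) (by positivity)
  have h4 : A * 2 ^ (k * (i + l)) * (1 / 2 ^ k) ^ l = A * (2 : ℝ) ^ (k * i) := by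
    rw [one_div, inv_pow, ← pow_mul, mul_add, pow_add]
    field_simp
  calc |g| * |u| ^ l / |(l.factorial : ℝ)| ≤ |g| * |u| ^ l / 1 :=
        div_le_div_of_nonneg_left (by positivity) one_pos h1
    _ ≤ A * 2 ^ (k * i) := by rw [div_one]; rw [h4] at h3; exact h3

/-- The second derivative moves by at most `D A 4 ^ k` on a cell. -/
theorem fh_second {D : ℕ} {A : ℝ} {k m : ℕ} {f : ℝ[X]} {z w : ℝ} (hD : 2 ≤ D) (hA : 1 ≤ A)
    (hf : f.natDegree ≤ D) (h : Cls D A k m f z w) {z' : ℝ} (hz : |z' - z| ≤ 1 / 2 ^ k) :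
    |(derivative^[2] f).eval z' - (derivative^[2] f).eval z| ≤ D * (A * 2 ^ (k * 2)) := by
  have h1 := taylor_eval D f hf 2 z (z' - z)
  rw [add_sub_cancel, Finset.sum_range_succ'] at h1
  have h2 : (derivative^[2] f).eval z' - (derivative^[2] f).eval z =
      ∑ l ∈ Finset.range D, (derivative^[2 + (l + 1)] f).eval z * (z' - z) ^ (l + 1) /
        ((l + 1).factorial : ℝ) := by
    rw [h1]
    simp
  rw [h2]
  refine (Finset.abs_sum_le_sum_abs _ _).trans ?_
  have h3 : ∀ l ∈ Finset.range D, |(derivative^[2 + (l + 1)] f).eval z * (z' - z) ^ (l + 1) /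
        ((l + 1).factorial : ℝ)| ≤ A * 2 ^ (k * 2) := by
    intro l _
    refine fh_term k 2 (l + 1) hA ?_ hz
    rw [← fh_gd_of_ne (w := w) (by omega)]
    exact fh_gd_le hD hA hf h _ (by omega)
  refine (Finset.sum_le_sum h3).trans ?_
  rw [Finset.sum_const, Finset.card_range, nsmul_eq_mul]

/-- The packet centre moves by at most `D A 2 ^ k` on a cell. -/
theorem fh_first {D : ℕ} {A : ℝ} {k m : ℕ} {f : ℝ[X]} {z w : ℝ} (hD : 2 ≤ D) (hA : 1 ≤ A)
    (hf : f.natDegree ≤ D) (h : Cls D A k m f z w) {z' : ℝ} (hz : |z' - z| ≤ 1 / 2 ^ k) :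
    |yc f z' w - yc f z w| ≤ D * (A * 2 ^ k) := by
  have h1 := taylor_eval D f hf 1 z (z' - z)
  rw [add_sub_cancel, Finset.sum_range_succ'] at h1
  obtain ⟨E, rfl⟩ : ∃ E, D = E + 1 := ⟨D - 1, by omega⟩
  have h2 : yc f z' w - yc f z w =
      ∑ l ∈ Finset.range (E + 1), gd f w (1 + (l + 1)) z * (z' - z) ^ (l + 1) /
        ((l + 1).factorial : ℝ) := by
    unfold yc
    have h0 : (derivative f).eval z' = (derivative^[1] f).eval z' := by simp
    have h0' : (derivative f).eval z = (derivative^[1] f).eval z := by simp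
    rw [h0, h0', h1, Finset.sum_range_succ', Finset.sum_range_succ' (n := E)]
    have h3 : ∀ l ∈ Finset.range E, gd f w (1 + (l + 1 + 1)) z * (z' - z) ^ (l + 1 + 1) /
        ((l + 1 + 1).factorial : ℝ) = (derivative^[1 + (l + 1 + 1)] f).eval z *
          (z' - z) ^ (l + 1 + 1) / ((l + 1 + 1).factorial : ℝ) := by
      intro l _
      rw [fh_gd_of_ne (by omega)]
    rw [Finset.sum_congr rfl h3]
    have h4 : gd f w (1 + (0 + 1)) z = (derivative^[1 + (0 + 1)] f).eval z - 2 * w := fh_gd_two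
    rw [h4]
    simp
    ring
  rw [h2]
  refine (Finset.abs_sum_le_sum_abs _ _).trans ?_
  have h3 : ∀ l ∈ Finset.range (E + 1), |gd f w (1 + (l + 1)) z * (z' - z) ^ (l + 1) /
        ((l + 1).factorial : ℝ)| ≤ A * 2 ^ (k * 1) := by
    intro l _
    exact fh_term k 1 (l + 1) hA (fh_gd_le hD hA hf h _ (by omega)) hz
  refine (Finset.sum_le_sum h3).trans ?_
  rw [Finset.sum_const, Finset.card_range, nsmul_eq_mul, mul_one]

/-- Equal labels: the core type. -/
theorem fh_core {D : ℕ} {A : ℝ} {k : ℕ} {f : ℝ[X]} {z w z' w' : ℝ}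
    (h : lab1 D A k f z w = lab1 D A k f z' w') : Core D A k f z ↔ Core D A k f z' := by
  unfold lab1 at h
  simp only [Prod.mk.injEq, decide_eq_decide] at h
  exact h.2.2.2.2

/-- Equal labels: the sign of the second derivative. -/
theorem fh_sign {D : ℕ} {A : ℝ} {k : ℕ} {f : ℝ[X]} {z w z' w' : ℝ}
    (h : lab1 D A k f z w = lab1 D A k f z' w') :
    0 < (derivative^[2] f).eval z - 2 * w ↔ 0 < (derivative^[2] f).eval z' - 2 * w' := by
  unfold lab1 at h
  simp only [Prod.mk.injEq, decide_eq_decide] at h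
  exact h.2.2.2.1

/-- Equal labels: the count. -/
theorem fh_count {D : ℕ} {A : ℝ} {k : ℕ} {f : ℝ[X]} {z w z' w' : ℝ}
    (h : lab1 D A k f z w = lab1 D A k f z' w') :
    ((derivative^[3] f).roots.toFinset.filter (· < z)).card =
      ((derivative^[3] f).roots.toFinset.filter (· < z')).card := by
  unfold lab1 at h
  simp only [Prod.mk.injEq, decide_eq_decide] at h
  exact h.2.1

/-- Equal labels, core type: the same cell. -/
theorem fh_cell {D : ℕ} {A : ℝ} {k : ℕ} {f : ℝ[X]} {z w z' w' : ℝ}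
    (h : lab1 D A k f z w = lab1 D A k f z' w') (hc : Core D A k f z) :
    |z' - z| ≤ 1 / 2 ^ k := by
  have hc' := (fh_core h).1 hc
  unfold lab1 at h
  simp only [Prod.mk.injEq] at h
  have h1 := h.1
  rw [if_pos hc, if_pos hc'] at h1
  have h2 := Int.abs_sub_lt_one_of_floor_eq_floor h1
  have h3 : (2 : ℝ) ^ k * z - 2 ^ k * z' = -(2 ^ k * (z' - z)) := by ring
  rw [h3, abs_neg, abs_mul, abs_of_pos (by positivity : (0 : ℝ) < 2 ^ k)] at h2
  rw [le_div_iff₀ (by positivity)]
  linarith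

/-- Points which are not core have a large second derivative. -/
theorem fh_noncore {D : ℕ} {A : ℝ} {k m : ℕ} {f : ℝ[X]} {z w : ℝ} (h : Cls D A k m f z w)
    (hc : ¬ Core D A k f z) : 2 ^ (k * 2) ≤ A * |(derivative^[2] f).eval z - 2 * w| := by
  unfold Core at hc
  push Not at hc
  obtain ⟨hk, hi3⟩ := hc
  obtain ⟨i, hi, hle⟩ := h.lo (by omega)
  rw [Finset.mem_Icc] at hi
  by_cases h2 : i = 2
  · rw [h2, fh_gd_two] at hle
    exact hle
  · rw [fh_gd_of_ne h2] at hle
    exact absurd hle (not_le.2 (hi3 i (Finset.mem_Icc.2 ⟨by omega, hi.2⟩)))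

/-- ROW F1. At a fixed time two points with the same label and close packets are close. -/
theorem f1 (D : ℕ) (A : ℝ) (hD : 2 ≤ D) (hA : 1 ≤ A) : ∃ C : ℝ, 1 ≤ C ∧
    ∀ (k m : ℕ) (f : ℝ[X]) (z z' w Λ : ℝ), m ≤ k → f.natDegree ≤ D → 1 ≤ Λ →
      Cls D A k m f z w → Cls D A k m f z' w → lab1 D A k f z w = lab1 D A k f z' w →
      |yc f z w - yc f z' w| ≤ 4 * Λ * 2 ^ k → |z' - z| ≤ C * Λ / 2 ^ k := by
  refine ⟨4 * A, by linarith, ?_⟩
  -- the ordered form
  have key : ∀ (k m : ℕ) (f : ℝ[X]) (z z' w Λ : ℝ), m ≤ k → f.natDegree ≤ D → 1 ≤ Λ →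
      Cls D A k m f z w → Cls D A k m f z' w → lab1 D A k f z w = lab1 D A k f z' w →
      |yc f z w - yc f z' w| ≤ 4 * Λ * 2 ^ k → z ≤ z' → |z' - z| ≤ 4 * A * Λ / 2 ^ k := by
    intro k m f z z' w Λ hmk hf hΛ h h' hl hy hzz
    by_cases hc : Core D A k f z
    · refine (fh_cell hl hc).trans ?_
      refine div_le_div_of_nonneg_right ?_ (by positivity)
      nlinarith
    · have hc' : ¬ Core D A k f z' := fun h0 => hc ((fh_core hl).2 h0)
      have h1 := fh_noncore h hc
      have h2 := fh_noncore h' hc'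
      have hA0 : 0 < A := by linarith
      have hp : (0 : ℝ) < 2 ^ (k * 2) := by positivity
      have hp1 : (0 : ℝ) < 2 ^ k := by positivity
      have hpp : (2 : ℝ) ^ (k * 2) = 2 ^ k * 2 ^ k := by rw [pow_mul, sq]
      have hlow : 2 ^ (k * 2) / A * (z' - z) ≤ |yc f z w - yc f z' w| := by
        by_cases hs : 0 < (derivative^[2] f).eval z - 2 * w
        · have hs' := (fh_sign hl).1 hs
          rw [abs_of_pos hs] at h1
          rw [abs_of_pos hs'] at h2
          have h3 := (avg f z z' w (2 ^ (k * 2) / A)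
            (max ((derivative^[2] f).eval z - 2 * w) ((derivative^[2] f).eval z' - 2 * w)) hzz
            (fh_count hl) (by rw [div_le_iff₀ hA0]; linarith) (le_max_left _ _)
            (by rw [div_le_iff₀ hA0]; linarith) (le_max_right _ _)).1
          rw [abs_sub_comm]
          exact h3.trans (le_abs_self _)
        · have hs' : ¬ 0 < (derivative^[2] f).eval z' - 2 * w := fun h0 => hs ((fh_sign hl).2 h0)
          rw [not_lt] at hs hs'
          rw [abs_of_nonpos hs] at h1
          rw [abs_of_nonpos hs'] at h2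
          have h3 := (avg f z z' w
            (min ((derivative^[2] f).eval z - 2 * w) ((derivative^[2] f).eval z' - 2 * w))
            (-(2 ^ (k * 2) / A)) hzz (fh_count hl) (min_le_left _ _)
            (by rw [le_neg, div_le_iff₀ hA0]; linarith)
            (min_le_right _ _) (by rw [le_neg, div_le_iff₀ hA0]; linarith)).2
          have h4 : yc f z w - yc f z' w = -(yc f z' w - yc f z w) := by ring
          calc 2 ^ (k * 2) / A * (z' - z) = -(-(2 ^ (k * 2) / A) * (z' - z)) := by ring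
            _ ≤ -(yc f z' w - yc f z w) := by linarith
            _ = yc f z w - yc f z' w := by ring
            _ ≤ |yc f z w - yc f z' w| := le_abs_self _
      have h5 := hlow.trans hy
      rw [abs_of_nonneg (by linarith)]
      rw [div_mul_eq_mul_div, div_le_iff₀ hA0, hpp] at h5
      rw [le_div_iff₀ hp1]
      have h6 : 2 ^ k * ((z' - z) * 2 ^ k) ≤ 2 ^ k * (4 * A * Λ) := by
        calc 2 ^ k * ((z' - z) * 2 ^ k) = 2 ^ k * 2 ^ k * (z' - z) := by ring
          _ ≤ 4 * Λ * 2 ^ k * A := h5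
          _ = 2 ^ k * (4 * A * Λ) := by ring
      exact le_of_mul_le_mul_left h6 hp1
  intro k m f z z' w Λ hmk hf hΛ h h' hl hy
  rcases le_total z z' with hz | hz
  · exact key k m f z z' w Λ hmk hf hΛ h h' hl hy hz
  · rw [abs_sub_comm]
    exact key k m f z' z w Λ hmk hf hΛ h' h hl.symm (by rw [abs_sub_comm]; exact hy) hz

/-- ROW H1. The times of two core points with the same label and close packets. -/
theorem h1 (D : ℕ) (A : ℝ) (hD : 2 ≤ D) (hA : 1 ≤ A) : ∃ C : ℝ, 1 ≤ C ∧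
    ∀ (k m : ℕ) (f : ℝ[X]) (z w z' w' Λ : ℝ), m ≤ k → f.natDegree ≤ D → 1 ≤ Λ →
      Cls D A k m f z w → Cls D A k m f z' w' → lab1 D A k f z w = lab1 D A k f z' w' →
      |yc f z w - yc f z' w'| ≤ 2 * Λ * 2 ^ k → Core D A k f z →
      |w' - w| ≤ C * Λ * 2 ^ (m + k) := by
  have hA0 : 0 < A := by linarith
  have hDA : 0 ≤ (D : ℝ) * A := by positivity
  refine ⟨A * (1 + D * A) + D * A, by nlinarith, ?_⟩
  intro k m f z w z' w' Λ hmk hf hΛ h h' hl hy hc
  have hcell := fh_cell hl hc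
  have hΛ0 : 0 < Λ := by linarith
  rcases hmk.lt_or_eq with hlt | heq
  · have h1 := fh_first hD hA hf h' (z' := z) (by rw [abs_sub_comm]; exact hcell)
    have h2 : |yc f z w - yc f z w'| ≤ 2 * Λ * 2 ^ k + D * (A * 2 ^ k) := by
      calc |yc f z w - yc f z w'| = |(yc f z w - yc f z' w') - (yc f z w' - yc f z' w')| := by
            congr 1; ring
        _ ≤ |yc f z w - yc f z' w'| + |yc f z w' - yc f z' w'| := abs_sub _ _
        _ ≤ _ := add_le_add hy h1
    have h3 : yc f z w - yc f z w' = 2 * z * (w' - w) := by unfold yc; ring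
    rw [h3, abs_mul, abs_mul, abs_two] at h2
    have h4 := h.zlo hlt
    have hp : (0 : ℝ) < 2 ^ m := by positivity
    have hpk : (0 : ℝ) < 2 ^ k := by positivity
    calc |w' - w| = 1 * |w' - w| := (one_mul _).symm
      _ ≤ A * (|z| * 2 ^ m) * |w' - w| := mul_le_mul_of_nonneg_right h4 (abs_nonneg _)
      _ = A * 2 ^ m / 2 * (2 * |z| * |w' - w|) := by ring
      _ ≤ A * 2 ^ m / 2 * (2 * Λ * 2 ^ k + D * (A * 2 ^ k)) :=
          mul_le_mul_of_nonneg_left h2 (by positivity)
      _ = (A * Λ + A * (D * A) / 2) * (2 ^ m * 2 ^ k) := by ring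
      _ ≤ ((A * (1 + D * A) + D * A) * Λ) * (2 ^ m * 2 ^ k) := by
          refine mul_le_mul_of_nonneg_right ?_ (by positivity)
          have e1 : A * (D * A) / 2 ≤ A * (D * A) * Λ := by
            have : 0 ≤ A * (D * A) := by positivity
            nlinarith
          have e2 : 0 ≤ D * A * Λ := by positivity
          nlinarith
      _ = (A * (1 + D * A) + D * A) * Λ * 2 ^ (m + k) := by rw [pow_add]
  · subst heq
    have h1 := fh_second hD hA hf h hcell
    have h2 := fh_gd_le hD hA hf h 2 le_rfl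
    have h3 := fh_gd_le hD hA hf h' 2 le_rfl
    rw [fh_gd_two] at h2 h3
    have h4 : 2 * |w' - w| ≤ 2 * (A * 2 ^ (m * 2)) + D * (A * 2 ^ (m * 2)) := by
      calc 2 * |w' - w| = |2 * (w' - w)| := by rw [abs_mul, abs_two]
        _ = |((derivative^[2] f).eval z' - (derivative^[2] f).eval z) +
              ((derivative^[2] f).eval z - 2 * w) - ((derivative^[2] f).eval z' - 2 * w')| := by
            congr 1; ring
        _ ≤ |((derivative^[2] f).eval z' - (derivative^[2] f).eval z) +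
              ((derivative^[2] f).eval z - 2 * w)| + |(derivative^[2] f).eval z' - 2 * w'| :=
            abs_sub _ _
        _ ≤ |(derivative^[2] f).eval z' - (derivative^[2] f).eval z| +
              |(derivative^[2] f).eval z - 2 * w| + |(derivative^[2] f).eval z' - 2 * w'| := by
            gcongr
            exact abs_add_le _ _
        _ ≤ D * (A * 2 ^ (m * 2)) + A * 2 ^ (m * 2) + A * 2 ^ (m * 2) := by gcongr
        _ = _ := by ring
    have h5 : (2 : ℝ) ^ (m + m) = 2 ^ (m * 2) := by congr 1; ring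
    rw [h5]
    have hP : (0 : ℝ) < 2 ^ (m * 2) := by positivity
    have e1 : (A + D * A) * 2 ^ (m * 2) ≤ ((A * (1 + D * A) + D * A) * Λ) * 2 ^ (m * 2) := by
      refine mul_le_mul_of_nonneg_right ?_ hP.le
      have : 0 ≤ A * (D * A) := by positivity
      nlinarith
    have e2 : 0 ≤ (D : ℝ) * A * 2 ^ (m * 2) := by positivity
    nlinarith

end Pool.Agent.SEP
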