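import Mathlib

/-!
# Row F2a: unit cells hit by the set where a polynomial is bounded and a derivative is not small.
-/

namespace Pool.Agent.SEP

open Set Polynomial

/-- A bound of the coefficients by the values on `[0,1]`. -/
theorem f2a_coeff (D : ℕ) : ∃ C : ℝ, 0 < C ∧ ∀ (Q : ℝ[X]) (M : ℝ), Q.natDegree ≤ D →
    (∀ u ∈ Icc (0 : ℝ) 1, |Q.eval u| ≤ M) → ∀ i, |Q.coeff i| ≤ C * M := by
  let pt : Fin (D + 1) → ℝ := fun j => (j : ℝ) / (D + 1)
  have hpt : ∀ j, pt j ∈ Icc (0 : ℝ) 1 := by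
    intro j
    constructor
    · positivity
    · have hj : (j : ℝ) < D + 1 := by exact_mod_cast j.isLt
      exact (div_le_one (by positivity)).mpr hj.le
  have hinjpt : Function.Injective pt := by
    intro i j hij
    have h1 : (i : ℝ) / (D + 1) = (j : ℝ) / (D + 1) := hij
    have h2 : (i : ℝ) = (j : ℝ) := by
      have h3 : (0 : ℝ) < (D : ℝ) + 1 := by positivity
      exact (div_left_inj' h3.ne').mp h1
    exact Fin.ext (by exact_mod_cast h2)
  let T : (Fin (D + 1) → ℝ) →ₗ[ℝ] (Fin (D + 1) → ℝ) :=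
    { toFun := fun c j => ∑ i : Fin (D + 1), c i * pt j ^ (i : ℕ)
      map_add' := fun c c' => by
        ext j; simp only [Pi.add_apply, add_mul, Finset.sum_add_distrib]
      map_smul' := fun a c => by
        ext j; simp only [Pi.smul_apply, smul_eq_mul, RingHom.id_apply, mul_assoc, Finset.mul_sum] }
  have hTv : ∀ (Q : ℝ[X]), Q.natDegree ≤ D → ∀ j,
      T (fun i : Fin (D + 1) => Q.coeff i) j = Q.eval (pt j) := by
    intro Q hQ j
    rw [eval_eq_sum_range' (Nat.lt_succ_of_le hQ)]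
    exact Fin.sum_univ_eq_sum_range (fun i => Q.coeff i * pt j ^ i) (D + 1)
  have hT : LinearMap.ker T = ⊥ := by
    rw [LinearMap.ker_eq_bot']
    intro c hc
    let P : ℝ[X] := ∑ i : Fin (D + 1), C (c i) * X ^ (i : ℕ)
    have hPc : ∀ i : Fin (D + 1), P.coeff i = c i := by
      intro i
      simp only [P, finsetSum_coeff, coeff_C_mul, coeff_X_pow]
      rw [Finset.sum_eq_single i]
      · simp
      · intro b _ hb
        have : (i : ℕ) ≠ b := fun h => hb (Fin.ext h.symm)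
        simp [this]
      · simp
    have hPd : P.natDegree ≤ D := by
      refine natDegree_sum_le_of_forall_le _ _ fun i _ => ?_
      exact (natDegree_C_mul_X_pow_le _ _).trans (Nat.lt_succ_iff.mp i.isLt)
    have hP0 : P = 0 := by
      refine eq_zero_of_natDegree_lt_card_of_eval_eq_zero P hinjpt (fun j => ?_) ?_
      · rw [← hTv P hPd j]
        have : (fun i : Fin (D + 1) => P.coeff i) = c := funext hPc
        rw [this, hc]
        rfl
      · rw [Fintype.card_fin]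
        exact Nat.lt_succ_of_le hPd
    funext i
    rw [← hPc i, hP0]
    simp
  obtain ⟨K, hK, hTa⟩ := T.exists_antilipschitzWith hT
  refine ⟨K, hK, fun Q M hQ hM i => ?_⟩
  have hM0 : 0 ≤ M := (abs_nonneg _).trans (hM 0 (by simp))
  by_cases hi : i ≤ D
  · have h1 := hTa.le_mul_dist (fun i : Fin (D + 1) => Q.coeff i) 0
    rw [map_zero, dist_zero_right, dist_zero_right] at h1
    have h2 : ‖T (fun i : Fin (D + 1) => Q.coeff i)‖ ≤ M := by
      rw [pi_norm_le_iff_of_nonneg hM0]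
      intro j
      rw [hTv Q hQ j, Real.norm_eq_abs]
      exact hM _ (hpt j)
    have h3 : ‖Q.coeff i‖ ≤ ‖(fun i : Fin (D + 1) => Q.coeff i)‖ :=
      norm_le_pi_norm (fun i : Fin (D + 1) => Q.coeff i) ⟨i, Nat.lt_succ_of_le hi⟩
    rw [Real.norm_eq_abs] at h3
    calc |Q.coeff i| ≤ _ := h3
      _ ≤ _ := h1
      _ ≤ K * M := by gcongr
  · rw [coeff_eq_zero_of_natDegree_lt (by omega), abs_zero]
    have : (0 : ℝ) ≤ K := K.2
    positivity

theorem f2a_comp (Q : ℝ[X]) (a L : ℝ) (r : ℕ) :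
    derivative^[r] (Q.comp (C a + C L * X)) = C (L ^ r) * (derivative^[r] Q).comp (C a + C L * X) := by
  induction r with
  | zero => simp
  | succ r ih =>
    rw [Function.iterate_succ_apply', ih, Function.iterate_succ_apply']
    simp only [derivative_mul, derivative_C, zero_mul, zero_add, derivative_comp, derivative_add,
      derivative_X, mul_one, pow_succ, C_mul]
    ring

/-- A weak Markov inequality on long intervals. -/
theorem f2a_markov (D : ℕ) : ∃ C : ℝ, 1 ≤ C ∧ ∀ (Q : ℝ[X]) (M a L : ℝ), Q.natDegree ≤ D →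
    1 ≤ L → (∀ x ∈ Icc a (a + L), |Q.eval x| ≤ M) → ∀ x ∈ Icc a (a + L), ∀ r ∈ Finset.Icc 1 D,
      |(derivative^[r] Q).eval x| ≤ C * M / L := by
  obtain ⟨K, hK, hc⟩ := f2a_coeff D
  refine ⟨1 + (D + 1) * ((2 * D : ℕ) ^ D : ℝ) * K, by
    have : (0 : ℝ) ≤ (D + 1) * ((2 * D : ℕ) ^ D : ℝ) * K := by positivity
    linarith, fun Q M a L hQ hL hM x hx r hr => ?_⟩
  have hL0 : 0 < L := by linarith
  have hM0 : 0 ≤ M := (abs_nonneg _).trans (hM a ⟨le_rfl, by linarith⟩)
  obtain ⟨hr1, hrD⟩ := Finset.mem_Icc.mp hr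
  set Q' : ℝ[X] := Q.comp (C a + C L * X) with hQ'
  have hdeg : Q'.natDegree ≤ D := by
    rw [hQ', natDegree_comp]
    have : (C a + C L * X : ℝ[X]).natDegree ≤ 1 := by
      refine (natDegree_add_le _ _).trans (max_le (by simp) ((natDegree_C_mul_le _ _).trans natDegree_X_le))
    calc Q.natDegree * (C a + C L * X : ℝ[X]).natDegree ≤ Q.natDegree * 1 :=
          Nat.mul_le_mul_left _ this
      _ ≤ D := by rw [mul_one]; exact hQ
  have hev : ∀ (P : ℝ[X]) (u : ℝ), (P.comp (C a + C L * X)).eval u = P.eval (a + L * u) := by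
    intro P u
    simp [eval_comp]
  have hb : ∀ i, |Q'.coeff i| ≤ K * M := by
    refine hc Q' M hdeg fun u hu => ?_
    rw [hQ', hev]
    refine hM _ ⟨?_, ?_⟩
    · have := mul_nonneg hL0.le hu.1; linarith
    · have := mul_le_mul_of_nonneg_left hu.2 hL0.le; linarith
  set u : ℝ := (x - a) / L with hu
  have hu01 : u ∈ Icc (0 : ℝ) 1 := by
    constructor
    · exact div_nonneg (by linarith [hx.1]) hL0.le
    · rw [hu, div_le_one hL0]; linarith [hx.2]
  have hxu : a + L * u = x := by rw [hu]; field_simp; ring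
  have h1 : (derivative^[r] Q').eval u = L ^ r * (derivative^[r] Q).eval x := by
    rw [hQ', f2a_comp, eval_mul, eval_C, hev, hxu]
  have h2 : |(derivative^[r] Q').eval u| ≤ (D + 1) * ((2 * D : ℕ) ^ D : ℝ) * K * M := by
    have hd' : (derivative^[r] Q').natDegree < D + 1 :=
      Nat.lt_succ_of_le ((natDegree_iterate_derivative Q' r).trans ((Nat.sub_le _ _).trans hdeg))
    rw [eval_eq_sum_range' hd']
    calc |∑ i ∈ Finset.range (D + 1), (derivative^[r] Q').coeff i * u ^ i|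
        ≤ ∑ i ∈ Finset.range (D + 1), |(derivative^[r] Q').coeff i * u ^ i| :=
          Finset.abs_sum_le_sum_abs _ _
      _ ≤ ∑ _i ∈ Finset.range (D + 1), ((2 * D : ℕ) ^ D : ℝ) * (K * M) := by
          refine Finset.sum_le_sum fun i hi => ?_
          have hiD : i ≤ D := Nat.lt_succ_iff.mp (Finset.mem_range.mp hi)
          rw [abs_mul, coeff_iterate_derivative]
          have e1 : |u ^ i| ≤ 1 := by
            rw [abs_pow]
            exact pow_le_one₀ (abs_nonneg _) (by rw [abs_of_nonneg hu01.1]; exact hu01.2)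
          have e2 : ((i + r).descFactorial r : ℝ) ≤ ((2 * D : ℕ) ^ D : ℝ) := by
            have : (i + r).descFactorial r ≤ (2 * D) ^ D := by
              calc (i + r).descFactorial r ≤ (i + r) ^ r := Nat.descFactorial_le_pow _ _
                _ ≤ (2 * D) ^ r := Nat.pow_le_pow_left (by omega) r
                _ ≤ (2 * D) ^ D := Nat.pow_le_pow_right (by omega) hrD
            exact_mod_cast this
          rw [nsmul_eq_mul, abs_mul, Nat.abs_cast]
          calc ((i + r).descFactorial r : ℝ) * |Q'.coeff (i + r)| * |u ^ i|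
              ≤ ((2 * D : ℕ) ^ D : ℝ) * (K * M) * 1 := by
                gcongr
                exact hb _
            _ = _ := mul_one _
      _ = _ := by
          rw [Finset.sum_const, Finset.card_range, nsmul_eq_mul]
          push_cast
          ring
  rw [h1, abs_mul, abs_of_pos (pow_pos hL0 r)] at h2
  rw [le_div_iff₀ hL0]
  have h3 : L ≤ L ^ r := by
    calc L = L ^ 1 := (pow_one L).symm
      _ ≤ L ^ r := pow_le_pow_right₀ hL hr1
  calc |(derivative^[r] Q).eval x| * L ≤ |(derivative^[r] Q).eval x| * L ^ r := by gcongr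
    _ = L ^ r * |(derivative^[r] Q).eval x| := mul_comm _ _
    _ ≤ (D + 1) * ((2 * D : ℕ) ^ D : ℝ) * K * M := h2
    _ ≤ _ := by
        have : (0 : ℝ) ≤ M := hM0
        nlinarith

/-- The number of unit cells hit by a set on which `|Q| ≤ M` and some derivative is at least `1`
is at most `C M`. -/
theorem f2_cells (D : ℕ) : ∃ C : ℝ, 1 ≤ C ∧ ∀ (Q : ℝ[X]) (M : ℝ) (S : Set ℝ), Q.natDegree ≤ D →
    1 ≤ M → (∀ ζ ∈ S, |Q.eval ζ| ≤ M ∧ ∃ r ∈ Finset.Icc 1 D, 1 ≤ |(derivative^[r] Q).eval ζ|) →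
    {c : ℤ | ∃ ζ ∈ S, ⌊ζ⌋ = c}.Finite ∧ ({c : ℤ | ∃ ζ ∈ S, ⌊ζ⌋ = c}.ncard : ℝ) ≤ C * M := by
  obtain ⟨C0, hC0, hmk⟩ := f2a_markov D
  refine ⟨2 * D * (C0 + 2) + 1, by
    have : (0 : ℝ) ≤ 2 * D * (C0 + 2) := by positivity
    linarith, fun Q M S hQ hM hS => ?_⟩
  have hM0 : 0 ≤ M := by linarith
  rcases S.eq_empty_or_nonempty with h0 | ⟨ζ0, hζ0⟩
  · have he : {c : ℤ | ∃ ζ ∈ S, ⌊ζ⌋ = c} = ∅ := by
      rw [h0]; ext c; simp
    rw [he]
    refine ⟨Set.finite_empty, ?_⟩
    rw [Set.ncard_empty, Nat.cast_zero]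
    positivity
  -- `Q` is not constant
  have hQd : 0 < Q.natDegree := by
    by_contra hcon
    obtain ⟨-, r, hr, h1⟩ := hS ζ0 hζ0
    have hr1 := (Finset.mem_Icc.mp hr).1
    have : derivative^[r] Q = 0 := by
      apply iterate_derivative_eq_zero
      omega
    rw [this, eval_zero, abs_zero] at h1
    linarith
  set R : ℝ[X] := Q ^ 2 - C (M ^ 2) with hR
  have hRe : ∀ x, R.eval x = Q.eval x ^ 2 - M ^ 2 := fun x => by simp [hR]
  have hRd : R.natDegree = 2 * Q.natDegree := by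
    rw [hR, natDegree_sub_C, natDegree_pow]
  have hR0 : R ≠ 0 := by
    intro h
    rw [h, natDegree_zero] at hRd
    omega
  set L : ℝ := C0 * M + 1 with hL
  have hL1 : 1 ≤ L := by
    have : 0 ≤ C0 * M := by positivity
    linarith
  -- every hit cell has a zero of `R` not far to the right
  have hkey : ∀ c : ℤ, (∃ ζ ∈ S, ⌊ζ⌋ = c) → ∃ z ∈ R.roots.toFinset, (c : ℝ) ≤ z ∧ z ≤ c + L := by
    rintro c ⟨ζ, hζ, rfl⟩
    obtain ⟨h1, r, hr, h2⟩ := hS ζ hζ
    by_contra hno
    push Not at hno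
    have hz : ∀ x ∈ Icc (⌊ζ⌋ : ℝ) (⌊ζ⌋ + L), R.eval x ≠ 0 := by
      intro x hx hx0
      have hmem : x ∈ R.roots.toFinset := by
        rw [Multiset.mem_toFinset, mem_roots hR0]
        exact hx0
      exact absurd (hno x hmem hx.1) (not_lt.mpr hx.2)
    have hζI : ζ ∈ Icc (⌊ζ⌋ : ℝ) (⌊ζ⌋ + L) :=
      ⟨Int.floor_le ζ, by have := Int.lt_floor_add_one ζ; linarith⟩
    have hneg : R.eval ζ < 0 := by
      refine lt_of_le_of_ne ?_ (hz ζ hζI)
      rw [hRe]
      have : Q.eval ζ ^ 2 ≤ M ^ 2 := sq_le_sq' (by linarith [(abs_le.mp h1).1]) (abs_le.mp h1).2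
      linarith
    have hall : ∀ x ∈ Icc (⌊ζ⌋ : ℝ) (⌊ζ⌋ + L), R.eval x < 0 := by
      intro x hx
      by_contra hge
      push Not at hge
      have hcont : ContinuousOn (fun y => R.eval y) (uIcc ζ x) := R.continuous.continuousOn
      have hivt := intermediate_value_uIcc hcont
      have h0mem : (0 : ℝ) ∈ uIcc (R.eval ζ) (R.eval x) := by
        rw [uIcc_of_le (hneg.le.trans hge)]
        exact ⟨hneg.le, hge⟩
      obtain ⟨y, hy, hy0⟩ := hivt h0mem
      have hyI : y ∈ Icc (⌊ζ⌋ : ℝ) (⌊ζ⌋ + L) := (uIcc_subset_Icc hζI hx) hy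
      exact hz y hyI hy0
    have hall' : ∀ x ∈ Icc (⌊ζ⌋ : ℝ) (⌊ζ⌋ + L), |Q.eval x| ≤ M := by
      intro x hx
      have h3 := hall x hx
      rw [hRe] at h3
      exact abs_le_of_sq_le_sq (by linarith) hM0
    have h4 := hmk Q M ⌊ζ⌋ L hQ hL1 hall' ζ hζI r hr
    have h5 : C0 * M / L < 1 := by
      rw [div_lt_one (by linarith), hL]
      linarith
    linarith
  set W : Finset ℤ := R.roots.toFinset.biUnion fun z => Finset.Icc ⌈z - L⌉ ⌊z⌋ with hW
  have hsub : {c : ℤ | ∃ ζ ∈ S, ⌊ζ⌋ = c} ⊆ (W : Set ℤ) := by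
    intro c hc
    obtain ⟨z, hz, h1, h2⟩ := hkey c hc
    rw [Finset.mem_coe, hW, Finset.mem_biUnion]
    refine ⟨z, hz, Finset.mem_Icc.mpr ⟨?_, ?_⟩⟩
    · rw [Int.ceil_le]; linarith
    · rw [Int.le_floor]; exact h1
  refine ⟨W.finite_toSet.subset hsub, ?_⟩
  have hcardW : (W.card : ℝ) ≤ (2 * D) * (L + 1) := by
    have h1 : W.card ≤ ∑ z ∈ R.roots.toFinset, (Finset.Icc ⌈z - L⌉ ⌊z⌋).card :=
      Finset.card_biUnion_le
    have h2 : (W.card : ℝ) ≤ ∑ z ∈ R.roots.toFinset, ((Finset.Icc ⌈z - L⌉ ⌊z⌋).card : ℝ) := by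
      exact_mod_cast h1
    have h3 : ∀ z ∈ R.roots.toFinset, ((Finset.Icc ⌈z - L⌉ ⌊z⌋).card : ℝ) ≤ L + 1 := by
      intro z _
      rw [Int.card_Icc]
      have h4 : (⌊z⌋ + 1 - ⌈z - L⌉ : ℤ) ≤ L + 1 := by
        push_cast
        have := Int.floor_le z
        have := Int.le_ceil (z - L)
        linarith
      have h5 : (((⌊z⌋ + 1 - ⌈z - L⌉).toNat : ℤ) : ℝ) ≤ L + 1 := by
        rw [Int.toNat_eq_max]
        push_cast
        refine max_le ?_ (by linarith)
        have := h4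
        push_cast at this
        exact this
      exact_mod_cast h5
    have h4 : R.roots.toFinset.card ≤ 2 * D := by
      calc R.roots.toFinset.card ≤ Multiset.card R.roots := Multiset.toFinset_card_le _
        _ ≤ R.natDegree := card_roots' R
        _ = 2 * Q.natDegree := hRd
        _ ≤ 2 * D := Nat.mul_le_mul_left _ hQ
    calc (W.card : ℝ) ≤ _ := h2
      _ ≤ ∑ _z ∈ R.roots.toFinset, (L + 1) := Finset.sum_le_sum h3
      _ = (R.roots.toFinset.card : ℝ) * (L + 1) := by rw [Finset.sum_const, nsmul_eq_mul]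
      _ ≤ _ := by
          gcongr
          exact_mod_cast h4
  have hncard : ({c : ℤ | ∃ ζ ∈ S, ⌊ζ⌋ = c}.ncard : ℝ) ≤ W.card := by
    have := Set.ncard_le_ncard hsub W.finite_toSet
    rw [Set.ncard_coe_finset] at this
    exact_mod_cast this
  refine hncard.trans (hcardW.trans ?_)
  rw [hL]
  have hD0 : (0 : ℝ) ≤ D := Nat.cast_nonneg _
  nlinarith [mul_nonneg hD0 (sub_nonneg.mpr hM)]

end Pool.Agent.SEP
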