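import Pool.Agent.SEPH.F1H1
import Pool.Agent.SEPH.F2a

/-!
The number of labels which are hit.
-/

namespace Pool.Agent.SEP

open MeasureTheory Set Pool.Agent.MP_6cbfb8_an Polynomial
open scoped ENNReal Real

/-- The derivatives of `f' - X f'' - Y`. -/
theorem f2_deriv (f : ℝ[X]) (Y : ℝ) (r : ℕ) (hr : 1 ≤ r) (x : ℝ) :
    (derivative^[r] (derivative f - X * derivative^[2] f - C Y)).eval x =
      -(x * (derivative^[r + 2] f).eval x + (r - 1) * (derivative^[r + 1] f).eval x) := by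
  have key : ∀ r : ℕ, derivative^[r + 1] (derivative f - X * derivative^[2] f - C Y) =
      -(X * derivative^[r + 3] f + C (r : ℝ) * derivative^[r + 2] f) := by
    intro r
    induction r with
    | zero =>
      simp only [zero_add, Function.iterate_one, derivative_sub, derivative_mul, derivative_X,
        derivative_C, Nat.cast_zero, map_zero, zero_mul]
      have h2 : derivative (derivative^[2] f) = derivative^[3] f :=
        (Function.iterate_succ_apply' derivative 2 f).symm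
      have h1 : derivative (derivative f) = derivative^[2] f := by
        rw [Function.iterate_succ_apply', Function.iterate_one]
      rw [h2, h1]
      ring
    | succ r ih =>
      rw [Function.iterate_succ_apply', ih]
      simp only [derivative_neg, derivative_add, derivative_mul, derivative_X, derivative_C]
      have h2 : derivative (derivative^[r + 3] f) = derivative^[r + 1 + 3] f := by
        rw [← Function.iterate_succ_apply' derivative (r + 3) f]
      have h1 : derivative (derivative^[r + 2] f) = derivative^[r + 1 + 2] f := by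
        rw [← Function.iterate_succ_apply' derivative (r + 2) f]
      rw [h2, h1]
      have h3 : derivative^[r + 3] f = derivative^[r + 1 + 2] f := by congr 1
      rw [h3]
      push_cast
      rw [map_add, map_one]
      ring
  obtain ⟨s, rfl⟩ : ∃ s, r = s + 1 := ⟨r - 1, by omega⟩
  rw [key s]
  simp only [eval_neg, eval_add, eval_mul, eval_X, eval_C]
  push_cast
  have e1 : s + 1 + 2 = s + 3 := by ring
  have e2 : s + 1 + 1 = s + 2 := by ring
  rw [e1, e2]
  ring

/-- Derivatives and scaling. -/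
theorem f2_scale (P : ℝ[X]) (a b : ℝ) (r : ℕ) (x : ℝ) :
    (derivative^[r] (C a * P.comp (C b * X))).eval x =
      a * b ^ r * (derivative^[r] P).eval (b * x) := by
  have key : ∀ r : ℕ, derivative^[r] (C a * P.comp (C b * X)) =
      C (a * b ^ r) * (derivative^[r] P).comp (C b * X) := by
    intro r
    induction r with
    | zero => simp
    | succ r ih =>
      rw [Function.iterate_succ_apply', ih, derivative_C_mul, derivative_comp,
        derivative_C_mul, derivative_X, mul_one, Function.iterate_succ_apply' derivative r P,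
        pow_succ, ← mul_assoc a, map_mul C (a * b ^ r) b]
      ring
  rw [key r]
  simp only [eval_mul, eval_C, eval_comp, eval_X]

/-- The polynomial which counts the cells. -/
theorem f2_poly (D : ℕ) (A : ℝ) (hD : 2 ≤ D) (hA : 1 ≤ A) : ∃ C : ℝ, 1 ≤ C ∧
    ∀ (k m : ℕ) (f : ℝ[X]) (Y : ℝ), m < k → f.natDegree ≤ D → ∃ Q : ℝ[X], Q.natDegree ≤ D ∧
      ∀ (z w Λ : ℝ), 1 ≤ Λ → Cls D A k m f z w → Core D A k f z →
        |yc f z w - Y| ≤ Λ * 2 ^ k → |Q.eval (2 ^ k * z)| ≤ C * Λ ∧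
          ∃ r ∈ Finset.Icc 1 D, 1 ≤ |(derivative^[r] Q).eval (2 ^ k * z)| := by
  have hA0 : 0 < A := by linarith
  set b : ℝ := A * (1 + D) with hb
  have hD0 : (0 : ℝ) ≤ D := Nat.cast_nonneg D
  have hb1 : 1 ≤ b := by rw [hb]; nlinarith
  have hb0 : 0 < b := by linarith
  have hbA : A ≤ b := by rw [hb]; nlinarith
  set c : ℝ := (b ^ D)⁻¹ with hc
  have hc0 : 0 < c := by rw [hc]; positivity
  have hc1 : c ≤ 1 := by rw [hc]; exact inv_le_one_of_one_le₀ (one_le_pow₀ hb1)
  refine ⟨c⁻¹ * (1 + A ^ 2), ?_, ?_⟩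
  · have : 1 ≤ c⁻¹ := (one_le_inv₀ hc0).2 hc1
    nlinarith [sq_nonneg A]
  intro k m f Y hlt hf
  set Z0 : ℝ := 2 ^ (k - m) with hZ0
  have hZ1 : 1 ≤ Z0 := one_le_pow₀ (by norm_num)
  have hZ00 : 0 < Z0 := by linarith
  have hkm : (2 : ℝ) ^ k = Z0 * 2 ^ m := by
    rw [hZ0, ← pow_add]
    congr 1
    omega
  have hpk : (0 : ℝ) < 2 ^ k := by positivity
  have hpm : (0 : ℝ) < 2 ^ m := by positivity
  set P : ℝ[X] := derivative f - X * derivative^[2] f - Polynomial.C Y with hP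
  refine ⟨Polynomial.C ((c * Z0)⁻¹ * (2 ^ k)⁻¹) * P.comp (Polynomial.C ((2 : ℝ) ^ k)⁻¹ * X), ?_, ?_⟩
  · have h1 : P.natDegree ≤ D := by
      rw [hP]
      refine (natDegree_sub_le _ _).trans (max_le ((natDegree_sub_le _ _).trans (max_le ?_ ?_)) ?_)
      · exact (natDegree_derivative_le f).trans (by omega)
      · refine (natDegree_mul_le).trans ?_
        rw [natDegree_X]
        have := natDegree_iterate_derivative f 2
        by_cases h2 : 2 ≤ f.natDegree
        · omega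
        · omega
      · rw [natDegree_C]; omega
    refine (natDegree_C_mul_le _ _).trans ?_
    rw [natDegree_comp]
    have h2 : (Polynomial.C ((2 : ℝ) ^ k)⁻¹ * X : ℝ[X]).natDegree ≤ 1 := by
      refine (natDegree_C_mul_le _ _).trans ?_
      rw [natDegree_X]
    calc P.natDegree * (Polynomial.C ((2 : ℝ) ^ k)⁻¹ * X : ℝ[X]).natDegree ≤ D * 1 :=
          Nat.mul_le_mul h1 h2
      _ = D := mul_one D
  intro z w Λ hΛ h hcore hy
  have hzz : ((2 : ℝ) ^ k)⁻¹ * (2 ^ k * z) = z := by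
    rw [← mul_assoc, inv_mul_cancel₀ hpk.ne', one_mul]
  have hzup := h.zup
  have hzlo := h.zlo hlt
  constructor
  · have h0 := f2_scale P ((c * Z0)⁻¹ * (2 ^ k)⁻¹) ((2 : ℝ) ^ k)⁻¹ 0 (2 ^ k * z)
    rw [hzz] at h0
    simp only [Function.iterate_zero, id_eq, pow_zero, mul_one] at h0
    rw [h0]
    have h1 : P.eval z = (yc f z w - Y) - z * ((derivative^[2] f).eval z - 2 * w) := by
      rw [hP]
      unfold yc
      simp only [eval_sub, eval_mul, eval_X, eval_C]
      ring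
    have h2 := fh_gd_le hD hA hf h 2 le_rfl
    rw [fh_gd_two] at h2
    have h3 : |P.eval z| ≤ Λ * 2 ^ k + A ^ 2 * Z0 * 2 ^ k := by
      rw [h1]
      refine (abs_sub _ _).trans (add_le_add hy ?_)
      rw [abs_mul]
      have h4 : |z| ≤ A / 2 ^ m := by rw [le_div_iff₀ hpm]; exact hzup
      calc |z| * |(derivative^[2] f).eval z - 2 * w| ≤ A / 2 ^ m * (A * 2 ^ (k * 2)) :=
            mul_le_mul h4 h2 (abs_nonneg _) (by positivity)
        _ = A ^ 2 * (2 ^ k / 2 ^ m) * 2 ^ k := by rw [pow_mul]; ring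
        _ = A ^ 2 * Z0 * 2 ^ k := by
            rw [hkm, mul_div_assoc, div_self hpm.ne', mul_one]
    rw [abs_mul, abs_of_pos (by positivity : (0 : ℝ) < (c * Z0)⁻¹ * (2 ^ k)⁻¹)]
    calc (c * Z0)⁻¹ * (2 ^ k)⁻¹ * |P.eval z|
        ≤ (c * Z0)⁻¹ * (2 ^ k)⁻¹ * (Λ * 2 ^ k + A ^ 2 * Z0 * 2 ^ k) :=
          mul_le_mul_of_nonneg_left h3 (by positivity)
      _ = c⁻¹ * (Λ / Z0 + A ^ 2) := by field_simp
      _ ≤ c⁻¹ * (Λ + A ^ 2 * Λ) := by
          refine mul_le_mul_of_nonneg_left ?_ (by positivity)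
          refine add_le_add (div_le_self (by linarith) hZ1) ?_
          have := sq_nonneg A
          nlinarith
      _ = c⁻¹ * (1 + A ^ 2) * Λ := by ring
  · -- the large derivative
    by_contra hcon
    push Not at hcon
    have hder : ∀ r, 1 ≤ r → (derivative^[r] (Polynomial.C ((c * Z0)⁻¹ * (2 ^ k)⁻¹) *
        P.comp (Polynomial.C ((2 : ℝ) ^ k)⁻¹ * X))).eval (2 ^ k * z) =
        -((c * Z0)⁻¹ * (2 ^ k * z * ((derivative^[r + 2] f).eval z / 2 ^ (k * (r + 2))) +
          (r - 1) * ((derivative^[r + 1] f).eval z / 2 ^ (k * (r + 1))))) := by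
      intro r hr
      rw [f2_scale, hzz, hP, f2_deriv f Y r hr]
      have e1 : (2 : ℝ) ^ (k * (r + 2)) = 2 ^ k * 2 ^ k * (2 ^ k) ^ r := by
        rw [pow_mul]; ring
      have e2 : (2 : ℝ) ^ (k * (r + 1)) = 2 ^ k * (2 ^ k) ^ r := by
        rw [pow_mul]; ring
      rw [e1, e2, inv_pow]
      field_simp
    -- all scaled derivatives are small
    have hzk : Z0 ≤ A * |2 ^ k * z| := by
      rw [abs_mul, abs_of_pos hpk, hkm]
      nlinarith
    have hsmall : ∀ i : ℕ, i + 3 ≤ D →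
        |(derivative^[i + 3] f).eval z / 2 ^ (k * (i + 3))| ≤ c * b ^ (i + 1) := by
      intro i
      induction i with
      | zero =>
        intro hi
        have h1 := hcon 1 (Finset.mem_Icc.2 ⟨le_rfl, by omega⟩)
        rw [hder 1 le_rfl, abs_neg, abs_mul, abs_of_pos (by positivity : 0 < (c * Z0)⁻¹)] at h1
        rw [inv_mul_lt_iff₀ (by positivity), mul_one] at h1
        push_cast at h1
        rw [sub_self, zero_mul, add_zero, abs_mul] at h1
        set u := |(derivative^[1 + 2] f).eval z / 2 ^ (k * (1 + 2))| with hu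
        have hu0 : 0 ≤ u := abs_nonneg _
        have h2 : Z0 * u ≤ Z0 * (A * c) := by
          calc Z0 * u ≤ A * |2 ^ k * z| * u := mul_le_mul_of_nonneg_right hzk hu0
            _ = A * (|2 ^ k * z| * u) := by ring
            _ ≤ A * (c * Z0) := mul_le_mul_of_nonneg_left h1.le hA0.le
            _ = Z0 * (A * c) := by ring
        have h3 := le_of_mul_le_mul_left h2 hZ00
        calc |(derivative^[0 + 3] f).eval z / 2 ^ (k * (0 + 3))| = u := rfl
          _ ≤ A * c := h3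
          _ ≤ c * b ^ (0 + 1) := by rw [zero_add, pow_one]; nlinarith
      | succ i ih =>
        intro hi
        have ih' := ih (by omega)
        have h1 := hcon (i + 2) (Finset.mem_Icc.2 ⟨by omega, by omega⟩)
        rw [hder (i + 2) (by omega), abs_neg, abs_mul,
          abs_of_pos (by positivity : 0 < (c * Z0)⁻¹)] at h1
        rw [inv_mul_lt_iff₀ (by positivity), mul_one] at h1
        have hi2 : i + 2 + 2 = i + 1 + 3 := by ring
        have hi1 : i + 2 + 1 = i + 3 := by ring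
        rw [hi2, hi1] at h1
        set u := (derivative^[i + 1 + 3] f).eval z / 2 ^ (k * (i + 1 + 3)) with hu
        set v := (derivative^[i + 3] f).eval z / 2 ^ (k * (i + 3)) with hv
        have h2 : |2 ^ k * z| * |u| ≤ c * Z0 + D * |v| := by
          have e1 : 2 ^ k * z * u = (2 ^ k * z * u + (((i + 2 : ℕ) : ℝ) - 1) * v) -
            (((i + 2 : ℕ) : ℝ) - 1) * v := by ring
          rw [← abs_mul, e1]
          refine (abs_sub _ _).trans (add_le_add h1.le ?_)
          rw [abs_mul]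
          refine mul_le_mul_of_nonneg_right ?_ (abs_nonneg _)
          push_cast
          rw [abs_of_nonneg (by have : (0:ℝ) ≤ i := Nat.cast_nonneg i; linarith)]
          have : (i : ℝ) + 1 + 3 ≤ D := by exact_mod_cast hi
          linarith
        have hbi : 1 ≤ b ^ (i + 1) := one_le_pow₀ hb1
        have h3 : Z0 * |u| ≤ Z0 * (c * b ^ (i + 1 + 1)) := by
          calc Z0 * |u| ≤ A * |2 ^ k * z| * |u| := mul_le_mul_of_nonneg_right hzk (abs_nonneg _)
            _ = A * (|2 ^ k * z| * |u|) := by ring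
            _ ≤ A * (c * Z0 + D * |v|) := mul_le_mul_of_nonneg_left h2 hA0.le
            _ ≤ A * (c * Z0 * b ^ (i + 1) + D * (c * b ^ (i + 1)) * Z0) := by
                refine mul_le_mul_of_nonneg_left (add_le_add ?_ ?_) hA0.le
                · exact le_mul_of_one_le_right (by positivity) hbi
                · calc D * |v| ≤ D * (c * b ^ (i + 1)) := mul_le_mul_of_nonneg_left ih' hD0
                    _ ≤ D * (c * b ^ (i + 1)) * Z0 := le_mul_of_one_le_right (by positivity) hZ1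
            _ = Z0 * (c * b ^ (i + 1 + 1)) := by rw [hb]; ring
        exact le_of_mul_le_mul_left h3 hZ00
    rcases hcore with h0 | ⟨i, hi, hle⟩
    · omega
    · rw [Finset.mem_Icc] at hi
      obtain ⟨j, rfl⟩ : ∃ j, i = j + 3 := ⟨i - 3, by omega⟩
      have h1 := hsmall j hi.2
      rw [abs_div, abs_of_pos (by positivity : (0 : ℝ) < 2 ^ (k * (j + 3))),
        div_le_iff₀ (by positivity)] at h1
      have h2 : (2 : ℝ) ^ (k * (j + 3)) ≤ A * (c * b ^ (j + 1) * 2 ^ (k * (j + 3))) :=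
        hle.trans (mul_le_mul_of_nonneg_left h1 hA0.le)
      have h3 : A * (c * b ^ (j + 1)) < 1 := by
        have h4 : A * (c * b ^ (j + 1)) ≤ c * b ^ (j + 2) := by
          have : c * b ^ (j + 2) = b * (c * b ^ (j + 1)) := by ring
          rw [this]
          exact mul_le_mul_of_nonneg_right hbA (by positivity)
        have h5 : c * b ^ (j + 2) < 1 := by
          rw [hc, inv_mul_lt_iff₀ (by positivity), mul_one]
          refine pow_lt_pow_right₀ ?_ (by omega)
          rw [hb]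
          have : (2 : ℝ) ≤ D := by exact_mod_cast hD
          nlinarith
        exact h4.trans_lt h5
      have h6 : (0 : ℝ) < 2 ^ (k * (j + 3)) := by positivity
      nlinarith

/-- Floors of a bounded set. -/
theorem f2_floor_box (A : ℝ) (hA : 1 ≤ A) (S : Set ℝ) (hS : ∀ x ∈ S, |x| ≤ A) :
    {c : ℤ | ∃ ζ ∈ S, ⌊ζ⌋ = c}.Finite ∧ ({c : ℤ | ∃ ζ ∈ S, ⌊ζ⌋ = c}.ncard : ℝ) ≤ 5 * A := by
  have hsub : {c : ℤ | ∃ ζ ∈ S, ⌊ζ⌋ = c} ⊆ ((Finset.Icc (-⌈A⌉) ⌈A⌉ : Finset ℤ) : Set ℤ) := by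
    rintro c ⟨ζ, hζ, rfl⟩
    have h := abs_le.1 (hS ζ hζ)
    rw [Finset.coe_Icc, mem_Icc]
    constructor
    · rw [Int.le_floor]
      push_cast
      have := Int.le_ceil A
      linarith
    · have h1 : (⌊ζ⌋ : ℝ) ≤ ζ := Int.floor_le ζ
      have h2 : (⌊ζ⌋ : ℝ) ≤ ⌈A⌉ := h1.trans (h.2.trans (Int.le_ceil A))
      exact_mod_cast h2
  refine ⟨(Finset.finite_toSet _).subset hsub, ?_⟩
  have h1 : {c : ℤ | ∃ ζ ∈ S, ⌊ζ⌋ = c}.ncard ≤ (Finset.Icc (-⌈A⌉) ⌈A⌉ : Finset ℤ).card := by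
    rw [← Set.ncard_coe_finset]
    exact Set.ncard_le_ncard hsub (Finset.finite_toSet _)
  have h2 : ((Finset.Icc (-⌈A⌉) ⌈A⌉ : Finset ℤ).card : ℝ) ≤ 5 * A := by
    rw [Int.card_Icc]
    have h3 : (0 : ℤ) ≤ ⌈A⌉ := Int.ceil_nonneg (by linarith)
    have h4 : (((⌈A⌉ + 1 - -⌈A⌉).toNat : ℕ) : ℝ) = ((⌈A⌉ + 1 - -⌈A⌉ : ℤ) : ℝ) := by
      have := Int.toNat_of_nonneg (show (0 : ℤ) ≤ ⌈A⌉ + 1 - -⌈A⌉ by omega)
      exact_mod_cast this
    rw [h4]
    push_cast
    have := Int.ceil_lt_add_one A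
    linarith
  exact (by exact_mod_cast h1 : ({c : ℤ | ∃ ζ ∈ S, ⌊ζ⌋ = c}.ncard : ℝ) ≤
    (Finset.Icc (-⌈A⌉) ⌈A⌉ : Finset ℤ).card).trans h2

/-- The count in the label is at most `D`. -/
theorem f2_count_le {D : ℕ} {f : ℝ[X]} (hf : f.natDegree ≤ D) (z : ℝ) :
    ((derivative^[3] f).roots.toFinset.filter (· < z)).card ≤ D := by
  refine (Finset.card_filter_le _ _).trans ((Multiset.toFinset_card_le _).trans ?_)
  refine (card_roots' _).trans ?_
  exact (natDegree_iterate_derivative f 3).trans (by omega)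

/-- ROW F2. For given `Y` only `C Λ` labels are hit. -/
theorem f2 (D : ℕ) (A : ℝ) (hD : 2 ≤ D) (hA : 1 ≤ A) : ∃ C : ℝ, 1 ≤ C ∧
    ∀ (k m : ℕ) (f : ℝ[X]) (Y Λ : ℝ), m ≤ k → f.natDegree ≤ D → 1 ≤ Λ →
      {l | ∃ z w : ℝ, Cls D A k m f z w ∧ |yc f z w - Y| ≤ Λ * 2 ^ k ∧
        lab1 D A k f z w = l}.Finite ∧
      ({l | ∃ z w : ℝ, Cls D A k m f z w ∧ |yc f z w - Y| ≤ Λ * 2 ^ k ∧
        lab1 D A k f z w = l}.ncard : ℝ) ≤ C * Λ := by
  obtain ⟨C1, hC1, hcells⟩ := f2_cells D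
  obtain ⟨C2, hC2, hpoly⟩ := f2_poly D A hD hA
  refine ⟨(5 * A + C1 * C2 + 1) * ((D + 1) * 8), by nlinarith [mul_pos (show (0:ℝ) < C1 by linarith) (show (0:ℝ) < C2 by linarith), (Nat.cast_nonneg D : (0:ℝ) ≤ D)], ?_⟩
  intro k m f Y Λ hmk hf hΛ
  -- the set of scaled positions of core points
  set S : Set ℝ := {x | ∃ z w : ℝ, x = 2 ^ k * z ∧ Cls D A k m f z w ∧ Core D A k f z ∧
    |yc f z w - Y| ≤ Λ * 2 ^ k} with hS
  have hcell : {c : ℤ | ∃ ζ ∈ S, ⌊ζ⌋ = c}.Finite ∧
      ({c : ℤ | ∃ ζ ∈ S, ⌊ζ⌋ = c}.ncard : ℝ) ≤ (5 * A + C1 * C2) * Λ := by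
    rcases hmk.lt_or_eq with hlt | heq
    · obtain ⟨Q, hQd, hQ⟩ := hpoly k m f Y hlt hf
      have h1 := hcells Q (C2 * Λ) S hQd (by nlinarith) (by
        rintro x ⟨z, w, rfl, h1, h2, h3⟩
        exact hQ z w Λ hΛ h1 h2 h3)
      refine ⟨h1.1, h1.2.trans ?_⟩
      have : 0 ≤ 5 * A * Λ := by positivity
      nlinarith
    · have h1 := f2_floor_box A hA S (by
        rintro x ⟨z, w, rfl, h1, h2, h3⟩
        rw [abs_mul, abs_of_pos (by positivity : (0 : ℝ) < 2 ^ k), mul_comm]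
        have := h1.zup
        rwa [heq] at this)
      refine ⟨h1.1, h1.2.trans ?_⟩
      have h2 : 0 ≤ C1 * C2 := by positivity
      have h3 : 5 * A ≤ 5 * A * Λ := by nlinarith
      nlinarith [mul_nonneg h2 (show (0 : ℝ) ≤ Λ by linarith)]
  -- all cells
  obtain ⟨hfin, hcard⟩ := hcell
  set T : Finset ℤ := insert 0 hfin.toFinset with hT
  have hTcard : (T.card : ℝ) ≤ (5 * A + C1 * C2 + 1) * Λ := by
    have h1 : T.card ≤ hfin.toFinset.card + 1 := Finset.card_insert_le _ _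
    rw [← Set.ncard_eq_toFinset_card _ hfin] at h1
    have h2 : (T.card : ℝ) ≤ ({c : ℤ | ∃ ζ ∈ S, ⌊ζ⌋ = c}.ncard : ℝ) + 1 := by exact_mod_cast h1
    nlinarith
  set W : Finset (ℤ × ℕ × Bool × Bool × Bool) :=
    T ×ˢ (Finset.range (D + 1) ×ˢ ((Finset.univ : Finset Bool) ×ˢ
      ((Finset.univ : Finset Bool) ×ˢ (Finset.univ : Finset Bool)))) with hW
  have hsub : {l | ∃ z w : ℝ, Cls D A k m f z w ∧ |yc f z w - Y| ≤ Λ * 2 ^ k ∧
        lab1 D A k f z w = l} ⊆ (W : Set (ℤ × ℕ × Bool × Bool × Bool)) := by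
    rintro l ⟨z, w, h1, h2, rfl⟩
    rw [Finset.mem_coe, hW]
    unfold lab1
    simp only [Finset.mem_product, Finset.mem_univ, and_true, Finset.mem_range]
    constructor
    · rw [hT, Finset.mem_insert]
      by_cases hc : Core D A k f z
      · rw [if_pos hc]
        right
        rw [Set.Finite.mem_toFinset]
        exact ⟨2 ^ k * z, ⟨z, w, rfl, h1, hc, h2⟩, rfl⟩
      · rw [if_neg hc]
        left
        rfl
    · exact Nat.lt_succ_of_le (f2_count_le hf z)
  refine ⟨(Finset.finite_toSet _).subset hsub, ?_⟩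
  have h1 : {l | ∃ z w : ℝ, Cls D A k m f z w ∧ |yc f z w - Y| ≤ Λ * 2 ^ k ∧
        lab1 D A k f z w = l}.ncard ≤ W.card := by
    rw [← Set.ncard_coe_finset]
    exact Set.ncard_le_ncard hsub (Finset.finite_toSet _)
  have h2 : (W.card : ℝ) = T.card * ((D + 1) * 8) := by
    rw [hW]
    simp only [Finset.card_product, Finset.card_range, Finset.card_univ, Fintype.card_bool]
    push_cast
    ring
  calc ({l | ∃ z w : ℝ, Cls D A k m f z w ∧ |yc f z w - Y| ≤ Λ * 2 ^ k ∧
        lab1 D A k f z w = l}.ncard : ℝ) ≤ W.card := by exact_mod_cast h1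
    _ = T.card * ((D + 1) * 8) := h2
    _ ≤ ((5 * A + C1 * C2 + 1) * Λ) * ((D + 1) * 8) :=
        mul_le_mul_of_nonneg_right hTcard (by positivity)
    _ = _ := by ring

end Pool.Agent.SEP
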