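import Pool.Agent.SEPH.MEAS
import Pool.Agent.SEPH.F2

/-!
Rows GA and GB.
-/

namespace Pool.Agent.SEP

open MeasureTheory Set Pool.Agent.MP_6cbfb8_an Polynomial
open scoped ENNReal Real

/-- The volume of the box of the `Y` close to a point. -/
theorem gb_box {n : ℕ} (k : Fin n → ℕ) (Λ : ℝ) (hΛ : 0 ≤ Λ) (c : Fin n → ℝ) :
    volume {Y : Fin n → ℝ | ∀ j, |c j - Y j| ≤ Λ * 2 ^ k j} =
      ENNReal.ofReal (∏ j, (2 * Λ * 2 ^ k j)) := by
  have h1 : {Y : Fin n → ℝ | ∀ j, |c j - Y j| ≤ Λ * 2 ^ k j} =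
      univ.pi fun j => Icc (c j - Λ * 2 ^ k j) (c j + Λ * 2 ^ k j) := by
    ext Y
    simp only [mem_ofPred_eq, mem_pi, mem_univ, true_imp_iff, mem_Icc]
    refine forall_congr' fun j => ?_
    rw [abs_sub_le_iff]
    constructor
    · rintro ⟨h1, h2⟩
      constructor <;> linarith
    · rintro ⟨h1, h2⟩
      constructor <;> linarith
  rw [h1, volume_pi_pi, ENNReal.ofReal_prod_of_nonneg fun j _ => by positivity]
  refine Finset.prod_congr rfl fun j _ => ?_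
  rw [Real.volume_Icc]
  congr 1
  ring

/-- ROW GA. -/
theorem ga (n D : ℕ) (A : ℝ) (k m : Fin n → ℕ) (f : Fin n → ℝ[X]) (σ : Finset (Fin n)) (Λ : ℝ)
    (hΛ : 0 ≤ Λ) :
    ∫⁻ Y : Fin n → ℝ, volume (Zs D A k m f σ Λ Y) =
      volume (Zf D A k m f σ Λ) * ENNReal.ofReal (∏ j, (2 * Λ * 2 ^ k j)) := by
  have hm := meas_Zs D A k m f σ Λ
  have h1 : ∀ Y : Fin n → ℝ, volume (Zs D A k m f σ Λ Y) =
      volume (Prod.mk Y ⁻¹' {q : (Fin n → ℝ) × ((Fin n → ℝ) × ℝ) | q.2 ∈ Zs D A k m f σ Λ q.1}) :=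
    fun Y => rfl
  simp_rw [h1]
  rw [← Measure.prod_apply hm, Measure.prod_apply_symm hm]
  have h2 : ∀ p : (Fin n → ℝ) × ℝ, volume ((fun Y : Fin n → ℝ => (Y, p)) ⁻¹'
      {q : (Fin n → ℝ) × ((Fin n → ℝ) × ℝ) | q.2 ∈ Zs D A k m f σ Λ q.1}) =
      (Zf D A k m f σ Λ).indicator (fun _ => ENNReal.ofReal (∏ j, (2 * Λ * 2 ^ k j))) p := by
    intro p
    by_cases hp : p ∈ Zf D A k m f σ Λ
    · rw [indicator_of_mem hp, ← gb_box k Λ hΛ fun j => yc (f j) (p.1 j) p.2]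
      congr 1
      ext Y
      simp only [mem_preimage, mem_ofPred_eq, Zs]
      exact ⟨fun h => h.2, fun h => ⟨hp, h⟩⟩
    · rw [indicator_of_notMem hp]
      have : (fun Y : Fin n → ℝ => (Y, p)) ⁻¹'
          {q : (Fin n → ℝ) × ((Fin n → ℝ) × ℝ) | q.2 ∈ Zs D A k m f σ Λ q.1} = ∅ := by
        ext Y
        simp only [mem_preimage, mem_ofPred_eq, Zs, mem_empty_iff_false, iff_false]
        exact fun h => hp h.1
      rw [this, measure_empty]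
  simp_rw [h2]
  rw [lintegral_indicator_const (meas_Zf D A k m f σ Λ), mul_comm]

/-- The set of pairs of points of `Zs Y` with the same label. -/
def gbW {n : ℕ} (D : ℕ) (A : ℝ) (k m : Fin n → ℕ) (f : Fin n → ℝ[X]) (σ : Finset (Fin n))
    (Λ : ℝ) (Y : Fin n → ℝ) : Set (((Fin n → ℝ) × ℝ) × ((Fin n → ℝ) × ℝ)) :=
  {q | q.1 ∈ Zs D A k m f σ Λ Y ∧ q.2 ∈ Zs D A k m f σ Λ Y ∧ lab D A k f q.1 = lab D A k f q.2}

theorem gb_meas_Zs_Y {n : ℕ} (D : ℕ) (A : ℝ) (k m : Fin n → ℕ) (f : Fin n → ℝ[X])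
    (σ : Finset (Fin n)) (Λ : ℝ) (Y : Fin n → ℝ) : MeasurableSet (Zs D A k m f σ Λ Y) :=
  (meas_Zs D A k m f σ Λ).preimage (measurable_prodMk_left (x := Y))

/-- Cauchy-Schwarz over the labels. -/
theorem gb_cs {n : ℕ} (D : ℕ) (A : ℝ) (k m : Fin n → ℕ) (f : Fin n → ℝ[X]) (σ : Finset (Fin n))
    (Λ : ℝ) (Y : Fin n → ℝ) (S : Finset (Fin n → ℤ × ℕ × Bool × Bool × Bool))
    (hS : ∀ p ∈ Zs D A k m f σ Λ Y, lab D A k f p ∈ S) :
    volume (Zs D A k m f σ Λ Y) ^ (2 : ℝ) ≤ (S.card : ℝ≥0∞) * volume (gbW D A k m f σ Λ Y) := by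
  classical
  set V : (Fin n → ℤ × ℕ × Bool × Bool × Bool) → Set ((Fin n → ℝ) × ℝ) := fun l =>
    Zs D A k m f σ Λ Y ∩ {p | lab D A k f p = l} with hV
  have hVm : ∀ l, MeasurableSet (V l) := fun l =>
    (gb_meas_Zs_Y D A k m f σ Λ Y).inter (meas_lab D A k f l)
  have h1 : volume (Zs D A k m f σ Λ Y) ≤ ∑ l ∈ S, volume (V l) := by
    refine (measure_mono fun p hp => ?_).trans (measure_biUnion_finset_le S V)
    simp only [mem_iUnion]
    exact ⟨lab D A k f p, hS p hp, hp, rfl⟩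
  have h2 : (∑ l ∈ S, volume (V l)) ^ (2 : ℝ) ≤
      (S.card : ℝ≥0∞) ^ ((2 : ℝ) - 1) * ∑ l ∈ S, volume (V l) ^ (2 : ℝ) :=
    ENNReal.rpow_sum_le_const_mul_sum_rpow S (fun l => volume (V l)) (by norm_num)
  have h3 : ∑ l ∈ S, volume (V l) ^ (2 : ℝ) ≤ volume (gbW D A k m f σ Λ Y) := by
    have h4 : ∀ l ∈ S, volume (V l) ^ (2 : ℝ) = volume (V l ×ˢ V l) := by
      intro l _
      have h5 : volume (V l ×ˢ V l) = volume (V l) * volume (V l) := Measure.prod_prod _ _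
      rw [h5, ENNReal.rpow_two, sq]
    rw [Finset.sum_congr rfl h4, ← measure_biUnion_finset]
    · refine measure_mono ?_
      simp only [iUnion_subset_iff]
      rintro l - ⟨p, p'⟩ ⟨hp, hp'⟩
      exact ⟨hp.1, hp'.1, (show lab D A k f p = l from hp.2).trans
        (show lab D A k f p' = l from hp'.2).symm⟩
    · intro l _ l' _ hne
      refine Set.disjoint_left.2 ?_
      rintro ⟨p, p'⟩ ⟨hp, -⟩ ⟨hp2, -⟩
      exact hne ((show lab D A k f p = l from hp.2).symm.trans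
        (show lab D A k f p = l' from hp2.2))
    · exact fun l _ => (hVm l).prod (hVm l)
  calc volume (Zs D A k m f σ Λ Y) ^ (2 : ℝ) ≤ (∑ l ∈ S, volume (V l)) ^ (2 : ℝ) :=
        ENNReal.rpow_le_rpow h1 (by norm_num)
    _ ≤ (S.card : ℝ≥0∞) ^ ((2 : ℝ) - 1) * ∑ l ∈ S, volume (V l) ^ (2 : ℝ) := h2
    _ ≤ (S.card : ℝ≥0∞) * volume (gbW D A k m f σ Λ Y) := by
        rw [show (2 : ℝ) - 1 = 1 by norm_num, ENNReal.rpow_one]
        gcongr

/-- Tonelli for the pairs. -/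
theorem gb_pairs {n : ℕ} (D : ℕ) (A : ℝ) (k m : Fin n → ℕ) (f : Fin n → ℝ[X]) (σ : Finset (Fin n))
    (Λ : ℝ) (hΛ : 0 ≤ Λ) :
    ∫⁻ Y : Fin n → ℝ, volume (gbW D A k m f σ Λ Y) ≤
      volume (Pr D A k m f σ Λ) * ENNReal.ofReal (∏ j, (2 * Λ * 2 ^ k j)) := by
  have hP := meas_Pr D A k m f σ Λ
  set G : Set ((Fin n → ℝ) × (((Fin n → ℝ) × ℝ) × ((Fin n → ℝ) × ℝ))) :=
    {r | r.2 ∈ Pr D A k m f σ Λ ∧ r.2.1 ∈ Zs D A k m f σ Λ r.1} with hG
  have hGm : MeasurableSet G := by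
    refine (hP.preimage measurable_snd).inter ?_
    exact (meas_Zs D A k m f σ Λ).preimage
      (measurable_fst.prodMk (measurable_fst.comp measurable_snd))
  have h1 : ∀ Y : Fin n → ℝ, volume (gbW D A k m f σ Λ Y) ≤ volume (Prod.mk Y ⁻¹' G) := by
    intro Y
    refine measure_mono ?_
    rintro ⟨p, p'⟩ ⟨hp, hp', hl⟩
    refine ⟨⟨hp.1, hp'.1, hl, fun j => ?_⟩, hp⟩
    have e1 := hp.2 j
    have e2 := hp'.2 j
    have e3 := abs_sub_le (yc (f j) (p.1 j) p.2) (Y j) (yc (f j) (p'.1 j) p'.2)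
    rw [abs_sub_comm (Y j)] at e3
    simp only
    linarith
  refine (lintegral_mono h1).trans ?_
  rw [← Measure.prod_apply hGm, Measure.prod_apply_symm hGm]
  have h2 : ∀ q : ((Fin n → ℝ) × ℝ) × ((Fin n → ℝ) × ℝ),
      volume ((fun Y : Fin n → ℝ => (Y, q)) ⁻¹' G) ≤
      (Pr D A k m f σ Λ).indicator (fun _ => ENNReal.ofReal (∏ j, (2 * Λ * 2 ^ k j))) q := by
    intro q
    by_cases hq : q ∈ Pr D A k m f σ Λ
    · rw [indicator_of_mem hq, ← gb_box k Λ hΛ fun j => yc (f j) (q.1.1 j) q.1.2]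
      exact measure_mono fun Y hY => hY.2.2
    · rw [indicator_of_notMem hq]
      have : (fun Y : Fin n → ℝ => (Y, q)) ⁻¹' G = ∅ := by
        ext Y
        simp only [mem_preimage, mem_empty_iff_false, iff_false]
        exact fun h => hq h.1
      rw [this, measure_empty]
  refine (lintegral_mono h2).trans ?_
  rw [lintegral_indicator_const hP, mul_comm]

/-- ROW GB. -/
theorem gb (n D : ℕ) (hD : 2 ≤ D) (A : ℝ) (hA : 1 ≤ A) : ∃ C : ℝ, 1 ≤ C ∧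
    ∀ (k m : Fin n → ℕ) (f : Fin n → ℝ[X]) (σ : Finset (Fin n)) (Λ : ℝ), (∀ j, m j ≤ k j) →
      (∀ j, (f j).natDegree ≤ D) → 1 ≤ Λ →
      ∫⁻ Y : Fin n → ℝ, volume (Zs D A k m f σ Λ Y) ^ (2 : ℝ) ≤
        ENNReal.ofReal ((C * Λ) ^ n) * (volume (Pr D A k m f σ Λ) *
          ENNReal.ofReal (∏ j, (2 * Λ * 2 ^ k j))) := by
  classical
  obtain ⟨C, hC1, hC⟩ := f2 D A hD hA
  refine ⟨C, hC1, fun k m f σ Λ hmk hf hΛ => ?_⟩
  have hΛ0 : 0 ≤ Λ := by linarith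
  have h1 : ∀ Y : Fin n → ℝ, volume (Zs D A k m f σ Λ Y) ^ (2 : ℝ) ≤
      ENNReal.ofReal ((C * Λ) ^ n) * volume (gbW D A k m f σ Λ Y) := by
    intro Y
    have hfin : ∀ j, {l | ∃ z w : ℝ, Cls D A (k j) (m j) (f j) z w ∧
        |yc (f j) z w - Y j| ≤ Λ * 2 ^ k j ∧ lab1 D A (k j) (f j) z w = l}.Finite := fun j =>
      (hC (k j) (m j) (f j) (Y j) Λ (hmk j) (hf j) hΛ).1
    have hcard : ∀ j, ((hfin j).toFinset.card : ℝ) ≤ C * Λ := by
      intro j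
      have := (hC (k j) (m j) (f j) (Y j) Λ (hmk j) (hf j) hΛ).2
      rwa [Set.ncard_eq_toFinset_card _ (hfin j)] at this
    refine (gb_cs D A k m f σ Λ Y (Fintype.piFinset fun j => (hfin j).toFinset) ?_).trans ?_
    · intro p hp
      rw [Fintype.mem_piFinset]
      intro j
      rw [Set.Finite.mem_toFinset]
      exact ⟨p.1 j, p.2, hp.1.1 j, hp.2 j, rfl⟩
    · gcongr
      rw [Fintype.card_piFinset, ← ENNReal.ofReal_natCast]
      apply ENNReal.ofReal_le_ofReal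
      push_cast
      calc ∏ j, ((hfin j).toFinset.card : ℝ) ≤ ∏ _j : Fin n, (C * Λ) :=
            Finset.prod_le_prod (fun j _ => by positivity) fun j _ => hcard j
        _ = (C * Λ) ^ n := by simp
  refine (lintegral_mono h1).trans ?_
  rw [lintegral_const_mul' _ _ ENNReal.ofReal_ne_top]
  gcongr
  exact gb_pairs D A k m f σ Λ hΛ0

end Pool.Agent.SEP
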