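import Pool.Agent.SEPH.TY

/-!
Row HB.
-/

namespace Pool.Agent.SEP

open MeasureTheory Set Pool.Agent.MP_6cbfb8_an Polynomial
open scoped ENNReal Real

/-- The divided difference of `yc` at one time. -/
theorem lnc_dd (f : ℝ[X]) (x1 x2 w lo hi : ℝ)
    (hc : ((derivative^[3] f).roots.toFinset.filter (· < x1)).card =
      ((derivative^[3] f).roots.toFinset.filter (· < x2)).card)
    (h1 : lo ≤ (derivative^[2] f).eval x1 - 2 * w) (h1' : (derivative^[2] f).eval x1 - 2 * w ≤ hi)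
    (h2 : lo ≤ (derivative^[2] f).eval x2 - 2 * w) (h2' : (derivative^[2] f).eval x2 - 2 * w ≤ hi) :
    ∃ b, lo ≤ b ∧ b ≤ hi ∧ yc f x2 w - yc f x1 w = b * (x2 - x1) := by
  rcases lt_trichotomy x1 x2 with h | h | h
  · obtain ⟨h3, h4⟩ := avg f x1 x2 w lo hi h.le hc h1 h1' h2 h2'
    have h5 : 0 < x2 - x1 := by linarith
    refine ⟨(yc f x2 w - yc f x1 w) / (x2 - x1), ?_, ?_, ?_⟩
    · rw [le_div_iff₀ h5]; exact h3
    · rw [div_le_iff₀ h5]; exact h4
    · field_simp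
  · subst h
    exact ⟨lo, le_rfl, h1.trans h1', by ring⟩
  · obtain ⟨h3, h4⟩ := avg f x2 x1 w lo hi h.le hc.symm h2 h2' h1 h1'
    have h5 : 0 < x1 - x2 := by linarith
    refine ⟨(yc f x1 w - yc f x2 w) / (x1 - x2), ?_, ?_, ?_⟩
    · rw [le_div_iff₀ h5]; exact h3
    · rw [div_le_iff₀ h5]; exact h4
    · field_simp
      ring

/-- The components of the label. -/
theorem lnc_lab {D : ℕ} {A : ℝ} {k : ℕ} {f : ℝ[X]} {z w z' w' : ℝ}
    (h : lab1 D A k f z w = lab1 D A k f z' w') :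
    (((derivative^[3] f).roots.toFinset.filter (· < z)).card =
      ((derivative^[3] f).roots.toFinset.filter (· < z')).card) ∧
    (0 < z ↔ 0 < z') ∧
    (0 < (derivative^[2] f).eval z - 2 * w ↔ 0 < (derivative^[2] f).eval z' - 2 * w') ∧
    (Core D A k f z ↔ Core D A k f z') ∧
    (Core D A k f z → ⌊2 ^ k * z⌋ = ⌊2 ^ k * z'⌋) := by
  unfold lab1 at h
  simp only [Prod.mk.injEq, decide_eq_decide] at h
  obtain ⟨h1, h2, h3, h4, h5⟩ := h
  refine ⟨h2, h3, h4, h5, fun hc => ?_⟩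
  rw [if_pos hc, if_pos (h5.1 hc)] at h1
  exact h1

theorem lnc_gd2 (f : ℝ[X]) (w z : ℝ) : gd f w 2 z = (derivative^[2] f).eval z - 2 * w := by
  simp [gd]

theorem lnc_up {D : ℕ} {A : ℝ} {k m : ℕ} {f : ℝ[X]} {z w : ℝ} (hD : 2 ≤ D)
    (h : Cls D A k m f z w) : |(derivative^[2] f).eval z - 2 * w| ≤ A * 4 ^ k := by
  have h1 := h.up 2 (by simp [hD])
  rw [lnc_gd2] at h1
  calc _ ≤ _ := h1
    _ = A * 4 ^ k := by rw [mul_comm k 2, pow_mul]; norm_num

theorem lnc_nc {D : ℕ} {A : ℝ} {k m : ℕ} {f : ℝ[X]} {z w : ℝ}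
    (h : Cls D A k m f z w) (hn : ¬ Core D A k f z) :
    1 ≤ k ∧ 4 ^ k ≤ A * |(derivative^[2] f).eval z - 2 * w| := by
  unfold Core at hn
  push Not at hn
  obtain ⟨hk, hn⟩ := hn
  have hk1 : 1 ≤ k := Nat.one_le_iff_ne_zero.2 hk
  refine ⟨hk1, ?_⟩
  obtain ⟨i, hi, h2⟩ := h.lo hk1
  rw [Finset.mem_Icc] at hi
  rcases Nat.lt_or_ge 2 i with h3 | h3
  · exfalso
    have h4 := hn i (Finset.mem_Icc.2 ⟨h3, hi.2⟩)
    have h5 : gd f w i z = (derivative^[i] f).eval z := by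
      unfold gd
      rw [if_neg (by omega), sub_zero]
    rw [h5] at h2
    linarith
  · have h3 : i = 2 := by omega
    subst h3
    rw [lnc_gd2] at h2
    calc (4 : ℝ) ^ k = 2 ^ (k * 2) := by rw [mul_comm k 2, pow_mul]; norm_num
      _ ≤ _ := h2

/-- Taylor's formula for the second derivative. -/
theorem hb_taylor {D : ℕ} {A : ℝ} {k m : ℕ} {f : ℝ[X]} {z w z' R : ℝ} (hA : 1 ≤ A)
    (hf : f.natDegree ≤ D) (hR : 1 ≤ R)
    (h : Cls D A k m f z w) (hz : |z' - z| ≤ R / 2 ^ k) :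
    |(derivative^[2] f).eval z' - (derivative^[2] f).eval z| ≤ D * (A * R ^ D * 4 ^ k) := by
  have h1 := taylor_eval D f hf 2 z (z' - z)
  rw [show z + (z' - z) = z' by ring, Finset.sum_range_succ'] at h1
  have h2 : (derivative^[2] f).eval z' - (derivative^[2] f).eval z =
      ∑ l ∈ Finset.range D, (derivative^[2 + (l + 1)] f).eval z * (z' - z) ^ (l + 1) /
        ((l + 1).factorial : ℝ) := by
    rw [h1]
    simp
  rw [h2]
  refine (Finset.abs_sum_le_sum_abs _ _).trans ?_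
  have h3 : ∀ l ∈ Finset.range D, |(derivative^[2 + (l + 1)] f).eval z * (z' - z) ^ (l + 1) /
        ((l + 1).factorial : ℝ)| ≤ A * R ^ D * 4 ^ k := by
    intro l hl
    rw [Finset.mem_range] at hl
    have hpos : 0 ≤ A * R ^ D * 4 ^ k := by positivity
    rcases Nat.lt_or_ge D (2 + (l + 1)) with h4 | h4
    · have h5 : derivative^[2 + (l + 1)] f = 0 :=
        Polynomial.iterate_derivative_eq_zero (by omega)
      rw [h5]
      simpa using hpos
    · have h5 := h.up (2 + (l + 1)) (Finset.mem_Icc.2 ⟨by omega, h4⟩)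
      have h6 : gd f w (2 + (l + 1)) z = (derivative^[2 + (l + 1)] f).eval z := by
        unfold gd
        rw [if_neg (by omega), sub_zero]
      rw [h6] at h5
      rw [abs_div, abs_mul, abs_pow]
      have h7 : (1 : ℝ) ≤ |((l + 1).factorial : ℝ)| := by
        rw [abs_of_pos (by positivity)]
        exact_mod_cast Nat.one_le_iff_ne_zero.2 (Nat.factorial_ne_zero _)
      have h8 : |z' - z| ^ (l + 1) ≤ (R / 2 ^ k) ^ (l + 1) :=
        pow_le_pow_left₀ (abs_nonneg _) hz _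
      have h9 : R ^ (l + 1) ≤ R ^ D := pow_le_pow_right₀ hR (by omega)
      calc |(derivative^[2 + (l + 1)] f).eval z| * |z' - z| ^ (l + 1) / |((l + 1).factorial : ℝ)|
          ≤ |(derivative^[2 + (l + 1)] f).eval z| * |z' - z| ^ (l + 1) / 1 := by
            apply div_le_div_of_nonneg_left (by positivity) one_pos h7
        _ ≤ (A * 2 ^ (k * (2 + (l + 1)))) * (R / 2 ^ k) ^ (l + 1) := by
            rw [div_one]
            exact mul_le_mul h5 h8 (by positivity) (by positivity)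
        _ = A * R ^ (l + 1) * 4 ^ k := by
            rw [div_pow, show k * (2 + (l + 1)) = 2 * k + k * (l + 1) by ring, pow_add, pow_mul 2 2 k,
              pow_mul 2 k (l + 1)]
            field_simp
            norm_num
        _ ≤ A * R ^ D * 4 ^ k := by gcongr
  calc _ ≤ ∑ l ∈ Finset.range D, A * R ^ D * 4 ^ k := Finset.sum_le_sum h3
    _ = _ := by simp

/-- HB when the two points are close. -/
theorem hb_close {D : ℕ} {A : ℝ} {k m : ℕ} {f : ℝ[X]} {z w z' w' R : ℝ} (hD : 2 ≤ D) (hA : 1 ≤ A)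
    (hf : f.natDegree ≤ D) (hR : 1 ≤ R)
    (h : Cls D A k m f z w) (h' : Cls D A k m f z' w') (hz : |z' - z| ≤ R / 2 ^ k) :
    |w' - w| ≤ (A + D * (A * R ^ D)) * 4 ^ k := by
  have h1 := hb_taylor hA hf hR h hz
  have h2 := lnc_up hD h
  have h3 := lnc_up hD h'
  rw [abs_le] at h1 h2 h3 ⊢
  have h4 : (0 : ℝ) ≤ D * (A * R ^ D * 4 ^ k) := by positivity
  constructor <;> nlinarith

theorem hb_alg0 {A Λ h Q R M X Y b e : ℝ} (hA : 1 ≤ A) (hΛ : 1 ≤ Λ) (hM : 0 < M) (hMR : M ≤ R)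
    (hQ : Q = R ^ 2) (hX : 1 ≤ A * (X * M)) (hY : 1 ≤ A * (Y * M)) (hY' : Y * M ≤ A)
    (hX0 : 0 < X) (_ : 0 < Y) (he : |e| ≤ 2 * Λ * R) (hb0 : 0 ≤ b) (hb : b ≤ A * Q + 2 * h)
    (heq : b * (Y - X) = 2 * h * Y - e) (h0 : 0 ≤ h) : h ≤ (A + A ^ 3) * Λ * Q := by
  have hR : 0 < R := hM.trans_le hMR
  have he' : e ≤ 2 * Λ * R := (le_abs_self e).trans he
  have hQ0 : 0 ≤ Q := by rw [hQ]; positivity
  have k1 : A * M * (Λ * R) ≤ A * Λ * Q := by
    rw [hQ]
    have : A * M * (Λ * R) = A * Λ * (M * R) := by ring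
    rw [this]
    have : M * R ≤ R ^ 2 := by nlinarith
    gcongr
  have k2 : 0 ≤ A ^ 3 * Λ * Q := by positivity
  have k3 : A ^ 3 * Q ≤ A ^ 3 * Λ * Q := by
    have : A ^ 3 * Λ * Q = A ^ 3 * Q * Λ := by ring
    rw [this]
    exact le_mul_of_one_le_right (by positivity) hΛ
  rcases le_or_gt Y X with h1 | h1
  · have h2 : b * (Y - X) ≤ 0 := mul_nonpos_of_nonneg_of_nonpos hb0 (by linarith)
    have h3 : h * Y ≤ Λ * R := by nlinarith
    have h4 : h ≤ h * (A * (Y * M)) := le_mul_of_one_le_right h0 hY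
    have h5 : h * (A * (Y * M)) = A * M * (h * Y) := by ring
    have h6 : A * M * (h * Y) ≤ A * M * (Λ * R) := by gcongr
    calc h ≤ _ := h4
      _ = _ := h5
      _ ≤ _ := h6
      _ ≤ _ := k1
      _ ≤ (A + A ^ 3) * Λ * Q := by nlinarith
  · have h2 : b * (Y - X) ≤ (A * Q + 2 * h) * (Y - X) :=
      mul_le_mul_of_nonneg_right hb (by linarith)
    have h3 : 2 * (h * X) ≤ 2 * Λ * R + A * Q * Y := by
      have : 0 ≤ A * Q * X := by positivity
      nlinarith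
    have h4 : h ≤ h * (A * (X * M)) := le_mul_of_one_le_right h0 hX
    have h5 : h * (A * (X * M)) = A * M * (h * X) := by ring
    have h6 : A * M * (2 * (h * X)) ≤ A * M * (2 * Λ * R + A * Q * Y) := by gcongr
    have h7 : A * M * (2 * Λ * R + A * Q * Y) = 2 * (A * M * (Λ * R)) + A ^ 2 * Q * (Y * M) := by
      ring
    have h8 : A ^ 2 * Q * (Y * M) ≤ A ^ 2 * Q * A := by gcongr
    have h9 : A ^ 2 * Q * A = A ^ 3 * Q := by ring
    nlinarith

theorem hb_alg {A Λ h Q R M X Y b e : ℝ} (hA : 1 ≤ A) (hΛ : 1 ≤ Λ) (hM : 0 < M) (hMR : M ≤ R)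
    (hQ : Q = R ^ 2) (hX : 1 ≤ A * (|X| * M)) (hY : 1 ≤ A * (|Y| * M)) (hY' : |Y| * M ≤ A)
    (hs : 0 < X ↔ 0 < Y) (he : |e| ≤ 2 * Λ * R) (hb0 : 0 ≤ b) (hb : b ≤ A * Q + 2 * h)
    (heq : b * (Y - X) = 2 * h * Y - e) (h0 : 0 ≤ h) : h ≤ (A + A ^ 3) * Λ * Q := by
  have hX1 : X ≠ 0 := by
    rintro rfl
    simp at hX
    linarith
  have hY1 : Y ≠ 0 := by
    rintro rfl
    simp at hY
    linarith
  rcases lt_or_gt_of_ne hY1 with h1 | h1
  · have h2 : X < 0 := by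
      rcases lt_or_gt_of_ne hX1 with h2 | h2
      · exact h2
      · have := hs.1 h2
        linarith
    rw [abs_of_neg h1] at hY hY'
    rw [abs_of_neg h2] at hX
    exact hb_alg0 (X := -X) (Y := -Y) (b := b) (e := -e) hA hΛ hM hMR hQ hX hY hY' (by linarith)
      (by linarith) (by rwa [abs_neg]) hb0 hb (by linarith) h0
  · have h2 : 0 < X := hs.2 h1
    rw [abs_of_pos h1] at hY hY'
    rw [abs_of_pos h2] at hX
    exact hb_alg0 (X := X) (Y := Y) (b := b) (e := e) hA hΛ hM hMR hQ hX hY hY' h2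
      h1 he hb0 hb heq h0

theorem hb_half {D : ℕ} {A : ℝ} (hD : 2 ≤ D) (hA : 1 ≤ A) {k m : ℕ} {f : ℝ[X]}
    {z w z' w' Λ : ℝ} (hmk : m ≤ k) (hf : f.natDegree ≤ D) (hΛ : 1 ≤ Λ)
    (h : Cls D A k m f z w) (h' : Cls D A k m f z' w')
    (hl : lab1 D A k f z w = lab1 D A k f z' w')
    (he : |yc f z w - yc f z' w'| ≤ 2 * Λ * 2 ^ k) (hw : w ≤ w') :
    w' - w ≤ ((A + A ^ 3) + (A + D * (A * (2 * A) ^ D))) * Λ * 4 ^ k := by
  obtain ⟨l1, l2, l3, l4, l5⟩ := lnc_lab hl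
  have hA0 : 0 < A := by linarith
  by_cases hcl : |z' - z| ≤ 2 * A / 2 ^ k
  · have h1 := hb_close hD hA hf (by linarith) h h' hcl
    have h2 := (le_abs_self _).trans h1
    calc w' - w ≤ _ := h2
      _ ≤ ((A + A ^ 3) + (A + D * (A * (2 * A) ^ D))) * 4 ^ k := by
          have : 0 ≤ (A + A ^ 3) * 4 ^ k := by positivity
          nlinarith
      _ ≤ ((A + A ^ 3) + (A + D * (A * (2 * A) ^ D))) * Λ * 4 ^ k := by
          have : 0 ≤ ((A + A ^ 3) + (A + D * (A * (2 * A) ^ D))) * 4 ^ k := by positivity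
          nlinarith
  have hk0 : (0 : ℝ) < 2 ^ k := by positivity
  have hnc : ¬ Core D A k f z := by
    intro hc
    apply hcl
    have h1 := Int.abs_sub_lt_one_of_floor_eq_floor (l5 hc)
    rw [← mul_sub, abs_mul, abs_of_pos hk0, abs_sub_comm] at h1
    rw [le_div_iff₀ hk0]
    nlinarith
  have hmk' : m < k := by
    rcases lt_or_eq_of_le hmk with h1 | h1
    · exact h1
    · exfalso
      apply hcl
      subst h1
      have h2 := h.zup
      have h3 := h'.zup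
      rw [le_div_iff₀ hk0]
      have h4 : |z' - z| ≤ |z'| + |z| := abs_sub _ _
      nlinarith
  have hz := h.zlo hmk'
  have hz' := h'.zlo hmk'
  have hu := lnc_up hD h
  have hu' := lnc_up hD h'
  have hC : (A + A ^ 3) * Λ * 4 ^ k ≤ ((A + A ^ 3) + (A + D * (A * (2 * A) ^ D))) * Λ * 4 ^ k := by
    have : 0 ≤ (A + D * (A * (2 * A) ^ D)) * (Λ * 4 ^ k) := by positivity
    nlinarith
  refine le_trans ?_ hC
  have hMR : (2 : ℝ) ^ m ≤ 2 ^ k := pow_le_pow_right₀ (by norm_num) hmk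
  have hQ : (4 : ℝ) ^ k = (2 ^ k) ^ 2 := by rw [← pow_mul, mul_comm, pow_mul]; norm_num
  by_cases hs : 0 < (derivative^[2] f).eval z - 2 * w
  · have hs' := l3.1 hs
    rw [abs_of_pos hs] at hu
    rw [abs_of_pos hs'] at hu'
    obtain ⟨b, hb0, hb1, hb⟩ := lnc_dd f z z' w 0 (A * 4 ^ k + 2 * (w' - w)) l1 hs.le (by linarith)
      (by linarith) (by linarith)
    refine hb_alg (X := z) (Y := z') (b := b) (e := yc f z w - yc f z' w') (M := 2 ^ m) (R := 2 ^ k)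
      hA hΛ (by positivity) hMR hQ hz hz' h'.zup l2 he hb0 hb1 ?_ (by linarith)
    rw [← hb]
    unfold yc
    ring
  · have hs' : ¬ 0 < (derivative^[2] f).eval z' - 2 * w' := fun hh => hs (l3.2 hh)
    push Not at hs hs'
    rw [abs_of_nonpos hs] at hu
    rw [abs_of_nonpos hs'] at hu'
    obtain ⟨b, hb0, hb1, hb⟩ := lnc_dd f z z' w' (-(A * 4 ^ k + 2 * (w' - w))) 0 l1 (by linarith)
      (by linarith) (by linarith) (by linarith)
    refine hb_alg (X := z') (Y := z) (b := -b) (e := yc f z w - yc f z' w') (M := 2 ^ m) (R := 2 ^ k)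
      hA hΛ (by positivity) hMR hQ hz' hz h.zup l2.symm he (by linarith) (by linarith) ?_
      (by linarith)
    have h1 : -b * (z - z') = b * (z' - z) := by ring
    rw [h1, ← hb]
    unfold yc
    ring

/-- ROW HB. -/
theorem hb (D : ℕ) (A : ℝ) (hD : 2 ≤ D) (hA : 1 ≤ A) : ∃ C : ℝ, 1 ≤ C ∧
    ∀ (k m : ℕ) (f : ℝ[X]) (z w z' w' Λ : ℝ), m ≤ k → f.natDegree ≤ D → 1 ≤ Λ →
      Cls D A k m f z w → Cls D A k m f z' w' → lab1 D A k f z w = lab1 D A k f z' w' →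
      |yc f z w - yc f z' w'| ≤ 2 * Λ * 2 ^ k → |w' - w| ≤ C * Λ * 4 ^ k := by
  refine ⟨(A + A ^ 3) + (A + D * (A * (2 * A) ^ D)), ?_, ?_⟩
  · have : 0 ≤ A ^ 3 + (A + D * (A * (2 * A) ^ D)) := by positivity
    linarith
  · intro k m f z w z' w' Λ hmk hf hΛ h h' hl he
    rcases le_total w w' with h1 | h1
    · rw [abs_of_nonneg (by linarith)]
      exact hb_half hD hA hmk hf hΛ h h' hl he h1
    · rw [abs_sub_comm, abs_of_nonneg (by linarith)]
      exact hb_half hD hA hmk hf hΛ h' h hl.symm (by rwa [abs_sub_comm]) h1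

end Pool.Agent.SEP
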