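import Pool.Agent.SEPH.Defs

/-!
Localisation in time and the Fourier transform of the localised pieces (rows KYW and KYF).
-/

namespace Pool.Agent.SEP

open MeasureTheory Set Filter Topology Pool.Agent.MP_6cbfb8_an
open scoped ENNReal Real

/-! ### The cutoffs -/

theorem ky_B_continuous : Continuous B := by
  unfold B
  exact bump.continuous

theorem ky_B_one {x : ℝ} (hx : |x| ≤ 1) : B x = 1 := by
  unfold B
  apply bump.one_of_mem_closedBall
  rw [mem_closedBall_zero_iff, Real.norm_eq_abs]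
  exact hx

theorem ky_B_zero {x : ℝ} (hx : 2 ≤ |x|) : B x = 0 := by
  unfold B
  apply bump.zero_of_le_dist
  rw [dist_zero_right, Real.norm_eq_abs]
  exact hx

theorem ky_B_nonneg (x : ℝ) : 0 ≤ B x := bump.nonneg

theorem ky_B_le_one (x : ℝ) : B x ≤ 1 := bump.le_one

theorem ky_phi_continuous : Continuous phi := by
  unfold phi
  exact bump1.continuous_normed

theorem ky_phi_nonneg (x : ℝ) : 0 ≤ phi x := bump1.nonneg_normed x

theorem ky_phi_zero {x : ℝ} (hx : 1 ≤ |x|) : phi x = 0 := by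
  unfold phi ContDiffBump.normed
  rw [bump1.zero_of_le_dist, zero_div]
  rw [dist_zero_right, Real.norm_eq_abs]
  exact hx

theorem ky_phi_integral : ∫ x : ℝ, phi x = 1 := bump1.integral_normed

theorem ky_continuous_gd (f : Polynomial ℝ) (i : ℕ) :
    Continuous fun q : ℝ × ℝ => gd f q.2 i q.1 := by
  unfold gd
  refine Continuous.sub ?_ ?_
  · exact (Polynomial.continuous _).comp continuous_fst
  · split_ifs
    · fun_prop
    · exact continuous_const

theorem ky_continuous_Sk (D k : ℕ) (f : Polynomial ℝ) :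
    Continuous fun q : ℝ × ℝ => Sk D k f q.1 q.2 := by
  unfold Sk
  exact continuous_finsetSum _ fun i _ => ((ky_continuous_gd f i).div_const _).pow 2

theorem ky_continuous_theta (D k : ℕ) (f : Polynomial ℝ) :
    Continuous fun q : ℝ × ℝ => theta D k f q.1 q.2 := by
  unfold theta
  refine Continuous.sub ?_ ?_
  · exact ky_B_continuous.comp ((ky_continuous_Sk D (k + 1) f).div_const 2)
  · split_ifs
    · exact continuous_const
    · exact ky_B_continuous.comp ((ky_continuous_Sk D k f).div_const 2)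

theorem ky_continuous_beta (k m : ℕ) : Continuous (beta k m) := by
  unfold beta
  refine Continuous.sub ?_ ?_
  · exact ky_B_continuous.comp (by fun_prop)
  · split_ifs
    · exact ky_B_continuous.comp (by fun_prop)
    · exact continuous_const

theorem ky_beta_zero (k m : ℕ) {x : ℝ} (hx : 2 ≤ |x|) : beta k m x = 0 := by
  have h : ∀ j : ℕ, B (2 ^ j * x) = 0 := by
    intro j
    apply ky_B_zero
    rw [abs_mul, abs_of_pos (by positivity : (0 : ℝ) < 2 ^ j)]
    have : (1 : ℝ) ≤ 2 ^ j := one_le_pow₀ (by norm_num)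
    nlinarith [abs_nonneg x]
  unfold beta
  rw [h, h]
  simp

/-! ### The localised one-variable integral -/

/-- The integrand of `pk1`. -/
noncomputable def kyP (κ : ℝ) (D k m : ℕ) (f : Polynomial ℝ) (Y : ℝ) (q : ℝ × ℝ) (x : ℝ) : ℂ :=
  ((theta D k f x q.2 * beta k m x * (2 ^ k / κ * phi ((q.1 - x) * (2 ^ k / κ))) : ℝ) : ℂ) *
    Complex.exp (((f.eval x - q.2 * x ^ 2 + Y * (q.1 - x) : ℝ) : ℂ) * Complex.I)

theorem ky_continuous_P (κ : ℝ) (D k m : ℕ) (f : Polynomial ℝ) (Y : ℝ) :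
    Continuous fun r : (ℝ × ℝ) × ℝ => kyP κ D k m f Y r.1 r.2 := by
  have h1 : Continuous fun r : (ℝ × ℝ) × ℝ => theta D k f r.2 r.1.2 := by
    have h0 : Continuous fun r : (ℝ × ℝ) × ℝ => (r.2, r.1.2) := by fun_prop
    have h00 := (ky_continuous_theta D k f).comp h0
    simpa only [Function.comp_def] using h00
  have h2 : Continuous fun r : (ℝ × ℝ) × ℝ => beta k m r.2 :=
    (ky_continuous_beta k m).comp continuous_snd
  have h3 : Continuous fun r : (ℝ × ℝ) × ℝ => phi ((r.1.1 - r.2) * (2 ^ k / κ)) := by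
    have h0 : Continuous fun r : (ℝ × ℝ) × ℝ => (r.1.1 - r.2) * (2 ^ k / κ) := by fun_prop
    exact ky_phi_continuous.comp h0
  have h4 : Continuous fun r : (ℝ × ℝ) × ℝ => f.eval r.2 := f.continuous.comp continuous_snd
  have h5 : Continuous fun r : (ℝ × ℝ) × ℝ =>
      theta D k f r.2 r.1.2 * beta k m r.2 * (2 ^ k / κ * phi ((r.1.1 - r.2) * (2 ^ k / κ))) :=
    (h1.mul h2).mul (continuous_const.mul h3)
  have h6 : Continuous fun r : (ℝ × ℝ) × ℝ =>
      f.eval r.2 - r.1.2 * r.2 ^ 2 + Y * (r.1.1 - r.2) :=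
    (h4.sub (by fun_prop)).add (by fun_prop)
  unfold kyP
  exact (Complex.continuous_ofReal.comp h5).mul
    (Complex.continuous_exp.comp ((Complex.continuous_ofReal.comp h6).mul continuous_const))

theorem ky_P_zero (κ : ℝ) (D k m : ℕ) (f : Polynomial ℝ) (Y : ℝ) (q : ℝ × ℝ) {x : ℝ}
    (hx : 2 ≤ |x|) : kyP κ D k m f Y q x = 0 := by
  unfold kyP
  rw [ky_beta_zero k m hx]
  simp

theorem ky_P_zero' {κ : ℝ} (hκ : 0 < κ) (D k m : ℕ) (f : Polynomial ℝ) (Y : ℝ) {q : ℝ × ℝ}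
    {x : ℝ} (hx : κ / 2 ^ k ≤ |q.1 - x|) : kyP κ D k m f Y q x = 0 := by
  unfold kyP
  rw [ky_phi_zero]
  · simp
  · have h2 : (0 : ℝ) < 2 ^ k := by positivity
    rw [abs_mul, abs_of_pos (by positivity : (0 : ℝ) < 2 ^ k / κ)]
    have h3 := mul_le_mul_of_nonneg_right hx (by positivity : (0 : ℝ) ≤ 2 ^ k / κ)
    have h4 : κ / 2 ^ k * (2 ^ k / κ) = 1 := by field_simp
    linarith

theorem ky_pk1_eq (κ : ℝ) (D k m : ℕ) (f : Polynomial ℝ) (Y ζ t : ℝ) :
    pk1 κ D k m f Y ζ t = ∫ x in Icc (-2 : ℝ) 2, kyP κ D k m f Y (ζ, t) x := by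
  rw [setIntegral_eq_integral_of_forall_compl_eq_zero]
  · rfl
  · intro x hx
    apply ky_P_zero
    by_contra h
    push Not at h
    exact hx ⟨by linarith [(abs_lt.1 h).1], by linarith [(abs_lt.1 h).2]⟩

theorem ky_continuous_pk1 (κ : ℝ) (D k m : ℕ) (f : Polynomial ℝ) (Y : ℝ) :
    Continuous fun q : ℝ × ℝ => pk1 κ D k m f Y q.1 q.2 := by
  simp_rw [ky_pk1_eq]
  exact continuous_parametric_integral_of_continuous (ky_continuous_P κ D k m f Y) isCompact_Icc

theorem ky_pk1_zero {κ : ℝ} (hκ : 0 < κ) (D k m : ℕ) (f : Polynomial ℝ) (Y : ℝ) {ζ : ℝ} (t : ℝ)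
    (hζ : 2 + κ / 2 ^ k ≤ |ζ|) : pk1 κ D k m f Y ζ t = 0 := by
  rw [ky_pk1_eq]
  refine setIntegral_eq_zero_of_forall_eq_zero fun x hx => ?_
  apply ky_P_zero' hκ
  have h1 : |x| ≤ 2 := abs_le.2 hx
  have h2 : |ζ| - |x| ≤ |ζ - x| := abs_sub_abs_le_abs_sub ζ x
  show κ / 2 ^ k ≤ |ζ - x|
  linarith

/-- The one-variable Fourier transform. -/
theorem ky_fourier1 {κ : ℝ} (hκ : 0 < κ) (D k m : ℕ) (f : Polynomial ℝ) (Y y t : ℝ) :
    ∫ ζ : ℝ, pk1 κ D k m f Y ζ t * Complex.exp (((-(y * ζ) : ℝ) : ℂ) * Complex.I) =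
      I1c D k m f t y * phat (κ / 2 ^ k * (Y - y)) := by
  have h2 : (0 : ℝ) < 2 ^ k := by positivity
  have hκ' : (0 : ℝ) < 2 ^ k / κ := by positivity
  have hc1 : Continuous fun r : ℝ × ℝ => kyP κ D k m f Y (r.1, t) r.2 := by
    have h0 : Continuous fun r : ℝ × ℝ => ((r.1, t), r.2) := by fun_prop
    have h00 := (ky_continuous_P κ D k m f Y).comp h0
    simpa only [Function.comp_def] using h00
  have hc2 : Continuous fun r : ℝ × ℝ =>
      Complex.exp (((-(y * r.1) : ℝ) : ℂ) * Complex.I) := by fun_prop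
  have hc : Continuous fun r : ℝ × ℝ => kyP κ D k m f Y (r.1, t) r.2 *
      Complex.exp (((-(y * r.1) : ℝ) : ℂ) * Complex.I) := hc1.mul hc2
  have hint : Integrable (Function.uncurry fun ζ x : ℝ => kyP κ D k m f Y (ζ, t) x *
      Complex.exp (((-(y * ζ) : ℝ) : ℂ) * Complex.I)) (volume.prod volume) := by
    refine hc.integrable_of_hasCompactSupport (HasCompactSupport.intro'
      (K := Icc (-(2 + κ / 2 ^ k)) (2 + κ / 2 ^ k) ×ˢ Icc (-2 : ℝ) 2)
      (isCompact_Icc.prod isCompact_Icc) (isClosed_Icc.prod isClosed_Icc) fun r hr => ?_)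
    by_cases hx : r.2 ∈ Icc (-2 : ℝ) 2
    · have h3 : r.1 ∉ Icc (-(2 + κ / 2 ^ k)) (2 + κ / 2 ^ k) := fun h => hr ⟨h, hx⟩
      rw [ky_P_zero' hκ, zero_mul]
      have h4 : 2 + κ / 2 ^ k < |r.1| := by
        by_contra h
        push Not at h
        exact h3 (abs_le.1 h)
      have h5 : |r.2| ≤ 2 := abs_le.2 hx
      have h6 := abs_sub_abs_le_abs_sub r.1 r.2
      show κ / 2 ^ k ≤ |r.1 - r.2|
      linarith
    · rw [ky_P_zero, zero_mul]
      by_contra h
      push Not at h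
      exact hx ⟨by linarith [(abs_lt.1 h).1], by linarith [(abs_lt.1 h).2]⟩
  have h1 : ∀ ζ : ℝ, pk1 κ D k m f Y ζ t * Complex.exp (((-(y * ζ) : ℝ) : ℂ) * Complex.I) =
      ∫ x : ℝ, kyP κ D k m f Y (ζ, t) x * Complex.exp (((-(y * ζ) : ℝ) : ℂ) * Complex.I) := by
    intro ζ
    rw [integral_mul_const]
    rfl
  simp_rw [h1]
  rw [integral_integral_swap hint]
  unfold I1c
  rw [← integral_mul_const]
  congr 1
  funext x
  have h3 : ∀ ζ : ℝ, kyP κ D k m f Y (ζ, t) x * Complex.exp (((-(y * ζ) : ℝ) : ℂ) * Complex.I) =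
      (((theta D k f x t * beta k m x : ℝ) : ℂ) *
        Complex.exp (((f.eval x - t * x ^ 2 - y * x : ℝ) : ℂ) * Complex.I)) *
      (fun u : ℝ => ((2 ^ k / κ : ℝ) : ℂ) * ((phi (u * (2 ^ k / κ)) : ℝ) : ℂ) *
        Complex.exp ((((Y - y) * u : ℝ) : ℂ) * Complex.I)) (ζ - x) := by
    intro ζ
    unfold kyP
    simp only
    have e1 : Complex.exp (((f.eval x - t * x ^ 2 + Y * (ζ - x) : ℝ) : ℂ) * Complex.I) *
        Complex.exp (((-(y * ζ) : ℝ) : ℂ) * Complex.I) =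
        Complex.exp (((f.eval x - t * x ^ 2 - y * x : ℝ) : ℂ) * Complex.I) *
        Complex.exp ((((Y - y) * (ζ - x) : ℝ) : ℂ) * Complex.I) := by
      rw [← Complex.exp_add, ← Complex.exp_add]
      congr 1
      push_cast
      ring
    rw [mul_assoc, e1]
    push_cast
    ring
  simp_rw [h3]
  rw [integral_const_mul, integral_sub_right_eq_self (fun u : ℝ => ((2 ^ k / κ : ℝ) : ℂ) *
    ((phi (u * (2 ^ k / κ)) : ℝ) : ℂ) * Complex.exp ((((Y - y) * u : ℝ) : ℂ) * Complex.I)) x]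
  congr 1
  unfold phat
  have h4 : ∀ u : ℝ, ((2 ^ k / κ : ℝ) : ℂ) * ((phi (u * (2 ^ k / κ)) : ℝ) : ℂ) *
      Complex.exp ((((Y - y) * u : ℝ) : ℂ) * Complex.I) =
      ((2 ^ k / κ : ℝ) : ℂ) * (fun v : ℝ => ((phi v : ℝ) : ℂ) *
        Complex.exp (((κ / 2 ^ k * (Y - y) * v : ℝ) : ℂ) * Complex.I)) (u * (2 ^ k / κ)) := by
    intro u
    simp only
    rw [mul_assoc]
    congr 3
    have : κ / 2 ^ k * (Y - y) * (u * (2 ^ k / κ)) = (Y - y) * u := by field_simp
    rw [this]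
  simp_rw [h4]
  rw [integral_const_mul, Measure.integral_comp_mul_right (fun v : ℝ => ((phi v : ℝ) : ℂ) *
        Complex.exp (((κ / 2 ^ k * (Y - y) * v : ℝ) : ℂ) * Complex.I)) (2 ^ k / κ),
    abs_of_pos (inv_pos.2 hκ'), Complex.real_smul, ← mul_assoc, ← Complex.ofReal_mul,
    mul_inv_cancel₀ hκ'.ne', Complex.ofReal_one, one_mul]

/-! ### Several variables -/

/-- The integrand of `KY`. -/
noncomputable def kyH {n : ℕ} (κ : ℝ) (D : ℕ) (T : ℝ) (k m : Fin n → ℕ)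
    (f : Fin n → Polynomial ℝ) (Y : Fin n → ℝ) (q : (Fin n → ℝ) × ℝ) : ℂ :=
  Complex.exp ((q.2 : ℂ) * Complex.I) * (B (q.2 / T) : ℂ) *
    ∏ j, pk1 κ D (k j) (m j) (f j) (Y j) (q.1 j) q.2

theorem ky_continuous_H {n : ℕ} (κ : ℝ) (D : ℕ) (T : ℝ) (k m : Fin n → ℕ)
    (f : Fin n → Polynomial ℝ) (Y : Fin n → ℝ) : Continuous (kyH κ D T k m f Y) := by
  have h1 : Continuous fun q : (Fin n → ℝ) × ℝ => Complex.exp ((q.2 : ℂ) * Complex.I) := by
    fun_prop
  have h2 : Continuous fun q : (Fin n → ℝ) × ℝ => B (q.2 / T) := by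
    have h0 : Continuous fun q : (Fin n → ℝ) × ℝ => q.2 / T := by fun_prop
    exact ky_B_continuous.comp h0
  have h3 : ∀ j, Continuous fun q : (Fin n → ℝ) × ℝ =>
      pk1 κ D (k j) (m j) (f j) (Y j) (q.1 j) q.2 := by
    intro j
    have h0 : Continuous fun q : (Fin n → ℝ) × ℝ => (q.1 j, q.2) := by fun_prop
    have h00 := (ky_continuous_pk1 κ D (k j) (m j) (f j) (Y j)).comp h0
    simpa only [Function.comp_def] using h00
  unfold kyH
  exact (h1.mul (Complex.continuous_ofReal.comp h2)).mul (continuous_finsetProd _ fun j _ => h3 j)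

/-- The compact set outside of which `kyH` vanishes. -/
def kyK {n : ℕ} (κ T : ℝ) (k : Fin n → ℕ) : Set ((Fin n → ℝ) × ℝ) :=
  (univ.pi fun j => Icc (-(2 + κ / 2 ^ k j)) (2 + κ / 2 ^ k j)) ×ˢ Icc (-(2 * T)) (2 * T)

theorem ky_isCompact_K {n : ℕ} (κ T : ℝ) (k : Fin n → ℕ) : IsCompact (kyK κ T k) :=
  (isCompact_univ_pi fun _ => isCompact_Icc).prod isCompact_Icc

theorem ky_H_zero {n : ℕ} {κ : ℝ} (hκ : 0 < κ) (D : ℕ) {T : ℝ} (hT : 0 < T) (k m : Fin n → ℕ)
    (f : Fin n → Polynomial ℝ) (Y : Fin n → ℝ) {q : (Fin n → ℝ) × ℝ} (hq : q ∉ kyK κ T k) :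
    kyH κ D T k m f Y q = 0 := by
  unfold kyH
  by_cases ht : q.2 ∈ Icc (-(2 * T)) (2 * T)
  · have h1 : ¬ ∀ j, q.1 j ∈ Icc (-(2 + κ / 2 ^ k j)) (2 + κ / 2 ^ k j) := by
      intro h
      exact hq ⟨fun j _ => h j, ht⟩
    push Not at h1
    obtain ⟨j, hj⟩ := h1
    rw [Finset.prod_eq_zero (Finset.mem_univ j), mul_zero]
    apply ky_pk1_zero hκ
    by_contra h
    push Not at h
    exact hj ⟨by linarith [(abs_lt.1 h).1], by linarith [(abs_lt.1 h).2]⟩
  · rw [ky_B_zero, Complex.ofReal_zero, mul_zero, zero_mul]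
    rw [abs_div, abs_of_pos hT, le_div_iff₀ hT]
    by_contra h
    push Not at h
    exact ht ⟨by linarith [(abs_lt.1 h).1], by linarith [(abs_lt.1 h).2]⟩

theorem ky_integrable_H {n : ℕ} {κ : ℝ} (hκ : 0 < κ) (D : ℕ) {T : ℝ} (hT : 0 < T)
    (k m : Fin n → ℕ) (f : Fin n → Polynomial ℝ) (Y : Fin n → ℝ) :
    Integrable (kyH κ D T k m f Y) (volume.prod volume) :=
  (ky_continuous_H κ D T k m f Y).integrable_of_hasCompactSupport
    (HasCompactSupport.intro' (ky_isCompact_K κ T k) (ky_isCompact_K κ T k).isClosed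
      fun _ hq => ky_H_zero hκ D hT k m f Y hq)

theorem ky_integrable_Ht {n : ℕ} {κ : ℝ} (hκ : 0 < κ) (D : ℕ) {T : ℝ} (hT : 0 < T)
    (k m : Fin n → ℕ) (f : Fin n → Polynomial ℝ) (Y ζ : Fin n → ℝ) :
    Integrable fun t : ℝ => kyH κ D T k m f Y (ζ, t) := by
  have h0 : Continuous fun t : ℝ => (ζ, t) := by fun_prop
  refine ((ky_continuous_H κ D T k m f Y).comp h0).integrable_of_hasCompactSupport
    (HasCompactSupport.intro' (K := Icc (-(2 * T)) (2 * T)) isCompact_Icc isClosed_Icc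
      fun t ht => ?_)
  exact ky_H_zero hκ D hT k m f Y fun h => ht h.2

/-- ROW KYF. -/
theorem ky_fourier {n : ℕ} (κ : ℝ) (hκ : 0 < κ) (D : ℕ) (T : ℝ) (hT : 0 < T)
    (k m : Fin n → ℕ) (f : Fin n → Polynomial ℝ) (Y : Fin n → ℝ) :
    Integrable (KY κ D T k m f Y) ∧ ∀ y : Fin n → ℝ,
      ∫ ζ : Fin n → ℝ, KY κ D T k m f Y ζ * Complex.exp (((-∑ j, y j * ζ j : ℝ) : ℂ) * Complex.I) =
        Fc D T k m f y * ∏ j, phat (κ / 2 ^ k j * (Y j - y j)) := by
  have hKY : KY κ D T k m f Y = fun ζ => ∫ t : ℝ, kyH κ D T k m f Y (ζ, t) := rfl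
  have hH := ky_integrable_H hκ D hT k m f Y
  refine ⟨?_, fun y => ?_⟩
  · rw [hKY]
    exact hH.integral_prod_left
  · have hHe : Integrable (Function.uncurry fun (ζ : Fin n → ℝ) (t : ℝ) =>
        kyH κ D T k m f Y (ζ, t) * Complex.exp (((-∑ j, y j * ζ j : ℝ) : ℂ) * Complex.I))
        (volume.prod volume) := by
      refine hH.mono ?_ (Eventually.of_forall fun q => ?_)
      · have h3 : Continuous fun q : (Fin n → ℝ) × ℝ =>
            Complex.exp (((-∑ j, y j * q.1 j : ℝ) : ℂ) * Complex.I) := by fun_prop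
        exact ((ky_continuous_H κ D T k m f Y).mul h3).aestronglyMeasurable
      · simp only [Function.uncurry]
        rw [norm_mul, Complex.norm_exp_ofReal_mul_I, mul_one]
    have h1 : ∀ ζ : Fin n → ℝ, KY κ D T k m f Y ζ *
        Complex.exp (((-∑ j, y j * ζ j : ℝ) : ℂ) * Complex.I) =
        ∫ t : ℝ, kyH κ D T k m f Y (ζ, t) *
          Complex.exp (((-∑ j, y j * ζ j : ℝ) : ℂ) * Complex.I) := by
      intro ζ
      rw [integral_mul_const, hKY]
    simp_rw [h1]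
    rw [integral_integral_swap hHe]
    unfold Fc
    rw [← integral_mul_const]
    congr 1
    funext t
    have h2 : ∀ ζ : Fin n → ℝ, kyH κ D T k m f Y (ζ, t) *
        Complex.exp (((-∑ j, y j * ζ j : ℝ) : ℂ) * Complex.I) =
        (Complex.exp ((t : ℂ) * Complex.I) * (B (t / T) : ℂ)) *
        ∏ j, (pk1 κ D (k j) (m j) (f j) (Y j) (ζ j) t *
          Complex.exp (((-(y j * ζ j) : ℝ) : ℂ) * Complex.I)) := by
      intro ζ
      unfold kyH
      rw [Finset.prod_mul_distrib, ← Complex.exp_sum, ← Finset.sum_mul, mul_assoc]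
      congr 4
      push_cast
      rw [Finset.sum_neg_distrib]
    simp_rw [h2]
    rw [integral_const_mul, integral_fintype_prod_volume_eq_prod
      (fun (j : Fin n) (ζ : ℝ) => pk1 κ D (k j) (m j) (f j) (Y j) ζ t *
          Complex.exp (((-(y j * ζ) : ℝ) : ℂ) * Complex.I))]
    simp_rw [ky_fourier1 hκ]
    rw [Finset.prod_mul_distrib]
    ring

/-- ROW KYW. -/
theorem ky_w {n : ℕ} (κ τ : ℝ) (hκ : 0 < κ) (hτ : 0 < τ) (D : ℕ) (T : ℝ) (hT : 0 < T)
    (k m : Fin n → ℕ) (f : Fin n → Polynomial ℝ) (Y ζ : Fin n → ℝ) :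
    KY κ D T k m f Y ζ = ∫ w : ℝ, kw κ τ D T k m f Y ζ w := by
  set G : ℝ → ℂ := fun t => kyH κ D T k m f Y (ζ, t) with hG
  have hGc : Continuous G := by
    have h0 : Continuous fun t : ℝ => (ζ, t) := by fun_prop
    have h00 := (ky_continuous_H κ D T k m f Y).comp h0
    simpa only [Function.comp_def] using h00
  have hkw : ∀ w : ℝ, kw κ τ D T k m f Y ζ w =
      ∫ t : ℝ, G t * ((1 / τ * phi ((t - w) / τ) : ℝ) : ℂ) := by
    intro w
    unfold kw
    congr 1
    funext t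
    simp only [hG, kyH]
    push_cast
    ring
  simp_rw [hkw]
  have hc : Continuous fun r : ℝ × ℝ => G r.2 * ((1 / τ * phi ((r.2 - r.1) / τ) : ℝ) : ℂ) := by
    have h0 : Continuous fun r : ℝ × ℝ => (r.2 - r.1) / τ := by fun_prop
    have h1 : Continuous fun r : ℝ × ℝ => 1 / τ * phi ((r.2 - r.1) / τ) :=
      continuous_const.mul (ky_phi_continuous.comp h0)
    exact (hGc.comp continuous_snd).mul (Complex.continuous_ofReal.comp h1)
  have hint : Integrable (Function.uncurry fun w t : ℝ =>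
      G t * ((1 / τ * phi ((t - w) / τ) : ℝ) : ℂ)) (volume.prod volume) := by
    refine hc.integrable_of_hasCompactSupport (HasCompactSupport.intro'
      (K := Icc (-(2 * T + τ)) (2 * T + τ) ×ˢ Icc (-(2 * T)) (2 * T))
      (isCompact_Icc.prod isCompact_Icc) (isClosed_Icc.prod isClosed_Icc) fun r hr => ?_)
    by_cases ht : r.2 ∈ Icc (-(2 * T)) (2 * T)
    · have h3 : r.1 ∉ Icc (-(2 * T + τ)) (2 * T + τ) := fun h => hr ⟨h, ht⟩
      rw [ky_phi_zero, mul_zero, Complex.ofReal_zero, mul_zero]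
      have h4 : 2 * T + τ < |r.1| := by
        by_contra h
        push Not at h
        exact h3 (abs_le.1 h)
      have h5 : |r.2| ≤ 2 * T := abs_le.2 ht
      have h6 := abs_sub_abs_le_abs_sub r.1 r.2
      rw [abs_div, abs_of_pos hτ, le_div_iff₀ hτ, abs_sub_comm]
      linarith
    · have h3 : G r.2 = 0 := ky_H_zero hκ D hT k m f Y fun h => ht h.2
      rw [h3, zero_mul]
  rw [integral_integral_swap hint]
  have h1 : ∀ t : ℝ, ∫ w : ℝ, G t * ((1 / τ * phi ((t - w) / τ) : ℝ) : ℂ) = G t := by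
    intro t
    rw [integral_const_mul, integral_complex_ofReal,
      integral_sub_left_eq_self (fun u : ℝ => 1 / τ * phi (u / τ)) volume t,
      integral_const_mul, Measure.integral_comp_div, ky_phi_integral, abs_of_pos hτ, smul_eq_mul,
      mul_one, one_div, inv_mul_cancel₀ hτ.ne', Complex.ofReal_one, mul_one]
  simp_rw [h1]
  rfl

end Pool.Agent.SEP
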