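import Pool.Agent.SEPH.CL

/-!
SEP row PH: the packet bound.
-/

namespace Pool.Agent.SEP

open MeasureTheory Set Pool.Agent.MP_6cbfb8_an Polynomial
open scoped ENNReal Real

theorem ph_taylor (D : ℕ) (f : ℝ[X]) (hf : f.natDegree ≤ D) (i : ℕ) (z u : ℝ) :
    (derivative^[i] f).eval (z + u) =
      ∑ l ∈ Finset.range (D + 1), (derivative^[i + l] f).eval z * u ^ l / (l.factorial : ℝ) := by
  have h1 : (derivative^[i] f).eval (z + u) = (taylor z (derivative^[i] f)).eval u := by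
    rw [taylor_eval, add_comm]
  rw [h1, eval_eq_sum_range' (n := D + 1)]
  · refine Finset.sum_congr rfl fun l _ => ?_
    have h2 : (l.factorial : ℝ) * (hasseDeriv l (derivative^[i] f)).eval z =
        (derivative^[i + l] f).eval z := by
      have := congrArg (fun g : ℝ[X] → ℝ[X] => (g (derivative^[i] f)).eval z)
        (factorial_smul_hasseDeriv (R := ℝ) (k := l))
      simp only [LinearMap.smul_apply] at this
      rw [add_comm i l, Function.iterate_add_apply, ← this]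
      simp
    rw [taylor_coeff, ← h2]
    have : (l.factorial : ℝ) ≠ 0 := by positivity
    field_simp
  · rw [natDegree_taylor]
    exact lt_of_le_of_lt ((natDegree_iterate_derivative _ _).trans (Nat.sub_le _ _))
      (Nat.lt_succ_of_le hf)

/-- The scaled derivatives at the parameter point. -/
noncomputable def ph_c (D k : ℕ) (f : ℝ[X]) (ζ w : ℝ) (i : Fin (D + 1)) : ℝ :=
  if 2 ≤ (i : ℕ) then gd f w i ζ / 2 ^ (k * i) else 0

theorem ph_c_cast {D k : ℕ} {f : ℝ[X]} {ζ w : ℝ} {i : ℕ} (hi : i ∈ Finset.Icc 2 D) :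
    ph_c D k f ζ w (Fin.ofNat (D + 1) i) = gd f w i ζ / 2 ^ (k * i) := by
  rw [Finset.mem_Icc] at hi
  have h : ((Fin.ofNat (D + 1) i : Fin (D + 1)) : ℕ) = i := Nat.mod_eq_of_lt (by omega)
  rw [ph_c, h, if_pos hi.1]

/-- The scaled derivatives in a packet. -/
noncomputable def ph_X (κ : ℝ) (D : ℕ) (c : Fin (D + 1) → ℝ) (e : ℝ) (i : ℕ) (s ξ : ℝ) : ℝ :=
  ∑ l ∈ Finset.range (D + 1 - i), c (Fin.ofNat (D + 1) (i + l)) * (κ * ξ) ^ l / (l.factorial : ℝ) -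
    if i = 2 then 2 * e * s else 0

/-- The phase in a packet. -/
noncomputable def ph_P (κ : ℝ) (D : ℕ) (c : Fin (D + 1) → ℝ) (μ e : ℝ) (s ξ : ℝ) : ℝ :=
  -2 * μ * s * ξ + ∑ i ∈ Finset.Icc 2 D, c (Fin.ofNat (D + 1) i) * (κ * ξ) ^ i /
    (i.factorial : ℝ) - e * κ ^ 2 * s * ξ ^ 2

theorem ph_gd {κ : ℝ} {D k : ℕ} {f : ℝ[X]} (hf : f.natDegree ≤ D) {ζ w τ s ξ : ℝ} {i : ℕ}
    (hi : i ∈ Finset.Icc 2 D) :
    gd f (w + τ * s) i (ζ + κ / 2 ^ k * ξ) / 2 ^ (k * i) =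
      ph_X κ D (ph_c D k f ζ w) (τ / 4 ^ k) i s ξ := by
  have hi' := Finset.mem_Icc.1 hi
  rw [gd, ph_taylor D f hf, ph_X]
  have hz : ∀ l ∈ Finset.range (D + 1), l ∉ Finset.range (D + 1 - i) →
      (derivative^[i + l] f).eval ζ * (κ / 2 ^ k * ξ) ^ l / (l.factorial : ℝ) = 0 := by
    intro l _ hl
    rw [Finset.mem_range] at hl
    rw [iterate_derivative_eq_zero (by omega)]
    simp
  rw [← Finset.sum_subset (Finset.range_subset_range.2 (Nat.sub_le _ _)) hz, sub_div,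
    Finset.sum_div]
  have h2 : (2 : ℝ) ^ k ≠ 0 := by positivity
  have h4 : (4 : ℝ) ^ k = 2 ^ k * 2 ^ k := by
    rw [← mul_pow]; norm_num
  have hterm : ∀ l ∈ Finset.range (D + 1 - i),
      (derivative^[i + l] f).eval ζ * (κ / 2 ^ k * ξ) ^ l / (l.factorial : ℝ) / 2 ^ (k * i) =
        ph_c D k f ζ w (Fin.ofNat (D + 1) (i + l)) * (κ * ξ) ^ l / (l.factorial : ℝ) +
          if l = 0 then (if i = 2 then 2 * w / 2 ^ (k * i) else 0) else 0 := by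
    intro l hl
    rw [Finset.mem_range] at hl
    rw [ph_c_cast (i := i + l) (Finset.mem_Icc.2 ⟨by omega, by omega⟩), gd]
    have h3 : ((2 : ℝ) ^ (k * (i + l))) = 2 ^ (k * i) * (2 ^ k) ^ l := by
      rw [← pow_mul, ← pow_add]; congr 1; ring
    have h5 : (2 : ℝ) ^ (k * i) ≠ 0 := by positivity
    have h6 : (l.factorial : ℝ) ≠ 0 := by positivity
    by_cases hl0 : l = 0
    · subst hl0
      by_cases hi2 : i = 2
      · subst hi2
        simp only [Nat.add_zero, if_true, pow_zero, mul_one, Nat.factorial, Nat.cast_one, div_one]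
        field_simp
        ring
      · simp [hi2]
    · have : ¬ (i + l = 2) := by omega
      rw [if_neg this, if_neg hl0, h3]
      have : κ / 2 ^ k * ξ = κ * ξ / 2 ^ k := by ring
      rw [this, div_pow]
      field_simp
      ring
  rw [Finset.sum_congr rfl hterm, Finset.sum_add_distrib, Finset.sum_ite_eq' (Finset.range (D + 1 - i)),
    if_pos (Finset.mem_range.2 (by omega))]
  by_cases hi2 : i = 2
  · subst hi2
    simp only [if_true]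
    have : (2 : ℝ) ^ (k * 2) = 4 ^ k := by
      rw [h4, ← pow_add]; congr 1; ring
    rw [this]
    ring
  · simp [hi2]

theorem ph_phase {κ : ℝ} {D k : ℕ} (hD : 2 ≤ D) {f : ℝ[X]} (hf : f.natDegree ≤ D)
    {Y ζ w τ s ξ : ℝ} :
    f.eval (ζ + κ / 2 ^ k * ξ) - (w + τ * s) * (ζ + κ / 2 ^ k * ξ) ^ 2 + Y * (-(κ / 2 ^ k * ξ)) =
      (f.eval ζ - w * ζ ^ 2) + -(τ * ζ ^ 2) * s + -(κ / 2 ^ k * (Y - yc f ζ w)) * ξ +
        ph_P κ D (ph_c D k f ζ w) (τ * ζ * (κ / 2 ^ k)) (τ / 4 ^ k) s ξ := by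
  have h2 : (2 : ℝ) ^ k ≠ 0 := by positivity
  have h4 : (4 : ℝ) ^ k = 2 ^ k * 2 ^ k := by
    rw [← mul_pow]; norm_num
  have ht := ph_taylor D f hf 0 ζ (κ / 2 ^ k * ξ)
  simp only [Function.iterate_zero, id, Nat.zero_add] at ht
  have hsplit : ∀ g : ℕ → ℝ, ∑ l ∈ Finset.range (D + 1), g l =
      g 0 + g 1 + ∑ l ∈ Finset.Icc 2 D, g l := by
    intro g
    have : Finset.range (D + 1) = insert 0 (insert 1 (Finset.Icc 2 D)) := by
      ext x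
      simp only [Finset.mem_range, Finset.mem_insert, Finset.mem_Icc]
      omega
    rw [this, Finset.sum_insert (by simp), Finset.sum_insert (by simp)]
    ring
  rw [hsplit] at ht
  rw [ht, ph_P]
  have hsum : ∑ i ∈ Finset.Icc 2 D, ph_c D k f ζ w (Fin.ofNat (D + 1) i) * (κ * ξ) ^ i /
      (i.factorial : ℝ) = ∑ i ∈ Finset.Icc 2 D, (derivative^[i] f).eval ζ *
        (κ / 2 ^ k * ξ) ^ i / (i.factorial : ℝ) - w * (κ / 2 ^ k * ξ) ^ 2 := by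
    have hterm : ∀ i ∈ Finset.Icc 2 D, ph_c D k f ζ w (Fin.ofNat (D + 1) i) * (κ * ξ) ^ i /
        (i.factorial : ℝ) = (derivative^[i] f).eval ζ *
          (κ / 2 ^ k * ξ) ^ i / (i.factorial : ℝ) -
          if i = 2 then w * (κ / 2 ^ k * ξ) ^ 2 else 0 := by
      intro i hi
      rw [ph_c_cast hi, gd]
      have h6 : (i.factorial : ℝ) ≠ 0 := by positivity
      have h3 : (2 : ℝ) ^ (k * i) = (2 ^ k) ^ i := pow_mul _ _ _
      have h7 : κ / 2 ^ k * ξ = κ * ξ / 2 ^ k := by ring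
      by_cases hi2 : i = 2
      · subst hi2
        rw [h3, h7]
        simp only [if_true, Nat.factorial]
        field_simp
        push_cast
        ring
      · rw [if_neg hi2, if_neg hi2, h3, h7, div_pow]
        field_simp
        ring
    rw [Finset.sum_congr rfl hterm, Finset.sum_sub_distrib,
      Finset.sum_ite_eq' (Finset.Icc 2 D), if_pos (Finset.mem_Icc.2 ⟨le_rfl, hD⟩)]
  rw [hsum, yc, h4]
  simp only [Function.iterate_zero, id, Function.iterate_one, Nat.factorial, pow_zero, pow_one,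
    Nat.cast_one, mul_one, div_one]
  generalize (∑ i ∈ Finset.Icc 2 D, (derivative^[i] f).eval ζ *
        (κ / 2 ^ k * ξ) ^ i / (i.factorial : ℝ)) = S
  field_simp
  ring

theorem ph_phi_neg (x : ℝ) : phi (-x) = phi x := by
  rw [phi, phi, ContDiffBump.normed_neg]

theorem ph_phi_zero {x : ℝ} (hx : 1 ≤ |x|) : phi x = 0 := by
  have h := bump1.support_normed_eq (μ := (volume : Measure ℝ))
  by_contra hne
  have : x ∈ Function.support (bump1.normed (volume : Measure ℝ)) := hne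
  rw [h, Metric.mem_ball, dist_zero_right, Real.norm_eq_abs] at this
  exact absurd this (not_lt.2 hx)

theorem ph_B_zero {x : ℝ} (hx : 2 ≤ |x|) : B x = 0 := by
  rw [B]
  exact bump.zero_of_le_dist (by rw [dist_zero_right, Real.norm_eq_abs]; exact hx)

/-- `theta` in a packet. -/
noncomputable def ph_T (κ : ℝ) (D : ℕ) (c : Fin (D + 1) → ℝ) (e ε : ℝ) (s ξ : ℝ) : ℝ :=
  B ((∑ i ∈ Finset.Icc 2 D, (ph_X κ D c e i s ξ / 2 ^ i) ^ 2) / 2) -
    ε * B ((∑ i ∈ Finset.Icc 2 D, ph_X κ D c e i s ξ ^ 2) / 2)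

/-- `beta` in a packet. -/
noncomputable def ph_b (κ b ρ ε : ℝ) (ξ : ℝ) : ℝ :=
  B (b + κ * ρ * ξ) - ε * B (2 * (b + κ * ρ * ξ))

theorem ph_theta {κ : ℝ} {D k : ℕ} {f : ℝ[X]} (hf : f.natDegree ≤ D) {ζ w τ s ξ : ℝ} :
    theta D k f (ζ + κ / 2 ^ k * ξ) (w + τ * s) =
      ph_T κ D (ph_c D k f ζ w) (τ / 4 ^ k) (if k = 0 then 0 else 1) s ξ := by
  rw [theta, ph_T, Sk, Sk]
  have h1 : ∀ i ∈ Finset.Icc 2 D, (gd f (w + τ * s) i (ζ + κ / 2 ^ k * ξ) / 2 ^ ((k + 1) * i)) ^ 2 =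
      (ph_X κ D (ph_c D k f ζ w) (τ / 4 ^ k) i s ξ / 2 ^ i) ^ 2 := by
    intro i hi
    rw [← ph_gd hf hi, add_mul, one_mul, pow_add, div_div]
  have h2 : ∀ i ∈ Finset.Icc 2 D, (gd f (w + τ * s) i (ζ + κ / 2 ^ k * ξ) / 2 ^ (k * i)) ^ 2 =
      (ph_X κ D (ph_c D k f ζ w) (τ / 4 ^ k) i s ξ) ^ 2 := by
    intro i hi
    rw [← ph_gd hf hi]
  rw [Finset.sum_congr rfl h1, Finset.sum_congr rfl h2]
  by_cases hk : k = 0
  · simp [hk]
  · simp [hk]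

theorem ph_beta {κ : ℝ} {k m : ℕ} {ζ ξ : ℝ} :
    beta k m (ζ + κ / 2 ^ k * ξ) =
      ph_b κ (2 ^ m * ζ) (2 ^ m / 2 ^ k) (if m < k then 1 else 0) ξ := by
  rw [beta, ph_b]
  have h1 : (2 : ℝ) ^ m * (ζ + κ / 2 ^ k * ξ) = 2 ^ m * ζ + κ * (2 ^ m / 2 ^ k) * ξ := by ring
  have h2 : (2 : ℝ) ^ (m + 1) * (ζ + κ / 2 ^ k * ξ) =
      2 * (2 ^ m * ζ + κ * (2 ^ m / 2 ^ k) * ξ) := by ring
  rw [h1, h2]
  by_cases hk : m < k
  · simp [hk]
  · simp [hk]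

/-- The parameters of one coordinate of a packet. -/
abbrev PhR (D : ℕ) := (Fin 6 → ℝ) × (Fin (D + 1) → ℝ)

/-- One coordinate of the amplitude of a packet. -/
noncomputable def ph_G (κ : ℝ) (D : ℕ) (r : PhR D) (s ξ : ℝ) : ℂ :=
  ((phi ξ * (ph_T κ D r.2 (r.1 1) (r.1 4) s ξ * ph_b κ (r.1 2) (r.1 3) (r.1 5) ξ) : ℝ) : ℂ) *
    Complex.exp (((ph_P κ D r.2 (r.1 0) (r.1 1) s ξ : ℝ) : ℂ) * Complex.I)

/-- The parameters at a point. -/
noncomputable def ph_r (κ : ℝ) (D k m : ℕ) (f : ℝ[X]) (ζ w τ : ℝ) : PhR D :=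
  (![τ * ζ * (κ / 2 ^ k), τ / 4 ^ k, 2 ^ m * ζ, 2 ^ m / 2 ^ k, if k = 0 then 0 else 1,
    if m < k then 1 else 0], ph_c D k f ζ w)

theorem ph_pk1 {κ : ℝ} (hκ : 0 < κ) {D k m : ℕ} (hD : 2 ≤ D) {f : ℝ[X]} (hf : f.natDegree ≤ D)
    {Y ζ w τ s : ℝ} :
    pk1 κ D k m f Y ζ (w + τ * s) =
      Complex.exp ((((f.eval ζ - w * ζ ^ 2) + -(τ * ζ ^ 2) * s : ℝ) : ℂ) * Complex.I) *
        ∫ ξ : ℝ, Complex.exp (((-(κ / 2 ^ k * (Y - yc f ζ w)) * ξ : ℝ) : ℂ) * Complex.I) *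
          ph_G κ D (ph_r κ D k m f ζ w τ) s ξ := by
  have h2 : (2 : ℝ) ^ k ≠ 0 := by positivity
  have hδ : 0 < κ / 2 ^ k := by positivity
  rw [pk1]
  set g : ℝ → ℂ := fun x => ((theta D k f x (w + τ * s) * beta k m x *
    (2 ^ k / κ * phi ((ζ - x) * (2 ^ k / κ))) : ℝ) : ℂ) *
    Complex.exp (((f.eval x - (w + τ * s) * x ^ 2 + Y * (ζ - x) : ℝ) : ℂ) * Complex.I) with hg
  have h1 : ∫ ξ : ℝ, g (ζ + κ / 2 ^ k * ξ) = |(κ / 2 ^ k)⁻¹| • ∫ x, g x := by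
    rw [Measure.integral_comp_mul_left (fun y => g (ζ + y)) (κ / 2 ^ k),
      integral_add_left_eq_self g ζ]
  have h3 : ∫ x, g x = ((κ / 2 ^ k : ℝ) : ℂ) * ∫ ξ : ℝ, g (ζ + κ / 2 ^ k * ξ) := by
    rw [h1, abs_of_pos (inv_pos.2 hδ), Complex.real_smul, ← mul_assoc, ← Complex.ofReal_mul,
      mul_inv_cancel₀ hδ.ne', Complex.ofReal_one, one_mul]
  rw [h3, ← integral_const_mul, ← integral_const_mul]
  refine integral_congr_ae (Filter.Eventually.of_forall fun ξ => ?_)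
  simp only [hg]
  have e1 : ζ - (ζ + κ / 2 ^ k * ξ) = -(κ / 2 ^ k * ξ) := by ring
  have e2 : -(κ / 2 ^ k * ξ) * (2 ^ k / κ) = -ξ := by field_simp
  rw [e1, e2, ph_phi_neg, ph_theta hf, ph_beta, ph_phase hD hf, ph_G]
  have hr0 : (ph_r κ D k m f ζ w τ).1 0 = τ * ζ * (κ / 2 ^ k) := rfl
  have hr1 : (ph_r κ D k m f ζ w τ).1 1 = τ / 4 ^ k := rfl
  have hr2 : (ph_r κ D k m f ζ w τ).1 2 = 2 ^ m * ζ := rfl
  have hr3 : (ph_r κ D k m f ζ w τ).1 3 = 2 ^ m / 2 ^ k := rfl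
  have hr4 : (ph_r κ D k m f ζ w τ).1 4 = if k = 0 then 0 else 1 := rfl
  have hr5 : (ph_r κ D k m f ζ w τ).1 5 = if m < k then 1 else 0 := rfl
  have hr6 : (ph_r κ D k m f ζ w τ).2 = ph_c D k f ζ w := rfl
  rw [hr0, hr1, hr2, hr3, hr4, hr5, hr6]
  set a1 := ph_T κ D (ph_c D k f ζ w) (τ / 4 ^ k) (if k = 0 then 0 else 1) s ξ
  set a2 := ph_b κ (2 ^ m * ζ) (2 ^ m / 2 ^ k) (if m < k then 1 else 0) ξ
  set P := ph_P κ D (ph_c D k f ζ w) (τ * ζ * (κ / 2 ^ k)) (τ / 4 ^ k) s ξ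
  have e3 : Complex.exp ((((f.eval ζ - w * ζ ^ 2) + -(τ * ζ ^ 2) * s +
      -(κ / 2 ^ k * (Y - yc f ζ w)) * ξ + P : ℝ) : ℂ) * Complex.I) =
      Complex.exp ((((f.eval ζ - w * ζ ^ 2) + -(τ * ζ ^ 2) * s : ℝ) : ℂ) * Complex.I) *
      (Complex.exp (((-(κ / 2 ^ k * (Y - yc f ζ w)) * ξ : ℝ) : ℂ) * Complex.I) *
        Complex.exp ((P : ℂ) * Complex.I)) := by
    rw [← Complex.exp_add, ← Complex.exp_add]
    congr 1
    push_cast
    ring
  rw [e3]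
  have e4 : ((κ / 2 ^ k : ℝ) : ℂ) * ((a1 * a2 * (2 ^ k / κ * phi ξ) : ℝ) : ℂ) =
      ((phi ξ * (a1 * a2) : ℝ) : ℂ) := by
    rw [← Complex.ofReal_mul]
    congr 1
    field_simp
  rw [← e4]
  ring

section

variable {V : Type*} [NormedAddCommGroup V] [NormedSpace ℝ V]

theorem ph_cd_phi : ContDiff ℝ (⊤ : ℕ∞) phi := by
  have := bump1.contDiff_normed (μ := (volume : Measure ℝ)) (n := (⊤ : ℕ∞))
  exact this

theorem ph_cd_B : ContDiff ℝ (⊤ : ℕ∞) B := by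
  have := bump.contDiff (n := (⊤ : ℕ∞))
  exact this

theorem ph_cd_X {κ : ℝ} {D i : ℕ} {c : V → Fin (D + 1) → ℝ} {e s ξ : V → ℝ}
    (hc : ContDiff ℝ (⊤ : ℕ∞) c) (he : ContDiff ℝ (⊤ : ℕ∞) e) (hs : ContDiff ℝ (⊤ : ℕ∞) s)
    (hξ : ContDiff ℝ (⊤ : ℕ∞) ξ) :
    ContDiff ℝ (⊤ : ℕ∞) fun v => ph_X κ D (c v) (e v) i (s v) (ξ v) := by
  unfold ph_X
  refine ContDiff.sub (ContDiff.sum fun l _ => ?_) ?_
  · exact ((contDiff_pi.1 hc _).mul ((contDiff_const.mul hξ).pow l)).div_const _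
  · split_ifs
    · exact (contDiff_const.mul he).mul hs
    · exact contDiff_const

theorem ph_cd_P {κ : ℝ} {D : ℕ} {c : V → Fin (D + 1) → ℝ} {μ e s ξ : V → ℝ}
    (hc : ContDiff ℝ (⊤ : ℕ∞) c) (hμ : ContDiff ℝ (⊤ : ℕ∞) μ) (he : ContDiff ℝ (⊤ : ℕ∞) e)
    (hs : ContDiff ℝ (⊤ : ℕ∞) s) (hξ : ContDiff ℝ (⊤ : ℕ∞) ξ) :
    ContDiff ℝ (⊤ : ℕ∞) fun v => ph_P κ D (c v) (μ v) (e v) (s v) (ξ v) := by
  unfold ph_P
  refine ContDiff.sub (ContDiff.add ?_ (ContDiff.sum fun l _ => ?_)) ?_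
  · exact ((contDiff_const.mul hμ).mul hs).mul hξ
  · exact ((contDiff_pi.1 hc _).mul ((contDiff_const.mul hξ).pow l)).div_const _
  · exact ((he.mul contDiff_const).mul hs).mul (hξ.pow 2)

theorem ph_cd_T {κ : ℝ} {D : ℕ} {c : V → Fin (D + 1) → ℝ} {e ε s ξ : V → ℝ}
    (hc : ContDiff ℝ (⊤ : ℕ∞) c) (he : ContDiff ℝ (⊤ : ℕ∞) e) (hε : ContDiff ℝ (⊤ : ℕ∞) ε)
    (hs : ContDiff ℝ (⊤ : ℕ∞) s) (hξ : ContDiff ℝ (⊤ : ℕ∞) ξ) :
    ContDiff ℝ (⊤ : ℕ∞) fun v => ph_T κ D (c v) (e v) (ε v) (s v) (ξ v) := by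
  unfold ph_T
  refine ContDiff.sub (ph_cd_B.comp ?_) (hε.mul (ph_cd_B.comp ?_))
  · exact (ContDiff.sum fun l _ => ((ph_cd_X hc he hs hξ).div_const _).pow 2).div_const _
  · exact (ContDiff.sum fun l _ => (ph_cd_X hc he hs hξ).pow 2).div_const _

theorem ph_cd_b {κ : ℝ} {b ρ ε ξ : V → ℝ} (hb : ContDiff ℝ (⊤ : ℕ∞) b)
    (hρ : ContDiff ℝ (⊤ : ℕ∞) ρ) (hε : ContDiff ℝ (⊤ : ℕ∞) ε) (hξ : ContDiff ℝ (⊤ : ℕ∞) ξ) :
    ContDiff ℝ (⊤ : ℕ∞) fun v => ph_b κ (b v) (ρ v) (ε v) (ξ v) := by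
  unfold ph_b
  have h : ContDiff ℝ (⊤ : ℕ∞) fun v => b v + κ * ρ v * ξ v :=
    hb.add ((contDiff_const.mul hρ).mul hξ)
  exact (ph_cd_B.comp h).sub (hε.mul (ph_cd_B.comp (contDiff_const.mul h)))

theorem ph_cd_G {κ : ℝ} {D : ℕ} {r : V → PhR D} {s ξ : V → ℝ}
    (hr : ContDiff ℝ (⊤ : ℕ∞) r) (hs : ContDiff ℝ (⊤ : ℕ∞) s) (hξ : ContDiff ℝ (⊤ : ℕ∞) ξ) :
    ContDiff ℝ (⊤ : ℕ∞) fun v => ph_G κ D (r v) (s v) (ξ v) := by
  have h1 : ContDiff ℝ (⊤ : ℕ∞) fun v => (r v).1 := contDiff_fst.comp hr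
  have h2 : ContDiff ℝ (⊤ : ℕ∞) fun v => (r v).2 := contDiff_snd.comp hr
  have h1' := contDiff_pi.1 h1
  unfold ph_G
  refine ContDiff.mul ?_ (ContDiff.cexp ?_)
  · refine Complex.ofRealCLM.contDiff.comp ?_
    exact (ph_cd_phi.comp hξ).mul ((ph_cd_T h2 (h1' 1) (h1' 4) hs hξ).mul
      (ph_cd_b (h1' 2) (h1' 3) (h1' 5) hξ))
  · refine ContDiff.mul (Complex.ofRealCLM.contDiff.comp ?_) contDiff_const
    exact ph_cd_P h2 (h1' 0) (h1' 1) hs hξ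

end

/-- The parameters of a packet. -/
abbrev PhQ (n D : ℕ) := (ℝ × ℝ) × (Fin n → PhR D)

/-- The amplitude of a packet. -/
noncomputable def ph_Xi (κ : ℝ) (n D : ℕ) (q : PhQ n D) (s : ℝ) (ξ : Fin n → ℝ) : ℂ :=
  ((phi s * B (q.1.1 + q.1.2 * s) : ℝ) : ℂ) * ∏ j, ph_G κ D (q.2 j) s (ξ j)

theorem ph_cd_Xi (κ : ℝ) (n D : ℕ) :
    ContDiff ℝ (⊤ : ℕ∞) fun v : E (n + 1) × PhQ n D =>
      ph_Xi κ n D v.2 (v.1 0) fun j => v.1 j.succ := by
  have hu : ∀ i : Fin (n + 1), ContDiff ℝ (⊤ : ℕ∞) fun v : E (n + 1) × PhQ n D => v.1 i := by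
    intro i
    exact (EuclideanSpace.proj (𝕜 := ℝ) i).contDiff.comp contDiff_fst
  have hq1 : ContDiff ℝ (⊤ : ℕ∞) fun v : E (n + 1) × PhQ n D => v.2.1.1 :=
    contDiff_fst.comp (contDiff_fst.comp contDiff_snd)
  have hq2 : ContDiff ℝ (⊤ : ℕ∞) fun v : E (n + 1) × PhQ n D => v.2.1.2 :=
    contDiff_snd.comp (contDiff_fst.comp contDiff_snd)
  have hq3 : ContDiff ℝ (⊤ : ℕ∞) fun v : E (n + 1) × PhQ n D => v.2.2 :=
    contDiff_snd.comp contDiff_snd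
  unfold ph_Xi
  refine ContDiff.mul ?_ (contDiff_prod fun j _ => ?_)
  · refine Complex.ofRealCLM.contDiff.comp ?_
    exact (ph_cd_phi.comp (hu 0)).mul (ph_cd_B.comp (hq1.add (hq2.mul (hu 0))))
  · exact ph_cd_G (contDiff_pi.1 hq3 j) (hu 0) (hu j.succ)

theorem ph_Xi_zero {κ : ℝ} {n D : ℕ} {q : PhQ n D} {s : ℝ} {ξ : Fin n → ℝ}
    (h : ph_Xi κ n D q s ξ ≠ 0) : |s| < 1 ∧ ∀ j, |ξ j| < 1 := by
  constructor
  · by_contra hs
    exact h (by rw [ph_Xi, ph_phi_zero (not_lt.1 hs)]; simp)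
  · intro j
    by_contra hs
    refine h ?_
    rw [ph_Xi, Finset.prod_eq_zero (Finset.mem_univ j), mul_zero]
    rw [ph_G, ph_phi_zero (not_lt.1 hs)]
    simp

theorem ph_Xi_supp {κ : ℝ} {n D : ℕ} {q : PhQ n D} {u : E (n + 1)} (hu : (n : ℝ) + 1 < ‖u‖) :
    ph_Xi κ n D q (u 0) (fun j => u j.succ) = 0 := by
  by_contra h
  obtain ⟨h0, h1⟩ := ph_Xi_zero h
  have h2 : ∀ i : Fin (n + 1), |u i| ≤ 1 := by
    intro i
    refine Fin.cases h0.le (fun j => (h1 j).le) i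
  have h3 : ‖u‖ ^ 2 ≤ (n : ℝ) + 1 := by
    rw [EuclideanSpace.real_norm_sq_eq]
    calc ∑ i, (u i) ^ 2 ≤ ∑ _i : Fin (n + 1), (1 : ℝ) := by
          refine Finset.sum_le_sum fun i _ => ?_
          rw [← sq_abs]
          have := h2 i
          have := abs_nonneg (u i)
          nlinarith
      _ = (n : ℝ) + 1 := by simp
  have h4 : (0 : ℝ) ≤ n := Nat.cast_nonneg n
  nlinarith

theorem ph_om_pos {n : ℕ} (k m : Fin n → ℕ) (J : Fin n) : 0 < om k m := by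
  unfold om
  exact Finset.sum_pos (fun j _ => by positivity) ⟨J, Finset.mem_univ J⟩

theorem ph_om_ge {n : ℕ} (k m : Fin n → ℕ) (j : Fin n) : (1 : ℝ) / 2 ^ (m j + k j) ≤ om k m :=
  Finset.single_le_sum (f := fun j => (1 : ℝ) / 2 ^ (m j + k j)) (fun i _ => by positivity)
    (Finset.mem_univ j)

theorem ph_tau {n : ℕ} {κ : ℝ} (hκ : 0 < κ) (k m : Fin n → ℕ) (j : Fin n) :
    κ / om k m ≤ κ * 2 ^ (m j + k j) := by
  have h1 := ph_om_ge k m j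
  have h2 := ph_om_pos k m j
  rw [div_le_iff₀ h2]
  have h3 : (0 : ℝ) < 2 ^ (m j + k j) := by positivity
  rw [div_le_iff₀ h3] at h1
  nlinarith

theorem ph_tau4 {n : ℕ} {κ : ℝ} (hκ : 0 < κ) (k m : Fin n → ℕ) (j : Fin n) (h : m j ≤ k j) :
    κ / om k m ≤ κ * 4 ^ k j := by
  refine (ph_tau hκ k m j).trans (mul_le_mul_of_nonneg_left ?_ hκ.le)
  have : (4 : ℝ) ^ k j = 2 ^ (k j + k j) := by
    rw [← two_mul, pow_mul]; norm_num
  rw [this]
  exact pow_le_pow_right₀ one_le_two (by omega)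

/-- If a coordinate is not of the class, the packet vanishes. -/
theorem ph_pk1_zero {D : ℕ} {κ A : ℝ} (hG : Good D κ A) {k m : ℕ} (hmk : m ≤ k) {f : ℝ[X]}
    (hf : f.natDegree ≤ D) {Y ζ w t : ℝ} (hc : ¬ Cls D A k m f ζ w) (ht : |t - w| ≤ κ * 4 ^ k) :
    pk1 κ D k m f Y ζ t = 0 := by
  obtain ⟨hκ, -, -, hG⟩ := hG
  rw [pk1]
  refine integral_eq_zero_of_ae (Filter.Eventually.of_forall fun x => ?_)
  simp only [Pi.zero_apply]
  by_cases hx : |x - ζ| ≤ κ / 2 ^ k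
  · have : theta D k f x t * beta k m x = 0 := by
      by_contra h
      exact hc (hG k m f x t ζ w hmk hf h hx ht)
    rw [this]; simp
  · have h2 : (0 : ℝ) < 2 ^ k := by positivity
    have : phi ((ζ - x) * (2 ^ k / κ)) = 0 := by
      refine ph_phi_zero ?_
      rw [abs_mul, abs_of_pos (div_pos h2 hκ), abs_sub_comm]
      rw [not_le, div_lt_iff₀ h2] at hx
      rw [mul_div_assoc', le_div_iff₀ hκ]
      linarith
    rw [this]; simp

theorem ph_kw_zero {n D : ℕ} {κ A : ℝ} (hG : Good D κ A) {T : ℝ} {k m : Fin n → ℕ}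
    (hmk : ∀ j, m j ≤ k j) {f : Fin n → ℝ[X]} (hf : ∀ j, (f j).natDegree ≤ D) {Y ζ : Fin n → ℝ}
    {w : ℝ} (hc : ¬ ∀ j, Cls D A (k j) (m j) (f j) (ζ j) w) :
    kw κ (κ / om k m) D T k m f Y ζ w = 0 := by
  push Not at hc
  obtain ⟨j, hj⟩ := hc
  rw [kw]
  have hκ := hG.1
  have hτ : 0 < κ / om k m := div_pos hκ (ph_om_pos k m j)
  refine integral_eq_zero_of_ae (Filter.Eventually.of_forall fun t => ?_)
  simp only [Pi.zero_apply]
  by_cases ht : |t - w| ≤ κ / om k m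
  · rw [Finset.prod_eq_zero (Finset.mem_univ j), mul_zero]
    exact ph_pk1_zero hG (hmk j) (hf j) hj (ht.trans (ph_tau4 hκ k m j (hmk j)))
  · have : phi ((t - w) / (κ / om k m)) = 0 := by
      refine ph_phi_zero ?_
      rw [abs_div, abs_of_pos hτ, le_div_iff₀ hτ]
      linarith [not_le.1 ht]
    rw [this]; simp

/-- The parameters of a packet at a point. -/
noncomputable def ph_q {n : ℕ} (κ τ : ℝ) (D : ℕ) (T : ℝ) (k m : Fin n → ℕ) (f : Fin n → ℝ[X])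
    (ζ : Fin n → ℝ) (w : ℝ) : PhQ n D :=
  ((w / T, τ / T), fun j => ph_r κ D (k j) (m j) (f j) (ζ j) w τ)

theorem ph_kw_eq {n D : ℕ} {κ τ : ℝ} (hκ : 0 < κ) (hτ : 0 < τ) (hD : 2 ≤ D) {T : ℝ}
    {k m : Fin n → ℕ} {f : Fin n → ℝ[X]} (hf : ∀ j, (f j).natDegree ≤ D) {Y ζ : Fin n → ℝ}
    {w : ℝ} :
    kw κ τ D T k m f Y ζ w =
      Complex.exp (((w + ∑ j, ((f j).eval (ζ j) - w * ζ j ^ 2) : ℝ) : ℂ) * Complex.I) *
        ∫ s : ℝ, ∫ ξ : Fin n → ℝ,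
          Complex.exp (((τ * (1 - ∑ j, ζ j ^ 2) * s +
            ∑ j, -(κ / 2 ^ k j * (Y j - yc (f j) (ζ j) w)) * ξ j : ℝ) : ℂ) * Complex.I) *
          ph_Xi κ n D (ph_q κ τ D T k m f ζ w) s ξ := by
  rw [kw]
  set g : ℝ → ℂ := fun t => Complex.exp ((t : ℂ) * Complex.I) *
    ((B (t / T) * (1 / τ * phi ((t - w) / τ)) : ℝ) : ℂ) *
    ∏ j, pk1 κ D (k j) (m j) (f j) (Y j) (ζ j) t with hg
  have h1 : ∫ s : ℝ, g (w + τ * s) = |τ⁻¹| • ∫ x, g x := by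
    rw [Measure.integral_comp_mul_left (fun y => g (w + y)) τ,
      integral_add_left_eq_self g w]
  have h3 : ∫ x, g x = (τ : ℂ) * ∫ s : ℝ, g (w + τ * s) := by
    rw [h1, abs_of_pos (inv_pos.2 hτ), Complex.real_smul, ← mul_assoc, ← Complex.ofReal_mul,
      mul_inv_cancel₀ hτ.ne', Complex.ofReal_one, one_mul]
  rw [h3, ← integral_const_mul, ← integral_const_mul]
  refine integral_congr_ae (Filter.Eventually.of_forall fun s => ?_)
  simp only [hg]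
  have e1 : (w + τ * s - w) / τ = s := by field_simp; ring
  have e2 : (w + τ * s) / T = w / T + τ / T * s := by ring
  rw [e1, e2]
  have e3 : ∀ j, pk1 κ D (k j) (m j) (f j) (Y j) (ζ j) (w + τ * s) = _ :=
    fun j => ph_pk1 hκ hD (hf j)
  rw [Finset.prod_congr rfl fun j _ => e3 j, Finset.prod_mul_distrib,
    ← integral_fintype_prod_volume_eq_prod (fun (j : Fin n) (x : ℝ) =>
      Complex.exp (((-(κ / 2 ^ k j * (Y j - yc (f j) (ζ j) w)) * x : ℝ) : ℂ) * Complex.I) *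
          ph_G κ D (ph_r κ D (k j) (m j) (f j) (ζ j) w τ) s x), ← Complex.exp_sum]
  rw [← integral_const_mul, ← integral_const_mul, ← integral_const_mul, ← integral_const_mul]
  refine integral_congr_ae (Filter.Eventually.of_forall fun ξ => ?_)
  simp only
  rw [Finset.prod_mul_distrib, ← Complex.exp_sum, ph_Xi, ph_q]
  simp only
  set P := ∏ j, ph_G κ D (ph_r κ D (k j) (m j) (f j) (ζ j) w τ) s (ξ j)
  have e4 : (τ : ℂ) * ((B (w / T + τ / T * s) * (1 / τ * phi s) : ℝ) : ℂ) =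
      ((phi s * B (w / T + τ / T * s) : ℝ) : ℂ) := by
    rw [← Complex.ofReal_mul]
    congr 1
    field_simp
  rw [← e4]
  have e5 : Complex.exp (((w + τ * s : ℝ) : ℂ) * Complex.I) *
      (Complex.exp (∑ j, ((((f j).eval (ζ j) - w * ζ j ^ 2) + -(τ * ζ j ^ 2) * s : ℝ) : ℂ) *
        Complex.I) *
      Complex.exp (∑ j, ((-(κ / 2 ^ k j * (Y j - yc (f j) (ζ j) w)) * ξ j : ℝ) : ℂ) * Complex.I)) =
      Complex.exp (((w + ∑ j, ((f j).eval (ζ j) - w * ζ j ^ 2) : ℝ) : ℂ) * Complex.I) *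
      Complex.exp (((τ * (1 - ∑ j, ζ j ^ 2) * s +
            ∑ j, -(κ / 2 ^ k j * (Y j - yc (f j) (ζ j) w)) * ξ j : ℝ) : ℂ) * Complex.I) := by
    rw [← Complex.exp_add, ← Complex.exp_add, ← Complex.exp_add]
    congr 1
    rw [← Finset.sum_mul, ← Finset.sum_mul, ← add_mul, ← add_mul, ← add_mul]
    congr 1
    rw [← Complex.ofReal_sum, ← Complex.ofReal_sum, ← Complex.ofReal_add, ← Complex.ofReal_add,
      ← Complex.ofReal_add]
    congr 1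
    rw [Finset.sum_add_distrib, ← Finset.sum_mul, Finset.sum_neg_distrib, ← Finset.mul_sum]
    ring
  set X1 := Complex.exp (((w + τ * s : ℝ) : ℂ) * Complex.I)
  set X2 := Complex.exp (∑ j, ((((f j).eval (ζ j) - w * ζ j ^ 2) + -(τ * ζ j ^ 2) * s : ℝ) : ℂ) *
        Complex.I)
  set X3 := Complex.exp (∑ j, ((-(κ / 2 ^ k j * (Y j - yc (f j) (ζ j) w)) * ξ j : ℝ) : ℂ) * Complex.I)
  set Z := ((B (w / T + τ / T * s) * (1 / τ * phi s) : ℝ) : ℂ)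
  calc (τ : ℂ) * (X1 * Z * (X2 * (X3 * P))) = (X1 * (X2 * X3)) * (τ * Z * P) := by ring
    _ = _ := by rw [e5]; ring

theorem ph_int (n : ℕ) (F : E (n + 1) → ℂ) (hF : Integrable F) :
    ∫ u, F u = ∫ s : ℝ, ∫ ξ : Fin n → ℝ, F (WithLp.toLp 2 (Fin.cons s ξ)) := by
  have e1 := (EuclideanSpace.volume_preserving_symm_measurableEquiv_toLp (Fin (n + 1))).symm
  have e2 := (volume_preserving_piFinSuccAbove (fun _ : Fin (n + 1) => ℝ) 0).symm
  have e := e1.comp e2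
  have hemb : MeasurableEmbedding
      ((MeasurableEquiv.toLp 2 (Fin (n + 1) → ℝ)) ∘
        (MeasurableEquiv.piFinSuccAbove (fun _ : Fin (n + 1) => ℝ) 0).symm) :=
    (MeasurableEquiv.measurableEmbedding _).comp (MeasurableEquiv.measurableEmbedding _)
  have hfun : (fun p : ℝ × (Fin n → ℝ) => F (WithLp.toLp 2 (Fin.cons p.1 p.2))) =
      F ∘ ((MeasurableEquiv.toLp 2 (Fin (n + 1) → ℝ)) ∘
        (MeasurableEquiv.piFinSuccAbove (fun _ : Fin (n + 1) => ℝ) 0).symm) := by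
    funext p
    simp only [Function.comp_apply]
    congr 1
    have : (MeasurableEquiv.piFinSuccAbove (fun _ : Fin (n + 1) => ℝ) 0).symm p =
        Fin.cons p.1 p.2 := by
      change Fin.insertNth (α := fun _ : Fin (n + 1) => ℝ) 0 p.1 p.2 = _
      rw [Fin.insertNth_zero']
    rw [this]
    rfl
  have h1 : ∫ p : ℝ × (Fin n → ℝ), F (WithLp.toLp 2 (Fin.cons p.1 p.2)) = ∫ u, F u := by
    rw [← e.integral_comp hemb F, hfun]
    rfl
  have h2 : Integrable (fun p : ℝ × (Fin n → ℝ) => F (WithLp.toLp 2 (Fin.cons p.1 p.2))) := by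
    rw [hfun]
    exact (e.integrable_comp_emb hemb).2 hF
  rw [← h1, Measure.volume_eq_prod, integral_prod _ h2]

/-- The frequency of a packet. -/
noncomputable def ph_mu {n : ℕ} (κ τ : ℝ) (k : Fin n → ℕ) (f : Fin n → ℝ[X]) (Y ζ : Fin n → ℝ)
    (w : ℝ) : E (n + 1) :=
  WithLp.toLp 2 (Fin.cons (τ * (1 - ∑ j, ζ j ^ 2))
    (fun j => -(κ / 2 ^ k j * (Y j - yc (f j) (ζ j) w))))

theorem ph_kw_E {n D : ℕ} {κ τ : ℝ} (hκ : 0 < κ) (hτ : 0 < τ) (hD : 2 ≤ D) {T : ℝ}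
    {k m : Fin n → ℕ} {f : Fin n → ℝ[X]} (hf : ∀ j, (f j).natDegree ≤ D) {Y ζ : Fin n → ℝ}
    {w : ℝ} :
    ‖kw κ τ D T k m f Y ζ w‖ =
      ‖∫ u : E (n + 1), Complex.exp (((inner ℝ (ph_mu κ τ k f Y ζ w) u : ℝ) : ℂ) * Complex.I) *
        ph_Xi κ n D (ph_q κ τ D T k m f ζ w) (u 0) fun j => u j.succ‖ := by
  rw [ph_kw_eq hκ hτ hD hf, norm_mul, Complex.norm_exp_ofReal_mul_I, one_mul]
  have hc : Continuous fun u : E (n + 1) =>
      Complex.exp (((inner ℝ (ph_mu κ τ k f Y ζ w) u : ℝ) : ℂ) * Complex.I) *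
        ph_Xi κ n D (ph_q κ τ D T k m f ζ w) (u 0) fun j => u j.succ := by
    refine Continuous.mul ?_ ?_
    · fun_prop
    · exact (ph_cd_Xi κ n D).continuous.comp (continuous_id.prodMk continuous_const)
  have hs : HasCompactSupport fun u : E (n + 1) =>
      Complex.exp (((inner ℝ (ph_mu κ τ k f Y ζ w) u : ℝ) : ℂ) * Complex.I) *
        ph_Xi κ n D (ph_q κ τ D T k m f ζ w) (u 0) fun j => u j.succ := by
    refine HasCompactSupport.intro (isCompact_closedBall (0 : E (n + 1)) (n + 1)) fun u hu => ?_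
    rw [mem_closedBall_zero_iff, not_le] at hu
    rw [ph_Xi_supp hu, mul_zero]
  rw [ph_int n _ (hc.integrable_of_hasCompactSupport hs)]
  congr 1
  refine integral_congr_ae (Filter.Eventually.of_forall fun s => ?_)
  refine integral_congr_ae (Filter.Eventually.of_forall fun ξ => ?_)
  simp only [Fin.cons_zero, Fin.cons_succ]
  congr 4
  rw [PiLp.inner_apply, Fin.sum_univ_succ]
  simp only [ph_mu, Fin.cons_zero, Fin.cons_succ, RCLike.inner_apply, conj_trivial]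
  rw [mul_comm s]
  congr 1
  exact Finset.sum_congr rfl fun j _ => mul_comm _ _

theorem ph_fac {κ a x : ℝ} (hκ : 0 < κ) (hκ1 : κ ≤ 1) (hx : 0 ≤ x) (h : κ * x ≤ a) :
    1 / (1 + a) ≤ κ⁻¹ * (1 / (1 + x)) := by
  have h1 : 0 < κ * (1 + x) := by positivity
  rw [← one_div, div_mul_div_comm, one_mul]
  refine one_div_le_one_div_of_le h1 ?_
  nlinarith

theorem ph_weight {n : ℕ} {κ : ℝ} (hκ : 0 < κ) (hκ1 : κ ≤ 1) (k m : Fin n → ℕ)
    (f : Fin n → ℝ[X]) (Y ζ : Fin n → ℝ) (w : ℝ) (N : ℕ) (J : Fin n) :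
    (1 / (1 + ‖ph_mu κ (κ / om k m) k f Y ζ w‖)) ^ ((n + 1) * N) ≤
      (κ⁻¹) ^ ((n + 1) * N) *
        ((∏ j, (1 / (1 + |yc (f j) (ζ j) w - Y j| / 2 ^ k j)) ^ N) *
          (1 / (1 + |∑ j, ζ j ^ 2 - 1| / om k m)) ^ N) := by
  have hom := ph_om_pos k m J
  set μ := ph_mu κ (κ / om k m) k f Y ζ w with hμ
  have hμi : ∀ i, |μ i| ≤ ‖μ‖ := fun i => by
    rw [← Real.norm_eq_abs]; exact PiLp.norm_apply_le μ i
  have h0 : κ * (|∑ j, ζ j ^ 2 - 1| / om k m) ≤ ‖μ‖ := by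
    refine le_trans (le_of_eq ?_) (hμi 0)
    have : μ 0 = κ / om k m * (1 - ∑ j, ζ j ^ 2) := rfl
    rw [this, abs_mul, abs_of_pos (div_pos hκ hom), abs_sub_comm]
    ring
  have hj : ∀ j : Fin n, κ * (|yc (f j) (ζ j) w - Y j| / 2 ^ k j) ≤ ‖μ‖ := by
    intro j
    refine le_trans (le_of_eq ?_) (hμi j.succ)
    have : μ j.succ = -(κ / 2 ^ k j * (Y j - yc (f j) (ζ j) w)) := rfl
    rw [this, abs_neg, abs_mul, abs_of_pos (by positivity : 0 < κ / 2 ^ k j), abs_sub_comm]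
    ring
  have hμ0 : 0 ≤ ‖μ‖ := norm_nonneg _
  have e : ∀ a : ℝ, a ^ ((n + 1) * N) = (∏ _j : Fin n, a ^ N) * a ^ N := by
    intro a
    rw [Finset.prod_const, Finset.card_univ, Fintype.card_fin, ← pow_succ, ← pow_mul, mul_comm]
  rw [e (1 / (1 + ‖μ‖)), e κ⁻¹]
  have h2 : (∏ _j : Fin n, (1 / (1 + ‖μ‖)) ^ N) ≤
      ∏ j : Fin n, ((κ⁻¹) ^ N * (1 / (1 + |yc (f j) (ζ j) w - Y j| / 2 ^ k j)) ^ N) := by
    refine Finset.prod_le_prod (fun j _ => by positivity) fun j _ => ?_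
    rw [← mul_pow]
    exact pow_le_pow_left₀ (by positivity) (ph_fac hκ hκ1 (by positivity) (hj j)) N
  have h3 : (1 / (1 + ‖μ‖)) ^ N ≤
      (κ⁻¹) ^ N * (1 / (1 + |∑ j, ζ j ^ 2 - 1| / om k m)) ^ N := by
    rw [← mul_pow]
    exact pow_le_pow_left₀ (by positivity) (ph_fac hκ hκ1 (by positivity) h0) N
  calc (∏ _j : Fin n, (1 / (1 + ‖μ‖)) ^ N) * (1 / (1 + ‖μ‖)) ^ N ≤
      (∏ j : Fin n, ((κ⁻¹) ^ N * (1 / (1 + |yc (f j) (ζ j) w - Y j| / 2 ^ k j)) ^ N)) *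
        ((κ⁻¹) ^ N * (1 / (1 + |∑ j, ζ j ^ 2 - 1| / om k m)) ^ N) := by
        refine mul_le_mul h2 h3 (by positivity) ?_
        exact Finset.prod_nonneg fun j _ => by positivity
    _ = _ := by
      rw [Finset.prod_mul_distrib]
      ring

theorem ph_r_mem {κ A : ℝ} (hκ : 0 < κ) (hκ1 : κ ≤ 1) (hA : 1 ≤ A) {D k m : ℕ} (hmk : m ≤ k)
    {f : ℝ[X]} {ζ w τ : ℝ} (hτ : 0 < τ) (hτ1 : τ ≤ κ * 2 ^ (m + k)) (hτ4 : τ ≤ κ * 4 ^ k)
    (hc : Cls D A k m f ζ w) : ‖ph_r κ D k m f ζ w τ‖ ≤ A := by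
  rw [ph_r, Prod.norm_def]
  have hA0 : 0 ≤ A := by linarith
  have hk : (0 : ℝ) < 2 ^ k := by positivity
  have hm : (0 : ℝ) < 2 ^ m := by positivity
  have hz := hc.zup
  refine max_le ?_ ?_
  · rw [pi_norm_le_iff_of_nonneg hA0]
    intro i
    fin_cases i
    · simp only [Fin.zero_eta, Matrix.cons_val_zero, Real.norm_eq_abs]
      rw [abs_mul, abs_mul, abs_of_pos hτ, abs_of_pos (div_pos hκ hk)]
      rw [pow_add] at hτ1
      calc τ * |ζ| * (κ / 2 ^ k) ≤ (κ * (2 ^ m * 2 ^ k)) * |ζ| * (κ / 2 ^ k) := by gcongr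
        _ = κ * κ * (|ζ| * 2 ^ m) := by field_simp
        _ ≤ 1 * 1 * (|ζ| * 2 ^ m) := by gcongr
        _ ≤ A := by linarith
    · change ‖τ / 4 ^ k‖ ≤ A
      rw [Real.norm_eq_abs, abs_of_pos (by positivity), div_le_iff₀ (by positivity)]
      have : (0 : ℝ) < 4 ^ k := by positivity
      nlinarith
    · change ‖2 ^ m * ζ‖ ≤ A
      rw [Real.norm_eq_abs, abs_mul, abs_of_pos hm]
      linarith
    · change ‖(2 : ℝ) ^ m / 2 ^ k‖ ≤ A
      rw [Real.norm_eq_abs, abs_of_pos (by positivity)]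
      refine le_trans ?_ hA
      rw [div_le_one hk]
      exact pow_le_pow_right₀ one_le_two hmk
    · change ‖(if k = 0 then 0 else 1 : ℝ)‖ ≤ A
      split_ifs <;> simp [hA0, hA]
    · change ‖(if m < k then 1 else 0 : ℝ)‖ ≤ A
      split_ifs <;> simp [hA0, hA]
  · rw [pi_norm_le_iff_of_nonneg hA0]
    intro i
    simp only [ph_c]
    split_ifs with hi
    · have hi2 : (i : ℕ) ∈ Finset.Icc 2 D := Finset.mem_Icc.2 ⟨hi, Nat.lt_succ_iff.1 i.2⟩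
      rw [Real.norm_eq_abs, abs_div, abs_of_pos (by positivity : (0 : ℝ) < 2 ^ (k * (i : ℕ))),
        div_le_iff₀ (by positivity)]
      exact hc.up i hi2
    · simpa using hA0

theorem ph (n D : ℕ) (hD : 2 ≤ D) (κ A : ℝ) (hG : Good D κ A) (N : ℕ) :
    ∃ C : ℝ, 0 ≤ C ∧ ∀ (T : ℝ) (k m : Fin n → ℕ) (f : Fin n → ℝ[X]) (Y ζ : Fin n → ℝ) (w : ℝ)
      (J : Fin n), 0 < T → (∀ j, m j ≤ k j) → (∀ j, (f j).natDegree ≤ D) →
      (4 : ℝ) ^ k J ≤ 8 * T →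
      ‖kw κ (κ / om k m) D T k m f Y ζ w‖ₑ ≤ ENNReal.ofReal C * Wt N D A k m f Y (ζ, w) := by
  have hκ := hG.1
  have hκ1 := hG.2.1
  have hA := hG.2.2.1
  obtain ⟨C, hC⟩ := cl (fun v : E (n + 1) × PhQ n D =>
      ph_Xi κ n D v.2 (v.1 0) fun j => v.1 j.succ) (ph_cd_Xi κ n D) (n + 1)
    (fun u q hu => ph_Xi_supp hu) (Metric.closedBall (0 : PhQ n D) (max A 10))
    (isCompact_closedBall _ _) ((n + 1) * N)
  refine ⟨max C 0 * κ⁻¹ ^ ((n + 1) * N), by positivity, ?_⟩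
  intro T k m f Y ζ w J hT hmk hf hJ
  by_cases hcls : ∀ j, Cls D A (k j) (m j) (f j) (ζ j) w
  swap
  · rw [ph_kw_zero hG hmk hf hcls]
    simp
  rw [Wt, if_pos hcls]
  have hom := ph_om_pos k m J
  have hτ : 0 < κ / om k m := div_pos hκ hom
  set τ := κ / om k m with hτdef
  have hτT : τ / T ≤ 8 := by
    rw [div_le_iff₀ hT]
    refine ((ph_tau4 hκ k m J (hmk J)).trans ?_)
    have : (0 : ℝ) < 4 ^ k J := by positivity
    nlinarith
  have hτT0 : 0 < τ / T := div_pos hτ hT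
  rw [← ENNReal.ofReal_mul (by positivity), ← ofReal_norm]
  refine ENNReal.ofReal_le_ofReal ?_
  rw [ph_kw_E hκ hτ hD hf]
  by_cases hw : |w / T| ≤ 10
  · have hq : ph_q κ τ D T k m f ζ w ∈ Metric.closedBall (0 : PhQ n D) (max A 10) := by
      rw [mem_closedBall_zero_iff, ph_q, Prod.norm_def, Prod.norm_def]
      have h10 : (10 : ℝ) ≤ max A 10 := le_max_right _ _
      refine max_le (max_le ?_ ?_) ?_
      · exact (Real.norm_eq_abs _).le.trans (hw.trans h10)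
      · rw [Real.norm_eq_abs, abs_of_pos hτT0]
        linarith
      · rw [pi_norm_le_iff_of_nonneg (by positivity)]
        intro j
        exact (ph_r_mem hκ hκ1 hA (hmk j) hτ (ph_tau hκ k m j) (ph_tau4 hκ k m j (hmk j))
          (hcls j)).trans (le_max_left _ _)
    refine (hC _ hq _).trans ?_
    rw [mul_assoc]
    refine mul_le_mul (le_max_left _ _) (ph_weight hκ hκ1 k m f Y ζ w N J) (by positivity)
      (le_max_right _ _)
  · have : ∀ u : E (n + 1), ph_Xi κ n D (ph_q κ τ D T k m f ζ w) (u 0) (fun j => u j.succ) = 0 := by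
      intro u
      by_contra h
      obtain ⟨h0, -⟩ := ph_Xi_zero h
      refine h ?_
      rw [ph_Xi, ph_q]
      simp only
      have hB : B (w / T + τ / T * u 0) = 0 := by
        refine ph_B_zero ?_
        have h1 : |τ / T * u 0| ≤ 8 := by
          rw [abs_mul, abs_of_pos hτT0]
          have := abs_nonneg (u 0)
          nlinarith
        have h2 := abs_sub_abs_le_abs_sub (w / T) (-(τ / T * u 0))
        rw [abs_neg, sub_neg_eq_add] at h2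
        linarith
      rw [hB]
      simp
    simp only [this, mul_zero, integral_zero, norm_zero]
    positivity

end Pool.Agent.SEP
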