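import Pool.Agent.SEPH.PH
import Pool.Agent.SEPH.KY
import Pool.Agent.SEPH.TAU
import Pool.Agent.SEPH.MEAS
import Pool.Agent.SEPH.SUPP
import Pool.Agent.SEPH.PH
import Pool.Agent.SEPH.KY
import Pool.Agent.SEPH.TAU
import Pool.Agent.SEPH.MEAS
import Pool.Agent.SEPH.SUPP
import Pool.Agent.MP_6cbfb8_an.Bessel

/-!
Row HH: from packets to the `L^p` norm of one piece.
-/

namespace Pool.Agent.SEP

open MeasureTheory Set Pool.Agent.MP_6cbfb8_an Polynomial
open scoped ENNReal Real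

/-- Plancherel in the coordinates. -/
theorem hh_bessel {n : ℕ} (K : (Fin n → ℝ) → ℂ) (hK : Integrable K) :
    ∫⁻ y : Fin n → ℝ, ‖∫ ζ : Fin n → ℝ, K ζ *
      Complex.exp (((-∑ j, y j * ζ j : ℝ) : ℂ) * Complex.I)‖ₑ ^ (2 : ℝ) ≤
      ENNReal.ofReal ((2 * π) ^ n) * ∫⁻ ζ, ‖K ζ‖ₑ ^ (2 : ℝ) := by
  have hmp := PiLp.volume_preserving_toLp (Fin n)
  have hme : MeasurableEmbedding (@WithLp.toLp 2 (Fin n → ℝ)) :=
    (MeasurableEquiv.toLp 2 (Fin n → ℝ)).measurableEmbedding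
  have hpi : (0 : ℝ) < 2 * π := by positivity
  have hΨ : Measurable fun ζ : Fin n → ℝ => ((2 * π)⁻¹ : ℝ) • (WithLp.toLp 2 ζ : E n) :=
    (measurable_const_smul ((2 * π)⁻¹ : ℝ)).comp hme.measurable
  have hA : ∀ φ : E n → ℝ≥0∞, Measurable φ →
      ∫⁻ ζ : Fin n → ℝ, φ (((2 * π)⁻¹ : ℝ) • (WithLp.toLp 2 ζ : E n)) ≤
        ENNReal.ofReal ((2 * π) ^ n) * ∫⁻ x, φ x := by
    intro φ hφ
    have h1 : ∫⁻ ζ : Fin n → ℝ, φ (((2 * π)⁻¹ : ℝ) • (WithLp.toLp 2 ζ : E n)) =
        ∫⁻ x : E n, φ (((2 * π)⁻¹ : ℝ) • x) :=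
      hmp.lintegral_comp_emb hme fun x : E n => φ (((2 * π)⁻¹ : ℝ) • x)
    have h2 : ∫⁻ x : E n, φ (((2 * π)⁻¹ : ℝ) • x) =
        ∫⁻ x, φ x ∂(Measure.map (fun x : E n => ((2 * π)⁻¹ : ℝ) • x) volume) :=
      (lintegral_map hφ (by fun_prop)).symm
    rw [h1, h2, Measure.map_addHaar_smul volume (by positivity), lintegral_smul_measure,
      smul_eq_mul, finrank_euclideanSpace_fin]
    refine le_of_eq ?_
    congr 2
    rw [abs_of_pos (by positivity), inv_pow, inv_inv]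
  have hb := bessel (volume : Measure (Fin n → ℝ))
    (fun ζ : Fin n → ℝ => ((2 * π)⁻¹ : ℝ) • (WithLp.toLp 2 ζ : E n)) hΨ
    (ENNReal.ofReal ((2 * π) ^ n)) ENNReal.ofReal_ne_top hA K hK
  refine le_trans (le_of_eq ?_) hb
  rw [← hmp.lintegral_comp_emb hme]
  refine lintegral_congr fun y => ?_
  congr 3
  funext ζ
  congr 3
  rw [real_inner_smul_left, PiLp.inner_apply]
  have h3 : ∑ i, inner ℝ ((WithLp.toLp 2 ζ : E n) i) ((WithLp.toLp 2 y : E n) i) =
      ∑ j, y j * ζ j := by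
    refine Finset.sum_congr rfl fun j _ => ?_
    simp
  rw [h3]
  congr 1
  field_simp

/-- Continuity of the Fourier transform. -/
theorem hh_cont {n : ℕ} (K : (Fin n → ℝ) → ℂ) (hK : Integrable K) :
    Continuous fun y : Fin n → ℝ => ∫ ζ : Fin n → ℝ, K ζ *
      Complex.exp (((-∑ j, y j * ζ j : ℝ) : ℂ) * Complex.I) := by
  refine continuous_of_dominated (bound := fun ζ => ‖K ζ‖) (fun y => ?_) (fun y => ?_) hK.norm ?_
  · refine hK.aestronglyMeasurable.mul ?_
    have : Continuous fun ζ : Fin n → ℝ =>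
        Complex.exp (((-∑ j, y j * ζ j : ℝ) : ℂ) * Complex.I) := by fun_prop
    exact this.aestronglyMeasurable
  · refine Filter.Eventually.of_forall fun ζ => ?_
    rw [norm_mul, Complex.norm_exp_ofReal_mul_I, mul_one]
  · refine Filter.Eventually.of_forall fun ζ => ?_
    fun_prop

/-- The estimate for one `Y`. -/
theorem hh_fix {n : ℕ} (K : (Fin n → ℝ) → ℂ) (hK : Integrable K) (V : (Fin n → ℝ) → ℝ≥0∞)
    (hV : Measurable V) (c1 v : ℝ≥0∞) (hc1 : c1 ≠ ∞) (h1 : ∀ ζ, ‖K ζ‖ₑ ≤ c1 * V ζ)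
    (h2 : ∀ ζ, V ζ ≤ v) (p : ℝ) (hp : 2 ≤ p) :
    ∫⁻ y : Fin n → ℝ, ‖∫ ζ : Fin n → ℝ, K ζ *
      Complex.exp (((-∑ j, y j * ζ j : ℝ) : ℂ) * Complex.I)‖ₑ ^ p ≤
      c1 ^ p * ENNReal.ofReal ((2 * π) ^ n) * v * (∫⁻ ζ, V ζ) ^ (p - 1) := by
  set g : (Fin n → ℝ) → ℂ := fun y => ∫ ζ : Fin n → ℝ, K ζ *
      Complex.exp (((-∑ j, y j * ζ j : ℝ) : ℂ) * Complex.I) with hg
  have hgm : Measurable g := (hh_cont K hK).measurable
  set M : ℝ≥0∞ := ∫⁻ ζ, V ζ with hM
  have hKM : ∫⁻ ζ, ‖K ζ‖ₑ ≤ c1 * M := by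
    rw [hM, ← lintegral_const_mul' _ _ hc1]
    exact lintegral_mono h1
  have hg1 : ∀ y, ‖g y‖ₑ ≤ c1 * M := by
    intro y
    refine (enorm_integral_le_lintegral_enorm _).trans ((le_of_eq ?_).trans hKM)
    refine lintegral_congr fun ζ => ?_
    rw [enorm_mul, ← ofReal_norm (Complex.exp _), Complex.norm_exp_ofReal_mul_I,
      ENNReal.ofReal_one, mul_one]
  have hg2 : ∀ y, ‖g y‖ₑ ^ p ≤ (c1 * M) ^ (p - 2) * ‖g y‖ₑ ^ (2 : ℝ) := by
    intro y
    calc ‖g y‖ₑ ^ p = ‖g y‖ₑ ^ (p - 2) * ‖g y‖ₑ ^ (2 : ℝ) := by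
          rw [← ENNReal.rpow_add_of_nonneg _ _ (by linarith) (by norm_num)]
          congr 1
          ring
      _ ≤ _ := mul_le_mul_left (ENNReal.rpow_le_rpow (hg1 y) (by linarith)) _
  have hK2 : ∫⁻ ζ, ‖K ζ‖ₑ ^ (2 : ℝ) ≤ c1 ^ (2 : ℝ) * (v * M) := by
    calc ∫⁻ ζ, ‖K ζ‖ₑ ^ (2 : ℝ) ≤ ∫⁻ ζ, c1 ^ (2 : ℝ) * (v * V ζ) := by
          refine lintegral_mono fun ζ => ?_
          refine (ENNReal.rpow_le_rpow (h1 ζ) (by norm_num)).trans ?_
          rw [ENNReal.mul_rpow_of_nonneg _ _ (by norm_num)]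
          refine mul_le_mul_right ?_ _
          rw [ENNReal.rpow_two, sq]
          exact mul_le_mul_left (h2 ζ) _
      _ = c1 ^ (2 : ℝ) * (v * M) := by
          rw [lintegral_const_mul' _ _ (ENNReal.rpow_ne_top_of_nonneg (by norm_num) hc1),
            lintegral_const_mul _ hV]
  calc ∫⁻ y, ‖g y‖ₑ ^ p ≤ ∫⁻ y, (c1 * M) ^ (p - 2) * ‖g y‖ₑ ^ (2 : ℝ) := lintegral_mono hg2
    _ = (c1 * M) ^ (p - 2) * ∫⁻ y, ‖g y‖ₑ ^ (2 : ℝ) :=
        lintegral_const_mul _ (hgm.enorm.pow_const _)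
    _ ≤ (c1 * M) ^ (p - 2) * (ENNReal.ofReal ((2 * π) ^ n) * (c1 ^ (2 : ℝ) * (v * M))) := by
        refine mul_le_mul_right ((hh_bessel K hK).trans ?_) _
        exact mul_le_mul_right hK2 _
    _ = (c1 ^ (p - 2) * c1 ^ (2 : ℝ)) * ENNReal.ofReal ((2 * π) ^ n) * v *
          (M ^ (p - 2) * M ^ (1 : ℝ)) := by
        rw [ENNReal.mul_rpow_of_nonneg _ _ (by linarith), ENNReal.rpow_one]
        ring
    _ = _ := by
        rw [← ENNReal.rpow_add_of_nonneg _ _ (by linarith) (by norm_num),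
          ← ENNReal.rpow_add_of_nonneg _ _ (by linarith) (by norm_num)]
        congr 2
        · congr 3
          ring
        · ring

theorem hh_om {n : ℕ} (hn : 1 ≤ n) (k m : Fin n → ℕ) : 0 < om k m := by
  unfold om
  have : Nonempty (Fin n) := ⟨⟨0, hn⟩⟩
  exact Finset.sum_pos (fun j _ => by positivity) Finset.univ_nonempty

/-- `phat` is at least `1/2` near `0`. -/
theorem hh_phat (u : ℝ) (hu : |u| ≤ 1 / 2) : 1 / 2 ≤ ‖phat u‖ := by
  have hphi0 : ∀ x, 0 ≤ phi x := fun x => bump1.nonneg_normed x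
  have hphi1 : ∫ x, phi x = 1 := bump1.integral_normed
  have hphis : ∀ x, 1 < |x| → phi x = 0 := by
    intro x hx
    have h1 : x ∉ Function.support (bump1.normed volume) := by
      rw [bump1.support_normed_eq, Metric.mem_ball, dist_zero_right, not_lt, Real.norm_eq_abs]
      exact hx.le
    rwa [Function.notMem_support] at h1
  have hphii : Integrable phi := bump1.integrable_normed
  have hi1 : Integrable fun x : ℝ => (phi x : ℂ) * Complex.exp (((u * x : ℝ) : ℂ) * Complex.I) := by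
    refine hphii.ofReal.mul_bdd (c := 1) ?_ (Filter.Eventually.of_forall fun x => ?_)
    · have : Continuous fun x : ℝ => Complex.exp (((u * x : ℝ) : ℂ) * Complex.I) := by fun_prop
      exact this.aestronglyMeasurable
    · rw [Complex.norm_exp_ofReal_mul_I]
  have hi2 : Integrable fun x : ℝ => (phi x : ℂ) := hphii.ofReal
  have h2 : phat u - 1 = ∫ x : ℝ, (phi x : ℂ) *
      (Complex.exp (((u * x : ℝ) : ℂ) * Complex.I) - 1) := by
    have h3 : (1 : ℂ) = ∫ x : ℝ, (phi x : ℂ) := by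
      rw [integral_complex_ofReal, hphi1, Complex.ofReal_one]
    calc phat u - 1 = phat u - ∫ x : ℝ, (phi x : ℂ) := by rw [← h3]
      _ = _ := by
        unfold phat
        rw [← integral_sub hi1 hi2]
        refine integral_congr_ae (Filter.Eventually.of_forall fun x => ?_)
        simp only
        ring
  have h4 : ‖phat u - 1‖ ≤ 1 / 2 := by
    rw [h2]
    refine (norm_integral_le_integral_norm _).trans ?_
    calc ∫ x : ℝ, ‖(phi x : ℂ) * (Complex.exp (((u * x : ℝ) : ℂ) * Complex.I) - 1)‖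
        ≤ ∫ x : ℝ, 1 / 2 * phi x := by
          refine integral_mono_of_nonneg (Filter.Eventually.of_forall fun x => norm_nonneg _)
            (hphii.const_mul _) (Filter.Eventually.of_forall fun x => ?_)
          simp only
          rw [norm_mul, Complex.norm_real, Real.norm_of_nonneg (hphi0 x), mul_comm]
          rcases lt_or_ge 1 |x| with hx | hx
          · rw [hphis x hx]
            simp
          · refine mul_le_mul_of_nonneg_right ?_ (hphi0 x)
            have h5 := Real.norm_exp_I_mul_ofReal_sub_one_le (x := u * x)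
            rw [mul_comm Complex.I] at h5
            refine h5.trans ?_
            rw [Real.norm_eq_abs, abs_mul]
            calc |u| * |x| ≤ 1 / 2 * 1 := mul_le_mul hu hx (abs_nonneg _) (by norm_num)
              _ = 1 / 2 := by ring
      _ = 1 / 2 := by rw [integral_const_mul, hphi1, mul_one]
  have h6 : ‖(1 : ℂ)‖ ≤ ‖phat u‖ + ‖phat u - 1‖ := by
    have : (1 : ℂ) = phat u - (phat u - 1) := by ring
    calc ‖(1 : ℂ)‖ = ‖phat u - (phat u - 1)‖ := by rw [← this]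
      _ ≤ _ := norm_sub_le _ _
  rw [norm_one] at h6
  linarith

theorem hh_measI {D k m : ℕ} {f : ℝ[X]} : Measurable fun q : ℝ × ℝ => I1c D k m f q.1 q.2 := by
  have hB : Continuous B := bump.continuous
  have h1 : Continuous fun p : (ℝ × ℝ) × ℝ =>
      ((theta D k f p.2 p.1.1 * beta k m p.2 : ℝ) : ℂ) *
        Complex.exp (((f.eval p.2 - p.1.1 * p.2 ^ 2 - p.1.2 * p.2 : ℝ) : ℂ) * Complex.I) := by
    have e1 : Continuous fun p : (ℝ × ℝ) × ℝ => theta D k f p.2 p.1.1 := by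
      have e0 : ∀ k, Continuous fun p : (ℝ × ℝ) × ℝ => Sk D k f p.2 p.1.1 := by
        intro k
        unfold Sk gd
        refine continuous_finsetSum _ fun i _ => ?_
        have e2 : Continuous fun p : (ℝ × ℝ) × ℝ => (derivative^[i] f).eval p.2 :=
          (Polynomial.continuous _).comp continuous_snd
        split_ifs <;> fun_prop
      unfold theta
      have e3 := hB.comp ((e0 (k + 1)).div_const 2)
      have e4 := hB.comp ((e0 k).div_const 2)
      split_ifs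
      · exact e3.sub continuous_const
      · exact e3.sub e4
    have e5 : Continuous fun p : (ℝ × ℝ) × ℝ => beta k m p.2 := by
      unfold beta
      have e3 : Continuous fun p : (ℝ × ℝ) × ℝ => B (2 ^ m * p.2) :=
        hB.comp (continuous_const.mul continuous_snd)
      have e4 : Continuous fun p : (ℝ × ℝ) × ℝ => B (2 ^ (m + 1) * p.2) :=
        hB.comp (continuous_const.mul continuous_snd)
      split_ifs
      · exact e3.sub e4
      · exact e3.sub continuous_const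
    have e6 : Continuous fun p : (ℝ × ℝ) × ℝ => f.eval p.2 :=
      (Polynomial.continuous _).comp continuous_snd
    exact (Complex.continuous_ofReal.comp (e1.mul e5)).mul (Complex.continuous_exp.comp
      ((Complex.continuous_ofReal.comp ((e6.sub (by fun_prop)).sub (by fun_prop))).mul
        continuous_const))
  exact (h1.stronglyMeasurable.integral_prod_right
    (f := fun (q : ℝ × ℝ) (x : ℝ) => ((theta D k f x q.1 * beta k m x : ℝ) : ℂ) *
        Complex.exp (((f.eval x - q.1 * x ^ 2 - q.2 * x : ℝ) : ℂ) * Complex.I))).measurable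

theorem hh_measF {n D : ℕ} {T : ℝ} {k m : Fin n → ℕ} {f : Fin n → ℝ[X]} :
    Measurable (Fc D T k m f) := by
  have hB : Continuous B := bump.continuous
  have h1 : Measurable fun p : (Fin n → ℝ) × ℝ => Complex.exp ((p.2 : ℂ) * Complex.I) *
      (B (p.2 / T) : ℂ) * ∏ j, I1c D (k j) (m j) (f j) p.2 (p.1 j) := by
    refine Measurable.mul (Measurable.mul ?_ ?_) ?_
    · have : Continuous fun p : (Fin n → ℝ) × ℝ => Complex.exp ((p.2 : ℂ) * Complex.I) := by
        fun_prop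
      exact this.measurable
    · exact (Complex.continuous_ofReal.comp (hB.comp (continuous_snd.div_const T))).measurable
    · refine Finset.measurable_prod _ fun j _ => ?_
      exact hh_measI.comp (f := fun p : (Fin n → ℝ) × ℝ => (p.2, p.1 j)) (by fun_prop)
  exact (h1.stronglyMeasurable.integral_prod_right
    (f := fun (y : Fin n → ℝ) (t : ℝ) => Complex.exp ((t : ℂ) * Complex.I) *
      (B (t / T) : ℂ) * ∏ j, I1c D (k j) (m j) (f j) t (y j))).measurable

/-- ROW HH. -/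
theorem hh (n D : ℕ) (hn : 1 ≤ n) (hD : 2 ≤ D) (κ A : ℝ) (hG : Good D κ A) (N : ℕ) (hN : 2 ≤ N)
    (p : ℝ) (hp : 2 ≤ p) : ∃ C : ℝ, 0 ≤ C ∧
    ∀ (T : ℝ) (k m : Fin n → ℕ) (f : Fin n → ℝ[X]) (J : Fin n), 0 < T →
      (∀ j, m j ≤ k j) → (∀ j, (f j).natDegree ≤ D) → (4 : ℝ) ^ k J ≤ 8 * T →
      ∫⁻ y : Fin n → ℝ, ‖Fc D T k m f y‖ₑ ^ p ≤
        ENNReal.ofReal (C * (∏ j, (1 / 2 ^ k j : ℝ)) / om k m) *
          ∫⁻ Y : Fin n → ℝ, (∫⁻ q, Wt N D A k m f Y q) ^ (p - 1) := by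
  obtain ⟨C1, hC1, hph⟩ := ph n D hD κ A hG N
  obtain ⟨C2, hC2, htau⟩ := tau n D hD A hG.2.2.1 N hN
  have hκ : 0 < κ := hG.1
  -- the constant
  refine ⟨(C1 ^ p * (2 * π) ^ n * C2) * (2 ^ p * κ) ^ n, by positivity, ?_⟩
  intro T k m f J hT hmk hf hJT
  have hom : 0 < om k m := hh_om hn k m
  have hmW := meas_Wt N D A k m f
  -- one Y
  have hY : ∀ Y : Fin n → ℝ, ∫⁻ y : Fin n → ℝ,
      ‖Fc D T k m f y * ∏ j, phat (κ / 2 ^ k j * (Y j - y j))‖ₑ ^ p ≤
      ENNReal.ofReal (C1 ^ p * (2 * π) ^ n * C2 / om k m) *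
        (∫⁻ q, Wt N D A k m f Y q) ^ (p - 1) := by
    intro Y
    obtain ⟨hKi, hKf⟩ := ky_fourier κ hκ D T hT k m f Y
    have hWY : Measurable fun q : (Fin n → ℝ) × ℝ => Wt N D A k m f Y q :=
      hmW.comp (f := fun q : (Fin n → ℝ) × ℝ => (Y, q)) (by fun_prop)
    have hVm : Measurable fun ζ : Fin n → ℝ => ∫⁻ w : ℝ, Wt N D A k m f Y (ζ, w) :=
      hWY.lintegral_prod_right'
    have e1 := hh_fix (KY κ D T k m f Y) hKi (fun ζ => ∫⁻ w : ℝ, Wt N D A k m f Y (ζ, w)) hVm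
      (ENNReal.ofReal C1) (ENNReal.ofReal (C2 / om k m)) ENNReal.ofReal_ne_top (fun ζ => ?_)
      (fun ζ => htau k m f Y ζ hn hmk) p hp
    · simp only [hKf] at e1
      refine e1.trans (le_of_eq ?_)
      have e2 : ∫⁻ ζ : Fin n → ℝ, ∫⁻ w : ℝ, Wt N D A k m f Y (ζ, w) =
          ∫⁻ q, Wt N D A k m f Y q := by
        rw [Measure.volume_eq_prod, lintegral_prod _ hWY.aemeasurable]
      rw [e2]
      congr 1
      rw [ENNReal.ofReal_rpow_of_nonneg hC1 (by linarith), ← ENNReal.ofReal_mul (by positivity),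
        ← ENNReal.ofReal_mul (by positivity), mul_div_assoc]
    · rw [ky_w κ (κ / om k m) hκ (by positivity) D T hT k m f Y ζ,
        ← lintegral_const_mul' _ _ ENNReal.ofReal_ne_top]
      refine (enorm_integral_le_lintegral_enorm _).trans (lintegral_mono fun w => ?_)
      exact hph T k m f Y ζ w J hT hmk hf hJT
  -- lower bound for the product, on a box
  have hbox : ∀ y : Fin n → ℝ, ENNReal.ofReal (∏ j, ((2 : ℝ) ^ p)⁻¹ * (2 ^ k j / κ)) ≤
      ∫⁻ Y : Fin n → ℝ, ‖∏ j, phat (κ / 2 ^ k j * (Y j - y j))‖ₑ ^ p := by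
    intro y
    set S : Set (Fin n → ℝ) := Set.pi univ fun j => Icc (y j - 2 ^ k j / κ / 2)
      (y j + 2 ^ k j / κ / 2) with hS
    have hSm : MeasurableSet S := MeasurableSet.univ_pi fun _ => measurableSet_Icc
    have hSv : volume S = ENNReal.ofReal (∏ j, (2 ^ k j / κ : ℝ)) := by
      rw [hS, volume_pi_pi, ENNReal.ofReal_prod_of_nonneg fun j _ => by positivity]
      refine Finset.prod_congr rfl fun j _ => ?_
      rw [Real.volume_Icc]
      congr 1
      ring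
    calc ENNReal.ofReal (∏ j, ((2 : ℝ) ^ p)⁻¹ * (2 ^ k j / κ))
        = ENNReal.ofReal (∏ _j : Fin n, ((2 : ℝ) ^ p)⁻¹) * volume S := by
          rw [hSv, ← ENNReal.ofReal_mul (Finset.prod_nonneg fun _ _ => by positivity),
            ← Finset.prod_mul_distrib]
      _ = ∫⁻ _Y in S, ENNReal.ofReal (∏ _j : Fin n, ((2 : ℝ) ^ p)⁻¹) := by
          rw [setLIntegral_const]
      _ ≤ ∫⁻ Y in S, ‖∏ j, phat (κ / 2 ^ k j * (Y j - y j))‖ₑ ^ p := by
          refine setLIntegral_mono' hSm fun Y hYS => ?_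
          rw [← ofReal_norm, ENNReal.ofReal_rpow_of_nonneg (norm_nonneg _) (by linarith),
            norm_prod]
          refine ENNReal.ofReal_le_ofReal ?_
          rw [← Real.finsetProd_rpow _ _ fun j _ => norm_nonneg _]
          refine Finset.prod_le_prod (fun _ _ => by positivity) fun j _ => ?_
          have h1 : 1 / 2 ≤ ‖phat (κ / 2 ^ k j * (Y j - y j))‖ := by
            refine hh_phat _ ?_
            have h2 := hYS j (mem_univ j)
            have h3 : |Y j - y j| ≤ 2 ^ k j / κ / 2 := by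
              rw [abs_le]
              constructor <;> linarith [h2.1, h2.2]
            rw [abs_mul, abs_of_pos (by positivity : 0 < κ / 2 ^ k j)]
            calc κ / 2 ^ k j * |Y j - y j| ≤ κ / 2 ^ k j * (2 ^ k j / κ / 2) := by gcongr
              _ = 1 / 2 := by field_simp
          calc ((2 : ℝ) ^ p)⁻¹ = (1 / 2 : ℝ) ^ p := by
                rw [one_div, Real.inv_rpow (by norm_num)]
            _ ≤ _ := Real.rpow_le_rpow (by norm_num) h1 (by linarith)
      _ ≤ _ := setLIntegral_le_lintegral _ _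
  -- Tonelli
  have hFm : Measurable (Fc D T k m f) := hh_measF
  have hphm : Measurable phat := by
    have h1 : Continuous phi := bump1.continuous_normed
    have h2 : Continuous fun q : ℝ × ℝ => (phi q.2 : ℂ) *
        Complex.exp (((q.1 * q.2 : ℝ) : ℂ) * Complex.I) := by fun_prop
    exact (h2.stronglyMeasurable.integral_prod_right
      (f := fun (u : ℝ) (x : ℝ) => (phi x : ℂ) *
        Complex.exp (((u * x : ℝ) : ℂ) * Complex.I))).measurable
  have hjm : Measurable fun q : (Fin n → ℝ) × (Fin n → ℝ) =>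
      ‖Fc D T k m f q.2 * ∏ j, phat (κ / 2 ^ k j * (q.1 j - q.2 j))‖ₑ ^ p := by
    refine Measurable.pow_const (Measurable.enorm ?_) _
    refine (hFm.comp measurable_snd).mul (Finset.measurable_prod _ fun j _ => ?_)
    exact hphm.comp (by fun_prop)
  have htot : ENNReal.ofReal (∏ j, ((2 : ℝ) ^ p)⁻¹ * (2 ^ k j / κ)) *
      ∫⁻ y : Fin n → ℝ, ‖Fc D T k m f y‖ₑ ^ p ≤
      ENNReal.ofReal (C1 ^ p * (2 * π) ^ n * C2 / om k m) *
        ∫⁻ Y : Fin n → ℝ, (∫⁻ q, Wt N D A k m f Y q) ^ (p - 1) := by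
    calc ENNReal.ofReal (∏ j, ((2 : ℝ) ^ p)⁻¹ * (2 ^ k j / κ)) *
          ∫⁻ y : Fin n → ℝ, ‖Fc D T k m f y‖ₑ ^ p
        = ∫⁻ y : Fin n → ℝ, ‖Fc D T k m f y‖ₑ ^ p *
            ENNReal.ofReal (∏ j, ((2 : ℝ) ^ p)⁻¹ * (2 ^ k j / κ)) := by
          rw [lintegral_mul_const' _ _ ENNReal.ofReal_ne_top, mul_comm]
      _ ≤ ∫⁻ y : Fin n → ℝ, ‖Fc D T k m f y‖ₑ ^ p *
            ∫⁻ Y : Fin n → ℝ, ‖∏ j, phat (κ / 2 ^ k j * (Y j - y j))‖ₑ ^ p :=
          lintegral_mono fun y => mul_le_mul_right (hbox y) _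
      _ = ∫⁻ y : Fin n → ℝ, ∫⁻ Y : Fin n → ℝ,
            ‖Fc D T k m f y * ∏ j, phat (κ / 2 ^ k j * (Y j - y j))‖ₑ ^ p := by
          refine lintegral_congr fun y => ?_
          rw [← lintegral_const_mul]
          · refine lintegral_congr fun Y => ?_
            rw [enorm_mul, ENNReal.mul_rpow_of_nonneg _ _ (by linarith)]
          · refine Measurable.pow_const (Measurable.enorm ?_) _
            exact Finset.measurable_prod _ fun j _ => hphm.comp (by fun_prop)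
      _ = ∫⁻ Y : Fin n → ℝ, ∫⁻ y : Fin n → ℝ,
            ‖Fc D T k m f y * ∏ j, phat (κ / 2 ^ k j * (Y j - y j))‖ₑ ^ p := by
          refine lintegral_lintegral_swap ?_
          exact (hjm.comp measurable_swap).aemeasurable
      _ ≤ ∫⁻ Y : Fin n → ℝ, ENNReal.ofReal (C1 ^ p * (2 * π) ^ n * C2 / om k m) *
            (∫⁻ q, Wt N D A k m f Y q) ^ (p - 1) := lintegral_mono hY
      _ = _ := lintegral_const_mul' _ _ ENNReal.ofReal_ne_top
  -- conclusion
  set I1 : ℝ≥0∞ := ∫⁻ y : Fin n → ℝ, ‖Fc D T k m f y‖ₑ ^ p with hI1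
  set I2 : ℝ≥0∞ := ∫⁻ Y : Fin n → ℝ, (∫⁻ q, Wt N D A k m f Y q) ^ (p - 1) with hI2
  set Pr0 : ℝ := ∏ j, ((2 : ℝ) ^ p)⁻¹ * (2 ^ k j / κ) with hPr0
  have hPr : 0 < Pr0 := Finset.prod_pos fun j _ => by positivity
  have hinv : Pr0⁻¹ = (2 ^ p * κ) ^ n * ∏ j, (1 / 2 ^ k j : ℝ) := by
    rw [hPr0, ← Finset.prod_inv_distrib]
    calc ∏ j, (((2 : ℝ) ^ p)⁻¹ * (2 ^ k j / κ))⁻¹ = ∏ j, ((2 ^ p * κ) * (1 / 2 ^ k j : ℝ)) := by
          refine Finset.prod_congr rfl fun j _ => ?_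
          field_simp
      _ = _ := by
          rw [Finset.prod_mul_distrib, Finset.prod_const, Finset.card_univ, Fintype.card_fin]
  calc I1 = ENNReal.ofReal Pr0⁻¹ * (ENNReal.ofReal Pr0 * I1) := by
        rw [← mul_assoc, ← ENNReal.ofReal_mul (by positivity), inv_mul_cancel₀ hPr.ne',
          ENNReal.ofReal_one, one_mul]
    _ ≤ ENNReal.ofReal Pr0⁻¹ *
          (ENNReal.ofReal (C1 ^ p * (2 * π) ^ n * C2 / om k m) * I2) := mul_le_mul_right htot _
    _ = _ := by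
        rw [← mul_assoc, ← ENNReal.ofReal_mul (by positivity), hinv]
        congr 2
        ring

end Pool.Agent.SEP
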