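import Pool.Agent.SEPH.HB

/-!
Row LNC.
-/

namespace Pool.Agent.SEP

open MeasureTheory Set Pool.Agent.MP_6cbfb8_an Polynomial
open scoped ENNReal Real

/-- The real number lemma of LNC. -/
theorem lnc_alg {A C1 Λ h δ Q R M X1 X2 Y V b b' u v : ℝ} (hA : 1 ≤ A) (hC1 : 1 ≤ C1)
    (hΛ : 1 ≤ Λ) (hM : 0 < M) (hR : 0 < R) (hQ : Q = R ^ 2)
    (hX1 : |X1| * M ≤ A) (hX2 : |X2| * M ≤ A)
    (hb : Q ≤ A * b) (hb2 : b ≤ 3 * A * Q) (hb' : Q ≤ A * b') (hb'2 : b' ≤ (A + 2 * C1) * Λ * Q)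
    (hδ : 0 ≤ δ) (hδ' : δ ≤ A * Q) (hh : 0 ≤ h) (hu : |u| ≤ 2 * Λ * R) (hv : |v| ≤ 4 * Λ * R)
    (e1 : b * (X2 - X1) = 2 * δ * V + v) (e2 : b' * V = 2 * h * Y + u)
    (hS : 0 ≤ (X1 + X2) * Y) :
    -((3 * A ^ 5 * (A + 2 * C1) + 8 * A ^ 2 * (A ^ 2 + 1)) * Λ / (M * R)) ≤ X2 ^ 2 - X1 ^ 2 ∧
      (1 ≤ (X1 + X2) * Y * (A ^ 2 * M ^ 2) →
        δ * h / ((3 * A ^ 5 * (A + 2 * C1) + 8 * A ^ 2 * (A ^ 2 + 1)) * Λ * M ^ 2 * Q ^ 2) -
          (3 * A ^ 5 * (A + 2 * C1) + 8 * A ^ 2 * (A ^ 2 + 1)) * Λ / (M * R) ≤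
        X2 ^ 2 - X1 ^ 2) := by
  have hQ0 : 0 < Q := by rw [hQ]; positivity
  have hA0 : 0 < A := by linarith
  have hb0 : 0 < b := by
    by_contra hcon
    push Not at hcon
    nlinarith [mul_nonneg hA0.le (neg_nonneg.2 hcon)]
  have hb0' : 0 < b' := by
    by_contra hcon
    push Not at hcon
    nlinarith [mul_nonneg hA0.le (neg_nonneg.2 hcon)]
  have hV : V = (2 * h * Y + u) / b' := by
    field_simp
    linarith
  have hX : X2 - X1 = (2 * δ * V + v) / b := by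
    field_simp
    linarith
  have key : X2 ^ 2 - X1 ^ 2 = 4 * δ * h * ((X1 + X2) * Y) / (b * b') +
      (X1 + X2) * (2 * δ * (u / b') + v) / b := by
    rw [show X2 ^ 2 - X1 ^ 2 = (X1 + X2) * (X2 - X1) by ring, hX, hV]
    field_simp
    ring
  have n1 : |X1 + X2| ≤ 2 * A / M := by
    rw [le_div_iff₀ hM]
    have := abs_add_le X1 X2
    nlinarith
  have n2 : |u / b'| ≤ 2 * A * Λ / R := by
    rw [abs_div, abs_of_pos hb0', div_le_div_iff₀ hb0' hR]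
    have h1 : |u| * R ≤ 2 * Λ * R * R := by gcongr
    have h2 : 2 * Λ * R * R = 2 * Λ * Q := by rw [hQ]; ring
    have h3 : 2 * Λ * Q ≤ 2 * Λ * (A * b') := by gcongr
    linarith
  have n3 : |2 * δ * (u / b') + v| ≤ 4 * (A ^ 2 + 1) * Λ * R := by
    have h1 : |2 * δ * (u / b')| ≤ 4 * A ^ 2 * Λ * R := by
      rw [abs_mul, abs_of_nonneg (by positivity : 0 ≤ 2 * δ)]
      calc 2 * δ * |u / b'| ≤ 2 * (A * Q) * (2 * A * Λ / R) := by gcongr
        _ = 4 * A ^ 2 * Λ * R := by rw [hQ]; field_simp; ring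
    have h2 := abs_add_le (2 * δ * (u / b')) v
    linarith
  have n4 : |(X1 + X2) * (2 * δ * (u / b') + v) / b| ≤ 8 * A ^ 2 * (A ^ 2 + 1) * Λ / (M * R) := by
    rw [abs_div, abs_mul, abs_of_pos hb0]
    calc |X1 + X2| * |2 * δ * (u / b') + v| / b
        ≤ (2 * A / M) * (4 * (A ^ 2 + 1) * Λ * R) / (Q / A) := by
          have h1 : Q / A ≤ b := by
            rw [div_le_iff₀ hA0]
            linarith
          gcongr
      _ = 8 * A ^ 2 * (A ^ 2 + 1) * Λ / (M * R) := by rw [hQ]; field_simp; ring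
  have n5 := (abs_le.1 n4).1
  have hC0 : 0 < 3 * A ^ 5 * (A + 2 * C1) + 8 * A ^ 2 * (A ^ 2 + 1) := by positivity
  have n6 : 8 * A ^ 2 * (A ^ 2 + 1) * Λ / (M * R) ≤
      (3 * A ^ 5 * (A + 2 * C1) + 8 * A ^ 2 * (A ^ 2 + 1)) * Λ / (M * R) := by
    have : 0 ≤ 3 * A ^ 5 * (A + 2 * C1) := by positivity
    gcongr
    linarith
  have p0 : 0 ≤ 4 * δ * h * ((X1 + X2) * Y) / (b * b') := by positivity
  refine ⟨by rw [key]; linarith, fun h1 => ?_⟩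
  have p1 : δ * h / ((3 * A ^ 5 * (A + 2 * C1) + 8 * A ^ 2 * (A ^ 2 + 1)) * Λ * M ^ 2 * Q ^ 2) ≤
      4 * δ * h * ((X1 + X2) * Y) / (b * b') := by
    have q1 : 1 / (A ^ 2 * M ^ 2) ≤ (X1 + X2) * Y := by
      rw [div_le_iff₀ (by positivity)]
      exact h1
    calc δ * h / ((3 * A ^ 5 * (A + 2 * C1) + 8 * A ^ 2 * (A ^ 2 + 1)) * Λ * M ^ 2 * Q ^ 2)
        ≤ δ * h / ((3 * A ^ 3 * (A + 2 * C1)) * Λ * M ^ 2 * Q ^ 2) := by
          have r1 : 3 * A ^ 3 * (A + 2 * C1) ≤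
              3 * A ^ 5 * (A + 2 * C1) + 8 * A ^ 2 * (A ^ 2 + 1) := by
            have : A ^ 3 ≤ A ^ 5 := pow_le_pow_right₀ hA (by norm_num)
            have r2 : 3 * A ^ 3 * (A + 2 * C1) ≤ 3 * A ^ 5 * (A + 2 * C1) := by gcongr
            have r3 : 0 ≤ 8 * A ^ 2 * (A ^ 2 + 1) := by positivity
            linarith
          gcongr
      _ = 1 * δ * h * (1 / (A ^ 2 * M ^ 2)) / ((3 * A * Q) * ((A + 2 * C1) * Λ * Q)) := by
          field_simp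
      _ ≤ 4 * δ * h * ((X1 + X2) * Y) / (b * b') := by
          gcongr
          norm_num
  rw [key]
  linarith

theorem lnc_sign {X Y : ℝ} (h : 0 < X ↔ 0 < Y) : 0 ≤ X * Y := by
  rcases le_or_gt X 0 with h1 | h1
  · have h2 : Y ≤ 0 := by
      by_contra hcon
      push Not at hcon
      exact absurd (h.2 hcon) (not_lt.2 h1)
    exact mul_nonneg_of_nonpos_of_nonpos h1 h2
  · exact (mul_pos h1 (h.1 h1)).le

theorem lnc_sign2 {A M X Y : ℝ} (h : 0 < X ↔ 0 < Y)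
    (hX : 1 ≤ A * (|X| * M)) (hY : 1 ≤ A * (|Y| * M)) : 1 ≤ X * Y * (A ^ 2 * M ^ 2) := by
  have h1 : X * Y = |X| * |Y| := by
    rw [← abs_mul, abs_of_nonneg (lnc_sign h)]
  rw [h1]
  have h2 : 1 * 1 ≤ (A * (|X| * M)) * (A * (|Y| * M)) := by gcongr
  calc (1 : ℝ) = 1 * 1 := by ring
    _ ≤ _ := h2
    _ = _ := by ring

/-- ROW LNC. -/
theorem lnc (D : ℕ) (A : ℝ) (hD : 2 ≤ D) (hA : 1 ≤ A) : ∃ C : ℝ, 1 ≤ C ∧
    ∀ (k m : ℕ) (f : ℝ[X]) (z w1 w2 h X1 X2 Λ : ℝ), m ≤ k → f.natDegree ≤ D → 1 ≤ Λ →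
      0 ≤ h → w1 ≤ w2 →
      Cls D A k m f z w1 → Cls D A k m f z w2 → Cls D A k m f X1 (w1 + h) →
      Cls D A k m f X2 (w2 + h) →
      lab1 D A k f z w1 = lab1 D A k f z w2 → lab1 D A k f z w1 = lab1 D A k f X1 (w1 + h) →
      lab1 D A k f z w2 = lab1 D A k f X2 (w2 + h) → ¬ Core D A k f z →
      |yc f z w1 - yc f X1 (w1 + h)| ≤ 2 * Λ * 2 ^ k →
      |yc f z w2 - yc f X2 (w2 + h)| ≤ 2 * Λ * 2 ^ k →
      -(C * Λ / 2 ^ (m + k)) ≤ X2 ^ 2 - X1 ^ 2 ∧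
      (m < k → (w2 - w1) * h / (C * Λ * 4 ^ m * 16 ^ k) - C * Λ / 2 ^ (m + k) ≤
        X2 ^ 2 - X1 ^ 2) := by
  obtain ⟨C1, hC1, hB⟩ := hb D A hD hA
  have hA0 : 0 < A := by linarith
  refine ⟨3 * A ^ 5 * (A + 2 * C1) + 8 * A ^ 2 * (A ^ 2 + 1), ?_, ?_⟩
  · have h1 : 1 ≤ A ^ 2 := one_le_pow₀ hA
    have h2 : 0 ≤ 3 * A ^ 5 * (A + 2 * C1) := by positivity
    nlinarith
  intro k m f z w1 w2 h X1 X2 Λ hmk hf hΛ hh hw c1 c2 c3 c4 l1 l2 l3 hn e1 e2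
  have hhb : h ≤ C1 * Λ * 4 ^ k := by
    have := hB k m f z w1 X1 (w1 + h) Λ hmk hf hΛ c1 c3 l2 e1
    rw [show w1 + h - w1 = h by ring, abs_of_nonneg hh] at this
    exact this
  obtain ⟨-, g1, s1, -, -⟩ := lnc_lab l1
  obtain ⟨t2, g2, s2, q2, -⟩ := lnc_lab l2
  obtain ⟨t3, g3, s3, q3, -⟩ := lnc_lab l3
  have n1 := (lnc_nc c1 hn).2
  have n2 := (lnc_nc c2 hn).2
  have n3 := (lnc_nc c3 (fun hc => hn (q2.2 hc))).2
  have n4 := (lnc_nc c4 (fun hc => hn (q3.2 hc))).2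
  have u1 := lnc_up hD c1
  have u2 := lnc_up hD c2
  have u3 := lnc_up hD c3
  have u4 := lnc_up hD c4
  have hM : (0 : ℝ) < 2 ^ m := by positivity
  have hR : (0 : ℝ) < 2 ^ k := by positivity
  have hQ0 : (0 : ℝ) < 4 ^ k := by positivity
  have hQ : (4 : ℝ) ^ k = (2 ^ k) ^ 2 := by rw [← pow_mul, mul_comm, pow_mul]; norm_num
  have hQ2 : (16 : ℝ) ^ k = (4 ^ k) ^ 2 := by rw [← pow_mul, mul_comm, pow_mul]; norm_num
  have hM2 : (4 : ℝ) ^ m = (2 ^ m) ^ 2 := by rw [← pow_mul, mul_comm, pow_mul]; norm_num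
  rw [pow_add, hQ2, hM2]
  have hbb : A * 4 ^ k + 2 * h ≤ (A + 2 * C1) * Λ * 4 ^ k := by
    have h1 : A * 4 ^ k ≤ A * 4 ^ k * Λ := le_mul_of_one_le_right (by positivity) hΛ
    nlinarith
  have gg : 0 < X1 ↔ 0 < X2 := g2.symm.trans g3
  have z3 := c3.zlo
  have z4 := c4.zlo
  have z1 := c1.zlo
  rw [abs_le] at e1 e2
  by_cases hs : 0 < (derivative^[2] f).eval z - 2 * w1
  · have hs2 := s1.1 hs
    have hs3 := s2.1 hs
    have hs4 := s3.1 hs2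
    rw [abs_of_pos hs] at n1 u1
    rw [abs_of_pos hs2] at n2 u2
    rw [abs_of_pos hs3] at n3 u3
    rw [abs_of_pos hs4] at n4 u4
    have hδ : w2 - w1 ≤ A * 4 ^ k := by linarith
    have m1 : 4 ^ k / A ≤ (derivative^[2] f).eval z - 2 * w2 := by
      rw [div_le_iff₀ hA0]; linarith
    have m3 : 4 ^ k / A ≤ (derivative^[2] f).eval X1 - 2 * (w1 + h) := by
      rw [div_le_iff₀ hA0]; linarith
    have m4 : 4 ^ k / A ≤ (derivative^[2] f).eval X2 - 2 * (w2 + h) := by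
      rw [div_le_iff₀ hA0]; linarith
    obtain ⟨b, hb0, hb1, hb⟩ := lnc_dd f X1 X2 (w1 + h) (4 ^ k / A) (3 * A * 4 ^ k)
      (t2.symm.trans t3) m3 (by nlinarith) (by linarith) (by nlinarith)
    obtain ⟨b', hb0', hb1', hb'⟩ := lnc_dd f z X2 w2 (4 ^ k / A) (A * 4 ^ k + 2 * h)
      t3 m1 (by linarith) (by linarith) (by linarith)
    rw [div_le_iff₀ hA0] at hb0 hb0'
    have key := lnc_alg (Y := X2) (V := X2 - z) (b := b) (b' := b') (δ := w2 - w1) (X1 := X1)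
      (X2 := X2) (u := -(yc f z w2 - yc f X2 (w2 + h)))
      (v := -((yc f z w2 - yc f X2 (w2 + h)) - (yc f z w1 - yc f X1 (w1 + h)))) (h := h)
      hA hC1 hΛ hM hR hQ c3.zup c4.zup (by linarith) hb1 (by linarith) (hb1'.trans hbb)
      (by linarith) hδ hh (by rw [abs_le]; constructor <;> linarith)
      (by rw [abs_le]; constructor <;> linarith)
      (by rw [← hb]; unfold yc; ring) (by rw [← hb']; unfold yc; ring)
      (by have := lnc_sign gg; nlinarith [sq_nonneg X2])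
    refine ⟨key.1, fun hmk' => key.2 ?_⟩
    have h1 := lnc_sign2 gg (z3 hmk') (z4 hmk')
    have h2 : 0 ≤ X2 ^ 2 * (A ^ 2 * (2 ^ m) ^ 2) := by positivity
    nlinarith
  · have hs2 : ¬ 0 < (derivative^[2] f).eval z - 2 * w2 := fun hc => hs (s1.2 hc)
    have hs3 : ¬ 0 < (derivative^[2] f).eval X1 - 2 * (w1 + h) := fun hc => hs (s2.2 hc)
    have hs4 : ¬ 0 < (derivative^[2] f).eval X2 - 2 * (w2 + h) := fun hc => hs2 (s3.2 hc)
    push Not at hs hs2 hs3 hs4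
    rw [abs_of_nonpos hs] at n1 u1
    rw [abs_of_nonpos hs2] at n2 u2
    rw [abs_of_nonpos hs3] at n3 u3
    rw [abs_of_nonpos hs4] at n4 u4
    have hδ : w2 - w1 ≤ A * 4 ^ k := by linarith
    have m1 : (derivative^[2] f).eval z - 2 * w1 ≤ -(4 ^ k / A) := by
      rw [le_neg, div_le_iff₀ hA0]; linarith
    have m3 : (derivative^[2] f).eval X1 - 2 * (w1 + h) ≤ -(4 ^ k / A) := by
      rw [le_neg, div_le_iff₀ hA0]; linarith
    have m4 : (derivative^[2] f).eval X2 - 2 * (w2 + h) ≤ -(4 ^ k / A) := by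
      rw [le_neg, div_le_iff₀ hA0]; linarith
    obtain ⟨b, hb0, hb1, hb⟩ := lnc_dd f X1 X2 (w2 + h) (-(3 * A * 4 ^ k)) (-(4 ^ k / A))
      (t2.symm.trans t3) (by nlinarith) (by linarith) (by nlinarith) (by linarith)
    obtain ⟨b', hb0', hb1', hb'⟩ := lnc_dd f z X1 (w1 + h) (-(A * 4 ^ k + 2 * h)) (-(4 ^ k / A))
      t2 (by linarith) (by linarith) (by linarith) (by linarith)
    rw [le_neg, div_le_iff₀ hA0] at hb1 hb1'
    have key := lnc_alg (Y := z) (V := z - X1) (b := -b) (b' := -b') (δ := w2 - w1) (X1 := X1)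
      (X2 := X2) (u := -(yc f z w1 - yc f X1 (w1 + h)))
      (v := ((yc f z w2 - yc f X2 (w2 + h)) - (yc f z w1 - yc f X1 (w1 + h)))) (h := h)
      hA hC1 hΛ hM hR hQ c3.zup c4.zup (by linarith) (by linarith) (by linarith)
      (by linarith)
      (by linarith) hδ hh (by rw [abs_le]; constructor <;> linarith)
      (by rw [abs_le]; constructor <;> linarith)
      (by rw [show -b * (X2 - X1) = -(b * (X2 - X1)) by ring, ← hb]; unfold yc; ring)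
      (by rw [show -b' * (z - X1) = b' * (X1 - z) by ring, ← hb']; unfold yc; ring)
      (by
        have h1 := lnc_sign g2.symm
        have h2 := lnc_sign (g1.trans g3).symm
        nlinarith)
    refine ⟨key.1, fun hmk' => key.2 ?_⟩
    have h1 := lnc_sign2 g2.symm (z3 hmk') (z1 hmk')
    have h2 : 0 ≤ X2 * z * (A ^ 2 * (2 ^ m) ^ 2) := by
      have := lnc_sign (g1.trans g3).symm
      positivity
    nlinarith

end Pool.Agent.SEP
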