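import Pool.Agent.SEPH.F1H1
import Pool.Agent.SEPH.MEAS

/-!
Row PA: reduction of the volume of the set of pairs to relative times.
-/

namespace Pool.Agent.SEP

open MeasureTheory Set Pool.Agent.MP_6cbfb8_an Polynomial
open scoped ENNReal Real

/-- The volume of a set in which any two points are close. -/
lemma pa_box {n : ℕ} (r : Fin n → ℝ) (hr : ∀ j, 0 ≤ r j) (s : Set (Fin n → ℝ))
    (h : ∀ x ∈ s, ∀ y ∈ s, ∀ j, |x j - y j| ≤ r j) :
    volume s ≤ ENNReal.ofReal (∏ j, (2 * r j)) := by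
  rcases s.eq_empty_or_nonempty with rfl | ⟨y, hy⟩
  · simp
  have hsub : s ⊆ Icc (fun j => y j - r j) (fun j => y j + r j) := by
    intro x hx
    refine ⟨fun j => ?_, fun j => ?_⟩
    · have := abs_le.1 (h x hx y hy j)
      simp only
      linarith [this.1]
    · have := abs_le.1 (h x hx y hy j)
      simp only
      linarith [this.2]
  refine (measure_mono hsub).trans ?_
  rw [Real.volume_Icc_pi, ENNReal.ofReal_prod_of_nonneg (fun j _ => by have := hr j; positivity)]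
  refine Finset.prod_le_prod' fun j _ => ENNReal.ofReal_le_ofReal (by linarith)

/-- The part of a symmetric set of pairs with increasing time. -/
lemma pa_sym {n : ℕ} (P : Set (((Fin n → ℝ) × ℝ) × ((Fin n → ℝ) × ℝ)))
    (hP : MeasurableSet P) (hs : ∀ p q, (p, q) ∈ P → (q, p) ∈ P) :
    volume P ≤ 2 * volume (P ∩ {q | q.1.2 ≤ q.2.2}) := by
  have h1 : P ⊆ (P ∩ {q | q.1.2 ≤ q.2.2}) ∪ Prod.swap ⁻¹' (P ∩ {q | q.1.2 ≤ q.2.2}) := by
    rintro ⟨p, q⟩ h
    rcases le_total p.2 q.2 with h2 | h2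
    · exact Or.inl ⟨h, h2⟩
    · exact Or.inr ⟨hs p q h, h2⟩
  have hm : MeasurableSet (P ∩ {q : ((Fin n → ℝ) × ℝ) × ((Fin n → ℝ) × ℝ) | q.1.2 ≤ q.2.2}) :=
    hP.inter (measurableSet_le (by fun_prop) (by fun_prop))
  have h2 : volume (Prod.swap ⁻¹' (P ∩ {q : ((Fin n → ℝ) × ℝ) × ((Fin n → ℝ) × ℝ) |
      q.1.2 ≤ q.2.2})) = volume (P ∩ {q | q.1.2 ≤ q.2.2}) :=
    (Measure.measurePreserving_swap (μ := (volume : Measure ((Fin n → ℝ) × ℝ)))
      (ν := (volume : Measure ((Fin n → ℝ) × ℝ)))).measure_preimage hm.nullMeasurableSet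
  calc volume P ≤ _ := measure_mono h1
    _ ≤ _ := measure_union_le _ _
    _ = 2 * volume (P ∩ {q | q.1.2 ≤ q.2.2}) := by rw [h2, two_mul]

/-- Tonelli in the order `z`, `h`, `w`, `z'`. -/
lemma pa_tonelli {n : ℕ} (P : Set (((Fin n → ℝ) × ℝ) × ((Fin n → ℝ) × ℝ)))
    (hP : MeasurableSet P) (K : ℝ≥0∞) (hK : K ≠ ⊤) (T : Set (Fin n → ℝ)) (hT : MeasurableSet T)
    (hz : ∀ z w q, ((z, w), q) ∈ P → z ∈ T)
    (hb : ∀ z w w', volume {z' | ((z, w), (z', w')) ∈ P} ≤ K) :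
    volume (P ∩ {q | q.1.2 ≤ q.2.2}) ≤
      K * ∫⁻ z in T, ∫⁻ h in Ici (0 : ℝ), volume {w | ∃ z', ((z, w), (z', w + h)) ∈ P} := by
  set P1 : Set (((Fin n → ℝ) × ℝ) × ((Fin n → ℝ) × ℝ)) := P ∩ {q | q.1.2 ≤ q.2.2} with hP1
  have hm : MeasurableSet P1 := hP.inter (measurableSet_le (by fun_prop) (by fun_prop))
  have e1 : volume P1 = ∫⁻ z : Fin n → ℝ, ∫⁻ w : ℝ, volume (Prod.mk (z, w) ⁻¹' P1) := by
    rw [Measure.volume_eq_prod, Measure.prod_apply hm, Measure.volume_eq_prod,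
      lintegral_prod _ (measurable_measure_prodMk_left hm).aemeasurable]
  have e2 : ∀ (z : Fin n → ℝ) (w : ℝ), volume (Prod.mk (z, w) ⁻¹' P1) =
      ∫⁻ h : ℝ, volume {z' : Fin n → ℝ | ((z, w), (z', w + h)) ∈ P1} := by
    intro z w
    have hm2 : MeasurableSet (Prod.mk (z, w) ⁻¹' P1) := measurable_prodMk_left hm
    rw [Measure.volume_eq_prod, Measure.prod_apply_symm hm2,
      ← lintegral_add_left_eq_self _ w]
    rfl
  have e3 : ∀ z : Fin n → ℝ,
      ∫⁻ w : ℝ, ∫⁻ h : ℝ, volume {z' : Fin n → ℝ | ((z, w), (z', w + h)) ∈ P1} =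
      ∫⁻ h : ℝ, ∫⁻ w : ℝ, volume {z' : Fin n → ℝ | ((z, w), (z', w + h)) ∈ P1} := by
    intro z
    refine lintegral_lintegral_swap ?_
    have hmap : Measurable fun q : (ℝ × ℝ) × (Fin n → ℝ) =>
        (((z, q.1.1), (q.2, q.1.1 + q.1.2)) : ((Fin n → ℝ) × ℝ) × ((Fin n → ℝ) × ℝ)) := by
      fun_prop
    have hm3 := measurable_measure_prodMk_left (ν := (volume : Measure (Fin n → ℝ))) (hmap hm)
    exact hm3.aemeasurable
  have e4 : ∀ (z : Fin n → ℝ) (h : ℝ),
      ∫⁻ w : ℝ, volume {z' : Fin n → ℝ | ((z, w), (z', w + h)) ∈ P1} ≤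
      (Ici (0 : ℝ)).indicator
        (fun h => K * volume {w | ∃ z', ((z, w), (z', w + h)) ∈ P}) h := by
    intro z h
    by_cases hh : h ∈ Ici (0 : ℝ)
    · rw [indicator_of_mem hh]
      refine le_trans (lintegral_mono fun w => ?_)
        (lintegral_indicator_const_le {w | ∃ z', ((z, w), (z', w + h)) ∈ P} K)
      by_cases hw : w ∈ {w | ∃ z', ((z, w), (z', w + h)) ∈ P}
      · rw [indicator_of_mem hw]
        exact (measure_mono fun z' hz' => hz'.1).trans (hb z w (w + h))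
      · rw [indicator_of_notMem hw]
        have : {z' : Fin n → ℝ | ((z, w), (z', w + h)) ∈ P1} = ∅ := by
          ext z'
          simp only [mem_ofPred_eq, mem_empty_iff_false, iff_false]
          intro hz'
          exact hw ⟨z', hz'.1⟩
        rw [this]
        simp
    · rw [indicator_of_notMem hh]
      have : ∀ w : ℝ, {z' : Fin n → ℝ | ((z, w), (z', w + h)) ∈ P1} = ∅ := by
        intro w
        ext z'
        simp only [mem_ofPred_eq, mem_empty_iff_false, iff_false]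
        intro hz'
        have h2 : w ≤ w + h := hz'.2
        exact hh (by simpa using h2)
      simp [this]
  have e5 : ∀ z : Fin n → ℝ,
      ∫⁻ w : ℝ, volume (Prod.mk (z, w) ⁻¹' P1) ≤
      T.indicator (fun z => K * ∫⁻ h in Ici (0 : ℝ),
        volume {w | ∃ z', ((z, w), (z', w + h)) ∈ P}) z := by
    intro z
    by_cases hzT : z ∈ T
    · rw [indicator_of_mem hzT, lintegral_congr fun w => e2 z w, e3 z]
      refine (lintegral_mono fun h => e4 z h).trans (le_of_eq ?_)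
      rw [lintegral_indicator measurableSet_Ici, lintegral_const_mul' _ _ hK]
    · rw [indicator_of_notMem hzT]
      have : ∀ w : ℝ, Prod.mk (z, w) ⁻¹' P1 = ∅ := by
        intro w
        ext q
        simp only [mem_preimage, mem_empty_iff_false, iff_false]
        intro hq
        exact hzT (hz z w q hq.1)
      simp [this]
  rw [e1]
  refine (lintegral_mono fun z => e5 z).trans (le_of_eq ?_)
  rw [lintegral_indicator hT, lintegral_const_mul' _ _ hK]

/-- ROW PA. Reduction of the pairs to relative time. `Pr` is symmetric under exchange of the two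
points, so its volume is at most twice that of the part with `w' ≥ w`; Tonelli in the order
`z`, `h = w'-w ≥ 0`, `w`, `z'`; for given `(z,w,h)` the set of `z'` has volume `≤ ∏ (CΛ 2^{-k_j})`
by F1. -/
theorem pa (n D : ℕ) (hD : 2 ≤ D) (A : ℝ) (hA : 1 ≤ A) : ∃ C : ℝ, 1 ≤ C ∧
    ∀ (k m : Fin n → ℕ) (f : Fin n → ℝ[X]) (σ : Finset (Fin n)) (Λ : ℝ), (∀ j, m j ≤ k j) →
      (∀ j, (f j).natDegree ≤ D) → 1 ≤ Λ →
      volume (Pr D A k m f σ Λ) ≤ ENNReal.ofReal ((C * Λ) ^ n * ∏ j, (1 / 2 ^ k j : ℝ)) *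
        ∫⁻ z in {z : Fin n → ℝ | (∀ j, |z j| * 2 ^ m j ≤ A) ∧ |∑ j, z j ^ 2 - 1| ≤ Λ * om k m},
          ∫⁻ h in Ici (0 : ℝ), volume {w | ∃ z', ((z, w), (z', w + h)) ∈ Pr D A k m f σ Λ} := by
  obtain ⟨C, hC, hf1⟩ := f1 D A hD hA
  refine ⟨4 * C, by linarith, fun k m f σ Λ hmk hf hΛ => ?_⟩
  set P := Pr D A k m f σ Λ with hPdef
  rcases Nat.eq_zero_or_pos n with hn | hn
  · subst hn
    have : P = ∅ := by
      ext q
      simp only [mem_empty_iff_false, iff_false]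
      intro hq
      have h1 := hq.1.2.2
      simp [om] at h1
      linarith
    rw [this]
    simp
  have hP : MeasurableSet P := meas_Pr D A k m f σ Λ
  have hΛ0 : 0 < Λ := by linarith
  have hC0 : 0 < C := by linarith
  set T : Set (Fin n → ℝ) :=
    {z : Fin n → ℝ | (∀ j, |z j| * 2 ^ m j ≤ A) ∧ |∑ j, z j ^ 2 - 1| ≤ Λ * om k m} with hTdef
  have hT : MeasurableSet T := by
    have h1 : MeasurableSet {z : Fin n → ℝ | ∀ j, |z j| * 2 ^ m j ≤ A} := by
      rw [ofPred_forall]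
      exact MeasurableSet.iInter fun j => measurableSet_le (by fun_prop) measurable_const
    have h2 : MeasurableSet {z : Fin n → ℝ | |∑ j, z j ^ 2 - 1| ≤ Λ * om k m} :=
      measurableSet_le (by fun_prop) measurable_const
    exact h1.inter h2
  set K : ℝ≥0∞ := ENNReal.ofReal (∏ j : Fin n, (2 * (C * Λ / 2 ^ k j))) with hK
  have hsym : ∀ p q, (p, q) ∈ P → (q, p) ∈ P := by
    intro p q h
    refine ⟨h.2.1, h.1, h.2.2.1.symm, fun j => ?_⟩
    rw [abs_sub_comm]
    exact h.2.2.2 j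
  have hz : ∀ z w q, ((z, w), q) ∈ P → z ∈ T := by
    intro z w q h
    exact ⟨fun j => (h.1.1 j).zup, h.1.2.2⟩
  have hb : ∀ z w w', volume {z' | ((z, w), (z', w')) ∈ P} ≤ K := by
    intro z w w'
    refine pa_box (fun j => C * Λ / 2 ^ k j) (fun j => by positivity) _ fun x hx y hy j => ?_
    refine hf1 (k j) (m j) (f j) (y j) (x j) w' Λ (hmk j) (hf j) hΛ (hy.2.1.1 j) (hx.2.1.1 j)
      ?_ ?_
    · have h1 := congrFun hy.2.2.1 j
      have h2 := congrFun hx.2.2.1 j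
      exact h1.symm.trans h2
    · have h1 := abs_le.1 (hy.2.2.2 j)
      have h2 := abs_le.1 (hx.2.2.2 j)
      simp only at h1 h2
      rw [abs_le]
      exact ⟨by linarith [h1.2, h2.1], by linarith [h1.1, h2.2]⟩
  refine (pa_sym P hP hsym).trans ?_
  refine (mul_le_mul_right (pa_tonelli P hP K ENNReal.ofReal_ne_top T hT hz hb) 2).trans ?_
  rw [← mul_assoc]
  refine mul_le_mul_left ?_ _
  rw [hK, show (2 : ℝ≥0∞) = ENNReal.ofReal 2 by simp, ← ENNReal.ofReal_mul (by norm_num)]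
  refine ENNReal.ofReal_le_ofReal ?_
  have h3 : ∏ j : Fin n, (2 * (C * Λ / 2 ^ k j)) =
      (2 * C * Λ) ^ n * ∏ j : Fin n, (1 / 2 ^ k j : ℝ) := by
    have e : (2 * C * Λ) ^ n = ∏ _j : Fin n, (2 * C * Λ) := by
      rw [Finset.prod_const, Finset.card_univ, Fintype.card_fin]
    rw [e, ← Finset.prod_mul_distrib]
    refine Finset.prod_congr rfl fun j _ => ?_
    ring
  rw [h3, ← mul_assoc]
  refine mul_le_mul_of_nonneg_right ?_ (Finset.prod_nonneg fun j _ => by positivity)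
  have h4 : (4 * C * Λ) ^ n = 2 ^ n * (2 * C * Λ) ^ n := by
    rw [← mul_pow]
    congr 1
    ring
  rw [h4]
  refine mul_le_mul_of_nonneg_right ?_ (by positivity)
  exact le_self_pow₀ (by norm_num) hn.ne'

end Pool.Agent.SEP
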