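import Pool.Agent.SEPH.Defs

/-!
Volumes of thin shells in boxes.
-/

namespace Pool.Agent.SEP

open MeasureTheory Set Pool.Agent.MP_6cbfb8_an Polynomial
open scoped ENNReal Real

/-- Slices in one coordinate. -/
lemma shl_slice (m : ℕ) (i : Fin (m + 1)) (T : Set (Fin (m + 1) → ℝ)) (hT : MeasurableSet T)
    (U : Set (Fin m → ℝ)) (hU : MeasurableSet U) (b : ℝ≥0∞)
    (h1 : ∀ (x : ℝ) (y : Fin m → ℝ), i.insertNth x y ∈ T → y ∈ U)
    (h2 : ∀ y ∈ U, volume {x : ℝ | i.insertNth (α := fun _ => ℝ) x y ∈ T} ≤ b) :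
    volume T ≤ b * volume U := by
  set e := MeasurableEquiv.piFinSuccAbove (fun _ : Fin (m + 1) => ℝ) i with he
  have hmp : MeasurePreserving e := volume_preserving_piFinSuccAbove (fun _ => ℝ) i
  have e1 : volume T = volume (e.symm ⁻¹' T) := ((hmp.symm e).measure_preimage_equiv T).symm
  have hT' : MeasurableSet (e.symm ⁻¹' T) := e.symm.measurable hT
  have e2 : volume (e.symm ⁻¹' T) = ∫⁻ y : Fin m → ℝ, volume {x : ℝ | e.symm (x, y) ∈ T} := by
    rw [Measure.volume_eq_prod, Measure.prod_apply_symm hT']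
    rfl
  rw [e1, e2]
  calc ∫⁻ y : Fin m → ℝ, volume {x : ℝ | e.symm (x, y) ∈ T}
      ≤ ∫⁻ y : Fin m → ℝ, U.indicator (fun _ => b) y := by
        refine lintegral_mono fun y => ?_
        by_cases hy : y ∈ U
        · rw [indicator_of_mem hy]
          exact h2 y hy
        · rw [indicator_of_notMem hy]
          refine le_of_eq ?_
          have : {x : ℝ | e.symm (x, y) ∈ T} = ∅ := by
            refine eq_empty_of_forall_notMem fun x hx => hy (h1 x y hx)
          rw [this, measure_empty]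
    _ = b * volume U := by rw [lintegral_indicator_const hU]

/-- One coordinate away from zero with its square in a short interval. -/
lemma shl_one {c u ε : ℝ} (hc : 0 < c) (hε : 0 ≤ ε) :
    volume {x : ℝ | c ≤ |x| ∧ |x ^ 2 - u| ≤ ε} ≤ ENNReal.ofReal (2 * ε / c) := by
  have h1 : ∀ s : Set ℝ, (∀ x ∈ s, ∀ y ∈ s, |x - y| ≤ ε / c) → volume s ≤ ENNReal.ofReal (ε / c) := by
    intro s hs
    refine (Real.volume_le_diam s).trans ?_
    refine Metric.ediam_le fun x hx y hy => ?_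
    rw [edist_dist, Real.dist_eq]
    exact ENNReal.ofReal_le_ofReal (hs x hx y hy)
  have h2 : {x : ℝ | c ≤ |x| ∧ |x ^ 2 - u| ≤ ε} ⊆ {x : ℝ | c ≤ x ∧ |x ^ 2 - u| ≤ ε} ∪
      {x : ℝ | x ≤ -c ∧ |x ^ 2 - u| ≤ ε} := by
    rintro x ⟨hx, hx2⟩
    rcases le_abs.1 hx with h | h
    · exact Or.inl ⟨h, hx2⟩
    · exact Or.inr ⟨by linarith, hx2⟩
  have key : ∀ x y : ℝ, c ≤ x → c ≤ y → |x ^ 2 - u| ≤ ε → |y ^ 2 - u| ≤ ε → |x - y| ≤ ε / c := by
    intro x y hx hy h3 h4
    rw [le_div_iff₀ hc]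
    have h5 : |x ^ 2 - y ^ 2| ≤ 2 * ε := by
      rw [abs_le] at h3 h4 ⊢
      constructor <;> linarith
    have h6 : |x ^ 2 - y ^ 2| = |x - y| * (x + y) := by
      conv_rhs => rw [← abs_of_pos (show 0 < x + y by linarith), ← abs_mul]
      congr 1
      ring
    rw [h6] at h5
    have h7 : |x - y| * (2 * c) ≤ |x - y| * (x + y) :=
      mul_le_mul_of_nonneg_left (by linarith) (abs_nonneg _)
    linarith
  refine (measure_mono h2).trans ((measure_union_le _ _).trans ?_)
  have h3 : volume {x : ℝ | c ≤ x ∧ |x ^ 2 - u| ≤ ε} ≤ ENNReal.ofReal (ε / c) :=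
    h1 _ fun x hx y hy => key x y hx.1 hy.1 hx.2 hy.2
  have h4 : volume {x : ℝ | x ≤ -c ∧ |x ^ 2 - u| ≤ ε} ≤ ENNReal.ofReal (ε / c) := by
    refine h1 _ fun x hx y hy => ?_
    have := key (-x) (-y) (by linarith [hx.1]) (by linarith [hy.1]) (by rw [neg_sq]; exact hx.2)
      (by rw [neg_sq]; exact hy.2)
    rwa [show -x - -y = -(x - y) by ring, abs_neg] at this
  refine (add_le_add h3 h4).trans (le_of_eq ?_)
  rw [← ENNReal.ofReal_add (by positivity) (by positivity)]
  congr 1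
  ring

/-- Boxes. -/
lemma shl_box {ι : Type*} [Fintype ι] (A : ℝ) (hA : 0 ≤ A) (m : ι → ℕ) :
    MeasurableSet {z : ι → ℝ | ∀ j, |z j| * 2 ^ m j ≤ A} ∧
    volume {z : ι → ℝ | ∀ j, |z j| * 2 ^ m j ≤ A} =
      ENNReal.ofReal (∏ j, (2 * A * (1 / 2 ^ m j) : ℝ)) := by
  have h1 : {z : ι → ℝ | ∀ j, |z j| * 2 ^ m j ≤ A} =
      Set.pi univ fun j => Icc (-(A * (1 / 2 ^ m j))) (A * (1 / 2 ^ m j)) := by
    ext z
    simp only [mem_ofPred_eq, mem_univ_pi, mem_Icc, ← abs_le]
    refine forall_congr' fun j => ?_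
    rw [mul_one_div, le_div_iff₀ (by positivity)]
  rw [h1]
  refine ⟨MeasurableSet.univ_pi fun _ => measurableSet_Icc, ?_⟩
  rw [volume_pi_pi, ENNReal.ofReal_prod_of_nonneg fun j _ => by positivity]
  refine Finset.prod_congr rfl fun j _ => ?_
  rw [Real.volume_Icc]
  congr 1
  ring

/-- ROW SHL. Volume of a thin shell in a dyadic box. -/
theorem shl (n : ℕ) (hn : 1 ≤ n) (A : ℝ) (hA : 1 ≤ A) : ∃ C : ℝ, 1 ≤ C ∧
    ∀ (k m : Fin n → ℕ) (Λ : ℝ), 1 ≤ Λ →
      volume {z : Fin n → ℝ | (∀ j, |z j| * 2 ^ m j ≤ A) ∧ |∑ j, z j ^ 2 - 1| ≤ Λ * om k m} ≤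
        ENNReal.ofReal (C * Λ * om k m * ∏ j, (1 / 2 ^ m j : ℝ)) := by
  obtain ⟨N, rfl⟩ : ∃ N, n = N + 1 := ⟨n - 1, by omega⟩
  have hA0 : 0 ≤ A := by linarith
  have h2A : 1 ≤ (2 * A) ^ (N + 1) := one_le_pow₀ (by linarith)
  have hN : (1:ℝ) ≤ (N + 1 : ℕ) := by
    push_cast
    have : (0:ℝ) ≤ N := Nat.cast_nonneg N
    linarith
  set C : ℝ := 2 * ((N + 1 : ℕ) : ℝ) ^ 2 * (2 * A) ^ (N + 1) with hC
  have hC1 : 2 * (2 * A) ^ (N + 1) ≤ C := by
    rw [hC]
    have : (1:ℝ) ≤ ((N + 1 : ℕ) : ℝ) ^ 2 := one_le_pow₀ hN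
    nlinarith
  refine ⟨C, by linarith, fun k m Λ hΛ => ?_⟩
  have hom : 0 < om k m := by
    unfold om
    exact Finset.sum_pos (fun j _ => by positivity) Finset.univ_nonempty
  set ε : ℝ := Λ * om k m with hε
  have hε0 : 0 < ε := by positivity
  set P : ℝ := ∏ j, (1 / 2 ^ m j : ℝ) with hP
  have hP0 : 0 < P := Finset.prod_pos fun j _ => by positivity
  have hgoal : C * Λ * om k m * P = C * ε * P := by
    rw [hε]
    ring
  rw [hgoal]
  by_cases hbig : 1 / 2 < ε
  · refine (measure_mono (t := {z : Fin (N + 1) → ℝ | ∀ j, |z j| * 2 ^ m j ≤ A})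
      fun z hz => hz.1).trans ?_
    rw [(shl_box A hA0 m).2]
    apply ENNReal.ofReal_le_ofReal
    rw [Finset.prod_mul_distrib, Finset.prod_const, Finset.card_univ, Fintype.card_fin, ← hP]
    refine mul_le_mul_of_nonneg_right ?_ hP0.le
    nlinarith
  · push Not at hbig
    set c : ℝ := √(1 / (2 * (N + 1 : ℕ))) with hc
    have hc0 : 0 < c := Real.sqrt_pos.2 (by positivity)
    have hc2 : c ^ 2 = 1 / (2 * (N + 1 : ℕ)) := Real.sq_sqrt (by positivity)
    set T : Fin (N + 1) → Set (Fin (N + 1) → ℝ) := fun i =>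
      {z | ((∀ j, |z j| * 2 ^ m j ≤ A) ∧ |∑ j, z j ^ 2 - 1| ≤ ε) ∧ c ≤ |z i|} with hTdef
    have hsub : {z : Fin (N + 1) → ℝ | (∀ j, |z j| * 2 ^ m j ≤ A) ∧ |∑ j, z j ^ 2 - 1| ≤ ε} ⊆
        ⋃ i, T i := by
      intro z hz
      by_contra hcon
      rw [mem_iUnion, not_exists] at hcon
      have h1 : ∀ i, z i ^ 2 < 1 / (2 * (N + 1 : ℕ)) := by
        intro i
        have h2 : |z i| < c := by
          by_contra h3
          exact hcon i ⟨hz, not_lt.1 h3⟩
        rw [← hc2, ← sq_abs (z i)]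
        exact pow_lt_pow_left₀ h2 (abs_nonneg _) two_ne_zero
      have h2 : ∑ i, z i ^ 2 < 1 / 2 := by
        calc ∑ i, z i ^ 2 < ∑ _i : Fin (N + 1), (1 / (2 * (N + 1 : ℕ)) : ℝ) :=
              Finset.sum_lt_sum_of_nonempty Finset.univ_nonempty fun i _ => h1 i
          _ = 1 / 2 := by
              rw [Finset.sum_const, Finset.card_univ, Fintype.card_fin, nsmul_eq_mul]
              field_simp
      have h3 := (abs_le.1 hz.2).1
      linarith
    have hTm : ∀ i, MeasurableSet (T i) := by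
      intro i
      have m1 : MeasurableSet {z : Fin (N + 1) → ℝ | |∑ j, z j ^ 2 - 1| ≤ ε} :=
        measurableSet_le (by fun_prop) measurable_const
      have m2 : MeasurableSet {z : Fin (N + 1) → ℝ | c ≤ |z i|} :=
        measurableSet_le measurable_const (by fun_prop)
      exact ((shl_box A hA0 m).1.inter m1).inter m2
    have hT : ∀ i, volume (T i) ≤ ENNReal.ofReal (2 * ((N + 1 : ℕ) : ℝ) * (2 * A) ^ (N + 1) * ε * P) := by
      intro i
      by_cases hi : c ≤ A * (1 / 2 ^ m i)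
      · have hsl := shl_slice N i (T i) (hTm i)
          {y : Fin N → ℝ | ∀ j, |y j| * 2 ^ m (i.succAbove j) ≤ A}
          (shl_box A hA0 fun j => m (i.succAbove j)).1 (ENNReal.ofReal (2 * ε / c)) ?_ ?_
        · refine hsl.trans ?_
          rw [(shl_box A hA0 fun j => m (i.succAbove j)).2, ← ENNReal.ofReal_mul (by positivity)]
          apply ENNReal.ofReal_le_ofReal
          rw [Finset.prod_mul_distrib, Finset.prod_const, Finset.card_univ, Fintype.card_fin]
          set Q : ℝ := ∏ j : Fin N, (1 / 2 ^ m (i.succAbove j) : ℝ) with hQ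
          have hQ0 : 0 < Q := Finset.prod_pos fun j _ => by positivity
          have hPQ : P = 1 / 2 ^ m i * Q := by
            rw [hP, Fin.prod_univ_succAbove _ i]
          have h1 : 1 / c ≤ 2 * ((N + 1 : ℕ) : ℝ) * (A * (1 / 2 ^ m i)) := by
            have h2 : 1 / c = 2 * ((N + 1 : ℕ) : ℝ) * c := by
              rw [div_eq_iff hc0.ne', mul_assoc, ← sq, hc2]
              field_simp
            rw [h2]
            exact mul_le_mul_of_nonneg_left hi (by positivity)
          calc 2 * ε / c * ((2 * A) ^ N * Q) = (2 * ε * (2 * A) ^ N * Q) * (1 / c) := by ring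
            _ ≤ (2 * ε * (2 * A) ^ N * Q) * (2 * ((N + 1 : ℕ) : ℝ) * (A * (1 / 2 ^ m i))) :=
                mul_le_mul_of_nonneg_left h1 (by positivity)
            _ = _ := by
                rw [hPQ, pow_succ]
                ring
        · intro x y hxy j
          have h1 := hxy.1.1 (i.succAbove j)
          rwa [Fin.insertNth_apply_succAbove] at h1
        · intro y hy
          refine (measure_mono ?_).trans (shl_one (u := 1 - ∑ j, y j ^ 2) hc0 hε0.le)
          intro x hx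
          have h1 := hx.2
          rw [Fin.insertNth_apply_same] at h1
          refine ⟨h1, ?_⟩
          have h2 := hx.1.2
          rw [Fin.sum_univ_succAbove _ i, Fin.insertNth_apply_same] at h2
          simp only [Fin.insertNth_apply_succAbove] at h2
          rwa [show x ^ 2 - (1 - ∑ j, y j ^ 2) = x ^ 2 + ∑ j, y j ^ 2 - 1 by ring]
      · have : T i = ∅ := by
          refine eq_empty_of_forall_notMem fun z hz => hi ?_
          refine hz.2.trans ?_
          rw [mul_one_div, le_div_iff₀ (by positivity)]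
          exact hz.1.1 i
        rw [this, measure_empty]
        exact bot_le
    refine (measure_mono hsub).trans ((measure_iUnion_fintype_le _ _).trans ?_)
    refine (Finset.sum_le_sum fun i _ => hT i).trans (le_of_eq ?_)
    rw [Finset.sum_const, Finset.card_univ, Fintype.card_fin, nsmul_eq_mul,
      ← ENNReal.ofReal_natCast, ← ENNReal.ofReal_mul (by positivity)]
    congr 1
    rw [hC]
    ring

/-- ROW G1. Volume of the class-shell set. -/
theorem vol_Zf (n D : ℕ) (hD : 2 ≤ D) (A : ℝ) (hA : 1 ≤ A) : ∃ C : ℝ, 1 ≤ C ∧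
    ∀ (k m : Fin n → ℕ) (f : Fin n → ℝ[X]) (σ : Finset (Fin n)) (Λ : ℝ) (J : Fin n), 1 ≤ Λ →
      volume (Zf D A k m f σ Λ) ≤
        ENNReal.ofReal (C * Λ * om k m * (∏ j, (1 / 2 ^ m j : ℝ)) * 4 ^ k J) := by
  rcases Nat.eq_zero_or_pos n with hn | hn
  · subst hn
    exact ⟨1, le_rfl, fun _ _ _ _ _ J => J.elim0⟩
  obtain ⟨C, hC, H⟩ := shl n hn A hA
  refine ⟨C * A, by nlinarith, fun k m f σ Λ J hΛ => ?_⟩
  set Sh : Set (Fin n → ℝ) := {z | (∀ j, |z j| * 2 ^ m j ≤ A) ∧ |∑ j, z j ^ 2 - 1| ≤ Λ * om k m}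
    with hSh
  have hShm : MeasurableSet Sh := by
    have m1 : MeasurableSet {z : Fin n → ℝ | |∑ j, z j ^ 2 - 1| ≤ Λ * om k m} :=
      measurableSet_le (by fun_prop) measurable_const
    exact (shl_box A (by linarith) m).1.inter m1
  set T : Set ((Fin n → ℝ) × ℝ) := {p | p.1 ∈ Sh ∧
    |(derivative^[2] (f J)).eval (p.1 J) - 2 * p.2| ≤ A * 4 ^ k J} with hT
  have hTm : MeasurableSet T := by
    have h1 : Continuous fun p : (Fin n → ℝ) × ℝ =>
        (derivative^[2] (f J)).eval (p.1 J) - 2 * p.2 := by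
      have h2 : Continuous fun p : (Fin n → ℝ) × ℝ => (derivative^[2] (f J)).eval (p.1 J) :=
        (derivative^[2] (f J)).continuous.comp (by fun_prop)
      exact h2.sub (by fun_prop)
    have m1 : MeasurableSet {p : (Fin n → ℝ) × ℝ |
        |(derivative^[2] (f J)).eval (p.1 J) - 2 * p.2| ≤ A * 4 ^ k J} :=
      measurableSet_le h1.abs.measurable measurable_const
    exact (hShm.preimage measurable_fst).inter m1
  have hsub : Zf D A k m f σ Λ ⊆ T := by
    rintro p ⟨h1, _, h3⟩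
    refine ⟨⟨fun j => (h1 j).zup, h3⟩, ?_⟩
    have h4 := (h1 J).up 2 (Finset.mem_Icc.2 ⟨le_rfl, hD⟩)
    unfold gd at h4
    rw [if_pos rfl] at h4
    refine h4.trans (le_of_eq ?_)
    rw [mul_comm (k J) 2, pow_mul]
    norm_num
  refine (measure_mono hsub).trans ?_
  rw [Measure.volume_eq_prod, Measure.prod_apply hTm]
  have hw : ∀ z : Fin n → ℝ, volume (Prod.mk z ⁻¹' T) ≤
      Sh.indicator (fun _ => ENNReal.ofReal (A * 4 ^ k J)) z := by
    intro z
    by_cases hz : z ∈ Sh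
    · rw [indicator_of_mem hz]
      set a := (derivative^[2] (f J)).eval (z J) with ha
      have h1 : Prod.mk z ⁻¹' T ⊆ Icc (a / 2 - A * 4 ^ k J / 2) (a / 2 + A * 4 ^ k J / 2) := by
        intro w hw
        have h2 : |a - 2 * w| ≤ A * 4 ^ k J := hw.2
        rw [abs_le] at h2
        constructor <;> linarith [h2.1, h2.2]
      refine (measure_mono h1).trans ?_
      rw [Real.volume_Icc]
      apply ENNReal.ofReal_le_ofReal
      linarith
    · rw [indicator_of_notMem hz]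
      refine le_of_eq ?_
      have : Prod.mk z ⁻¹' T = ∅ := eq_empty_of_forall_notMem fun w hw => hz hw.1
      rw [this, measure_empty]
  refine (lintegral_mono hw).trans ?_
  rw [lintegral_indicator_const hShm]
  refine (mul_le_mul' le_rfl (H k m Λ hΛ)).trans (le_of_eq ?_)
  rw [← ENNReal.ofReal_mul (by positivity)]
  congr 1
  ring

end Pool.Agent.SEP
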