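import Pool.Agent.SEPH.END
import Pool.Agent.MP_6cbfb8_an.Super

/-!
Row END3: superpositions of rotated densities.
-/

namespace Pool.Agent.SEP

open MeasureTheory Set Pool.Agent.MP_6cbfb8_an Polynomial
open scoped ENNReal Real

theorem sup_norm_seps {n N : ℕ} (f : Fin n → ℝ[X]) (g : Fin N → Fin n → ℝ[X]) (x : E n) :
    ‖seps f g x‖ ≤ 1 := by
  unfold seps
  rw [norm_mul, Complex.norm_exp_ofReal_mul_I, one_mul, norm_prod]
  refine Finset.prod_le_one (fun _ _ => norm_nonneg _) fun i _ => ?_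
  split_ifs <;> simp

/-- ROW END3. Superpositions of rotated densities. -/
theorem sep_super (n D N : ℕ) (hn : 3 ≤ n) (p : ℝ) (hp : 2 * (n : ℝ) / (n - 1) < p) :
    ∃ C : ℝ≥0∞, C ≠ ∞ ∧
      ∀ (W : Type) (_ : MeasurableSpace W) (ν : Measure W) (_ : IsFiniteMeasure ν)
        (R : W → (E n ≃ₗᵢ[ℝ] E n)) (f : W → Fin n → ℝ[X]) (g : W → Fin N → Fin n → ℝ[X]),
        (Measurable fun q : W × E n => R q.1 q.2) →
        (∀ j, Measurable fun q : W × ℝ => (f q.1 j).eval q.2) →
        (∀ i j, Measurable fun q : W × ℝ => (g q.1 i j).eval q.2) →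
        (∀ w j, (f w j).natDegree ≤ D) → (∀ w i j, (g w i j).natDegree ≤ D) →
        ∫⁻ ξ, ‖extn (fun x => ∫ w, seps (f w) (g w) (R w x) ∂ν) ξ‖ₑ ^ p ≤ C * ν univ ^ p := by
  obtain ⟨C, hC, h⟩ := sep_cut n D N hn p hp
  refine ⟨C, hC, ?_⟩
  intro W _ ν _ R f g hR hf hg hfd hgd
  have hn1 : (0 : ℝ) < n - 1 := by
    have : (3 : ℝ) ≤ n := by exact_mod_cast hn
    linarith
  have hp1 : 1 ≤ p := by
    have h1 : 1 ≤ 2 * (n : ℝ) / (n - 1) := by
      rw [le_div_iff₀ hn1]
      have : (3 : ℝ) ≤ n := by exact_mod_cast hn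
      linarith
    linarith
  have hmix : (fun x : E n => ∫ w, seps (f w) (g w) (R w x) ∂ν) =
      mix ν R (fun _ => 0) fun w => seps (f w) (g w) := by
    funext x
    unfold mix
    refine integral_congr_ae (Filter.Eventually.of_forall fun w => ?_)
    simp
  have hm : Measurable (Function.uncurry fun w => seps (f w) (g w)) := by
    unfold seps Function.uncurry
    have hc : ∀ j : Fin n, Measurable fun q : W × E n => (q.1, q.2 j) := fun j => by fun_prop
    have h1 : Measurable fun q : W × E n => ∑ j, (f q.1 j).eval (q.2 j) :=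
      Finset.measurable_sum _ fun j _ => (hf j).comp (hc j)
    have h2 : ∀ i, Measurable fun q : W × E n => ∑ j, (g q.1 i j).eval (q.2 j) := fun i =>
      Finset.measurable_sum _ fun j _ => (hg i j).comp (hc j)
    refine Measurable.mul ?_ (Finset.measurable_prod _ fun i _ => ?_)
    · exact Complex.measurable_exp.comp ((Complex.measurable_ofReal.comp h1).mul measurable_const)
    · exact Measurable.ite (measurableSet_lt measurable_const (h2 i)) measurable_const
        measurable_const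
  rw [hmix]
  refine lintegral_mix_le hp1 (fun a => ∃ (f' : Fin n → ℝ[X]) (g' : Fin N → Fin n → ℝ[X]),
    a = seps f' g' ∧ (∀ j, (f' j).natDegree ≤ D) ∧ ∀ i j, (g' i j).natDegree ≤ D) ?_ ν R
    (fun _ => 0) (fun w => seps (f w) (g w)) hR measurable_const hm
    (fun w x => sup_norm_seps _ _ x) fun w => ⟨f w, g w, rfl, hfd w, hgd w⟩
  rintro _ - - ⟨f', g', rfl, h1, h2⟩
  exact h f' g' h1 h2

end Pool.Agent.SEP
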