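import Pool.Agent.SEPH.Defs

/-!
Taylor's formula for polynomials; monotonicity between zeros.
-/

namespace Pool.Agent.SEP

open MeasureTheory Set Pool.Agent.MP_6cbfb8_an Polynomial
open scoped ENNReal Real

/-- Taylor's formula. -/
theorem taylor_eval0 (D : ℕ) (f : ℝ[X]) (hf : f.natDegree ≤ D) (z u : ℝ) :
    f.eval (z + u) =
      ∑ l ∈ Finset.range (D + 1), (derivative^[l] f).eval z * u ^ l / (l.factorial : ℝ) := by
  have h1 : f.eval (z + u) = (taylor z f).eval u := by
    rw [Polynomial.taylor_eval, add_comm]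
  rw [h1, eval_eq_sum_range' (n := D + 1) (by rw [natDegree_taylor]; omega)]
  refine Finset.sum_congr rfl fun l _ => ?_
  rw [taylor_coeff]
  have h3 : (l.factorial : ℝ) * (hasseDeriv l f).eval z = (derivative^[l] f).eval z := by
    have h2 := congrFun (factorial_smul_hasseDeriv (R := ℝ) l) f
    rw [← h2]
    simp
  rw [← h3]
  have : (l.factorial : ℝ) ≠ 0 := by positivity
  field_simp

/-- Taylor's formula. -/
theorem taylor_eval (D : ℕ) (f : ℝ[X]) (hf : f.natDegree ≤ D) (i : ℕ) (z u : ℝ) :
    (derivative^[i] f).eval (z + u) =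
      ∑ l ∈ Finset.range (D + 1), (derivative^[i + l] f).eval z * u ^ l / (l.factorial : ℝ) := by
  rw [taylor_eval0 D (derivative^[i] f)
    ((natDegree_iterate_derivative f i).trans (by omega)) z u]
  refine Finset.sum_congr rfl fun l _ => ?_
  rw [← Function.iterate_add_apply, add_comm l i]

/-- Derivatives of order larger than `D` vanish. -/
theorem deriv_zero (D : ℕ) (f : ℝ[X]) (hf : f.natDegree ≤ D) (i : ℕ) (hi : D < i) (z : ℝ) :
    (derivative^[i] f).eval z = 0 := by
  rw [iterate_derivative_eq_zero (hf.trans_lt hi)]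
  simp

/-- No zero between two points with equal counts. -/
theorem no_root (g : ℝ[X]) (hg : g ≠ 0) (x1 x2 x : ℝ)
    (hc : (g.roots.toFinset.filter (· < x1)).card = (g.roots.toFinset.filter (· < x2)).card)
    (h1 : x1 < x) (h2 : x < x2) : g.eval x ≠ 0 := by
  intro h0
  have hsub : g.roots.toFinset.filter (· < x1) ⊆ g.roots.toFinset.filter (· < x2) := by
    intro r hr
    rw [Finset.mem_filter] at hr ⊢
    exact ⟨hr.1, hr.2.trans (h1.trans h2)⟩
  have heq := Finset.eq_of_subset_of_card_le hsub hc.ge
  have hx : x ∈ g.roots.toFinset.filter (· < x2) := by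
    rw [Finset.mem_filter, Multiset.mem_toFinset, mem_roots hg]
    exact ⟨h0, h2⟩
  rw [← heq, Finset.mem_filter] at hx
  exact absurd hx.2 (not_lt.2 h1.le)

theorem hasDerivAt_yc (f : ℝ[X]) (w x : ℝ) :
    HasDerivAt (fun x => yc f x w) ((derivative^[2] f).eval x - 2 * w) x := by
  have h1 : HasDerivAt (fun x => (derivative f).eval x) ((derivative (derivative f)).eval x) x :=
    (derivative f).hasDerivAt x
  have h2 : HasDerivAt (fun x : ℝ => 2 * w * x) (2 * w) x := by
    simpa using (hasDerivAt_id x).const_mul (2 * w)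
  exact h1.sub h2

/-- Between two points with equal counts the second derivative is monotone. -/
theorem mono_or (f : ℝ[X]) (x1 x2 : ℝ)
    (hc : ((derivative^[3] f).roots.toFinset.filter (· < x1)).card =
      ((derivative^[3] f).roots.toFinset.filter (· < x2)).card) :
    MonotoneOn (fun x => (derivative^[2] f).eval x) (Icc x1 x2) ∨
      AntitoneOn (fun x => (derivative^[2] f).eval x) (Icc x1 x2) := by
  have hd : ∀ x, HasDerivAt (fun x => (derivative^[2] f).eval x) ((derivative^[3] f).eval x) x :=
    fun x => by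
      have := (derivative^[2] f).hasDerivAt x
      rwa [← Function.iterate_succ_apply' derivative 2 f] at this
  have hcont : ContinuousOn (fun x => (derivative^[2] f).eval x) (Icc x1 x2) :=
    (derivative^[2] f).continuous.continuousOn
  by_cases hg : derivative^[3] f = 0
  · left
    refine monotoneOn_of_deriv_nonneg (convex_Icc _ _) hcont
      (fun x _ => (hd x).differentiableAt.differentiableWithinAt) fun x _ => ?_
    rw [(hd x).deriv, hg]
    simp
  · have hne : ∀ x ∈ Ioo x1 x2, (derivative^[3] f).eval x ≠ 0 := fun x hx =>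
      no_root _ hg x1 x2 x hc hx.1 hx.2
    have hs : (∀ x ∈ Ioo x1 x2, 0 < (derivative^[3] f).eval x) ∨
        ∀ x ∈ Ioo x1 x2, (derivative^[3] f).eval x < 0 := by
      by_contra hcon
      push Not at hcon
      obtain ⟨⟨a, ha, ha0⟩, b, hb, hb0⟩ := hcon
      have hIoo : IsPreconnected (Ioo x1 x2) := isPreconnected_Ioo
      have h1 := hIoo.intermediate_value ha hb
        ((derivative^[3] f).continuous.continuousOn (s := Ioo x1 x2))
      have h2 : (0 : ℝ) ∈ Icc ((derivative^[3] f).eval a) ((derivative^[3] f).eval b) :=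
        ⟨ha0, hb0⟩
      obtain ⟨c, hc1, hc2⟩ := h1 h2
      exact hne c hc1 hc2
    rcases hs with hs | hs
    · left
      refine monotoneOn_of_deriv_nonneg (convex_Icc _ _) hcont
        (fun x _ => (hd x).differentiableAt.differentiableWithinAt) fun x hx => ?_
      rw [(hd x).deriv]
      rw [interior_Icc] at hx
      exact (hs x hx).le
    · right
      refine antitoneOn_of_deriv_nonpos (convex_Icc _ _) hcont
        (fun x _ => (hd x).differentiableAt.differentiableWithinAt) fun x hx => ?_
      rw [(hd x).deriv]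
      rw [interior_Icc] at hx
      exact (hs x hx).le

/-- The average of `f'' - 2w` between two points with equal counts is between the endpoint
values. -/
theorem avg (f : ℝ[X]) (x1 x2 w lo hi : ℝ) (h12 : x1 ≤ x2)
    (hc : ((derivative^[3] f).roots.toFinset.filter (· < x1)).card =
      ((derivative^[3] f).roots.toFinset.filter (· < x2)).card)
    (h1 : lo ≤ (derivative^[2] f).eval x1 - 2 * w) (h1' : (derivative^[2] f).eval x1 - 2 * w ≤ hi)
    (h2 : lo ≤ (derivative^[2] f).eval x2 - 2 * w) (h2' : (derivative^[2] f).eval x2 - 2 * w ≤ hi) :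
    lo * (x2 - x1) ≤ yc f x2 w - yc f x1 w ∧ yc f x2 w - yc f x1 w ≤ hi * (x2 - x1) := by
  have hb : ∀ x ∈ Icc x1 x2, lo ≤ (derivative^[2] f).eval x - 2 * w ∧
      (derivative^[2] f).eval x - 2 * w ≤ hi := by
    intro x hx
    have hx1 : x1 ∈ Icc x1 x2 := ⟨le_rfl, h12⟩
    have hx2 : x2 ∈ Icc x1 x2 := ⟨h12, le_rfl⟩
    rcases mono_or f x1 x2 hc with hm | hm
    · have e1 := hm hx1 hx hx.1
      have e2 := hm hx hx2 hx.2
      simp only at e1 e2
      constructor <;> linarith
    · have e1 := hm hx1 hx hx.1
      have e2 := hm hx hx2 hx.2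
      simp only at e1 e2
      constructor <;> linarith
  have hdiff : Differentiable ℝ fun x => yc f x w := fun x => (hasDerivAt_yc f w x).differentiableAt
  have hcont : ContinuousOn (fun x => yc f x w) (Icc x1 x2) := hdiff.continuous.continuousOn
  constructor
  · exact (convex_Icc x1 x2).mul_sub_le_image_sub_of_le_deriv hcont hdiff.differentiableOn
      (fun x hx => by
        rw [(hasDerivAt_yc f w x).deriv]
        exact (hb x (interior_subset hx)).1) x1 ⟨le_rfl, h12⟩ x2 ⟨h12, le_rfl⟩ h12
  · exact (convex_Icc x1 x2).image_sub_le_mul_sub_of_deriv_le hcont hdiff.differentiableOn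
      (fun x hx => by
        rw [(hasDerivAt_yc f w x).deriv]
        exact (hb x (interior_subset hx)).2) x1 ⟨le_rfl, h12⟩ x2 ⟨h12, le_rfl⟩ h12

end Pool.Agent.SEP
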